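import Mathlib

set_option autoImplicit false
open Filter Topology

namespace Pool.Agent.Lib.helper12.Conj

section Ball
variable {G : Type} [Group G]

def ball (S : Finset G) (n : ℕ) : Set G :=
  {g : G | ∃ l : List G, l.length ≤ n ∧ (∀ x ∈ l, x ∈ S ∨ x⁻¹ ∈ S) ∧ l.prod = g}

def Gen (S : Finset G) (s : G) : Prop := s = 1 ∨ s ∈ S ∨ s⁻¹ ∈ S

lemma ball_zero (S : Finset G) : ball S 0 = {1} := by
  ext g
  constructor
  · rintro ⟨l, h, -, rfl⟩
    rw [List.length_eq_zero_iff.1 (Nat.le_zero.1 h)]; rfl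
  · rintro rfl; exact ⟨[], le_rfl, by simp, rfl⟩

lemma ball_succ {S : Finset G} {n : ℕ} {g : G} :
    g ∈ ball S (n + 1) ↔ ∃ s h, Gen S s ∧ h ∈ ball S n ∧ g = s * h := by
  constructor
  · rintro ⟨l, h1, h2, rfl⟩
    cases l with
    | nil => exact ⟨1, 1, Or.inl rfl, ⟨[], by simp, by simp, rfl⟩, by simp⟩
    | cons s l =>
      exact ⟨s, l.prod, Or.inr (h2 s List.mem_cons_self), ⟨l, by simpa using h1,
        fun x hx => h2 x (List.mem_cons_of_mem _ hx), rfl⟩, by simp⟩
  · rintro ⟨s, _, hs, ⟨l, h1, h2, rfl⟩, rfl⟩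
    rcases hs with rfl | hs
    · exact ⟨l, by omega, h2, by simp⟩
    · exact ⟨s :: l, by simpa using h1, List.forall_mem_cons.2 ⟨hs, h2⟩, by simp⟩

lemma ball_mono {S : Finset G} {m n : ℕ} (h : m ≤ n) : ball S m ⊆ ball S n := by
  rintro _ ⟨l, h1, h2, rfl⟩
  exact ⟨l, h1.trans h, h2, rfl⟩

lemma ball_mul {S : Finset G} {m n : ℕ} {g h : G} (hg : g ∈ ball S m) (hh : h ∈ ball S n) :
    g * h ∈ ball S (m + n) := by
  obtain ⟨l, a1, a2, rfl⟩ := hg
  obtain ⟨l', b1, b2, rfl⟩ := hh
  refine ⟨l ++ l', by simp; omega, fun s hs => ?_, by simp⟩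
  rcases List.mem_append.1 hs with h | h
  exacts [a2 s h, b2 s h]

lemma ball_gen {S : Finset G} {s : G} (hs : s ∈ S) : s ∈ ball S 1 :=
  ⟨[s], by simp, by simp [hs], by simp⟩

lemma ball_fin_card (S : Finset G) (n : ℕ) :
    (ball S n).Finite ∧ (ball S n).ncard ≤ (2 * S.card + 1) ^ n := by
  classical
  induction n with
  | zero => simp [ball_zero]
  | succ n ih =>
    let S' := insert 1 (S ∪ S.image fun s => s⁻¹)
    have h1 : ball S (n + 1) ⊆ Set.image2 (· * ·) (S' : Set G) (ball S n) := by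
      intro g hg
      obtain ⟨s, h, hs, hh, rfl⟩ := ball_succ.1 hg
      refine ⟨s, ?_, h, hh, rfl⟩
      rcases hs with rfl | hs | hs
      · simp [S']
      · simp [S', hs]
      · exact Finset.mem_insert_of_mem (Finset.mem_union_right _
          (Finset.mem_image.2 ⟨_, hs, inv_inv s⟩))
    have h2 : S'.card ≤ 2 * S.card + 1 := by
      refine (Finset.card_insert_le _ _).trans ?_
      have := Finset.card_union_le S (S.image fun s => s⁻¹)
      have := Finset.card_image_le (s := S) (f := fun s => s⁻¹)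
      omega
    have h3 := S'.finite_toSet.image2 (· * ·) ih.1
    refine ⟨h3.subset h1, (Set.ncard_le_ncard h1 h3).trans ?_⟩
    rw [← Set.image_uncurry_prod]
    refine (Set.ncard_image_le (S'.finite_toSet.prod ih.1)).trans ?_
    rw [Set.ncard_prod, Set.ncard_coe_finset, pow_succ']
    exact Nat.mul_le_mul h2 ih.2

lemma ball_fin (S : Finset G) (n : ℕ) : (ball S n).Finite := (ball_fin_card S n).1

end Ball

noncomputable def rate (a : ℕ → ℕ) : ℝ := limsup (fun n : ℕ => (a n : ℝ) ^ ((1 : ℝ) / (n : ℝ))) atTop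

lemma tend (C r : ℝ) (hC : 0 < C) (hr : 0 < r) :
    Tendsto (fun n : ℕ => (C * r ^ n) ^ ((1 : ℝ) / (n : ℝ))) atTop (𝓝 r) := by
  have h1 : Tendsto (fun n : ℕ => C ^ ((1 : ℝ) / (n : ℝ)) * r) atTop (𝓝 (C ^ (0 : ℝ) * r)) :=
    (tendsto_const_nhds.rpow tendsto_one_div_atTop_nhds_zero_nat (Or.inl hC.ne')).mul_const r
  rw [Real.rpow_zero, one_mul] at h1
  refine h1.congr' ?_
  filter_upwards [eventually_ge_atTop 1] with n hn
  rw [Real.mul_rpow hC.le (by positivity), one_div, Real.pow_rpow_inv_natCast hr.le (by omega)]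

lemma rate_le (a : ℕ → ℕ) (C r : ℝ) (hC : 0 < C) (hr : 0 < r) (h : ∀ n, (a n : ℝ) ≤ C * r ^ n) :
    rate a ≤ r := by
  rw [← (tend C r hC hr).limsup_eq]
  refine limsup_le_limsup (Eventually.of_forall fun n => ?_)
    (isCoboundedUnder_le_of_le atTop (x := 0) fun n => by positivity)
    (tend C r hC hr).isBoundedUnder_le
  exact Real.rpow_le_rpow (by positivity) (h n) (by positivity)

lemma le_rate (a : ℕ → ℕ) (C r R : ℝ) (hC : 0 < C) (hr : 0 < r) (hR : 0 < R)
    (h : ∀ n, C * r ^ n ≤ (a n : ℝ)) (h' : ∀ n, (a n : ℝ) ≤ R ^ n) : r ≤ rate a := by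
  rw [← (tend C r hC hr).limsup_eq]
  refine limsup_le_limsup (Eventually.of_forall fun n => ?_)
    (isCoboundedUnder_le_of_le atTop (x := 0) fun n => by positivity)
    ((tend 1 R one_pos hR).isBoundedUnder_le.mono_le (Eventually.of_forall fun n => ?_))
  · exact Real.rpow_le_rpow (by positivity) (h n) (by positivity)
  · exact Real.rpow_le_rpow (by positivity) (by simpa using h' n) (by positivity)

lemma poly (k : ℕ) {t : ℝ} (ht : 1 < t) : ∃ C : ℝ, 0 < C ∧ ∀ n : ℕ, ((n : ℝ) + 1) ^ k ≤ C * t ^ n := by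
  obtain ⟨C, hC⟩ := (tendsto_pow_const_div_const_pow_of_one_lt k ht).bddAbove_range
  refine ⟨(|C| + 1) * t, by positivity, fun n => ?_⟩
  have h1 : ((n + 1 : ℕ) : ℝ) ^ k / t ^ (n + 1) ≤ C := hC ⟨n + 1, rfl⟩
  rw [div_le_iff₀ (by positivity)] at h1
  push_cast at h1
  have h2 : C ≤ |C| + 1 := by linarith [le_abs_self C]
  calc _ ≤ C * t ^ (n + 1) := h1
    _ ≤ (|C| + 1) * t ^ (n + 1) := by gcongr
    _ = _ := by ring

/-! ### The lamplighter group -/

@[ext] structure LL (K : Type) [AddCommGroup K] where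
  f : ℤ →₀ K
  k : ℤ

variable {K : Type} [AddCommGroup K]

noncomputable def sh (a : ℤ) (f : ℤ →₀ K) : ℤ →₀ K := f.mapDomain (· + a)

lemma sh_add (a : ℤ) (f g : ℤ →₀ K) : sh a (f + g) = sh a f + sh a g := Finsupp.mapDomain_add
lemma sh_sh (a b : ℤ) (f : ℤ →₀ K) : sh a (sh b f) = sh (a + b) f := by
  unfold sh
  rw [← Finsupp.mapDomain_comp]; congr 1; funext x; simp only [Function.comp]; ring
lemma sh_zero (f : ℤ →₀ K) : sh 0 f = f := by
  unfold sh; simp only [add_zero]; exact Finsupp.mapDomain_id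
lemma sh_zero' (a : ℤ) : sh a (0 : ℤ →₀ K) = 0 := Finsupp.mapDomain_zero
lemma sh_single (a i : ℤ) (c : K) : sh a (Finsupp.single i c) = Finsupp.single (i + a) c :=
  Finsupp.mapDomain_single
lemma sh_apply (a i : ℤ) (f : ℤ →₀ K) : sh a f i = f (i - a) := by
  have := Finsupp.mapDomain_apply (add_left_injective a) f (i - a)
  rwa [sub_add_cancel] at this

noncomputable instance : Mul (LL K) := ⟨fun g h => ⟨g.f + sh g.k h.f, g.k + h.k⟩⟩
instance : One (LL K) := ⟨⟨0, 0⟩⟩
noncomputable instance : Inv (LL K) := ⟨fun g => ⟨-sh (-g.k) g.f, -g.k⟩⟩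

lemma mul_f (g h : LL K) : (g * h).f = g.f + sh g.k h.f := rfl
lemma mul_k (g h : LL K) : (g * h).k = g.k + h.k := rfl

noncomputable instance : Group (LL K) := Group.ofLeftAxioms
  (fun a b c => by ext1 <;> simp only [mul_f, mul_k, sh_add, sh_sh, add_assoc])
  (fun a => by
    ext1
    · change 0 + sh 0 a.f = _; rw [sh_zero, zero_add]
    · exact zero_add _)
  (fun a => by
    ext1
    · exact neg_add_cancel _
    · exact neg_add_cancel _)

noncomputable def sw (c : K × K) : LL K := ⟨Finsupp.single 0 c.1 + Finsupp.single 1 c.2, 1⟩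

open Classical in
noncomputable def SB (K : Type) [AddCommGroup K] [Fintype K] : Finset (LL K) :=
  Finset.univ.image sw

variable [Fintype K]

lemma sw_mem (c : K × K) : sw c ∈ SB K := by simp [SB]

lemma SB_gen : Subgroup.closure (SB K : Set (LL K)) = ⊤ := by
  set H := Subgroup.closure (SB K : Set (LL K))
  have h0 : ∀ c, sw c ∈ H := fun c => Subgroup.subset_closure (sw_mem c)
  have h1 : ∀ k : ℤ, (⟨0, k⟩ : LL K) ∈ H := by
    intro k
    have e : ∀ k : ℤ, (⟨0, k + 1⟩ : LL K) = ⟨0, k⟩ * sw (0, 0) := fun k => by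
      ext1 <;> simp [mul_f, mul_k, sw, sh_zero']
    induction k using Int.induction_on with
    | zero => exact H.one_mem
    | succ k ih => rw [e]; exact H.mul_mem ih (h0 _)
    | pred k ih =>
      have := e (-k - 1)
      rw [sub_add_cancel] at this
      rw [eq_mul_inv_of_mul_eq this.symm]
      exact H.mul_mem ih (H.inv_mem (h0 _))
  have h2 : ∀ f, (⟨f, 0⟩ : LL K) ∈ H := by
    intro f
    induction f using Finsupp.induction_linear with
    | zero => exact H.one_mem
    | add f g hf hg =>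
      have : (⟨f + g, 0⟩ : LL K) = ⟨f, 0⟩ * ⟨g, 0⟩ := by ext1 <;> simp [mul_f, mul_k, sh_zero]
      rw [this]; exact H.mul_mem hf hg
    | single a c =>
      have : (⟨Finsupp.single a c, 0⟩ : LL K) = ⟨0, a⟩ * sw (c, 0) * ⟨0, -a - 1⟩ := by
        ext1 <;> simp [mul_f, mul_k, sw, sh_zero', sh_single]
      rw [this]; exact H.mul_mem (H.mul_mem (h1 _) (h0 _)) (h1 _)
  rw [eq_top_iff]
  rintro ⟨f, k⟩ -
  have : (⟨f, k⟩ : LL K) = ⟨f, 0⟩ * ⟨0, k⟩ := by ext1 <;> simp [mul_f, mul_k, sh_zero']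
  rw [this]; exact H.mul_mem (h2 _) (h1 _)

lemma B_struct (n : ℕ) : ∀ g ∈ ball (SB K) n, ∃ lo : ℤ, -n ≤ lo ∧ lo ≤ 0 ∧ |g.k| ≤ n ∧
    ∀ i, g.f i ≠ 0 → lo ≤ i ∧ i ≤ lo + n := by
  induction n with
  | zero =>
    intro g hg
    rw [ball_zero] at hg
    subst hg
    exact ⟨0, by simp, le_rfl, le_rfl, fun i hi => absurd rfl hi⟩
  | succ n ih =>
    intro g hg
    obtain ⟨s, h, hs, hh, rfl⟩ := ball_succ.1 hg
    obtain ⟨lo, a1, a2, a3, a4⟩ := ih h hh
    rw [abs_le] at a3
    rcases hs with rfl | hs | hs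
    · rw [one_mul]
      refine ⟨lo, by push_cast; omega, a2, abs_le.2 (by push_cast; omega), fun i hi => ?_⟩
      have := a4 i hi
      push_cast; omega
    · obtain ⟨c, rfl⟩ : ∃ c, sw c = s := by simpa [SB] using hs
      refine ⟨lo, by push_cast; omega, a2, abs_le.2 (by simp only [mul_k, sw]; push_cast; omega),
        fun i hi => ?_⟩
      by_contra hc
      apply hi
      have b1 : h.f (i - 1) = 0 := by
        by_contra h0; have := a4 _ h0; push_cast at hc; omega
      have b2 : i ≠ 0 := by push_cast at hc; omega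
      have b3 : i ≠ 1 := by push_cast at hc; omega
      simp [mul_f, sw, sh_apply, b1, b2, b3]
    · obtain ⟨c, hc⟩ : ∃ c, sw c = s⁻¹ := by simpa [SB] using hs
      obtain rfl : s = (sw c)⁻¹ := by rw [hc, inv_inv]
      have e1 : ((sw c)⁻¹ * h).k = -1 + h.k := rfl
      have e2 : ((sw c)⁻¹ * h).f = -sh (-1) (sw c).f + sh (-1) h.f := rfl
      refine ⟨lo - 1, by push_cast; omega, by omega, abs_le.2 (by rw [e1]; push_cast; omega),
        fun i hi => ?_⟩
      by_contra hc
      apply hi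
      have b1 : h.f (i + 1) = 0 := by
        by_contra h0; have := a4 _ h0; push_cast at hc; omega
      have b2 : i + 1 ≠ 0 := by push_cast at hc; omega
      have b3 : i ≠ 0 := by push_cast at hc; omega
      rw [e2]
      simp [sw, sh_apply, b1, b2, b3]

lemma B_upper (n : ℕ) :
    (ball (SB K) n).ncard ≤ (2 * n + 1) * (2 * n + 1) * Fintype.card K ^ (n + 1) := by
  classical
  have h : ∀ g : LL K, ∃ lo : ℤ, g ∈ ball (SB K) n → -n ≤ lo ∧ lo ≤ 0 ∧ |g.k| ≤ n ∧
      ∀ i, g.f i ≠ 0 → lo ≤ i ∧ i ≤ lo + n := by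
    intro g
    by_cases hg : g ∈ ball (SB K) n
    · obtain ⟨lo, h⟩ := B_struct n g hg
      exact ⟨lo, fun _ => h⟩
    · exact ⟨0, fun e => absurd e hg⟩
  choose lo h using h
  let T : Finset ((ℤ × ℤ) × (Fin (n + 1) → K)) :=
    (Finset.Icc (-(n : ℤ)) n ×ˢ Finset.Icc (-(n : ℤ)) n) ×ˢ Finset.univ
  have := Set.ncard_le_ncard_of_injOn (s := ball (SB K) n) (t := (T : Set _))
    (fun g => ((lo g, g.k), fun i : Fin (n + 1) => g.f (lo g + (i : ℕ)))) (fun g hg => by
      obtain ⟨a1, a2, a3, -⟩ := h g hg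
      rw [abs_le] at a3
      simp only [T, Finset.coe_product, Set.mem_prod, Finset.coe_Icc, Set.mem_Icc, Finset.coe_univ,
        Set.mem_univ, and_true]
      omega) (fun g hg g' hg' e => by
      simp only [Prod.mk.injEq] at e
      obtain ⟨⟨e1, e2⟩, e3⟩ := e
      refine LL.ext (Finsupp.ext fun i => ?_) e2
      by_cases hi : lo g ≤ i ∧ i ≤ lo g + n
      · have := congrFun e3 ⟨(i - lo g).toNat, by omega⟩
        simp only at this
        rwa [← e1, show lo g + ((i - lo g).toNat : ℤ) = i by omega] at this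
      · have b1 : g.f i = 0 := by by_contra h0; exact hi ((h g hg).2.2.2 i h0)
        have b2 : g'.f i = 0 := by by_contra h0; exact hi (e1 ▸ (h g' hg').2.2.2 i h0)
        rw [b1, b2]) T.finite_toSet
  refine this.trans (le_of_eq ?_)
  rw [Set.ncard_coe_finset]
  simp only [T, Finset.card_product, Int.card_Icc, Finset.card_univ, Fintype.card_fun,
    Fintype.card_fin]
  congr 2 <;> omega

lemma B_elt (m : ℕ) (c : ℕ → K) :
    (⟨∑ i ∈ Finset.range m, Finsupp.single (i : ℤ) (c i), m⟩ : LL K) ∈ ball (SB K) m := by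
  induction m with
  | zero => rw [ball_zero]; rfl
  | succ m ih =>
    have := ball_mul ih (ball_gen (sw_mem (c m, 0)))
    convert this using 1
    ext1 <;> simp [mul_f, mul_k, sw, sh_single, Finset.sum_range_succ]

lemma B_lower (n : ℕ) :
    Fintype.card K ^ n ≤ (n + 1) * (ConjClasses.mk '' ball (SB K) n).ncard := by
  classical
  have hfin := (ball_fin (SB K) n).image ConjClasses.mk
  rcases Nat.eq_zero_or_pos n with rfl | hn
  · have := (Set.ncard_pos hfin).2 ⟨_, 1, by simp [ball_zero], rfl⟩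
    simp only [pow_zero]; omega
  have : NeZero n := ⟨hn.ne'⟩
  let g : (ZMod n → K) → LL K := fun F =>
    ⟨∑ i ∈ Finset.range n, Finsupp.single (i : ℤ) (F i), n⟩
  let π : (ℤ →₀ K) →+ (ZMod n →₀ K) := Finsupp.mapDomain.addMonoidHom fun i : ℤ => (i : ZMod n)
  have hπ : ∀ (a : ℤ) f r, π (sh a f) r = π f (r - a) := by
    intro a f r
    have h1 := Finsupp.mapDomain_apply (add_left_injective (a : ZMod n)) (π f) (r - a)
    rw [sub_add_cancel] at h1
    rw [← h1]
    change Finsupp.mapDomain _ (Finsupp.mapDomain _ f) r =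
      Finsupp.mapDomain _ (Finsupp.mapDomain _ f) r
    rw [← Finsupp.mapDomain_comp, ← Finsupp.mapDomain_comp]
    congr 2; funext x; simp
  have hg : ∀ F r, π (g F).f r = F r := by
    intro F r
    simp only [g, map_sum, π, Finsupp.mapDomain.addMonoidHom_apply, Finsupp.mapDomain_single,
      Finsupp.finsetSum_apply, Int.cast_natCast]
    rw [Finset.sum_eq_single r.val]
    · simp
    · intro b hb hne
      refine Finsupp.single_eq_of_ne fun e => hne ?_
      rw [e, ZMod.val_cast_of_lt (Finset.mem_range.1 hb)]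
    · exact fun h => absurd (Finset.mem_range.2 r.val_lt) h
  have h1 := Finset.card_le_mul_card_image (f := fun F => ConjClasses.mk (g F)) Finset.univ n
    (fun b hb => by
      obtain ⟨F0, -, rfl⟩ := Finset.mem_image.1 hb
      refine le_trans (Finset.card_le_card (t := Finset.univ.image fun a : ZMod n =>
        fun r => F0 (r - a)) fun F hF => ?_) (Finset.card_image_le.trans (by simp))
      obtain ⟨c, hc⟩ := isConj_iff.1 (ConjClasses.mk_eq_mk_iff_isConj.1
        (Finset.mem_filter.1 hF).2.symm)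
      rw [mul_inv_eq_iff_eq_mul] at hc
      refine Finset.mem_image.2 ⟨c.k, Finset.mem_univ _, funext fun r => ?_⟩
      have h2 := congrArg (fun t : LL K => π t.f r) hc
      simp only [mul_f, map_add, Finsupp.add_apply, hπ, hg] at h2
      simp only [g, Int.cast_natCast, ZMod.natCast_self, sub_zero] at h2
      rw [add_comm] at h2
      exact add_right_cancel h2)
  rw [Finset.card_univ, Fintype.card_fun, ZMod.card] at h1
  refine h1.trans (Nat.mul_le_mul (by omega) ?_)
  rw [← Set.ncard_coe_finset]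
  refine Set.ncard_le_ncard (fun b hb => ?_) hfin
  obtain ⟨F, -, rfl⟩ := Finset.mem_image.1 hb
  exact ⟨_, B_elt n fun i => F i, rfl⟩

end Pool.Agent.Lib.helper12.Conj
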