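import Mathlib
import Pool.Agent.Lib.helper12.AltA
import Pool.Agent.Lib.helper12.ConjB

set_option autoImplicit false
open Filter Topology

namespace Pool.Agent.Lib.helper12.Alt
open Pool.Agent.Lib.helper12.Conj

def rt (σ : Fin 5 → Fin 5) : V → V
  | [] => []
  | i :: v => σ i :: v

def Rt (σ : Equiv.Perm (Fin 5)) : P :=
  ⟨rt σ, rt σ.symm, fun v => by cases v <;> simp [rt], fun v => by cases v <;> simp [rt]⟩

def Wr (F : Fin 5 → P) (σ : Equiv.Perm (Fin 5)) : P := Tup F * Rt σ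

lemma Wr_mul (F F' : Fin 5 → P) (σ σ' : Equiv.Perm (Fin 5)) :
    Wr F σ * Wr F' σ' = Wr (fun p => F p * F' (σ⁻¹ p)) (σ * σ') :=
  Equiv.ext fun v => by
    cases v with
    | nil => rfl
    | cons i v =>
      change σ (σ' i) :: F (σ (σ' i)) (F' (σ' i) v) =
        σ (σ' i) :: F (σ (σ' i)) (F' (σ⁻¹ (σ (σ' i))) v)
      simp

def Ye (e : Bool) : P := if e then Y else Y⁻¹
def ye (e : Bool) : Equiv.Perm (Fin 5) := if e then yp else yp⁻¹

lemma X_Wr : X = Wr (fun p => if p = 4 then X else 1) xp :=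
  Equiv.ext fun v => by
    cases v with
    | nil => rfl
    | cons i v => fin_cases i <;> rfl

lemma Y_Wr (e : Bool) : Ye e = Wr (fun p => if p = 1 then Ye e else 1) (ye e) :=
  Equiv.ext fun v => by
    cases v with
    | nil => cases e <;> rfl
    | cons i v => cases e <;> fin_cases i <;> rfl

def T (b : Bool) (u : P) : Prop := u = 1 ∨ if b then u = X else ∃ e, u = Ye e

lemma Ye_mul (e e' : Bool) : Ye e * Ye e' = 1 ∨ ∃ e'', Ye e * Ye e' = Ye e'' := by
  cases e <;> cases e'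
  · exact Or.inr ⟨true, by
      change Y⁻¹ * Y⁻¹ = Y
      rw [← mul_inv_rev, ← Yi, inv_inv]⟩
  · exact Or.inl (inv_mul_cancel Y)
  · exact Or.inl (mul_inv_cancel Y)
  · exact Or.inr ⟨false, Yi.symm⟩

lemma T_mul {b : Bool} {u u' : P} (h : T b u) (h' : T b u') : T b (u * u') := by
  rcases h with rfl | h
  · rwa [one_mul]
  rcases h' with rfl | h'
  · rw [mul_one]; exact Or.inr h
  cases b
  · obtain ⟨e, rfl⟩ := h
    obtain ⟨e', rfl⟩ := h'
    exact Ye_mul e e'
  · obtain rfl : u = X := h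
    obtain rfl : u' = X := h'
    exact Or.inl XX

lemma T_gen {b : Bool} {u : P} (h : T b u) : Gen S u := by
  rcases h with rfl | h
  · exact Or.inl rfl
  cases b
  · obtain ⟨e, rfl⟩ := h
    cases e <;> simp [Gen, S, Ye]
  · obtain rfl : u = X := h
    simp [Gen, S]

lemma gen_T {u : P} (h : Gen S u) : u = 1 ∨ u = X ∨ ∃ e, u = Ye e := by
  rcases h with h | h | h
  · exact Or.inl h
  · rcases (by simpa [S] using h : u = X ∨ u = Y) with h | h
    exacts [Or.inr (Or.inl h), Or.inr (Or.inr ⟨true, h⟩)]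
  · rcases (by simpa [S] using h : u⁻¹ = X ∨ u⁻¹ = Y) with h | h
    · exact Or.inr (Or.inl (by rw [← inv_inv u, h]; exact inv_eq_of_mul_eq_one_left XX))
    · exact Or.inr (Or.inr ⟨false, by rw [← inv_inv u, h]; rfl⟩)

def Iv (h : P) (τ : Fin 5 → Bool) (m : ℕ) : Prop :=
  ∃ (σ : Equiv.Perm (Fin 5)) (F : Fin 5 → P) (c : Fin 5 → ℕ), ∑ p, c p ≤ m ∧ h = Wr F σ ∧
    ∀ p, ∃ u r, T (τ p) u ∧ r ∈ ball S (c p) ∧ F p = u * r

def nx (π : Equiv.Perm (Fin 5)) (q : Fin 5) (b : Bool) (τ : Fin 5 → Bool) : Fin 5 → Bool :=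
  fun p => if p = q then b else τ (π⁻¹ p)

lemma Iv_step {h z : P} {τ : Fin 5 → Bool} {m : ℕ} {π : Equiv.Perm (Fin 5)} {q : Fin 5} {b : Bool}
    (hq : π⁻¹ q = q) (hz : T b z) (hi : Iv h τ m) :
    Iv (Wr (fun p => if p = q then z else 1) π * h) (nx π q b τ) (m + if τ q = b then 0 else 1) := by
  obtain ⟨σ, F, c, h1, rfl, h2⟩ := hi
  refine ⟨π * σ, _, fun p => c (π⁻¹ p) + if p = q then (if τ q = b then 0 else 1) else 0, ?_,
    Wr_mul _ _ _ _, fun p => ?_⟩
  · rw [Finset.sum_add_distrib, Equiv.sum_comp π⁻¹ c]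
    simpa using h1
  · obtain ⟨u, r, a1, a2, a3⟩ := h2 (π⁻¹ p)
    by_cases hp : p = q
    · subst hp
      rw [hq] at a1 a2 a3
      simp only [nx, if_true, hq, a3]
      split_ifs with hb
      · exact ⟨z * u, r, T_mul hz (hb ▸ a1), a2, (mul_assoc _ _ _).symm⟩
      · exact ⟨z, u * r, hz, ball_succ.2 ⟨u, r, T_gen a1, a2, rfl⟩, rfl⟩
    · simp only [nx, hp, if_false, one_mul, add_zero]
      exact ⟨u, r, a1, a2, a3⟩

def gg : List Bool → P
  | [] => 1
  | e :: l => Ye e * (X * gg l)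

def st (e : Bool) (τ : Fin 5 → Bool) : Fin 5 → Bool := nx (ye e) 1 false (nx xp 4 true τ)

def tau : List Bool → Fin 5 → Bool
  | [] => fun _ => true
  | e :: l => st e (tau l)

def mu (τ : Fin 5 → Bool) : ℕ := (if τ 4 = true then 1 else 0) + (if τ 0 = false then 1 else 0)

def NN : List Bool → ℕ
  | [] => 0
  | e :: l => NN l + mu (tau (e :: l))

lemma gg_Iv (l : List Bool) : ∃ m, m + NN l ≤ 2 * l.length + mu (tau l) ∧ Iv (gg l) (tau l) m := by
  induction l with
  | nil =>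
    refine ⟨0, by simp [NN], 1, 1, 0, by simp, Equiv.ext fun v => by cases v <;> rfl, fun p =>
      ⟨1, 1, Or.inl rfl, by simp [ball_zero], by simp⟩⟩
  | cons e l ih =>
    obtain ⟨m, h1, h2⟩ := ih
    have h3 := Iv_step (π := xp) (q := 4) (b := true) (z := X) (by decide) (Or.inr rfl) h2
    rw [← X_Wr] at h3
    have h4 := Iv_step (π := ye e) (q := 1) (b := false) (z := Ye e) (by revert e; decide)
      (Or.inr ⟨e, rfl⟩) h3
    rw [← Y_Wr] at h4
    refine ⟨_, ?_, h4⟩
    have : nx xp 4 true (tau l) 1 = tau l 0 := rfl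
    rw [this]
    simp only [NN, List.length_cons]
    unfold mu at h1
    split_ifs at h1 ⊢ <;> omega

lemma mu_st (τ : Fin 5 → Bool) : 1 ≤ mu (st true τ) ∨ 1 ≤ mu (st false τ) := by
  have h1 : st true τ 4 = τ 3 := rfl
  have h2 : st false τ 0 = τ 3 := rfl
  unfold mu
  rw [h1, h2]
  cases τ 3 <;> simp

def ls : ℕ → List (List Bool)
  | 0 => [[]]
  | k + 1 => (ls k).map (true :: ·) ++ (ls k).map (false :: ·)

lemma mem_ls (l : List Bool) : l ∈ ls l.length := by
  induction l with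
  | nil => simp [ls]
  | cons e l ih => cases e <;> simp [ls, ih]

lemma sum_ls {t : ℝ} (h0 : 0 ≤ t) (h1 : t ≤ 1) (k : ℕ) :
    ((ls k).map fun l => t ^ NN l).sum ≤ (1 + t) ^ k := by
  induction k with
  | zero => simp [ls, NN]
  | succ k ih =>
    rw [ls, List.map_append, List.sum_append, List.map_map, List.map_map, ← List.sum_map_add,
      pow_succ]
    refine le_trans ?_ (mul_le_mul_of_nonneg_right ih (by positivity))
    rw [← List.sum_map_mul_right]
    refine List.sum_le_sum fun l _ => ?_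
    simp only [Function.comp, NN, tau, pow_add, ← mul_add]
    refine mul_le_mul_of_nonneg_left ?_ (by positivity)
    have a1 : ∀ n : ℕ, t ^ n ≤ 1 := fun n => pow_le_one₀ h0 h1
    have a2 : ∀ n : ℕ, 1 ≤ n → t ^ n ≤ t := fun n hn => pow_le_of_le_one h0 h1 (by omega)
    rcases mu_st (tau l) with h | h
    · linarith [a2 _ h, a1 (mu (st false (tau l)))]
    · linarith [a2 _ h, a1 (mu (st true (tau l)))]

lemma bad_card {ε : ℝ} (hε : 0 < ε) : ∃ d : ℕ, 1 ≤ d ∧ ∀ k : ℕ,
    (((ls k).filter fun l => d * NN l ≤ k).length : ℝ) ≤ Real.exp (ε * k) := by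
  have hs : Real.exp (-(ε / 2)) < 1 := Real.exp_lt_one_iff.2 (by linarith)
  obtain ⟨d, hd⟩ := exists_pow_lt_of_lt_one (x := ε / 2) (by positivity) hs
  set s := Real.exp (-(ε / 2))
  have hs0 : 0 < s := Real.exp_pos _
  refine ⟨d + 1, by omega, fun k => ?_⟩
  have h1 : s ^ (d + 1) ≤ ε / 2 := (pow_le_pow_of_le_one hs0.le hs.le (by omega)).trans hd.le
  have h2 := sum_ls (t := s ^ (d + 1)) (by positivity) (pow_le_one₀ hs0.le hs.le) k
  have h3 : ∀ L : List (List Bool), ((L.filter fun l => (d + 1) * NN l ≤ k).length : ℝ) * s ^ k ≤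
      (L.map fun l => (s ^ (d + 1)) ^ NN l).sum := by
    intro L
    induction L with
    | nil => simp
    | cons l L ih =>
      rw [List.filter_cons, List.map_cons, List.sum_cons]
      split_ifs with h
      · have : s ^ k ≤ (s ^ (d + 1)) ^ NN l := by
          rw [← pow_mul]; exact pow_le_pow_of_le_one hs0.le hs.le (by simpa using h)
        rw [List.length_cons]; push_cast; linarith
      · have : 0 ≤ (s ^ (d + 1)) ^ NN l := by positivity
        linarith
  have h4 : (1 + s ^ (d + 1)) ^ k ≤ Real.exp (ε / 2) ^ k :=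
    pow_le_pow_left₀ (by positivity) (by linarith [Real.add_one_le_exp (ε / 2)]) k
  have h5 : Real.exp (ε / 2) ^ k = Real.exp (ε * k) * s ^ k := by
    rw [← Real.exp_nat_mul, ← Real.exp_nat_mul, ← Real.exp_add]; congr 1; ring
  exact le_of_mul_le_mul_right (((h3 _).trans h2).trans (h5 ▸ h4)) (by positivity)

lemma nf (n : ℕ) : ∀ h ∈ ball S n, ∃ (a : Bool) (l : List Bool) (b : P), T false b ∧
    h = (if a then X else 1) * gg l * b ∧ 2 * l.length + (if a then 1 else 0) ≤ n := by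
  induction n with
  | zero =>
    intro h hh
    rw [ball_zero] at hh
    exact ⟨false, [], 1, Or.inl rfl, by simpa [gg] using hh, by simp⟩
  | succ n ih =>
    intro g hg
    obtain ⟨s, h, hs, hh, rfl⟩ := ball_succ.1 hg
    obtain ⟨a, l, b, h1, rfl, h2⟩ := ih h hh
    rcases gen_T hs with rfl | rfl | ⟨e, rfl⟩
    · exact ⟨a, l, b, h1, one_mul _, by omega⟩
    · refine ⟨!a, l, b, h1, ?_, ?_⟩
      · cases a <;> simp [← mul_assoc, XX]
      · cases a <;> simp at h2 ⊢ <;> omega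
    · cases a
      · cases l with
        | nil => exact ⟨false, [], Ye e * b, T_mul (Or.inr ⟨e, rfl⟩) h1, by simp [gg], by simp⟩
        | cons e' l =>
          rcases Ye_mul e e' with h3 | ⟨e'', h3⟩
          · exact ⟨true, l, b, h1, by simp [gg, ← mul_assoc, h3], by simp at h2 ⊢; omega⟩
          · exact ⟨false, e'' :: l, b, h1, by simp [gg, ← mul_assoc, h3], by simp at h2 ⊢; omega⟩
      · exact ⟨false, e :: l, b, h1, by simp [gg, mul_assoc], by simp at h2 ⊢; omega⟩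

noncomputable def bl (n : ℕ) : Finset P := (ball_fin S n).toFinset

def Bd (θ : ℝ) : Prop := ∃ C : ℝ, 0 < C ∧ ∀ n : ℕ, ((bl n).card : ℝ) ≤ C * Real.exp (θ * n)

lemma Bd_mono {θ θ' : ℝ} (h : θ ≤ θ') (hb : Bd θ) : Bd θ' := by
  obtain ⟨C, hC, hb⟩ := hb
  exact ⟨C, hC, fun n => (hb n).trans (by gcongr)⟩

lemma bl_card (n : ℕ) : (bl n).card = (ball S n).ncard := (Set.ncard_eq_toFinset_card _ _).symm

lemma Bd_base : Bd (2 * S.card) := by
  refine ⟨1, one_pos, fun n => ?_⟩
  have h1 : ((bl n).card : ℝ) ≤ (2 * S.card + 1) ^ n := by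
    rw [bl_card]; exact_mod_cast (ball_fin_card S n).2
  rw [one_mul, mul_comm, Real.exp_nat_mul]
  exact h1.trans (pow_le_pow_left₀ (by positivity) (Real.add_one_le_exp _) n)

open Classical in
noncomputable def EE (M m : ℕ) : Finset P :=
  ((Fintype.piFinset fun _ : Fin 5 => Finset.range (M + 1)).filter fun c => ∑ p, c p ≤ m).biUnion
    fun c => ((Fintype.piFinset fun p => bl (c p)) ×ˢ Finset.univ).image fun x => Wr x.1 x.2

lemma Iv_EE {h : P} {τ : Fin 5 → Bool} {m M m' : ℕ} (hi : Iv h τ m) (h1 : m + 5 ≤ M)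
    (h2 : m + 5 ≤ m') : h ∈ EE M m' := by
  obtain ⟨σ, F, c, a1, rfl, a2⟩ := hi
  simp only [EE, Finset.mem_biUnion, Finset.mem_filter, Fintype.mem_piFinset, Finset.mem_image,
    Finset.mem_range, Finset.mem_product, Finset.mem_univ, and_true]
  refine ⟨fun p => c p + 1, ⟨fun p => ?_, ?_⟩, (F, σ), fun p => ?_, rfl⟩
  · have := Finset.single_le_sum (f := c) (fun _ _ => Nat.zero_le _) (Finset.mem_univ p)
    beta_reduce
    omega
  · rw [Finset.sum_add_distrib]; simp; omega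
  · obtain ⟨u, r, b1, b2, b3⟩ := a2 p
    exact (Set.Finite.mem_toFinset _).2 (ball_succ.2 ⟨u, r, T_gen b1, b2, b3⟩)

lemma EE_card {θ C : ℝ} (hθ : 0 ≤ θ) (hC : 0 < C)
    (hb : ∀ n : ℕ, ((bl n).card : ℝ) ≤ C * Real.exp (θ * n)) (M m : ℕ) :
    ((EE M m).card : ℝ) ≤ (M + 1) ^ 5 * (C ^ 5 * Real.exp (θ * m) * 120) := by
  classical
  set I := (Fintype.piFinset fun _ : Fin 5 => Finset.range (M + 1)).filter fun c => ∑ p, c p ≤ m
  have h1 : (I.card : ℝ) ≤ (M + 1) ^ 5 := by
    have : I.card ≤ (M + 1) ^ 5 := (Finset.card_filter_le _ _).trans (by simp)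
    exact_mod_cast this
  have h2 : ∀ c ∈ I, ((((Fintype.piFinset fun p => bl (c p)) ×ˢ Finset.univ).image
      fun x => Wr x.1 x.2).card : ℝ) ≤ C ^ 5 * Real.exp (θ * m) * 120 := by
    intro c hc
    have a1 := Finset.card_image_le (s := (Fintype.piFinset fun p => bl (c p)) ×ˢ Finset.univ)
      (f := fun x : (Fin 5 → P) × Equiv.Perm (Fin 5) => Wr x.1 x.2)
    rw [Finset.card_product, Fintype.card_piFinset, Finset.card_univ, Fintype.card_perm] at a1
    have a2 : (∏ p, ((bl (c p)).card : ℝ)) ≤ C ^ 5 * Real.exp (θ * m) := by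
      refine (Finset.prod_le_prod (fun _ _ => by positivity) fun p _ => hb (c p)).trans ?_
      rw [Finset.prod_mul_distrib, ← Real.exp_sum, ← Finset.mul_sum]
      have a3 : ∑ p, (c p : ℝ) ≤ m := by exact_mod_cast (Finset.mem_filter.1 hc).2
      simp only [Finset.prod_const, Finset.card_univ, Fintype.card_fin]
      gcongr
    refine le_trans (by exact_mod_cast a1) (mul_le_mul_of_nonneg_right a2 (by norm_num))
  calc _ ≤ ((∑ c ∈ I, (((Fintype.piFinset fun p => bl (c p)) ×ˢ Finset.univ).image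
          fun x => Wr x.1 x.2).card : ℕ) : ℝ) := by
        exact_mod_cast Finset.card_biUnion_le
    _ ≤ ∑ c ∈ I, C ^ 5 * Real.exp (θ * m) * 120 := by
        rw [Nat.cast_sum]; exact Finset.sum_le_sum h2
    _ = I.card * (C ^ 5 * Real.exp (θ * m) * 120) := by simp
    _ ≤ _ := by gcongr

lemma Bd_step {ε : ℝ} (hε : 0 < ε) : ∃ ρ : ℝ, 0 < ρ ∧ ρ < 1 ∧ ∀ θ, ε ≤ θ → Bd θ → Bd (ρ * θ) := by
  classical
  obtain ⟨d, hd, hbad⟩ := bad_card hε
  have hd' : (1 : ℝ) ≤ d := by exact_mod_cast hd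
  set η : ℝ := 1 / (4 * d) with hη
  have e0 : 0 < η := by positivity
  have e1 : η ≤ 1 / 4 := by rw [hη]; gcongr; linarith
  have e2 : 4 * d * η = 1 := by rw [hη]; field_simp
  refine ⟨1 - η, by linarith, by linarith, fun θ hθ ⟨C, hC, hb⟩ => ?_⟩
  have θ0 : 0 < θ := by linarith
  obtain ⟨D, hD, hp⟩ := poly 6 (t := Real.exp (η * θ)) (Real.one_lt_exp_iff.2 (by positivity))
  refine ⟨6 * D * (1 + 8 ^ 5 * (C ^ 5 * Real.exp (θ * 7) * 120)), by positivity, fun n => ?_⟩
  let A : ℕ → Finset P := fun k => (((ls k).filter fun l => d * NN l ≤ k).map gg).toFinset ∪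
    EE (n + 7) (2 * k + 7 - (k / d + 1))
  have h1 : bl n ⊆ (Finset.range (n / 2 + 1)).biUnion fun k =>
      (({X, 1} : Finset P) ×ˢ A k ×ˢ ({1, Y, Y⁻¹} : Finset P)).image
        fun x => x.1 * x.2.1 * x.2.2 := by
    intro h hh
    obtain ⟨a, l, b, a1, rfl, a2⟩ := nf n h ((Set.Finite.mem_toFinset _).1 hh)
    refine Finset.mem_biUnion.2 ⟨l.length, Finset.mem_range.2 (by omega), Finset.mem_image.2
      ⟨(if a then X else 1, gg l, b), Finset.mem_product.2 ⟨by cases a <;> simp, Finset.mem_product.2 ⟨?_, ?_⟩⟩, rfl⟩⟩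
    · by_cases hl : d * NN l ≤ l.length
      · exact Finset.mem_union_left _ (List.mem_toFinset.2 (List.mem_map_of_mem
          (List.mem_filter.2 ⟨mem_ls l, by simpa using hl⟩)))
      · obtain ⟨m, b1, b2⟩ := gg_Iv l
        have b3 : mu (tau l) ≤ 2 := by unfold mu; split_ifs <;> omega
        have b4 : l.length / d < NN l := Nat.div_lt_of_lt_mul (by omega)
        exact Finset.mem_union_right _ (Iv_EE b2 (by omega) (by omega))
    · rcases a1 with rfl | ⟨e, rfl⟩
      · simp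
      · cases e <;> simp [Ye]
  set E := Real.exp ((1 - 2 * η) * θ * n)
  have h2 : ∀ k ∈ Finset.range (n / 2 + 1), ((A k).card : ℝ) ≤
      (n + 1) ^ 5 * (1 + 8 ^ 5 * (C ^ 5 * Real.exp (θ * 7) * 120)) * E := by
    intro k hk
    have hk : 2 * k ≤ n := by have := Finset.mem_range.1 hk; omega
    have hk' : (2 : ℝ) * k ≤ n := by exact_mod_cast hk
    have a1 : ((((ls k).filter fun l => d * NN l ≤ k).map gg).toFinset.card : ℝ) ≤ E := by
      refine le_trans ?_ ((hbad k).trans (Real.exp_le_exp.2 ?_))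
      · exact_mod_cast (List.toFinset_card_le _).trans (by simp)
      · have : (0 : ℝ) ≤ k := by positivity
        have : 1 / 2 * θ ≤ (1 - 2 * η) * θ := by gcongr; linarith
        nlinarith
    have a2 := EE_card θ0.le hC hb (n + 7) (2 * k + 7 - (k / d + 1))
    have a3 : Real.exp (θ * (2 * k + 7 - (k / d + 1) : ℕ)) ≤ Real.exp (θ * 7) * E := by
      rw [← Real.exp_add]
      refine Real.exp_le_exp.2 ?_
      have b1 : k / d ≤ k := Nat.div_le_self _ _
      have b2 : (k : ℝ) < d * ((k / d : ℕ) + 1) := by exact_mod_cast Nat.lt_mul_div_succ k hd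
      rw [Nat.cast_sub (by omega)]
      push_cast
      have b3 : 4 * η * k ≤ (k / d : ℕ) + 1 := by
        have : 4 * η * k ≤ 4 * η * (d * ((k / d : ℕ) + 1)) := by gcongr
        nlinarith
      have b4 : (1 - 2 * η) * (2 * k) ≤ (1 - 2 * η) * n := by gcongr; linarith
      nlinarith
    have a4 : (((n + 7 : ℕ) : ℝ) + 1) ^ 5 ≤ 8 ^ 5 * (n + 1) ^ 5 := by
      rw [← mul_pow]; push_cast; gcongr; linarith [(by positivity : (0 : ℝ) ≤ n)]
    have a5 : (1 : ℝ) ≤ (n + 1) ^ 5 := one_le_pow₀ (by linarith [(by positivity : (0 : ℝ) ≤ n)])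
    have a6 : ((A k).card : ℝ) ≤ _ := Nat.cast_le.2 (Finset.card_union_le _ _)
    rw [Nat.cast_add] at a6
    have a7 : E ≤ (n + 1) ^ 5 * E := le_mul_of_one_le_left (Real.exp_pos _).le a5
    have a8 : ((EE (n + 7) (2 * k + 7 - (k / d + 1))).card : ℝ) ≤
        8 ^ 5 * (n + 1) ^ 5 * (C ^ 5 * (Real.exp (θ * 7) * E) * 120) := a2.trans (by gcongr)
    nlinarith
  have h3 : ((bl n).card : ℝ) ≤ ∑ k ∈ Finset.range (n / 2 + 1), 6 * ((A k).card : ℝ) := by
    have := (Finset.card_le_card h1).trans (Finset.card_biUnion_le.trans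
      (Finset.sum_le_sum (g := fun k => 6 * (A k).card) fun k _ => Finset.card_image_le.trans ?_))
    · exact_mod_cast this
    rw [Finset.card_product, Finset.card_product]
    have b1 : ({X, 1} : Finset P).card ≤ 2 := Finset.card_le_two
    have b2 : ({1, Y, Y⁻¹} : Finset P).card ≤ 3 := Finset.card_le_three
    calc _ ≤ 2 * ((A k).card * 3) := by gcongr
      _ = _ := by ring
  have h4 := hp n
  rw [← Real.exp_nat_mul] at h4
  have h5 : Real.exp ((1 - η) * θ * n) = Real.exp (n * (η * θ)) * E := by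
    rw [← Real.exp_add]; congr 1; ring
  have h6 : ((n / 2 + 1 : ℕ) : ℝ) ≤ n + 1 := by exact_mod_cast (by omega : n / 2 + 1 ≤ n + 1)
  set Z := 1 + 8 ^ 5 * (C ^ 5 * Real.exp (θ * 7) * 120)
  calc _ ≤ ∑ k ∈ Finset.range (n / 2 + 1), 6 * ((n + 1) ^ 5 * Z * E) :=
        h3.trans (Finset.sum_le_sum fun k hk => by gcongr; exact h2 k hk)
    _ = (n / 2 + 1 : ℕ) * (6 * ((n + 1) ^ 5 * Z * E)) := by simp
    _ ≤ (n + 1) * (6 * ((n + 1) ^ 5 * Z * E)) := by gcongr
    _ = (n + 1) ^ 6 * (6 * Z * E) := by ring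
    _ ≤ D * Real.exp (n * (η * θ)) * (6 * Z * E) := by gcongr
    _ = _ := by rw [h5]; ring

lemma Bd_all {ε : ℝ} (hε : 0 < ε) : Bd ε := by
  obtain ⟨ρ, h0, h1, h⟩ := Bd_step hε
  have key : ∀ j : ℕ, Bd (max ε (ρ ^ j * (2 * S.card + 1))) := by
    intro j
    induction j with
    | zero => exact Bd_mono (le_max_of_le_right (by simp)) Bd_base
    | succ j ih =>
      refine Bd_mono ?_ (h _ (le_max_left _ _) ih)
      rw [mul_max_of_nonneg _ _ h0.le, ← mul_assoc, ← pow_succ']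
      exact max_le_max (by nlinarith) le_rfl
  obtain ⟨j, hj⟩ := exists_pow_lt_of_lt_one (x := ε / (2 * S.card + 1)) (by positivity) h1
  rw [lt_div_iff₀ (by positivity)] at hj
  simpa [max_eq_left hj.le] using key j

lemma subexp : Tendsto (fun r : ℕ => ((ball S r).ncard : ℝ) ^ ((1 : ℝ) / (r : ℝ))) atTop (𝓝 1) := by
  refine tendsto_order.2 ⟨fun a ha => Eventually.of_forall fun r => ha.trans_le ?_, fun a ha => ?_⟩
  · refine Real.one_le_rpow ?_ (by positivity)
    have := (Set.ncard_pos (ball_fin S r)).2 ⟨1, [], by simp, by simp, rfl⟩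
    exact_mod_cast this
  · obtain ⟨b, h1, h2⟩ := exists_between ha
    obtain ⟨C, hC, hb⟩ := Bd_all (Real.log_pos h1)
    filter_upwards [(tend C b hC (by linarith)).eventually (gt_mem_nhds h2)] with r hr
    refine lt_of_le_of_lt (Real.rpow_le_rpow (by positivity) ?_ (by positivity)) hr
    have := hb r
    rwa [bl_card, mul_comm (Real.log b), Real.exp_nat_mul, Real.exp_log (by linarith)] at this

end Pool.Agent.Lib.helper12.Alt
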