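import Mathlib

set_option autoImplicit false

namespace Pool.Agent.Lib.helper12.BCH

/-- the 127 columns (14 bits each) of a generator matrix of the dual BCH code -/
def BIG : ℕ := 14575588436822749552700163017931996785071267056152329887732974599501871901757680513189594720888910662658842200409601939237960298196616277547674118734870866471866847037448252693858103472045713026431390745896893513535400174123992352052376352637745560012105729298386118973903205646269063126412583966376837001640695067545463260907000654262446150009445661992637659195652611898530093746610901214824022172850923171824287357636718065777226652650077748131353388213869698231789027593892434206713326633017920686650940906498728137461079047145553921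

/-- column `b` -/
def f (b : ℕ) : ℕ := BIG / 2 ^ (14 * b) % 16384

/-- entry of the generator matrix -/
def g (b i : ℕ) : ℤ := if (f b).testBit i then 1 else 0

/-- the rows, punctured at the last coordinate -/
def rows : List ℕ := [43811443232248638021834083266029273089, 53911315886332585595170319903521685506, 30455111764215974942368977205111078916, 5999159237022462870810266727615774728, 66202603191968690706237079757545357328, 57380567578081040467644204309624537120, 14622428756610041628547087231534465088, 24631183719178580230021042834666520704, 68013894521583355078974906858223862016, 28149512460751888722841249259949326848, 17014086028786609440124479690126132224, 68056960273030112021686575397517395968, 85070591690620534627158227126289698816, 85070591730234615847396907784232509440]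

/-- number of ones among the low bits -/
def pop : ℕ → ℕ → ℕ
  | 0, _ => 0
  | k + 1, n => n % 2 + pop k (n / 2)

/-- table of weights of 9-bit numbers -/
def TAB : ℕ := 19255054270729893008491005534149248252256602926781282732690012290033276866808550227997693622604181043369877307314662111123331664736047184874077759948250443227256975055791411108947596559321109802036954624006373818143946017559684403162578529602068048730946422771823999999239149825717005481632390412975320206440279958629013623038381969796702446623878923952740084796477918444418310443408990755144638227854376788458924235859745937832180260096754594561627738988715237553750525742696058226208231293151672720457407743312923599856247524705366024968272077418776390695019160354360691986468851967610039890687248939048398439391504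

/-- weight by chunks of 9 bits -/
def popc : ℕ → ℕ → ℕ
  | 0, _ => 0
  | k + 1, n => Nat.add (Nat.mod (Nat.shiftRight TAB (Nat.mul 4 (Nat.mod n 512))) 16)
      (popc k (Nat.div n 512))

theorem tab_ok : ∀ c < 512, Nat.mod (Nat.shiftRight TAB (Nat.mul 4 c)) 16 = pop 9 c := by
  decide +kernel

theorem pop_split : ∀ (j k n : ℕ), pop (k + j) n = pop j (n % 2 ^ j) + pop k (n / 2 ^ j)
  | 0, k, n => by simp [pop]
  | j + 1, k, n => by
      rw [← add_assoc, pop, pop, pop_split j k (n / 2), Nat.div_div_eq_div_mul, ← pow_succ',
        Nat.mod_mod_of_dvd n (dvd_pow_self 2 (by omega)), pow_succ', Nat.mod_mul_right_div_self,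
        add_assoc]

theorem popc_eq : ∀ (k n : ℕ), popc k n = pop (9 * k) n
  | 0, _ => rfl
  | k + 1, n => by
      have h := tab_ok (n % 512) (Nat.mod_lt _ (by norm_num))
      rw [mul_add, mul_one, pop_split 9 (9 * k) n, ← popc_eq k]
      exact congrArg₂ (· + ·) h rfl

/-- all codewords have weight at most 72 -/
def chk : List ℕ → ℕ → Bool
  | [], acc => Nat.ble (popc 14 acc) 72
  | r :: rs, acc => chk rs acc && chk rs (acc ^^^ r)

theorem chk_rows : chk rows 0 = true := by decide +kernel

/-- duplicate test with a bit mask -/
def nd : List ℕ → ℕ → Bool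
  | [], _ => true
  | x :: l, mask => !mask.testBit x && nd l (mask ||| 2 ^ x)

/-- index pairs -/
def pairs : List (ℕ × ℕ) :=
  (List.range 128).flatMap (fun j => (List.range j).map (fun i => (i, j)))

theorem nd_pairs : nd (pairs.map (fun p => f p.1 ^^^ f p.2)) 1 = true := by decide +kernel

theorem rows_cols : ∀ i : Fin 14, ∀ b : Fin 126,
    (rows.getD i 0).testBit b = (f b).testBit i := by decide +kernel

theorem f_info : ∀ i i' : Fin 14, g i' i = if i' = i then 1 else 0 := by decide +kernel

theorem f_last : f 127 = 0 := by decide +kernel

theorem parity_last : ∀ i : Fin 14, (1 + ∑ j : Fin 112, g (14 + j) i + g 126 i) % 2 = 0 := by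
  decide +kernel

theorem nd_spec : ∀ (l : List ℕ) (mask : ℕ), nd l mask = true →
    l.Nodup ∧ ∀ x ∈ l, mask.testBit x = false
  | [], _, _ => by simp
  | x :: l, mask, h => by
      simp only [nd, Bool.and_eq_true, Bool.not_eq_true'] at h
      obtain ⟨h1, h2⟩ := nd_spec l _ h.2
      refine ⟨List.nodup_cons.mpr ⟨fun hx => ?_, h1⟩, ?_⟩
      · have := h2 x hx
        simp [Nat.testBit_or] at this
      · intro y hy
        rcases List.mem_cons.mp hy with rfl | hy
        · exact h.1
        · have := h2 y hy
          simp only [Nat.testBit_or, Bool.or_eq_false_iff] at this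
          exact this.1

theorem mem_pairs {i j : ℕ} (h : i < j) (hj : j < 128) : (i, j) ∈ pairs := by
  simp only [pairs, List.mem_flatMap, List.mem_range, List.mem_map]
  exact ⟨j, hj, i, h, rfl⟩

theorem sidon0 {i j : ℕ} (h : i ≠ j) (hi : i < 128) (hj : j < 128) : f i ^^^ f j ≠ 0 := by
  have h2 := (nd_spec _ _ nd_pairs).2
  intro e
  rcases lt_or_gt_of_ne h with hl | hl
  · have := h2 _ (List.mem_map.mpr ⟨_, mem_pairs hl hj, rfl⟩)
    simp [e] at this
  · have := h2 _ (List.mem_map.mpr ⟨_, mem_pairs hl hi, rfl⟩)
    rw [Nat.xor_comm] at e
    simp [e] at this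

theorem sidon1 {i j k l : ℕ} (h : i < j) (hj : j < 128) (h' : k < l) (hl : l < 128)
    (e : f i ^^^ f j = f k ^^^ f l) : i = k ∧ j = l := by
  have h1 := (nd_spec _ _ nd_pairs).1
  have := List.inj_on_of_nodup_map h1 (mem_pairs h hj) (mem_pairs h' hl) e
  simpa using this

theorem sidon2 {i j k l : ℕ} (h : i ≠ j) (h' : k ≠ l) (hi : i < 128) (hj : j < 128)
    (hk : k < 128) (hl : l < 128) (e : f i ^^^ f j = f k ^^^ f l) : i = k ∨ i = l := by
  rcases lt_or_gt_of_ne h with a | a <;> rcases lt_or_gt_of_ne h' with b | b
  · exact Or.inl (sidon1 a hj b hl e).1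
  · exact Or.inr (sidon1 a hj b hk (by rw [e, Nat.xor_comm])).1
  · exact Or.inr (sidon1 a hi b hl (by rw [← e, Nat.xor_comm])).2
  · exact Or.inl (sidon1 a hi b hk (by rw [Nat.xor_comm, e, Nat.xor_comm])).2

theorem f_lt (b : ℕ) : f b < 2 ^ 14 := Nat.mod_lt _ (by norm_num)

theorem four {a b c d : ℕ} (h : ∀ i < 14, (g a i + g b i + g c i + g d i) % 2 = 0) :
    f a ^^^ f b = f c ^^^ f d := by
  apply Nat.eq_of_testBit_eq
  intro i
  by_cases hi : i < 14
  · have := h i hi
    unfold g at this
    rw [Nat.testBit_xor, Nat.testBit_xor]
    revert this
    cases (f a).testBit i <;> cases (f b).testBit i <;> cases (f c).testBit i <;>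
      cases (f d).testBit i <;> simp
  · have z : ∀ x, (f x).testBit i = false := fun x =>
      Nat.testBit_lt_two_pow (lt_of_lt_of_le (f_lt x) (Nat.pow_le_pow_right (by norm_num) (by omega)))
    simp [Nat.testBit_xor, z]

theorem g_last (i : ℕ) : g 127 i = 0 := by simp [g, f_last]

theorem dual_dist (S : Finset ℕ) (hS : ∀ a ∈ S, a < 127) (hne : S.Nonempty)
    (h : ∀ i < 14, (∑ a ∈ S, g a i) % 2 = 0) : 5 ≤ S.card := by
  by_contra hc
  have h0 := hne.card_pos
  have : S.card = 1 ∨ S.card = 2 ∨ S.card = 3 ∨ S.card = 3 + 1 := by omega
  rcases this with e | e | e | e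
  · obtain ⟨a, rfl⟩ := Finset.card_eq_one.mp e
    have ha := hS a (by simp)
    have := four (a := a) (b := 127) (c := 127) (d := 127) (fun i hi => by
      simpa [g_last] using h i hi)
    rw [Nat.xor_self] at this
    exact sidon0 (by omega) (by omega) (by omega) this
  · obtain ⟨a, b, hab, rfl⟩ := Finset.card_eq_two.mp e
    have ha := hS a (by simp)
    have hb := hS b (by simp)
    have := four (a := a) (b := b) (c := 127) (d := 127) (fun i hi => by
      have := h i hi
      rw [Finset.sum_pair hab] at this
      simpa [g_last] using this)
    rw [Nat.xor_self] at this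
    exact sidon0 hab (by omega) (by omega) this
  · obtain ⟨a, b, c, hab, hac, hbc, rfl⟩ := Finset.card_eq_three.mp e
    have ha := hS a (by simp)
    have hb := hS b (by simp)
    have hc := hS c (by simp)
    have := four (a := a) (b := b) (c := c) (d := 127) (fun i hi => by
      have := h i hi
      rw [Finset.sum_insert (by simp [hab, hac]), Finset.sum_pair hbc] at this
      rw [g_last, add_zero, add_assoc]
      exact this)
    rcases sidon2 hab (by omega) (by omega) (by omega) (by omega) (by omega) this with q | q <;>
      omega
  · obtain ⟨a, T, haT, rfl, hT⟩ := Finset.card_eq_succ.mp e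
    obtain ⟨b, c, d, hbc, hbd, hcd, rfl⟩ := Finset.card_eq_three.mp hT
    have ha := hS a (by simp)
    have hb := hS b (by simp)
    have hc := hS c (by simp)
    have hd := hS d (by simp)
    have haT' := haT
    simp only [Finset.mem_insert, Finset.mem_singleton, not_or] at haT'
    have := four (a := a) (b := b) (c := c) (d := d) (fun i hi => by
      have := h i hi
      rw [Finset.sum_insert haT, Finset.sum_insert (by simp [hbc, hbd]),
        Finset.sum_pair hcd] at this
      rw [add_assoc, add_assoc]
      exact this)
    rcases sidon2 haT'.1 hcd (by omega) (by omega) (by omega) (by omega) this with q | q <;>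
      omega

/-- the codeword selected by the parities of a list of integers -/
def sel : List ℕ → List ℤ → ℕ → ℕ
  | r :: rs, x :: xs, acc => sel rs xs (if x % 2 = 1 then acc ^^^ r else acc)
  | _, _, acc => acc

theorem chk_spec : ∀ (rs : List ℕ) (xs : List ℤ) (acc : ℕ), xs.length = rs.length →
    chk rs acc = true → pop (9 * 14) (sel rs xs acc) ≤ 72
  | [], [], acc, _, h => by
      have h1 : popc 14 acc ≤ 72 := Nat.le_of_ble_eq_true h
      rw [popc_eq] at h1
      exact h1
  | [], _ :: _, _, h, _ => by simp at h
  | _ :: _, [], _, h, _ => by simp at h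
  | r :: rs, x :: xs, acc, hl, h => by
      simp only [chk, Bool.and_eq_true] at h
      simp only [sel]
      split_ifs
      · exact chk_spec rs xs _ (by simpa using hl) h.2
      · exact chk_spec rs xs _ (by simpa using hl) h.1

/-- a bit as an integer -/
def bt (n b : ℕ) : ℤ := if n.testBit b then 1 else 0

theorem sel_bit (b : ℕ) : ∀ (rs : List ℕ) (xs : List ℤ) (acc : ℕ),
    bt (sel rs xs acc) b = (bt acc b + (List.zipWith (fun r x => bt r b * x) rs xs).sum) % 2
  | [], xs, acc => by
      simp only [sel, List.zipWith_nil_left, List.sum_nil, bt]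
      split_ifs <;> simp
  | _ :: _, [], acc => by
      simp only [sel, List.zipWith_nil_right, List.sum_nil, bt]
      split_ifs <;> simp
  | r :: rs, x :: xs, acc => by
      simp only [sel, List.zipWith_cons_cons, List.sum_cons]
      rw [sel_bit b rs xs]
      generalize (List.zipWith (fun r x => bt r b * x) rs xs).sum = T
      by_cases hx : x % 2 = 1
      · rw [if_pos hx]
        unfold bt
        rw [Nat.testBit_xor]
        cases acc.testBit b <;> cases r.testBit b <;> simp <;> omega
      · rw [if_neg hx]
        unfold bt
        cases acc.testBit b <;> cases r.testBit b <;> simp <;> omega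

theorem pop_eq : ∀ (k n : ℕ), (pop k n : ℤ) = ∑ b ∈ Finset.range k, bt n b
  | 0, _ => by simp [pop]
  | k + 1, n => by
      rw [Finset.sum_range_succ', pop]
      push_cast
      rw [pop_eq k (n / 2), add_comm]
      congr 1
      · apply Finset.sum_congr rfl
        intro b _
        simp [bt, Nat.testBit_succ]
      · unfold bt
        rw [Nat.testBit_zero]
        rcases Nat.mod_two_eq_zero_or_one n with h | h
        · simp [h]; omega
        · simp [h]; omega

theorem weight_le (x : Fin 14 → ℤ) :
    ∑ b : Fin 126, (∑ i : Fin 14, g b i * x i) % 2 ≤ 72 := by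
  have h1 := chk_spec rows (List.ofFn x) 0 (by simp [rows]) chk_rows
  have h2 : (pop 126 (sel rows (List.ofFn x) 0) : ℤ) ≤ 72 := by exact_mod_cast h1
  rw [pop_eq, ← Fin.sum_univ_eq_sum_range (fun b => bt (sel rows (List.ofFn x) 0) b)] at h2
  refine le_of_eq_of_le ?_ h2
  apply Finset.sum_congr rfl
  intro b _
  rw [sel_bit]
  have e : ∀ i : Fin 14, g b i = bt (rows.getD i 0) b := fun i => by
    unfold g bt
    rw [rows_cols]
  simp only [e]
  congr 1
  simp [bt, rows, List.ofFn_succ, Fin.sum_univ_succ]

end Pool.Agent.Lib.helper12.BCH
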