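import Mathlib

set_option autoImplicit false

open MeasureTheory
open scoped ENNReal

namespace Pool.Agent.Lib.helper12.Walk

variable {V : Type} (G : SimpleGraph V) [G.LocallyFinite]

noncomputable def TR (f : V → ℝ) (x : V) : ℝ := (∑ y ∈ G.neighborFinset x, f y) / G.degree x

noncomputable def TE (f : V → ℝ≥0∞) (x : V) : ℝ≥0∞ := (∑ y ∈ G.neighborFinset x, f y) / G.degree x

variable {G}

lemma TR_mono {f g : V → ℝ} (h : ∀ x, f x ≤ g x) (x : V) : TR G f x ≤ TR G g x := by
  unfold TR; gcongr; exact h _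

lemma TE_mono {f g : V → ℝ≥0∞} (h : ∀ x, f x ≤ g x) (x : V) : TE G f x ≤ TE G g x := by
  unfold TE; gcongr; exact h _

lemma TR_add (f g : V → ℝ) : TR G (f + g) = TR G f + TR G g := by
  ext x; simp [TR, Finset.sum_add_distrib, add_div]

lemma TR_const (hd : ∀ x, 0 < G.degree x) (c : ℝ) (x : V) : TR G (fun _ => c) x = c := by
  have := (hd x).ne'
  simp only [TR, Finset.sum_const, SimpleGraph.card_neighborFinset_eq_degree, nsmul_eq_mul]
  field_simp

lemma TE_ofReal (hd : ∀ x, 0 < G.degree x) {g : V → ℝ} (h : ∀ x, 0 ≤ g x) (x : V) :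
    TE G (fun y => ENNReal.ofReal (g y)) x = ENNReal.ofReal (TR G g x) := by
  rw [TE, TR, ENNReal.ofReal_div_of_pos (by exact_mod_cast hd x),
    ENNReal.ofReal_sum_of_nonneg fun y _ => h y, ENNReal.ofReal_natCast]

lemma TE_tsum {ι : Type} (f : ι → V → ℝ≥0∞) (x : V) :
    TE G (fun y => ∑' i, f i y) x = ∑' i, TE G (f i) x := by
  simp only [TE, div_eq_mul_inv, ENNReal.tsum_mul_right]
  rw [Summable.tsum_finsetSum fun _ _ => ENNReal.summable]

lemma TE_iter_tsum {ι : Type} (n : ℕ) (c : ι → ℝ≥0∞) (f : ι → V → ℝ≥0∞) :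
    (TE G)^[n] (fun y => ∑' i, c i * f i y) = fun x => ∑' i, c i * (TE G)^[n] (f i) x := by
  induction n with
  | zero => rfl
  | succ n ih =>
    ext x
    simp only [Function.iterate_succ_apply', ih, TE_tsum]
    simp only [TE, ← Finset.mul_sum, mul_div_assoc]

lemma green {u s : V → ℝ≥0∞} (h : ∀ x, TE G u x + s x ≤ u x) (x : V) :
    ∑' n, (TE G)^[n] s x ≤ u x := by
  refine ENNReal.tsum_le_of_sum_range_le fun N => ?_
  induction N generalizing x with
  | zero => simp
  | succ N ih =>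
    refine le_trans ?_ ((add_le_add_left (TE_mono ih x) _).trans (h x))
    simp only [Finset.sum_range_succ', Function.iterate_succ_apply', Function.iterate_zero, id, TE,
      div_eq_mul_inv, ← Finset.sum_mul]
    rw [Finset.sum_comm]

open Classical in
lemma rev (hd : ∀ x, 0 < G.degree x) (n : ℕ) (x y : V) :
    G.degree x * (TE G)^[n] (Pi.single y 1) x = G.degree y * (TE G)^[n] (Pi.single x 1) y := by
  have c : ∀ x, (G.degree x : ℝ≥0∞) * (G.degree x : ℝ≥0∞)⁻¹ = 1 := fun x =>
    ENNReal.mul_inv_cancel (by exact_mod_cast (hd x).ne') (by simp)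
  induction n generalizing y with
  | zero =>
    by_cases h : x = y
    · rw [h]
    · simp [h, Ne.symm h]
  | succ n ih =>
    have e : TE G (Pi.single y 1) = fun w => ∑' z : G.neighborFinset y,
        (G.degree z.1 : ℝ≥0∞)⁻¹ * (Pi.single z.1 1 : V → ℝ≥0∞) w := by
      ext w
      rw [Finset.tsum_subtype (G.neighborFinset y) fun z =>
        (G.degree z : ℝ≥0∞)⁻¹ * (Pi.single z 1 : V → ℝ≥0∞) w]
      simp only [TE, Pi.single_apply, mul_ite, mul_one, mul_zero, Finset.sum_ite_eq,
        Finset.sum_ite_eq', SimpleGraph.mem_neighborFinset, G.adj_comm w]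
      split_ifs <;> simp
    rw [Function.iterate_succ_apply, e, TE_iter_tsum, Function.iterate_succ_apply', TE,
      ← ENNReal.tsum_mul_left, div_eq_mul_inv, mul_left_comm, c, mul_one,
      ← Finset.tsum_subtype]
    refine tsum_congr fun z => ?_
    rw [mul_left_comm, ih, ← mul_assoc, mul_comm _ (G.degree z.1 : ℝ≥0∞), c, one_mul]

open Classical in
lemma pot (hd : ∀ x, 0 < G.degree x) (z : ℕ → V)
    (h : ∀ x, ∑' m, G.degree (z m) * ∑' n, (TE G)^[n] (Pi.single x 1) (z m) ≠ ⊤) :
    ∃ U : V → ℝ, (∀ x, 0 ≤ U x) ∧ ∀ x, TR G U x + (Set.range z).indicator 1 x ≤ U x := by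
  let u : V → ℝ≥0∞ := fun x => ∑' m, ∑' n, (TE G)^[n] (Pi.single (z m) 1) x
  have h1 : ∀ x, u x ≠ ⊤ := fun x => by
    refine ne_top_of_le_ne_top (h x) (ENNReal.tsum_le_tsum fun m => ?_)
    rw [← ENNReal.tsum_mul_left]
    refine ENNReal.tsum_le_tsum fun n => ?_
    rw [← rev hd]
    exact le_mul_of_one_le_left' (by exact_mod_cast hd x)
  have h2 : ∀ x, TE G u x + (Set.range z).indicator 1 x ≤ u x := fun x => by
    have : (Set.range z).indicator 1 x ≤ ∑' m, (Pi.single (z m) 1 : V → ℝ≥0∞) x := by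
      by_cases e : x ∈ Set.range z
      · obtain ⟨m, rfl⟩ := e
        exact le_trans (by simp) (ENNReal.le_tsum m)
      · simp [e]
    refine (add_le_add_right this _).trans_eq ?_
    simp only [u, TE_tsum]
    rw [← ENNReal.tsum_add]
    refine tsum_congr fun m => ?_
    rw [tsum_eq_zero_add' ENNReal.summable (f := fun n => (TE G)^[n] (Pi.single (z m) 1) x),
      add_comm]
    simp only [Function.iterate_succ_apply', Function.iterate_zero, id]
  refine ⟨fun x => (u x).toReal, fun x => ENNReal.toReal_nonneg, fun x => ?_⟩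
  have h3 := h2 x
  rw [show u = fun y => ENNReal.ofReal (u y).toReal by ext y; simp [h1],
    TE_ofReal hd fun _ => ENNReal.toReal_nonneg] at h3
  have h4 : 0 ≤ TR G (fun x => (u x).toReal) x := by unfold TR; positivity
  rw [← ENNReal.ofReal_le_ofReal_iff ENNReal.toReal_nonneg,
    ENNReal.ofReal_add h4 (Set.indicator_nonneg (by simp) _)]
  convert h3 using 2
  by_cases e : x ∈ Set.range z <;> simp [e]

open Classical in
lemma visits [Countable V] (hd : ∀ x, 0 < G.degree x) {Ω : Type} [MeasurableSpace Ω]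
    (P : Measure Ω) [IsProbabilityMeasure P] (X : ℕ → Ω → V)
    (hm : ∀ n v, MeasurableSet {ω | X n ω = v}) (v : V) (h0 : P {ω | X 0 ω = v} = 1)
    (h1 : ∀ n x y, P {ω | X n ω = x ∧ X (n + 1) ω = y} =
      P {ω | X n ω = x} * if G.Adj x y then (G.degree x : ℝ≥0∞)⁻¹ else 0)
    (U : V → ℝ) (A : Set V) (U0 : ∀ x, 0 ≤ U x) (hU : ∀ x, TR G U x + A.indicator 1 x ≤ U x) :
    ∀ᵐ ω ∂P, {n | X n ω ∈ A}.Finite := by
  have key : ∀ n (B : Set Ω), MeasurableSet B → P B = ∑' x, P ({ω | X n ω = x} ∩ B) := by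
    intro n B hB
    rw [← measure_iUnion (fun x y h => Set.disjoint_left.2 fun ω a b => h (a.1.symm.trans b.1))
      fun x => (hm n x).inter hB]
    congr; ext; simp
  let E : ℕ → (V → ℝ≥0∞) → ℝ≥0∞ := fun n f => ∑' x, P {ω | X n ω = x} * f x
  have e1 : ∀ n f, E (n + 1) f = E n (TE G f) := fun n f => by
    simp only [E]
    simp_rw [key n _ (hm (n + 1) _), ← ENNReal.tsum_mul_right]
    rw [ENNReal.tsum_comm]
    refine tsum_congr fun x => ?_
    simp_rw [← Set.ofPred_and, h1, mul_assoc]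
    rw [ENNReal.tsum_mul_left, tsum_eq_sum (s := G.neighborFinset x) (by simp +contextual), TE,
      div_eq_mul_inv, Finset.sum_mul]
    exact congrArg _ (Finset.sum_congr rfl (by simp +contextual [mul_comm]))
  have e2 : ∀ n f, E n f = (TE G)^[n] f v := fun n => by
    induction n with
    | zero =>
      intro f
      simp only [E]
      rw [tsum_eq_single v, h0, one_mul]; · rfl
      intro x hx
      rw [measure_mono_null (t := {ω | X 0 ω = v}ᶜ) (fun ω a b => hx (a.symm.trans b))
        ((prob_compl_eq_zero_iff (hm 0 v)).2 h0), zero_mul]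
    | succ n ih => intro f; rw [e1, ih]; rfl
  have e3 := green (G := G) (u := fun x => ENNReal.ofReal (U x)) (s := A.indicator 1) (fun x => by
    have h4 : 0 ≤ TR G U x := div_nonneg (Finset.sum_nonneg fun _ _ => U0 _) (by positivity)
    refine le_trans (le_of_eq ?_) (ENNReal.ofReal_le_ofReal (hU x))
    rw [TE_ofReal hd U0, ENNReal.ofReal_add h4 (Set.indicator_nonneg (by simp) _)]
    by_cases e : x ∈ A <;> simp [e]) v
  refine ae_finite_setOfPred_mem (s := fun n => {ω | X n ω ∈ A})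
    (ne_top_of_le_ne_top ENNReal.ofReal_ne_top (le_trans (ENNReal.tsum_le_tsum fun n => ?_) e3))
  rw [← e2]
  refine le_trans (measure_mono (t := ⋃ x, {ω | X n ω = x ∧ x ∈ A}) fun ω h => by simpa using h)
    ((measure_iUnion_le _).trans (ENNReal.tsum_le_tsum fun x => ?_))
  by_cases e : x ∈ A <;> simp [e]

end Pool.Agent.Lib.helper12.Walk
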