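import Mathlib
import Pool.Agent.Lib.helper12.Walk

set_option autoImplicit false

open scoped ENNReal

namespace Pool.Agent.Lib.helper12.Bfly
open Walk

def sc : ℕ → ℕ × ℕ
  | 0 => (0, 0)
  | n + 1 => if (sc n).2 = (sc n).1 then ((sc n).1 + 1, 0) else ((sc n).1, (sc n).2 + 1)

def k (n : ℕ) : ℕ := (sc n).1
def i (n : ℕ) : ℕ := (sc n).2

lemma succ (n : ℕ) : (i n = k n ∧ k (n + 1) = k n + 1 ∧ i (n + 1) = 0) ∨
    (i n < k n ∧ k (n + 1) = k n ∧ i (n + 1) = i n + 1) := by
  have : i n ≤ k n := by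
    induction n with
    | zero => rfl
    | succ n ih => simp only [i, k, sc] at ih ⊢; split_ifs <;> simp; omega
  simp only [i, k, sc] at this ⊢; split_ifs <;> simp <;> omega

lemma k_le (n : ℕ) : k n ≤ n := by
  induction n with
  | zero => rfl
  | succ n ih => have := succ n; omega

lemma ex_lev (m l : ℕ) (h : l ≤ m) : ∃ n, k n = m ∧ i n = l := by
  have A : ∀ m, (∃ n, k n = m ∧ i n = 0) → ∀ l ≤ m, ∃ n, k n = m ∧ i n = l := fun m h l => by
    induction l with
    | zero => exact fun _ => h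
    | succ l ih =>
      intro hl
      obtain ⟨n, a, b⟩ := ih (by omega)
      exact ⟨n + 1, by have := succ n; omega⟩
  refine A m ?_ l h
  induction m with
  | zero => exact ⟨0, rfl, rfl⟩
  | succ m ih =>
    obtain ⟨n, a, b⟩ := A m (by
      clear ih h
      induction m with
      | zero => exact ⟨0, rfl, rfl⟩
      | succ m ih =>
        obtain ⟨n, a, b⟩ := A m ih m le_rfl
        exact ⟨n + 1, by have := succ n; omega⟩) m le_rfl
    exact ⟨n + 1, by have := succ n; omega⟩

@[ext] structure V where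
  n : ℕ
  w : ℕ → Bool
  h : ∀ j, k n ≤ j → w j = false

def U (x y : V) : Prop := y.n = x.n + 1 ∧ ∀ j, j ≠ i x.n → y.w j = x.w j

def up (x : V) (b : Bool) : V := ⟨x.n + 1, Function.update x.w (i x.n) b, fun j h => by
  have := succ x.n
  rw [Function.update_of_ne (by omega), x.h j (by omega)]⟩

def dn (x : V) (b : Bool) : V :=
  ⟨x.n - 1, Function.update x.w (i (x.n - 1)) (b && i (x.n - 1) < k (x.n - 1)), fun j h => by
    by_cases e : j = i (x.n - 1)
    · subst e; simp; omega
    · rw [Function.update_of_ne e]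
      refine x.h j ?_
      generalize x.n = n at h e
      rcases n with _ | n
      · exact h
      · have := succ n; simp at h e ⊢; omega⟩

lemma U_up (x : V) (b : Bool) : U x (up x b) := ⟨rfl, fun _ h => Function.update_of_ne h _ _⟩

lemma U_dn (x : V) (h : 0 < x.n) (b : Bool) : U (dn x b) x :=
  ⟨by simp [dn]; omega, fun _ h => (Function.update_of_ne h _ _).symm⟩

lemma U.up {x y : V} (h : U x y) : y = up x (y.w (i x.n)) := V.ext h.1 (funext fun j => by
  by_cases e : j = i x.n
  · simp [Bfly.up, e]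
  · simp [Bfly.up, e, h.2 j e])

lemma U.dn {x y : V} (h : U x y) : x = dn y (x.w (i x.n)) := V.ext (by simp [Bfly.dn, h.1])
  (funext fun j => by
    by_cases e : j = i x.n
    · by_cases e' : i x.n < k x.n
      · simp [Bfly.dn, e, h.1, e']
      · simp [Bfly.dn, e, h.1, x.h _ (not_lt.1 e')]
    · simp [Bfly.dn, e, h.1, h.2 j e])

def H : SimpleGraph V where
  Adj x y := U x y ∨ U y x
  symm := ⟨fun _ _ => Or.symm⟩
  loopless := ⟨fun x h => by have := (h.elim id id).1; omega⟩

noncomputable instance : H.LocallyFinite := fun x => Set.Finite.fintype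
  (((Set.finite_range (up x)).union (Set.finite_range (dn x))).subset fun _ h =>
    h.imp (fun h => ⟨_, h.up.symm⟩) fun h => ⟨_, h.dn.symm⟩)

lemma nb (x : V) : ∃ D : Finset V, (∀ y ∈ D, U y x) ∧ D.card ≤ 2 ∧
    (k (x.n - 1) < k x.n → D.card ≤ 1) ∧ H.degree x = 2 + D.card ∧
    ∀ f : V → ℝ, ∑ y ∈ H.neighborFinset x, f y = f (up x false) + f (up x true) + ∑ y ∈ D, f y := by
  classical
  have hne : up x false ≠ up x true := fun h => by simpa [up] using congrFun (congrArg V.w h) (i x.n)
  have h1 : ∀ y ∈ (H.neighborFinset x).filter (U · x), U y x := fun y h => (Finset.mem_filter.1 h).2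
  have h2 : (H.neighborFinset x).filter (fun y => ¬ U y x) = {up x false, up x true} := by
    ext y
    simp only [Finset.mem_filter, SimpleGraph.mem_neighborFinset, H, Finset.mem_insert,
      Finset.mem_singleton]
    constructor
    · rintro ⟨h | h, h'⟩
      · rw [h.up]; cases y.w (i x.n) <;> simp
      · exact absurd h h'
    · rintro (rfl | rfl) <;> exact ⟨Or.inl (U_up _ _), fun h => by have := h.1; simp [up] at this; omega⟩
  have h3 : (H.neighborFinset x).filter (U · x) ⊆ {dn x false, dn x true} := fun y h => by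
    rw [(h1 y h).dn]; cases y.w (i y.n) <;> simp
  refine ⟨_, h1, (Finset.card_le_card h3).trans Finset.card_le_two, fun h => ?_, ?_, fun f => ?_⟩
  · refine (Finset.card_le_card h3).trans ?_
    rcases x with ⟨_ | n, w, hw⟩
    · simp at h
    · have := succ n
      have e : ¬ i n < k n := by simp at h; omega
      simp [dn, e]
  · rw [← SimpleGraph.card_neighborFinset_eq_degree,
      ← Finset.card_filter_add_card_filter_not (U · x), h2, Finset.card_pair hne, add_comm]
  · rw [← Finset.sum_filter_add_sum_filter_not _ (U · x), h2, Finset.sum_pair hne, add_comm]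

lemma deg (x : V) : 0 < H.degree x ∧ H.degree x ≤ 4 := by
  obtain ⟨D, -, a, -, b, -⟩ := nb x; omega

def z (n : ℕ) : V := ⟨n, fun _ => false, fun _ _ => rfl⟩

lemma eq_z {x : V} (h : x.n = 0) : x = z 0 :=
  V.ext h (funext fun j => x.h j (by rw [h]; exact Nat.zero_le _))

lemma fin_lev (n : ℕ) : {x : V | x.n ≤ n}.Finite := by
  induction n with
  | zero => exact (Set.finite_singleton (z 0)).subset fun x h => eq_z (Nat.le_zero.1 h)
  | succ n ih =>
    refine (ih.union (ih.biUnion fun x _ => Set.finite_range (up x))).subset fun x h => ?_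
    rcases Nat.of_le_succ h with h | h
    · exact Or.inl h
    · exact Or.inr (Set.mem_biUnion (x := dn x false) (by simp [dn, h])
        ⟨_, (U_dn x (by omega) _).up.symm⟩)

instance : Countable V := Set.countable_univ_iff.1
  ((Set.countable_iUnion fun n => (fin_lev n).countable).mono fun x _ => Set.mem_iUnion.2 ⟨x.n, Nat.le_refl _⟩)

def τ (j : ℕ) (x : V) : V := ⟨x.n, fun l => xor (x.w l) (l = j ∧ j < k x.n), fun l h => by
  simp [x.h l h]; omega⟩

lemma τ_τ (j : ℕ) : Function.Involutive (τ j) := fun x => V.ext rfl (by ext l; simp [τ])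

lemma U.τ {x y : V} (j : ℕ) (h : U x y) : U (τ j x) (τ j y) := ⟨h.1, fun l e => by
  have := succ x.n
  simp only [Bfly.τ, h.1, h.2 l e] at e ⊢
  congr 2; simp; omega⟩

lemma τ_up (x : V) : τ (i x.n) (up x false) = up x true := V.ext rfl (funext fun l => by
  have := succ x.n
  by_cases e : l = i x.n <;> simp [τ, up, e]; omega)

lemma sum_τ (j : ℕ) (f : V → ℝ) (x : V) :
    ∑ y ∈ H.neighborFinset x, f (τ j y) = ∑ y ∈ H.neighborFinset (τ j x), f y := by
  have A : ∀ x y, H.Adj x y → H.Adj (τ j x) (τ j y) := fun x y h => h.imp (·.τ j) (·.τ j)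
  refine Finset.sum_equiv (τ_τ j).toPerm (fun y => ?_) fun _ _ => rfl
  simp only [SimpleGraph.mem_neighborFinset]
  exact ⟨A x y, fun h => by simpa [τ_τ j _] using A _ _ h⟩

theorem const (f : V → ℝ) (hf : ∀ x, f x = TR H f x) (x : V) : f x = f (z 0) := by
  have h1 : ∀ x, ∑ y ∈ H.neighborFinset x, f y = H.degree x * f x := fun x => by
    have := (deg x).1
    rw [hf x, TR]; field_simp
  have h2 : ∀ j x, f x ≤ f (τ j x) := fun j x => by
    obtain ⟨n, n1, n2⟩ := ex_lev (x.n + j) j (by omega)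
    have n3 := k_le n
    obtain ⟨a, a1, a2⟩ := Set.exists_max_image _ (fun y => f y - f (τ j y)) (fin_lev n) ⟨x, by
      simp; omega⟩
    obtain ⟨b, ⟨b1, b2⟩, b3⟩ := Set.exists_max_image _ V.n ((fin_lev n).inter_of_left
      {y | f y - f (τ j y) = f a - f (τ j a)}) ⟨a, a1, rfl⟩
    have b4 := a2 x (by simp; omega)
    by_contra hc
    obtain ⟨D, d1, -, -, d2, d3⟩ := nb b
    have e1 := sum_τ j (fun _ => 1) b
    simp only [Finset.sum_const, SimpleGraph.card_neighborFinset_eq_degree, nsmul_eq_mul,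
      mul_one] at e1
    have e2 := d3 fun y => f y - f (τ j y)
    rw [Finset.sum_sub_distrib, sum_τ, h1, h1, ← e1, ← mul_sub, b2, d2] at e2
    have e3 := Finset.sum_le_card_nsmul D (fun y => f y - f (τ j y)) _ fun y h =>
      a2 y (by have := (d1 y h).1; simp at b1 ⊢; omega)
    rw [nsmul_eq_mul] at e3
    push_cast at e2
    rcases Nat.eq_or_lt_of_le b1 with e | e
    · have t := τ_up b
      rw [e, n2] at t
      rw [← t, τ_τ j] at e2
      linarith
    · have c : ∀ β, f (up b β) - f (τ j (up b β)) < f a - f (τ j a) := fun β =>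
        (a2 _ e).lt_of_ne fun h => by have := b3 _ ⟨e, h⟩; simp [up] at this
      linarith [c false, c true]
  have h3 : ∀ x, f (up x true) = f (up x false) := fun x => by
    have a := h2 (i x.n) (up x false)
    have b := h2 (i x.n) (τ (i x.n) (up x false))
    rw [τ_τ, τ_up] at b
    rw [τ_up] at a
    linarith
  induction hn : x.n using Nat.strong_induction_on generalizing x with
  | _ n ih =>
    rcases n with _ | n
    · rw [eq_z hn]
    have a := U_dn x (by omega) false
    obtain ⟨D, d1, -, -, d2, d3⟩ := nb (dn x false)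
    have e := d3 f
    rw [h1, d2, h3, ih _ (by have := a.1; omega) _ rfl, Finset.sum_congr rfl fun y h =>
      ih y.n (by have := a.1; have := (d1 y h).1; omega) y rfl, Finset.sum_const, nsmul_eq_mul] at e
    push_cast at e
    rw [a.up]
    cases x.w (i (dn x false).n)
    · linarith
    · rw [h3]; linarith

noncomputable def ψ (n : ℕ) : ℝ := (2 * k n + 4 - i n) / 2 ^ k n

lemma ψ_pos (n : ℕ) : 0 < ψ n := by
  have : (i n : ℝ) ≤ k n := by have := succ n; exact_mod_cast (by omega)
  exact div_pos (by linarith [Nat.cast_nonneg (α := ℝ) (k n)]) (by positivity)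

lemma ψ_succ (n : ℕ) : ψ (n + 1) = ψ n - 1 / 2 ^ k n := by
  rcases succ n with ⟨a, b, c⟩ | ⟨a, b, c⟩ <;> simp only [ψ, a, b, c] <;> push_cast <;>
    field_simp <;> ring

lemma ψ_sum : Summable ψ := by
  let Ψ : ℕ → ℝ := fun n => (4 * k n ^ 2 + 18 * k n + 30 - i n * (2 * k n + 4)) / 2 ^ k n
  have h : ∀ n, ψ n ≤ Ψ n - Ψ (n + 1) ∧ 0 ≤ Ψ n := fun n => by
    have k0 := Nat.cast_nonneg (α := ℝ) (k n)
    have i0 := Nat.cast_nonneg (α := ℝ) (i n)
    have : (i n : ℝ) ≤ k n := by have := succ n; exact_mod_cast (by omega)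
    refine ⟨?_, div_nonneg (by nlinarith) (by positivity)⟩
    rcases succ n with ⟨a, b, c⟩ | ⟨a, b, c⟩ <;> simp only [ψ, Ψ, a, b, c, pow_succ] <;> push_cast <;>
      field_simp <;> nlinarith
  refine summable_of_sum_range_le (c := Ψ 0) (fun n => (ψ_pos n).le) fun n => ?_
  refine (Finset.sum_le_sum fun n _ => (h n).1).trans ?_
  rw [Finset.sum_range_sub']; linarith [(h n).2]

lemma lev (N : ℕ) : ∃ c : ℝ, 0 < c ∧ ∀ x, TR H (fun x => c * min (ψ x.n) (ψ N)) x +
    {x : V | x.n = N}.indicator 1 x ≤ c * min (ψ x.n) (ψ N) := by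
  refine ⟨2 * 2 ^ k N, by positivity, fun x => ?_⟩
  obtain ⟨D, d1, d2, d3, d4, d5⟩ := nb x
  have d6 : (D.card : ℝ) ≤ 2 := by exact_mod_cast d2
  have d7 := Nat.cast_nonneg (α := ℝ) D.card
  have p := ψ_succ x.n
  have c0 : (0 : ℝ) < 2 ^ k N := by positivity
  rw [← le_sub_iff_add_le, TR, div_le_iff₀ (by exact_mod_cast (deg x).1), ← Finset.mul_sum, d4]
  have a1 := d5 fun y => min (ψ y.n) (ψ N)
  have a2 := Finset.sum_le_card_nsmul D (fun y => min (ψ y.n) (ψ N)) (ψ N) fun y _ =>
    min_le_right _ _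
  have a3 := Finset.sum_le_card_nsmul D (fun y => min (ψ y.n) (ψ N)) (ψ (x.n - 1)) fun y h =>
    (min_le_left _ _).trans_eq (by rw [(d1 y h).1]; rfl)
  have a4 := min_le_left (ψ (x.n + 1)) (ψ N)
  have a5 := min_le_right (ψ (x.n + 1)) (ψ N)
  simp only [up, nsmul_eq_mul] at a1 a2 a3
  push_cast
  by_cases e : x.n = N
  · rw [e] at a1 a4 p
    have : 2 ^ k N * ψ (N + 1) = 2 ^ k N * ψ N - 1 := by rw [p]; field_simp
    simp only [e, Set.indicator_of_mem, Set.mem_ofPred_eq, min_self, Pi.one_apply]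
    nlinarith
  · simp only [e, Set.indicator_of_notMem, Set.mem_ofPred_eq, not_false_iff, sub_zero, mul_assoc]
    gcongr
    rw [min_mul_of_nonneg _ _ (by positivity)]
    refine le_min ?_ (by linarith)
    have : D.card * (ψ (x.n - 1) - ψ x.n) ≤ 2 * (1 / 2 ^ k x.n) := by
      rcases x with ⟨_ | n, w, hw⟩
      · simp
      have q := ψ_succ n
      simp only [Nat.add_sub_cancel] at d3 ⊢
      rcases succ n with ⟨a, b, c⟩ | ⟨a, b, c⟩
      · have : (D.card : ℝ) ≤ 1 := by exact_mod_cast d3 (by omega)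
        rw [q, b, pow_succ]; field_simp; linarith
      · rw [q, b]; field_simp; linarith
    linarith

lemma spine : ∃ U : V → ℝ, (∀ x, 0 ≤ U x) ∧ ∀ x, TR H U x + (Set.range z).indicator 1 x ≤ U x := by
  classical
  refine pot (fun x => (deg x).1) z fun x => ?_
  obtain ⟨c, c0, hc⟩ := lev x.n
  have p : ∀ y : V, 0 ≤ c * min (ψ y.n) (ψ x.n) := fun y =>
    mul_nonneg c0.le (le_min (ψ_pos _).le (ψ_pos _).le)
  have g := green (G := H) (u := fun y => ENNReal.ofReal (c * min (ψ y.n) (ψ x.n)))
    (s := Pi.single x 1) fun y => by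
      refine le_trans ?_ (ENNReal.ofReal_le_ofReal (hc y))
      rw [TE_ofReal (fun x => (deg x).1) p, ENNReal.ofReal_add
        (show 0 ≤ TR H _ y from div_nonneg (Finset.sum_nonneg fun _ _ => p _) (by positivity))
        (Set.indicator_nonneg (by simp) _)]
      gcongr
      by_cases e : y = x <;> simp [e]
  refine ne_top_of_le_ne_top (((ψ_sum.mul_left c).mul_left 4).tsum_ofReal_ne_top)
    (ENNReal.tsum_le_tsum fun m => ?_)
  rw [ENNReal.ofReal_mul (by norm_num)]
  refine mul_le_mul' (by simpa using (deg _).2) ((g _).trans (ENNReal.ofReal_le_ofReal ?_))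
  gcongr; exact min_le_left _ _

end Pool.Agent.Lib.helper12.Bfly
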