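import Mathlib

set_option autoImplicit false
set_option linter.unusedSectionVars false

open Filter Set MeasureTheory ProbabilityTheory
open scoped ENNReal

namespace Pool.Agent.Lib.helper12.Bmc

variable {V : Type}

/-- Sample space. Particles carry Ulam-Harris labels (the `i`-th offspring of `u` is `i :: u`);
`ω.1 u` is the number of offspring of `u`, and `ω.2 u x` is the state to which the particle `u`
steps when its parent sits at `x`. -/
abbrev Om (V : Type) := (List ℕ → ℕ) × (List ℕ → V → V)

/-- The particle with label `u` is actually born. -/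
def alive (N : List ℕ → ℕ) : List ℕ → Prop
  | [] => True
  | i :: u => i < N u ∧ alive N u

/-- The position of the particle with label `u`; the first particle sits at `o`. -/
def pos (o : V) (s : List ℕ → V → V) : List ℕ → V
  | [] => o
  | i :: u => s (i :: u) (pos o s u)

/-- Law of the steps: all independent, a step from `x` has law `P x`. -/
noncomputable def steps [MeasurableSpace V] (P : V → PMF V) : Measure (List ℕ → V → V) :=
  Measure.infinitePi fun _ => Measure.infinitePi fun x => (P x).toMeasure

/-- Law of the branching Markov chain `(P, μ)`: i.i.d. offspring numbers with law `μ`, and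
independent steps. -/
noncomputable def law [MeasurableSpace V] (P : V → PMF V) (μ : PMF ℕ) : Measure (Om V) :=
  (Measure.infinitePi fun _ => μ.toMeasure).prod (steps P)

/-- With positive probability, `o` is occupied by some particle at infinitely many times. -/
def Recurrent [MeasurableSpace V] (P : V → PMF V) (μ : PMF ℕ) (o : V) : Prop :=
  0 < law P μ {ω | {n | ∃ u, u.length = n ∧ alive ω.1 u ∧ pos o ω.2 u = o}.Infinite}

/-- States ever occupied by a particle. -/
def Vis (o : V) (ω : Om V) : Set V := {x | ∃ u, alive ω.1 u ∧ pos o ω.2 u = x}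

/-- The trace: `x, y` are joined when some particle steps from one to the other. -/
def trace (o : V) (ω : Om V) : SimpleGraph (Vis o ω) :=
  SimpleGraph.fromRel fun x y =>
    ∃ i u, alive ω.1 (i :: u) ∧ pos o ω.2 u = x ∧ pos o ω.2 (i :: u) = y

open Classical in
/-- `Q` is the transition kernel of simple random walk on `H`. -/
def IsSRW (H : SimpleGraph V) (Q : V → PMF V) : Prop :=
  ∀ x y, Q x y = if H.Adj x y then ((H.neighborSet x).encard : ℝ≥0∞)⁻¹ else 0

lemma root_mem (o : V) (ω : Om V) : o ∈ Vis o ω := ⟨[], trivial, rfl⟩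

lemma pos_congr (o : V) {s t : List ℕ → V → V} :
    ∀ u : List ℕ, (∀ w, w <:+ u → s w = t w) → pos o s u = pos o t u
  | [], _ => rfl
  | i :: u, h => by
    simp only [pos]
    rw [h _ List.suffix_rfl, pos_congr o u fun w hw => h w (hw.trans (List.suffix_cons i u))]

lemma exists_srw (H : SimpleGraph V) (h : ∀ x, (H.neighborSet x).Finite)
    (hn : ∀ x, (H.neighborSet x).Nonempty) : ∃ Q, IsSRW H Q := by
  classical
  refine ⟨fun x => PMF.uniformOfFinset (h x).toFinset (by simpa using hn x), fun x y => ?_⟩
  rw [PMF.uniformOfFinset_apply, (h x).encard_eq_coe_toFinset_card]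
  simp

/-- labels of length `n` with all letters below `k` -/
def L (k : ℕ) : ℕ → Finset (List ℕ)
  | 0 => {[]}
  | n + 1 => (Finset.range k ×ˢ L k n).image fun p => p.1 :: p.2

lemma card_L (k : ℕ) : ∀ n, (L k n).card ≤ k ^ n
  | 0 => by simp [L]
  | n + 1 => by
    refine Finset.card_image_le.trans ?_
    rw [Finset.card_product, Finset.card_range, pow_succ']
    exact Nat.mul_le_mul_left _ (card_L k n)

lemma mem_L {k : ℕ} : ∀ {u : List ℕ}, alive (fun _ => k) u → u ∈ L k u.length
  | [], _ => by simp [L]
  | i :: u, h => by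
    simp only [L, List.length_cons, Finset.mem_image, Finset.mem_product, Finset.mem_range]
    exact ⟨(i, u), ⟨h.1, mem_L h.2⟩, rfl⟩

lemma len_L {k : ℕ} : ∀ {n : ℕ} {u : List ℕ}, u ∈ L k n → u.length = n
  | 0, u, h => by simp [L] at h; simp [h]
  | n + 1, u, h => by
    simp only [L, Finset.mem_image, Finset.mem_product] at h
    obtain ⟨p, ⟨-, h⟩, rfl⟩ := h
    simp [len_L h]

variable [MeasurableSpace V] [Countable V] [MeasurableSingletonClass V]

instance (P : V → PMF V) : IsProbabilityMeasure (steps P) := by unfold steps; infer_instance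

instance (P : V → PMF V) (μ : PMF ℕ) : IsProbabilityMeasure (law P μ) := by
  unfold law; infer_instance

lemma m_ev : Measurable fun p : V × (V → V) => p.2 p.1 :=
  measurable_from_prod_countable_right fun x => measurable_pi_apply x

lemma m_pos (o : V) : ∀ u : List ℕ, Measurable fun s => pos o s u
  | [] => measurable_const
  | i :: u => m_ev.comp ((m_pos o u).prodMk (measurable_pi_apply (i :: u)))

lemma indep (P : V → PMF V) (o : V) (u v w : List ℕ) (hu : ¬ w <:+ u) (hv : ¬ w <:+ v) :
    IndepFun (fun s => (pos o s u, pos o s v)) (fun s => s w) (steps P) := by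
  classical
  set S : Finset (List ℕ) := (u.tails ++ v.tails).toFinset with hS
  have h := (iIndepFun_infinitePi (P := fun _ : List ℕ =>
    Measure.infinitePi fun x => (P x).toMeasure) (X := fun _ ω => ω)
    (fun _ => measurable_id)).indepFun_finset S {w} (by simp [hS, hu, hv])
    (fun i => measurable_pi_apply i)
  let e : (S → V → V) → List ℕ → V → V := fun t z => if hz : z ∈ S then t ⟨z, hz⟩ else id
  have me : Measurable e := measurable_pi_lambda _ fun z => by
    by_cases hz : z ∈ S <;> simp only [e, hz, dite_true, dite_false] <;> fun_prop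
  have mψ : Measurable fun t : ({w} : Finset (List ℕ)) → V → V =>
      t ⟨w, Finset.mem_singleton_self w⟩ := measurable_pi_apply _
  have := h.comp (φ := fun t => (pos o (e t) u, pos o (e t) v))
    (((m_pos o u).comp me).prodMk ((m_pos o v).comp me)) mψ
  convert this using 1
  rotate_left
  · rfl
  · rfl
  funext s
  simp only [Function.comp]
  congr 1 <;> refine pos_congr o _ fun z hz => ?_ <;> simp [e, hS, hz]

lemma key (P : V → PMF V) (o : V) (i : ℕ) (u v : List ℕ) (hv : ¬ (i :: u) <:+ v)
    (g : V → V → V → ℝ≥0∞) :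
    ∫⁻ s, g (pos o s u) (pos o s v) (pos o s (i :: u)) ∂steps P =
      ∫⁻ s, ∑' z, P (pos o s u) z * g (pos o s u) (pos o s v) z ∂steps P := by
  have hu : ¬ (i :: u) <:+ u := fun h => by simpa using h.length_le
  have m1 := (m_pos o u).prodMk (m_pos o v)
  have h := (indep P o u v _ hu hv).map_prod_eq_prod_map_map m1.aemeasurable
    (measurable_pi_apply _).aemeasurable
  have mg : Measurable fun q : (V × V) × (V → V) => g q.1.1 q.1.2 (q.2 q.1.1) :=
    measurable_from_prod_countable_right fun x =>
      (measurable_of_countable (g x.1 x.2)).comp (measurable_pi_apply x.1)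
  have h1 := lintegral_map (μ := steps P) mg (m1.prodMk (measurable_pi_apply (i :: u)))
  simp only [pos]
  rw [← h1, h, lintegral_prod _ mg.aemeasurable,
    lintegral_map (measurable_of_countable _) m1]
  refine lintegral_congr fun s => ?_
  rw [steps, Measure.infinitePi_map_eval,
    ← lintegral_map (measurable_of_countable (g _ _)) (measurable_pi_apply _),
    Measure.infinitePi_map_eval, lintegral_countable']
  simp [mul_comm, PMF.toMeasure_apply_singleton]

lemma moment (P : V → PMF V) (o : V) (f : V → ℝ≥0∞) (c : ℝ≥0∞)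
    (h : ∀ x, ∑' z, P x z * f z ≤ c * f x) :
    ∀ u : List ℕ, ∫⁻ s, f (pos o s u) ∂steps P ≤ c ^ u.length * f o
  | [] => by simp [pos]
  | i :: u => by
    rw [key P o i u u (fun h => by simpa using h.length_le) fun _ _ z => f z]
    refine (lintegral_mono fun s => h _).trans ?_
    rw [lintegral_const_mul (f := fun s => f (pos o s u)) _
      ((measurable_of_countable f).comp (m_pos o u)), List.length_cons, pow_succ', mul_assoc]
    gcongr
    exact moment P o f c h u

lemma ae_pure (P : V → PMF V) (k : ℕ) : law P (PMF.pure k) {ω | ω.1 ≠ fun _ => k} = 0 := by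
  have : {ω : Om V | ω.1 ≠ fun _ => k} = ⋃ u, {N : List ℕ → ℕ | N u ≠ k} ×ˢ univ := by
    ext ω; simp [funext_iff]
  rw [this]
  refine measure_iUnion_null fun u => ?_
  rw [law, Measure.prod_prod]
  have := (measurePreserving_eval_infinitePi (fun _ : List ℕ => (PMF.pure k).toMeasure)
    u).measure_preimage (s := {k}ᶜ) MeasurableSet.of_discrete.nullMeasurableSet
  refine mul_eq_zero_of_left (this.trans ?_) _
  simp [PMF.toMeasure_pure]

lemma law_snd (P : V → PMF V) (μ : PMF ℕ) (B : Set (List ℕ → V → V)) :
    law P μ {ω | ω.2 ∈ B} = steps P B := by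
  rw [show {ω : Om V | ω.2 ∈ B} = univ ×ˢ B by ext; simp, law, Measure.prod_prod]; simp

lemma transient (P : V → PMF V) (o : V) (f : V → ℝ≥0∞) (c : ℝ≥0∞) (k : ℕ) (ho : f o = 1)
    (h : ∀ x, ∑' z, P x z * f z ≤ c * f x) (hc : k * c < 1) : ¬ Recurrent P (PMF.pure k) o := by
  let E : ℕ → Set (List ℕ → V → V) := fun n => ⋃ u ∈ L k n, {s | pos o s u = o}
  have hE : ∀ n, steps P (E n) ≤ (k * c) ^ n := fun n => by
    refine (measure_biUnion_finset_le _ _).trans ?_
    refine (Finset.sum_le_card_nsmul _ _ (c ^ n) fun u hu => ?_).trans ?_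
    · have := moment P o f c h u
      rw [ho, mul_one, len_L hu] at this
      refine le_trans ?_ this
      rw [← lintegral_indicator_one (s := {s | pos o s u = o})
        ((m_pos o u) (measurableSet_singleton o))]
      refine lintegral_mono fun s => indicator_apply_le' (fun hs => ?_) fun _ => zero_le
      rw [show pos o s u = o from hs, ho]; rfl
    · rw [nsmul_eq_mul, mul_pow]
      gcongr
      exact_mod_cast card_L k n
  have h0 : steps P {s | ∃ᶠ n in atTop, s ∈ E n} = 0 := by
    refine measure_setOfPred_frequently_eq_zero (ne_top_of_le_ne_top ?_ (ENNReal.tsum_le_tsum hE))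
    rw [ENNReal.tsum_geometric]
    simpa [tsub_eq_zero_iff_le] using hc
  rw [← law_snd P (PMF.pure k)] at h0
  refine (le_of_eq (measure_mono_null (fun ω hω => ?_)
    (measure_union_null (ae_pure P k) h0))).not_gt
  by_cases e : ω.1 = fun _ => k
  · refine Or.inr (Nat.frequently_atTop_iff_infinite.2 (Set.Infinite.mono ?_ hω))
    rintro n ⟨u, rfl, a, b⟩
    exact mem_biUnion (mem_L (e ▸ a)) b
  · exact Or.inl e

end Pool.Agent.Lib.helper12.Bmc
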