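import Pool.Agent.Lib.helper12.ConjB

set_option autoImplicit false
open Equiv
open Function hiding swap

namespace Pool.Agent.Lib.helper12.Conj

lemma eq_of_dvd {a b : ℕ} (h : ∀ n, a ∣ n ↔ b ∣ n) : a = b :=
  Nat.dvd_antisymm ((h b).2 dvd_rfl) ((h a).1 dvd_rfl)

lemma minPer_cycle {α : Type} [Fintype α] [DecidableEq α] (σ : Perm α) (x : α) (hx : σ x ≠ x) :
    minimalPeriod σ x = (σ.cycleOf x).support.card := by
  have hc := σ.isCycle_cycleOf hx
  rw [← hc.orderOf]
  refine eq_of_dvd fun n => ?_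
  rw [← isPeriodicPt_iff_minimalPeriod_dvd, orderOf_dvd_iff_pow_eq_one,
    hc.pow_eq_one_iff' (x := x) (by simpa using hx), Perm.cycleOf_pow_apply_self]
  rfl

lemma count_cycle {α : Type} [Fintype α] [DecidableEq α] (σ : Perm α) (j : ℕ) (hj : 2 ≤ j) :
    (Finset.univ.filter fun x => minimalPeriod σ x = j).card = σ.cycleType.count j * j := by
  have hne : ∀ x, minimalPeriod σ x = j → σ x ≠ x := fun x hx h => by
    rw [minimalPeriod_eq_one_iff_isFixedPt.2 h] at hx; omega
  rw [Finset.card_eq_sum_card_fiberwise (f := σ.cycleOf)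
    (t := σ.cycleFactorsFinset.filter fun c => c.support.card = j), Perm.CycleType.count_def,
    Finset.sum_const_nat (m := j)]
  · congr 1
    rw [Fintype.subtype_card, Finset.univ_eq_attach, Finset.filter_attach', Finset.card_map,
      Finset.card_attach]
    congr 1
    ext c; simp
  · intro c hc
    obtain ⟨h1, h2⟩ := Finset.mem_filter.1 hc
    rw [← h2]
    congr 1
    ext x
    simp only [Finset.mem_filter, Finset.mem_univ, true_and]
    constructor
    · rintro ⟨a, rfl⟩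
      rw [Perm.mem_support, Perm.cycleOf_apply_self]
      exact hne x (a.trans h2)
    · intro hx
      have e := (Perm.cycle_is_cycleOf hx h1).symm
      refine ⟨?_, e⟩
      rw [minPer_cycle σ x (Perm.mem_support.1 (Perm.mem_cycleFactorsFinset_support_le h1 hx)), e]
  · intro x hx
    have h1 := (Finset.mem_filter.1 hx).2
    exact Finset.mem_filter.2 ⟨Perm.cycleOf_mem_cycleFactorsFinset_iff.2
      (Perm.mem_support.2 (hne x h1)), by rw [← minPer_cycle σ x (hne x h1), h1]⟩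

lemma conj_of_count {α : Type} [Fintype α] [DecidableEq α] (σ τ : Perm α) (m : ℕ)
    (h : ∀ j, j ≠ m → (Finset.univ.filter fun x => minimalPeriod σ x = j).card =
      (Finset.univ.filter fun x => minimalPeriod τ x = j).card) : IsConj σ τ := by
  have h' : ∀ j, (Finset.univ.filter fun x => minimalPeriod σ x = j).card =
      (Finset.univ.filter fun x => minimalPeriod τ x = j).card := by
    intro j
    by_cases hj : j = m
    swap
    · exact h j hj
    subst hj
    let t := (Finset.univ.image (minimalPeriod σ) ∪ Finset.univ.image (minimalPeriod τ)) ∪ {j}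
    have a1 := Finset.card_eq_sum_card_fiberwise (f := minimalPeriod σ) (s := Finset.univ) (t := t)
      fun x _ => by simp [t]
    have a2 := Finset.card_eq_sum_card_fiberwise (f := minimalPeriod τ) (s := Finset.univ) (t := t)
      fun x _ => by simp [t]
    have hj : j ∈ t := by simp [t]
    rw [← Finset.add_sum_erase _ _ hj] at a1 a2
    rw [Finset.sum_congr rfl fun i hi => h i (Finset.ne_of_mem_erase hi)] at a1
    omega
  refine Perm.isConj_of_cycleType_eq (Multiset.ext.2 fun j => ?_)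
  by_cases hj : 2 ≤ j
  · have := h' j
    rw [count_cycle σ j hj, count_cycle τ j hj] at this
    exact Nat.eq_of_mul_eq_mul_right (by omega) this
  · rw [Multiset.count_eq_zero.2 fun e => hj (Perm.two_le_of_mem_cycleType e),
      Multiset.count_eq_zero.2 fun e => hj (Perm.two_le_of_mem_cycleType e)]

lemma small_sets {α : Type} [DecidableEq α] (U : Finset α) (d : ℕ) :
    (U.powerset.filter fun s => s.card ≤ d).card ≤ (U.card + 1) ^ d := by
  induction d with
  | zero =>
    refine Finset.card_le_one.2 fun a ha b hb => ?_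
    simp only [Finset.mem_filter, Nat.le_zero, Finset.card_eq_zero] at ha hb
    rw [ha.2, hb.2]
  | succ d ih =>
    have : (U.powerset.filter fun s => s.card ≤ d + 1) ⊆ (U.powerset.filter fun s => s.card ≤ d) ∪
        Finset.image₂ insert U (U.powerset.filter fun s => s.card ≤ d) := by
      intro s hs
      simp only [Finset.mem_filter, Finset.mem_powerset] at hs
      by_cases h : s.card ≤ d
      · exact Finset.mem_union_left _ (by simp [hs.1, h])
      · obtain ⟨a, ha⟩ := Finset.card_pos.1 (show 0 < s.card by omega)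
        refine Finset.mem_union_right _ (Finset.mem_image₂.2 ⟨a, hs.1 ha, s.erase a, ?_,
          Finset.insert_erase ha⟩)
        simp only [Finset.mem_filter, Finset.mem_powerset]
        exact ⟨(Finset.erase_subset _ _).trans hs.1, by rw [Finset.card_erase_of_mem ha]; omega⟩
    have h1 := (Finset.card_le_card this).trans (Finset.card_union_le _ _)
    have h2 := Finset.card_image₂_le insert U (U.powerset.filter fun s => s.card ≤ d)
    rw [pow_succ]
    nlinarith

variable {Q : Type} [Group Q] [DecidableEq Q] (SQ : Finset Q) (M : ℕ) [NeZero M]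

def rho : Q →* Perm (Q × ZMod M) :=
  MonoidHom.mk' (fun q => prodCongr (Equiv.mulLeft q) (Equiv.refl _)) fun a b => by
    ext x <;> simp [mul_assoc]

omit [DecidableEq Q] [NeZero M] in
lemma rho_apply (q : Q) (x : Q × ZMod M) : rho M q x = (q * x.1, x.2) := rfl

def E0 : Finset (Q × ZMod M) := insert 1 SQ ×ˢ Finset.univ

def gens : Set (Perm (Q × ZMod M)) := rho M '' SQ ∪ {σ | ∀ x, x ∉ E0 SQ M → σ x = x}

lemma gens_fin : (gens SQ M).Finite := by
  refine (SQ.finite_toSet.image _).union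
    ((Set.finite_range (Perm.ofSubtype (p := (· ∈ E0 SQ M)))).subset fun σ hσ => ?_)
  refine ⟨σ.subtypePerm fun x => ?_, Perm.ofSubtype_subtypePerm _ fun x hx => ?_⟩
  · constructor
    · intro h; by_contra h'; rw [hσ x h'] at h; exact h' h
    · intro h; by_contra h'
      rw [σ.injective (hσ _ h')] at h'; exact h' h
  · by_contra h; exact hx (hσ x h)

abbrev AA : Subgroup (Perm (Q × ZMod M)) := Subgroup.closure (gens SQ M)

noncomputable def SA : Finset (AA SQ M) :=
  ((gens_fin SQ M).preimage Subtype.val_injective.injOn).toFinset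

lemma mem_SA (s : AA SQ M) : s ∈ SA SQ M ↔ s.1 ∈ gens SQ M := by simp [SA]

lemma SA_gen : Subgroup.closure (SA SQ M : Set (AA SQ M)) = ⊤ := by
  have : (SA SQ M : Set (AA SQ M)) = Subtype.val ⁻¹' gens SQ M := by ext s; simp [mem_SA]
  rw [this]
  exact Subgroup.closure_closure_coe_preimage

variable {SQ}

lemma rho_mem (hS : Subgroup.closure (SQ : Set Q) = ⊤) (q : Q) : rho M q ∈ AA SQ M := by
  have hq : q ∈ Subgroup.closure (SQ : Set Q) := hS ▸ Subgroup.mem_top q
  induction hq using Subgroup.closure_induction with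
  | mem s hs => exact Subgroup.subset_closure (Or.inl ⟨s, hs, rfl⟩)
  | one => rw [map_one]; exact one_mem _
  | mul a b _ _ ha hb => rw [map_mul]; exact mul_mem ha hb
  | inv a _ ha => rw [map_inv]; exact inv_mem ha

lemma swap_mem (hS : Subgroup.closure (SQ : Set Q) = ⊤) (a b : Q × ZMod M) :
    swap a b ∈ AA SQ M := by
  have g1 : ∀ a ∈ E0 SQ M, ∀ b ∈ E0 SQ M, swap a b ∈ AA SQ M := fun a ha b hb =>
    Subgroup.subset_closure (Or.inr fun x hx =>
      swap_apply_of_ne_of_ne (fun e => hx (e ▸ ha)) fun e => hx (e ▸ hb))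
  have g2 : ∀ q a b, swap a b ∈ AA SQ M → swap (rho M q a) (rho M q b) ∈ AA SQ M := by
    intro q a b h
    rw [swap_apply_apply]
    exact mul_mem (mul_mem (rho_mem M hS q) h) (inv_mem (rho_mem M hS q))
  have g3 : ∀ a b c, swap a b ∈ AA SQ M → swap b c ∈ AA SQ M → swap a c ∈ AA SQ M := by
    intro a b c h h'
    by_cases e1 : a = b
    · rwa [e1]
    by_cases e2 : a = c
    · rw [e2, swap_self]; exact one_mem _
    have := mul_mem (mul_mem h' h) h'
    rwa [swap_mul_swap_mul_swap e1 e2, swap_comm] at this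
  have g4 : ∀ q, swap (1, 0) (rho M q (1, 0)) ∈ AA SQ M := by
    intro q
    have hq : q ∈ Subgroup.closure (SQ : Set Q) := hS ▸ Subgroup.mem_top q
    induction hq using Subgroup.closure_induction with
    | mem s hs => exact g1 _ (by simp [E0]) _ (by simp [E0, rho_apply, show s ∈ SQ from hs])
    | one => rw [map_one, Perm.one_apply, swap_self]; exact one_mem _
    | mul a b _ _ ha hb => rw [map_mul]; exact g3 _ _ _ ha (g2 a _ _ hb)
    | inv a _ ha =>
      have := g2 a⁻¹ _ _ ha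
      rw [swap_comm]
      simpa using this
  have g5 : ∀ a, swap (1, 0) a ∈ AA SQ M := by
    rintro ⟨z, i⟩
    have := g3 _ _ _ (g4 z) (g2 z _ _ (g1 (1, 0) (by simp [E0]) (1, i) (by simp [E0])))
    simpa [rho_apply] using this
  exact g3 _ (1, 0) _ (by rw [swap_comm]; exact g5 a) (g5 b)

lemma fin_mem (hS : Subgroup.closure (SQ : Set Q) = ⊤) (E : Finset (Q × ZMod M))
    (c : Perm {x // x ∈ E}) : Perm.ofSubtype c ∈ AA SQ M := by
  induction c using Perm.swap_induction_on with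
  | one => rw [map_one]; exact one_mem _
  | swap_mul f x y _ ih =>
    rw [map_mul, Perm.ofSubtype_swap_eq]
    exact mul_mem (swap_mem M hS _ _) ih

lemma A_struct (n : ℕ) : ∀ g ∈ ball (SA SQ M) n, ∃ q ∈ ball SQ n, ∃ D : Finset (Q × ZMod M),
    D.card ≤ (E0 SQ M).card * n ∧ ∀ x, x ∉ D → g.1 x = rho M q x := by
  induction n with
  | zero =>
    intro g hg
    rw [ball_zero] at hg ⊢
    subst hg
    exact ⟨1, rfl, ∅, by simp, by simp⟩
  | succ n ih =>
    intro g hg
    obtain ⟨s, h, hs, hh, rfl⟩ := ball_succ.1 hg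
    obtain ⟨q, a1, D, a2, a3⟩ := ih h hh
    have : ∃ p, Gen SQ p ∧ ∀ x, x ∉ E0 SQ M → s.1 x = rho M p x := by
      rcases hs with rfl | hs | hs
      · exact ⟨1, Or.inl rfl, by simp⟩
      · rcases (mem_SA _ _ _).1 hs with ⟨p, hp, e⟩ | h
        · exact ⟨p, Or.inr (Or.inl hp), fun x _ => by rw [e]⟩
        · exact ⟨1, Or.inl rfl, by simpa using h⟩
      · rcases (mem_SA _ _ _).1 hs with ⟨p, hp, e⟩ | h
        · refine ⟨p⁻¹, Or.inr (Or.inr (by simpa using hp)), fun x _ => ?_⟩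
          rw [map_inv, e]; simp
        · refine ⟨1, Or.inl rfl, fun x hx => ?_⟩
          have := h x hx
          rw [Subgroup.coe_inv, Perm.inv_eq_iff_eq] at this
          simpa using this.symm
    obtain ⟨p, b1, b2⟩ := this
    refine ⟨p * q, ball_succ.2 ⟨p, q, b1, a1, rfl⟩, D ∪ (E0 SQ M).image (rho M q).symm, ?_,
      fun x hx => ?_⟩
    · have := Finset.card_union_le D ((E0 SQ M).image (rho M q).symm)
      have := Finset.card_image_le (s := E0 SQ M) (f := (rho M q).symm)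
      rw [mul_add]; omega
    · rw [Finset.notMem_union] at hx
      rw [Subgroup.coe_mul, Perm.mul_apply, a3 x hx.1, b2, map_mul, Perm.mul_apply]
      exact fun e => hx.2 (Finset.mem_image.2 ⟨_, e, by simp⟩)

omit [NeZero M] in
lemma hull (q : Q) (hq : 0 < orderOf q) (D : Finset (Q × ZMod M)) :
    ∃ E : Finset (Q × ZMod M), D ⊆ E ∧ E.card ≤ orderOf q * D.card ∧
      ∀ x, x ∉ E → rho M q x ∉ E := by
  refine ⟨(Finset.range (orderOf q)).biUnion fun j => D.image (rho M (q ^ j)), fun x hx => ?_, ?_,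
    fun x hx h => hx ?_⟩
  · exact Finset.mem_biUnion.2 ⟨0, by simpa using hq, by simpa using hx⟩
  · refine (Finset.card_biUnion_le_card_mul _ _ D.card fun _ _ => Finset.card_image_le).trans ?_
    simp
  · obtain ⟨j, -, h⟩ := Finset.mem_biUnion.1 h
    obtain ⟨y, hy, e⟩ := Finset.mem_image.1 h
    refine Finset.mem_biUnion.2 ⟨(j + (orderOf q - 1)) % orderOf q,
      Finset.mem_range.2 (Nat.mod_lt _ hq), Finset.mem_image.2 ⟨y, hy, (rho M q).injective ?_⟩⟩
    rw [← e, pow_mod_orderOf, ← Perm.mul_apply, ← map_mul, ← pow_succ',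
      show j + (orderOf q - 1) + 1 = j + orderOf q by omega, pow_add, pow_orderOf_eq_one, mul_one]

omit [NeZero M] [DecidableEq Q] in
lemma per_out (q : Q) (E : Finset (Q × ZMod M)) (hE : ∀ x, x ∉ E → rho M q x ∉ E)
    (g : Perm (Q × ZMod M)) (hg : ∀ x, x ∉ E → g x = rho M q x) (x : Q × ZMod M) (hx : x ∉ E) :
    minimalPeriod g x = orderOf q := by
  have : ∀ n : ℕ, g^[n] x = rho M (q ^ n) x ∧ g^[n] x ∉ E := by
    intro n
    induction n with
    | zero => simpa using hx
    | succ n ih =>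
      rw [iterate_succ_apply', hg _ ih.2]
      exact ⟨by rw [ih.1, pow_succ', map_mul]; rfl, hE _ ih.2⟩
  refine eq_of_dvd fun n => ?_
  rw [← isPeriodicPt_iff_minimalPeriod_dvd, orderOf_dvd_iff_pow_eq_one]
  change g^[n] x = x ↔ _
  rw [(this n).1, rho_apply, Prod.ext_iff]
  simp

noncomputable def cnt {α : Type} (g : α → α) (j : ℕ) : ℕ := {x | minimalPeriod g x = j}.ncard

lemma A_conj (hS : Subgroup.closure (SQ : Set Q) = ⊤) (q : Q) (hq : 0 < orderOf q)
    (g g' : AA SQ M) (D D' : Finset (Q × ZMod M)) (hg : ∀ x, x ∉ D → g.1 x = rho M q x)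
    (hg' : ∀ x, x ∉ D' → g'.1 x = rho M q x) (h : ∀ j, j ≠ orderOf q → cnt g.1 j = cnt g'.1 j) :
    IsConj g g' := by
  obtain ⟨E, h1, -, hE⟩ := hull M q hq (D ∪ D')
  have inv : ∀ f : Perm (Q × ZMod M), (∀ x, x ∉ E → f x = rho M q x) → ∀ x, f x ∈ E ↔ x ∈ E := by
    intro f hf
    have b : ∀ x, f x ∈ E → x ∈ E := fun x h => by
      by_contra h'; rw [hf x h'] at h; exact hE x h' h
    exact fun x => ⟨b x, fun h => Perm.perm_symm_on_of_perm_on_finset (f := f⁻¹)
      (fun y hy => b _ (by simpa using hy)) h⟩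
  have a : ∀ x, x ∉ E → g.1 x = rho M q x := fun x hx =>
    hg x fun e => hx (h1 (Finset.mem_union_left _ e))
  have a' : ∀ x, x ∉ E → g'.1 x = rho M q x := fun x hx =>
    hg' x fun e => hx (h1 (Finset.mem_union_right _ e))
  have key : ∀ (f : Perm (Q × ZMod M)) (hf : ∀ x, x ∉ E → f x = rho M q x) (j : ℕ),
      j ≠ orderOf q → (Finset.univ.filter fun x =>
        minimalPeriod (f.subtypePerm (inv f hf)) x = j).card = cnt f j := by
    intro f hf j hj
    have e : ∀ x, minimalPeriod (f.subtypePerm (inv f hf)) x = minimalPeriod f x.1 := fun x =>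
      minimalPeriod_eq_minimalPeriod_iff.2 fun n => by
        unfold IsPeriodicPt IsFixedPt
        rw [Perm.iterate_eq_pow, Perm.iterate_eq_pow, Perm.subtypePerm_pow, Subtype.ext_iff]; rfl
    rw [cnt, ← Set.ncard_coe_finset, ← Set.ncard_image_of_injective _ Subtype.val_injective]
    congr 1
    ext x
    simp only [e, Finset.coe_filter, Finset.mem_univ, true_and, Set.mem_image, Set.mem_ofPred_eq]
    constructor
    · rintro ⟨y, hy, rfl⟩; exact hy
    · intro hx
      refine ⟨⟨x, ?_⟩, hx, rfl⟩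
      by_contra h'
      exact hj (hx ▸ per_out M q E hE f hf x h')
  obtain ⟨c, hc⟩ := isConj_iff.1 (conj_of_count (g.1.subtypePerm (inv _ a))
    (g'.1.subtypePerm (inv _ a')) (orderOf q) fun j hj => by rw [key _ a j hj, key _ a' j hj, h j hj])
  refine isConj_iff.2 ⟨⟨_, fin_mem M hS E c⟩, Subtype.ext ?_⟩
  rw [mul_inv_eq_iff_eq_mul] at hc
  rw [Subgroup.coe_mul, Subgroup.coe_inv, mul_inv_eq_iff_eq_mul, Subgroup.coe_mul]
  refine Equiv.ext fun x => ?_
  simp only [Perm.mul_apply]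
  by_cases hx : x ∈ E
  · rw [Perm.ofSubtype_apply_of_mem c hx, Perm.ofSubtype_apply_of_mem c ((inv _ a x).2 hx)]
    exact congrArg (fun t : Perm {x // x ∈ E} => (t ⟨x, hx⟩).1) hc
  · rw [Perm.ofSubtype_apply_of_not_mem c hx,
      Perm.ofSubtype_apply_of_not_mem c (mt (inv _ a x).1 hx), a x hx, a' x hx]

lemma cnt_data {α : Type} [DecidableEq α] (g : α → α) (E : Finset α) (m N K : ℕ) (hN : E.card ≤ N)
    (hK : 0 < K) (h : ∀ x, x ∉ E → minimalPeriod g x = m) :
    ∃ R ∈ (Finset.range (N + 1) ×ˢ Finset.range (N + 1)).powerset.filter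
      fun s => s.card ≤ K + N / K, ∀ j c, (j, c) ∈ R ↔ j ≠ m ∧ 0 < c ∧ cnt g j = c := by
  have e : ∀ j, j ≠ m → cnt g j = (E.filter fun x => minimalPeriod g x = j).card := by
    intro j hj
    rw [cnt, ← Set.ncard_coe_finset]
    congr 1
    ext x
    simp only [Set.mem_ofPred_eq, Finset.coe_filter, iff_and_self]
    intro hx; by_contra h'; exact hj (hx ▸ h x h')
  have le : ∀ j, j ≠ m → 0 < cnt g j → j ≤ cnt g j := by
    intro j hj h0
    rw [e j hj] at h0 ⊢
    obtain ⟨x, hx⟩ := Finset.card_pos.1 h0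
    obtain ⟨-, h2⟩ := Finset.mem_filter.1 hx
    rcases Nat.eq_zero_or_pos j with rfl | hj0
    · omega
    have hp : x ∈ periodicPts g := minimalPeriod_pos_iff_mem_periodicPts.1 (by omega)
    conv_lhs => rw [← Finset.card_range j]
    refine Finset.card_le_card_of_injOn (fun i => g^[i] x) (fun i _ => ?_) ?_
    · have h3 := (minimalPeriod_apply_iterate hp i).trans h2
      refine Finset.mem_filter.2 ⟨?_, h3⟩
      by_contra h'; exact hj (h3 ▸ h _ h')
    · rw [Finset.coe_range, ← h2]; exact iterate_injOn_Iio_minimalPeriod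
  have leN : ∀ j, j ≠ m → cnt g j ≤ N := fun j hj =>
    (e j hj).trans_le ((Finset.card_filter_le _ _).trans hN)
  let J := (Finset.range (N + 1)).filter fun j => j ≠ m ∧ 0 < cnt g j
  refine ⟨J.image fun j => (j, cnt g j), ?_, fun j c => ?_⟩
  · simp only [Finset.mem_filter, Finset.mem_powerset]
    refine ⟨fun p hp => ?_, Finset.card_image_le.trans ?_⟩
    · obtain ⟨j, hj, rfl⟩ := Finset.mem_image.1 hp
      obtain ⟨a, b, -⟩ := Finset.mem_filter.1 hj
      exact Finset.mem_product.2 ⟨a, Finset.mem_range.2 (Nat.lt_succ_of_le (leN j b))⟩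
    · rw [← Finset.card_filter_add_card_filter_not (s := J) (fun j => j < K)]
      refine add_le_add ((Finset.card_le_card (t := Finset.range K) fun j hj => by
        simpa using (Finset.mem_filter.1 hj).2).trans (by simp)) ?_
      rw [Nat.le_div_iff_mul_le hK]
      refine le_trans ?_ hN
      calc _ ≤ ∑ j ∈ J.filter (fun j => ¬ j < K), (E.filter fun x => minimalPeriod g x = j).card := by
            rw [← smul_eq_mul, ← Finset.sum_const]
            refine Finset.sum_le_sum fun j hj => ?_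
            obtain ⟨a, b⟩ := Finset.mem_filter.1 hj
            obtain ⟨-, c, d⟩ := Finset.mem_filter.1 a
            rw [← e j c]
            exact (not_lt.1 b).trans (le j c d)
        _ ≤ _ := by
            rw [Finset.sum_card_fiberwise_eq_card_filter]; exact Finset.card_filter_le _ _
  · simp only [Finset.mem_image, Prod.mk.injEq, J, Finset.mem_filter, Finset.mem_range]
    constructor
    · rintro ⟨_, ⟨-, a, b⟩, rfl, rfl⟩; exact ⟨a, b, rfl⟩
    · rintro ⟨a, b, rfl⟩
      exact ⟨j, ⟨Nat.lt_succ_of_le ((le j a b).trans (leN j a)), a, b⟩, rfl, rfl⟩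

lemma A_count (hS : Subgroup.closure (SQ : Set Q) = ⊤) (n P K : ℕ) (hK : 0 < K)
    (hP : ∀ q ∈ ball SQ n, 0 < orderOf q ∧ orderOf q ≤ P) :
    (ConjClasses.mk '' ball (SA SQ M) n).ncard ≤ (ball SQ n).ncard *
      ((P * ((E0 SQ M).card * n) + 1) ^ 2 + 1) ^ (K + P * ((E0 SQ M).card * n) / K) := by
  set N := P * ((E0 SQ M).card * n)
  let T := (Finset.range (N + 1) ×ˢ Finset.range (N + 1)).powerset.filter
      fun s => s.card ≤ K + N / K
  have h : ∀ b : ConjClasses (AA SQ M), ∃ (g : AA SQ M) (q : Q) (D : Finset (Q × ZMod M))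
      (R : Finset (ℕ × ℕ)), b ∈ ConjClasses.mk '' ball (SA SQ M) n → ConjClasses.mk g = b ∧
      q ∈ ball SQ n ∧ (∀ x, x ∉ D → g.1 x = rho M q x) ∧ R ∈ T ∧
      ∀ j c, (j, c) ∈ R ↔ j ≠ orderOf q ∧ 0 < c ∧ cnt g.1 j = c := by
    intro b
    by_cases hb : b ∈ ConjClasses.mk '' ball (SA SQ M) n
    swap
    · exact ⟨1, 1, ∅, ∅, fun e => absurd e hb⟩
    obtain ⟨g, hg, rfl⟩ := hb
    obtain ⟨q, a1, D, a2, a3⟩ := A_struct M n g hg
    obtain ⟨E, b1, b2, b3⟩ := hull M q (hP q a1).1 D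
    obtain ⟨R, c1, c2⟩ := cnt_data g.1 E (orderOf q) N K
      (b2.trans (Nat.mul_le_mul (hP q a1).2 a2)) hK
      (per_out M q E b3 _ fun x hx => a3 x fun e => hx (b1 e))
    exact ⟨g, q, D, R, fun _ => ⟨rfl, a1, a3, c1, c2⟩⟩
  choose g q D R h using h
  refine (Set.ncard_le_ncard_of_injOn (t := ball SQ n ×ˢ (T : Set _)) (fun b => (q b, R b))
    (fun b hb => ⟨(h b hb).2.1, (h b hb).2.2.2.1⟩) (fun b hb b' hb' e => ?_)
    ((ball_fin SQ n).prod T.finite_toSet)).trans ?_
  · obtain ⟨a1, a2, a3, -, a4⟩ := h b hb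
    obtain ⟨b1, -, b3, -, b4⟩ := h b' hb'
    obtain ⟨e1, e2⟩ := Prod.ext_iff.1 e
    simp only at e1 e2
    rw [← e1] at b3 b4
    rw [← e2] at b4
    rw [← a1, ← b1]
    refine ConjClasses.mk_eq_mk_iff_isConj.2 (A_conj M hS _ (hP _ a2).1 _ _ _ _ a3 b3 fun j hj => ?_)
    have c1 := (a4 j (cnt (g b).1 j)).symm.trans (b4 _ _)
    have c2 := (a4 j (cnt (g b').1 j)).symm.trans (b4 _ _)
    simp only [hj, ne_eq, not_false_eq_true, true_and, and_true] at c1 c2
    omega
  · rw [Set.ncard_prod, Set.ncard_coe_finset]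
    refine Nat.mul_le_mul_left _ ((small_sets _ _).trans_eq ?_)
    simp [sq]

def tau (c : ZMod M) : Perm (Q × ZMod M) where
  toFun p := (p.1, p.2 + if p.1 = 1 then c else 0)
  invFun p := (p.1, p.2 - if p.1 = 1 then c else 0)
  left_inv p := by simp
  right_inv p := by simp

lemma A_many (hS : Subgroup.closure (SQ : Set Q) = ⊤) (n : ℕ) : ∀ q ∈ ball SQ n,
    (∀ m < n, q ∉ ball SQ m) → ∃ B : Finset (AA SQ M), B.card = M ^ n ∧
    ∀ g ∈ B, g ∈ ball (SA SQ M) (2 * n) ∧ ∃ F : Q → ZMod M,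
      (∀ z i, g.1 (z, i) = (q * z, i + F z)) ∧ ∀ z, F z ≠ 0 → z⁻¹ ∈ ball SQ n := by
  classical
  induction n with
  | zero =>
    intro q hq _
    rw [ball_zero] at hq
    subst hq
    exact ⟨{1}, by simp, by simpa [ball_zero] using ⟨0, by simp, by simp⟩⟩
  | succ n ih =>
    intro q hq hq'
    obtain ⟨s, h, hs, hh, rfl⟩ := ball_succ.1 hq
    obtain ⟨B, a1, a2⟩ := ih h hh fun m hm e => hq' (m + 1) (by omega)
      (ball_succ.2 ⟨s, h, hs, e, rfl⟩)
    have ht : ∀ c, tau M c ∈ gens SQ M := fun c => Or.inr fun x hx => by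
      have : x.1 ≠ 1 := fun e => hx (by simp [E0, e])
      simp [tau, this]
    let t : ZMod M → AA SQ M := fun c => ⟨tau M c, Subgroup.subset_closure (ht c)⟩
    let r : AA SQ M := ⟨_, rho_mem M hS s⟩
    have hr : Gen (SA SQ M) r := by
      rcases hs with rfl | hs | hs
      · exact Or.inl (Subtype.ext (map_one _))
      · exact Or.inr (Or.inl ((mem_SA _ _ _).2 (Or.inl ⟨s, hs, rfl⟩)))
      · exact Or.inr (Or.inr ((mem_SA _ _ _).2 (Or.inl ⟨s⁻¹, hs, map_inv _ _⟩)))
    have val : ∀ c, ∀ g : AA SQ M, ∀ F : Q → ZMod M, (∀ z i, g.1 (z, i) = (h * z, i + F z)) →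
        ∀ z i, (t c * (r * g)).1 (z, i) =
          (s * h * z, i + (F z + if s * h * z = 1 then c else 0)) := by
      intro c g F hF z i
      change tau M c (rho M s (g.1 (z, i))) = _
      rw [hF]
      simp [tau, rho_apply, mul_assoc, add_assoc]
    refine ⟨(Finset.univ ×ˢ B).image fun p => t p.1 * (r * p.2), ?_, fun g hg => ?_⟩
    · rw [Finset.card_image_of_injOn, Finset.card_product, a1, Finset.card_univ, ZMod.card, pow_succ']
      rintro ⟨c, g⟩ hg ⟨c', g'⟩ hg' e
      obtain ⟨-, F, b1, b2⟩ := a2 g (Finset.mem_product.1 hg).2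
      obtain ⟨-, F', b3, b4⟩ := a2 g' (Finset.mem_product.1 hg').2
      have c1 : F (s * h)⁻¹ = 0 := by
        by_contra h0; exact hq' n (by omega) (by simpa using b2 _ h0)
      have c2 : F' (s * h)⁻¹ = 0 := by
        by_contra h0; exact hq' n (by omega) (by simpa using b4 _ h0)
      have c3 := congrArg (fun u : AA SQ M => (u.1 ((s * h)⁻¹, 0)).2) e
      simp only [val c g F b1, val c' g' F' b3, c1, c2, mul_inv_cancel, if_true, zero_add] at c3
      subst c3
      simp only [mul_right_inj] at e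
      rw [e]
    · obtain ⟨⟨c, g⟩, hp, rfl⟩ := Finset.mem_image.1 hg
      obtain ⟨b0, F, b1, b2⟩ := a2 g (Finset.mem_product.1 hp).2
      refine ⟨ball_succ.2 ⟨_, _, Or.inr (Or.inl ((mem_SA _ _ _).2 (ht c))),
        ball_succ.2 ⟨_, _, hr, b0, rfl⟩, rfl⟩, _, val c g F b1, fun z hz => ?_⟩
      by_cases h1 : s * h * z = 1
      · rwa [← eq_inv_of_mul_eq_one_left h1]
      · exact ball_mono (by omega) (b2 z (by simpa [h1] using hz))

omit [DecidableEq Q] in
lemma exact_len [Infinite Q] (hall : ∀ q, ∃ n, q ∈ ball SQ n) (n : ℕ) :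
    ∃ q ∈ ball SQ n, ∀ m < n, q ∉ ball SQ m := by
  classical
  have down : ∀ d, ∀ q ∈ ball SQ (n + d), (∀ m < n + d, q ∉ ball SQ m) →
      ∃ q ∈ ball SQ n, ∀ m < n, q ∉ ball SQ m := by
    intro d
    induction d with
    | zero => exact fun q h1 h2 => ⟨q, h1, h2⟩
    | succ d ih =>
      intro q h1 h2
      obtain ⟨s, h, hs, hh, rfl⟩ := ball_succ.1 h1
      exact ih h hh fun m hm e => h2 (m + 1) (by omega) (ball_succ.2 ⟨s, h, hs, e, rfl⟩)
  obtain ⟨q, hq⟩ := (ball_fin SQ n).infinite_compl.nonempty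
  have h1 := Nat.find_spec (hall q)
  have h2 : n ≤ Nat.find (hall q) := by
    by_contra h; exact hq (ball_mono (by omega) h1)
  obtain ⟨d, hd⟩ := Nat.exists_eq_add_of_le h2
  rw [hd] at h1
  exact down d q h1 fun m hm => Nat.find_min (hall q) (by omega)

lemma A_lower [Infinite Q] (hS : Subgroup.closure (SQ : Set Q) = ⊤)
    (hall : ∀ q, ∃ n, q ∈ ball SQ n) (n : ℕ) : M ^ (n / 2) ≤ (ball (SA SQ M) n).ncard := by
  obtain ⟨q, h1, h2⟩ := exact_len hall (n / 2)
  obtain ⟨B, a1, a2⟩ := A_many M hS _ q h1 h2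
  rw [← a1, ← Set.ncard_coe_finset]
  exact Set.ncard_le_ncard (fun g hg => ball_mono (by omega) (a2 g hg).1) (ball_fin _ _)

lemma six_eight (c : ℕ) : ∃ D : ℕ, ∀ j : ℕ, c * (j + 1) * 6 ^ j ≤ D + 8 ^ j := by
  obtain ⟨C, h0, hC⟩ := poly 2 (t := 4 / 3) (by norm_num)
  obtain ⟨J, hJ⟩ := exists_nat_ge (c * C)
  refine ⟨c * (J + 1) * 6 ^ J, fun j => ?_⟩
  rcases le_total j J with h | h
  · exact le_add_right (by gcongr; norm_num)
  · refine le_add_left ?_
    have h1 : (J : ℝ) ≤ j := by exact_mod_cast h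
    have h2 : (8 : ℝ) ^ j = (4 / 3) ^ j * 6 ^ j := by rw [← mul_pow]; norm_num
    have h3 : (c : ℝ) * (j + 1) ≤ (4 / 3) ^ j := by
      refine le_of_mul_le_mul_right ?_ (show (0 : ℝ) < j + 1 by positivity)
      have := mul_le_mul_of_nonneg_left (hC j) (show (0 : ℝ) ≤ c by positivity)
      have h4 : (0 : ℝ) < (4 / 3) ^ j := by positivity
      nlinarith
    have : (c : ℝ) * (j + 1) * 6 ^ j ≤ 8 ^ j := by rw [h2]; gcongr
    exact_mod_cast this

lemma A_upper (hS : Subgroup.closure (SQ : Set Q) = ⊤)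
    (hP : ∀ k, ∀ q ∈ ball SQ (8 ^ k), 0 < orderOf q ∧ orderOf q ≤ 8 * 4 ^ k) :
    ∃ D : ℕ, ∀ n, (ConjClasses.mk '' ball (SA SQ M) n).ncard ≤
      D * (2 * (2 * SQ.card + 1)) ^ n := by
  set e := (E0 SQ M).card
  obtain ⟨D, hD⟩ := six_eight ((16 * e + 13) * (8 * e + 1) * 6)
  refine ⟨2 ^ (D + 1), fun n => ?_⟩
  obtain ⟨j, h1, h2⟩ : ∃ j, 8 ^ j ≤ n + 1 ∧ n ≤ 8 ^ (j + 1) :=
    ⟨Nat.log 8 (n + 1), Nat.pow_log_le_self _ (by omega),
      by have := Nat.lt_pow_succ_log_self (b := 8) (by norm_num) (n + 1); omega⟩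
  refine (A_count M hS n (8 * 4 ^ (j + 1)) (6 ^ (j + 1)) (by positivity)
    fun q hq => hP _ q (ball_mono h2 hq)).trans ?_
  have b0 : 8 * 4 ^ (j + 1) * (e * n) ≤ 8 * e * 32 ^ (j + 1) := by
    calc _ ≤ 8 * 4 ^ (j + 1) * (e * 8 ^ (j + 1)) := by gcongr
      _ = 8 * e * (4 ^ (j + 1) * 8 ^ (j + 1)) := by ring
      _ = _ := by rw [← mul_pow]; rfl
  generalize 8 * 4 ^ (j + 1) * (e * n) = N at b0
  have b1 : 6 ^ (j + 1) + N / 6 ^ (j + 1) ≤ (8 * e + 1) * 6 ^ (j + 1) := by
    have : N / 6 ^ (j + 1) ≤ 8 * e * 6 ^ (j + 1) := by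
      refine Nat.div_le_of_le_mul (b0.trans ?_)
      calc _ ≤ 8 * e * 36 ^ (j + 1) := by gcongr; norm_num
        _ = 8 * e * (6 ^ (j + 1) * 6 ^ (j + 1)) := by rw [← mul_pow]; rfl
        _ = _ := by ring
    nlinarith
  have b2 : (N + 1) ^ 2 + 1 ≤ 2 ^ ((16 * e + 13) * (j + 1)) := by
    have c1 : 8 * e < 2 ^ (8 * e) := Nat.lt_two_pow_self
    have c2 : N + 1 ≤ 2 ^ (8 * e + 5 * (j + 1)) := by
      rw [pow_add, pow_mul 2 5, show 2 ^ 5 = 32 from rfl]
      have : 0 < 32 ^ (j + 1) := by positivity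
      nlinarith [Nat.mul_le_mul_right (32 ^ (j + 1)) (Nat.succ_le_of_lt c1)]
    calc _ ≤ (2 ^ (8 * e + 5 * (j + 1))) ^ 2 + (2 ^ (8 * e + 5 * (j + 1))) ^ 2 :=
          add_le_add (by gcongr) (Nat.one_le_pow _ _ (by positivity))
      _ = 2 ^ (2 * (8 * e + 5 * (j + 1)) + 1) := by ring
      _ ≤ _ := Nat.pow_le_pow_right (by norm_num) (by nlinarith)
  calc _ ≤ (2 * SQ.card + 1) ^ n * (2 ^ ((16 * e + 13) * (j + 1))) ^ ((8 * e + 1) * 6 ^ (j + 1)) :=
        Nat.mul_le_mul (ball_fin_card SQ n).2 ((Nat.pow_le_pow_left b2 _).trans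
          (Nat.pow_le_pow_right (by positivity) b1))
    _ ≤ (2 * SQ.card + 1) ^ n * 2 ^ (D + 1 + n) := by
        rw [← pow_mul]
        refine Nat.mul_le_mul_left _ (Nat.pow_le_pow_right (by norm_num) ?_)
        have := hD j
        calc _ = (16 * e + 13) * (8 * e + 1) * 6 * (j + 1) * 6 ^ j := by ring
          _ ≤ _ := by omega
    _ = _ := by rw [mul_pow]; ring

end Pool.Agent.Lib.helper12.Conj
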