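import Mathlib
import Pool.Agent.Lib.helper12.Walk

set_option autoImplicit false

open MeasureTheory ProbabilityTheory
open scoped ENNReal

namespace Pool.Agent.Lib.helper12.Srw

variable {V : Type} [MeasurableSpace V] [DiscreteMeasurableSpace V] (G : SimpleGraph V)
  [G.LocallyFinite]

/-- One step of simple random walk at time `n`: a uniform neighbour of the current vertex. -/
noncomputable def κ (n : ℕ) : Kernel (Π _ : Finset.Iic n, V) V :=
  Kernel.comap ⟨fun x => uniformOn (G.neighborSet x), .of_discrete⟩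
    (fun p => p ⟨n, Finset.mem_Iic.2 le_rfl⟩) (measurable_pi_apply _)

lemma markov (hd : ∀ x, 0 < G.degree x) (n : ℕ) : IsMarkovKernel (κ G n) :=
  ⟨fun _ => isProbabilityMeasure_uniformOn (Set.toFinite _)
    ((G.degree_pos_iff_exists_adj _).1 (hd _))⟩

/-- The law on paths `ℕ → V` of simple random walk on `G` started at `v` (Ionescu-Tulcea). -/
noncomputable def srw (hd : ∀ x, 0 < G.degree x) (v : V) : Measure (ℕ → V) :=
  haveI := markov G hd
  Kernel.trajMeasure (X := fun _ => V) (Measure.dirac v) (κ G)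

variable {G} (hd : ∀ x, 0 < G.degree x) (v : V)

instance : IsProbabilityMeasure (srw G hd v) := by
  have := markov G hd
  unfold srw; infer_instance

lemma meas (n : ℕ) (x : V) : MeasurableSet {ω : ℕ → V | ω n = x} :=
  (measurable_pi_apply (X := fun _ => V) _ (MeasurableSet.singleton x) :)

lemma start : srw G hd v {ω | ω 0 = v} = 1 := by
  have := markov G hd
  have e : (srw G hd v).map (Preorder.frestrictLe 0) = Measure.dirac fun _ => v := by
    rw [srw, Kernel.trajMeasure, Measure.map_comp _ _ (by fun_prop), Kernel.traj_map_frestrictLe,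
      Kernel.partialTraj_self, Measure.id_comp, Measure.map_dirac' (by fun_prop)]
    rfl
  have m : MeasurableSet {p : Π _ : Finset.Iic 0, V | p ⟨0, by simp⟩ = v} :=
    (measurable_pi_apply (X := fun _ => V) _ (MeasurableSet.singleton v) :)
  have := congrArg (· {p | p ⟨0, by simp⟩ = v}) e
  rw [Measure.map_apply (by fun_prop) m] at this
  exact this.trans (Measure.dirac_apply_of_mem rfl)

open Classical in
lemma step (n : ℕ) (x y : V) : srw G hd v {ω | ω n = x ∧ ω (n + 1) = y} =
    srw G hd v {ω | ω n = x} * if G.Adj x y then (G.degree x : ℝ≥0∞)⁻¹ else 0 := by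
  have := markov G hd
  have m : MeasurableSet {p : Π _ : Finset.Iic n, V | p ⟨n, by simp⟩ = x} :=
    (measurable_pi_apply (X := fun _ => V) _ (MeasurableSet.singleton x) :)
  have e := congrArg (· ({p | p ⟨n, by simp⟩ = x} ×ˢ {y}))
    (Kernel.map_frestrictLe_trajMeasure_compProd_eq_map_trajMeasure (X := fun _ => V)
      (μ₀ := Measure.dirac v) (κ := κ G) (a := n))
  rw [Measure.map_apply (by fun_prop) (m.prod (.singleton y)),
    Measure.compProd_apply_prod m (.singleton y),
    setLIntegral_congr_fun m (g := fun _ => uniformOn (G.neighborSet x) {y})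
      (fun p h => by rw [← show p _ = x from h]; rfl), setLIntegral_const,
    Measure.map_apply (by fun_prop) m] at e
  refine e.symm.trans ((mul_comm _ _).trans (congrArg₂ _ rfl ?_))
  rw [← SimpleGraph.coe_neighborFinset, ← Finset.coe_singleton, uniformOn_apply_finset]
  split_ifs with h <;> simp [h]

lemma visits [Countable V] (U : V → ℝ) (A : Set V) (U0 : ∀ x, 0 ≤ U x)
    (hU : ∀ x, Walk.TR G U x + A.indicator 1 x ≤ U x) :
    ∀ᵐ ω ∂srw G hd v, {n | ω n ∈ A}.Finite :=
  Walk.visits hd _ (fun n (ω : ℕ → V) => ω n) meas v (start hd v) (step hd v) U A U0 hU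

lemma adj [Countable V] : ∀ᵐ ω ∂srw G hd v, ∀ n, G.Adj (ω n) (ω (n + 1)) := by
  refine ae_all_iff.2 fun n => measure_mono_null
    (t := ⋃ x, ⋃ y, ⋃ _ : ¬ G.Adj x y, {ω | ω n = x ∧ ω (n + 1) = y}) (fun ω h => by simpa using h) ?_
  simp only [measure_iUnion_null_iff]
  intro x y h
  simp [step, h]

end Pool.Agent.Lib.helper12.Srw
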