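import Mathlib
import Pool.Agent.Lib.helper12.Bfly
import Pool.Agent.Lib.helper12.Srw

set_option autoImplicit false

open Filter Topology

namespace Pool.Agent.Lib.helper12.Cover
open Walk Bfly

lemma lim {V : Type} {G : SimpleGraph V} [G.LocallyFinite] {f : V → ℝ} (h0 : ∀ x, 0 ≤ f x)
    (h : ∀ x, TR G f x ≤ f x) : ∃ l : V → ℝ, (∀ x, Tendsto (fun n => (TR G)^[n] f x) atTop (𝓝 (l x))) ∧
    (∀ n x, l x ≤ (TR G)^[n] f x) ∧ ∀ x, l x = TR G l x := by
  have a : ∀ n x, (TR G)^[n + 1] f x ≤ (TR G)^[n] f x := fun n => by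
    induction n with
    | zero => exact h
    | succ n ih => intro x; simpa only [Function.iterate_succ_apply'] using TR_mono (by
        simpa only [Function.iterate_succ_apply'] using ih) x
  have b : ∀ n x, 0 ≤ (TR G)^[n] f x := fun n => by
    induction n with
    | zero => exact h0
    | succ n ih =>
      intro x
      rw [Function.iterate_succ_apply']
      exact div_nonneg (Finset.sum_nonneg fun y _ => ih y) (by positivity)
  have c : ∀ x, BddBelow (Set.range fun n => (TR G)^[n] f x) := fun x =>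
    ⟨0, Set.forall_mem_range.2 fun n => b n x⟩
  have d := fun x => tendsto_atTop_ciInf (antitone_nat_of_succ_le fun n => a n x) (c x)
  refine ⟨_, d, fun n x => ciInf_le (c x) n, fun x => tendsto_nhds_unique
    ((tendsto_add_atTop_iff_nat 1).2 (d x)) ?_⟩
  simp only [Function.iterate_succ_apply', TR]
  exact (tendsto_finsetSum _ fun y _ => d y).div_const _

lemma iter_add {V : Type} {G : SimpleGraph V} [G.LocallyFinite] (n : ℕ) (f g : V → ℝ) :
    (TR G)^[n] (f + g) = (TR G)^[n] f + (TR G)^[n] g := by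
  induction n with
  | zero => rfl
  | succ n ih => simp only [Function.iterate_succ_apply', ih, TR_add]

def K (m : ℕ) : ℤ := (Nat.unpair m).1 - (Nat.unpair m).2

lemma K_ex (t : ℤ) (L : ℕ) : ∃ m, L ≤ m ∧ K m = t :=
  ⟨Nat.pair (L + t.toNat) (L + (-t).toNat), le_trans (by omega) (Nat.left_le_pair _ _), by
    simp [K]⟩

open Classical in
noncomputable def volt (x y : V) : ℤ :=
  if x ∈ Set.range z ∧ y ∈ Set.range z then K (k y.n) - K (k x.n) else 0

lemma volt_anti (x y : V) : volt x y + volt y x = 0 := by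
  by_cases a : x ∈ Set.range z <;> by_cases b : y ∈ Set.range z <;> simp only [volt, a, b] <;> simp

def G : SimpleGraph (ℤ × V) where
  Adj p q := H.Adj p.2 q.2 ∧ q.1 = p.1 + volt p.2 q.2
  symm := ⟨fun p q h => ⟨h.1.symm, by
    rw [h.2, add_assoc, volt_anti, add_zero]⟩⟩
  loopless := ⟨fun _ h => h.1.ne rfl⟩

noncomputable instance : G.LocallyFinite := fun p => Set.Finite.fintype
  (((H.neighborSet p.2).toFinite.image fun y => (p.1 + volt p.2 y, y)).subset fun q h =>
    ⟨q.2, h.1, Prod.ext h.2.symm rfl⟩)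

lemma sumG (p : ℤ × V) (F : ℤ × V → ℝ) :
    ∑ q ∈ G.neighborFinset p, F q = ∑ y ∈ H.neighborFinset p.2, F (p.1 + volt p.2 y, y) :=
  Finset.sum_nbij' Prod.snd (fun y => (p.1 + volt p.2 y, y)) (by simp +contextual [G])
    (by simp [G]) (by simp +contextual [G]) (by simp) (by simp +contextual [G])

lemma degG (p : ℤ × V) : G.degree p = H.degree p.2 := by
  simpa using sumG p fun _ => 1

lemma TG (p : ℤ × V) (F : ℤ × V → ℝ) : TR G F p = TR H (fun y => F (p.1 + volt p.2 y, y)) p.2 := by
  rw [TR, TR, sumG, degG]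

lemma hd (p : ℤ × V) : 0 < G.degree p := degG p ▸ (deg _).1

lemma iter_snd (n : ℕ) (f : V → ℝ) : (TR G)^[n] (fun p => f p.2) = fun p => (TR H)^[n] f p.2 := by
  induction n with
  | zero => rfl
  | succ n ih => ext p; simp only [Function.iterate_succ_apply', ih, TG]

lemma far (l : Filter ℤ) (hl : ∀ c, Tendsto (· + c) l l) (f : ℤ × V → ℝ)
    (h : ∀ x, ∀ᶠ j in l, f (j, x) = 0) (n : ℕ) : ∀ x, ∀ᶠ j in l, (TR G)^[n] f (j, x) = 0 := by
  induction n with
  | zero => exact h
  | succ n ih =>
    intro x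
    filter_upwards [(eventually_all_finset (H.neighborFinset x)).2 fun y _ =>
      (hl (volt x y)).eventually (ih y)] with j hj
    rw [Function.iterate_succ_apply', TG, TR, Finset.sum_eq_zero hj, zero_div]

lemma nonL : ∃ h : ℤ × V → ℝ, (∀ p, h p = TR G h p) ∧ (∀ p, |h p| ≤ 1) ∧ ∃ p q, h p ≠ h q := by
  obtain ⟨U, U0, hU⟩ := spine
  have i0 : ∀ x, 0 ≤ (Set.range z).indicator (1 : V → ℝ) x := Set.indicator_nonneg (by simp)
  obtain ⟨l, l1, l2, l3⟩ := lim U0 fun x => by linarith [hU x, i0 x]
  have A : ∀ φ : ℤ → ℝ, (∀ j, 0 ≤ φ j ∧ φ j ≤ 1) → ∃ a : ℤ × V → ℝ,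
      (∀ p, Tendsto (fun n => (TR G)^[n] (fun p => φ p.1) p) atTop (𝓝 (a p))) ∧
      (∀ n p, a p ≤ (TR G)^[n] (fun p => φ p.1) p + ((TR H)^[n] U p.2 - l p.2)) ∧
      (∀ p, a p = TR G a p) ∧ ∀ p, 0 ≤ a p := fun φ h => by
    obtain ⟨a, a1, a2, a3⟩ := lim (G := G) (f := (fun p => φ p.1) + fun p => U p.2)
      (fun p => add_nonneg (h _).1 (U0 _)) fun p => by
        have b := hU p.2
        rw [TR_add, Pi.add_apply, Pi.add_apply, TG p fun p => U p.2]
        by_cases e : p.2 ∈ Set.range z
        · have := (TR_mono (G := G) (f := fun p => φ p.1) (fun p => (h _).2) p).trans_eq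
            (TR_const hd 1 p)
          simp only [Set.indicator_of_mem e, Pi.one_apply] at b
          linarith [(h p.1).1]
        · rw [TG]
          simp only [volt, e, false_and, if_false, add_zero, TR_const fun x => (deg x).1]
          linarith [i0 p.2]
    simp only [iter_add, iter_snd, Pi.add_apply] at a1 a2
    have c := fun p : ℤ × V => (a1 p).sub (l1 p.2)
    simp only [add_sub_cancel_right] at c
    refine ⟨fun p => a p - l p.2, c, fun n p => by linarith [a2 n p], fun p => ?_,
      fun p => ge_of_tendsto' (c p) fun n => ?_⟩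
    · have := TG p fun p => l p.2
      rw [← l3] at this
      beta_reduce
      rw [a3, ← this]
      simp only [TR, Finset.sum_sub_distrib, sub_div]
    · induction n generalizing p with
      | zero => exact (h _).1
      | succ n ih =>
        rw [Function.iterate_succ_apply']
        exact div_nonneg (Finset.sum_nonneg fun y _ => ih y) (by positivity)
  obtain ⟨a, a1, a2, a3, a4⟩ := A (fun j => if 0 < j then 1 else 0) fun j => by split_ifs <;> simp
  obtain ⟨b, b1, b2, b3, b4⟩ := A (fun j => if 0 < j then 0 else 1) fun j => by split_ifs <;> simp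
  have s : ∀ p, a p + b p = 1 := fun p => tendsto_nhds_unique ((a1 p).add (b1 p)) (by
    simp only [← Pi.add_apply, ← iter_add]
    rw [show (fun p : ℤ × V => if 0 < p.1 then (1 : ℝ) else 0) + (fun p => if 0 < p.1 then 0 else 1) =
      fun _ => 1 by ext p; simp only [Pi.add_apply]; split_ifs <;> simp]
    simp only [Function.iterate_fixed (funext (TR_const hd 1))]
    exact tendsto_const_nhds)
  obtain ⟨n, hn⟩ := ((l1 (z 0)).eventually (gt_mem_nhds (lt_add_of_pos_right _ one_half_pos))).exists
  obtain ⟨j, hj⟩ := (far atBot (fun c => tendsto_atBot_add_const_right _ c tendsto_id)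
    (fun p => if 0 < p.1 then 1 else 0)
    (fun x => (eventually_le_atBot 0).mono fun j h => if_neg (not_lt.2 h)) n (z 0)).exists
  obtain ⟨j', hj'⟩ := (far atTop (fun c => tendsto_atTop_add_const_right _ c tendsto_id)
    (fun p => if 0 < p.1 then 0 else 1)
    (fun x => (eventually_gt_atTop 0).mono fun j h => if_pos h) n (z 0)).exists
  refine ⟨a, a3, fun p => abs_le.2 ⟨by linarith [a4 p], by linarith [s p, b4 p]⟩,
    (j, z 0), (j', z 0), fun e => ?_⟩
  linarith [a2 n (j, z 0), b2 n (j', z 0), s (j', z 0)]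

def D : Set (ℤ × V) := {p | p.1 = K (k p.2.n)}

def ι (x : V) : D := ⟨(K (k x.n), x), rfl⟩

lemma connD (x : V) : (G.induce D).Reachable (ι x) (ι (z 0)) := by
  have a : ∀ x y, U x y → k y.n = k x.n → (G.induce D).Reachable (ι x) (ι y) := fun x y h e =>
    SimpleGraph.Adj.reachable ⟨Or.inl h, by simp [ι, volt, e]⟩
  have b : ∀ n, (G.induce D).Reachable (ι (z n)) (ι (z 0)) := fun n => by
    induction n with
    | zero => rfl
    | succ n ih =>
      exact (SimpleGraph.Adj.reachable (G := G.induce D) (u := ι (z (n + 1))) (v := ι (z n))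
        ⟨Or.inr ⟨rfl, fun _ _ => rfl⟩, by simp [ι, volt]⟩).trans ih
  have c : ∀ n (x : V), x.n = n → (∀ j, i n ≤ j → x.w j = false) →
      (G.induce D).Reachable (ι x) (ι (z 0)) := fun n => by
    induction n with
    | zero => intro x h _; rw [eq_z h]
    | succ n ih =>
      intro x h w
      rcases succ n with ⟨s1, s2, s3⟩ | ⟨s1, s2, s3⟩
      · rw [show x = z (n + 1) from V.ext h (funext fun j => w j (by omega))]; exact b _
      · refine (a _ _ (U_dn x (by omega) false) (by simp [dn, h, s2])).symm.trans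
          (ih _ (by simp [dn, h]) fun j e => ?_)
        by_cases e' : j = i n <;> simp [dn, h, e']
        exact w j (by omega)
  induction hn : k x.n - i x.n generalizing x with
  | zero => exact c _ x rfl fun j h => x.h j (by omega)
  | succ d ih =>
    have := succ x.n
    exact (a _ _ (U_up x false) (by simp [up]; omega)).trans (ih _ (by simp [up]; omega))

lemma connG : G.Connected := by
  have a : ∀ t x, G.Reachable (t + K (k x.n), x) (t, z 0) := fun t x => by
    have := (connD x).map ((⟨fun p => (t + p.1, p.2), fun h => ⟨h.1, by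
      simp [h.2, add_assoc]⟩⟩ : G →g G).comp (SimpleGraph.Embedding.induce D).toHom)
    simpa [ι, show K (k (z 0).n) = 0 from rfl] using this
  have b : ∀ t, G.Reachable (t, z 0) (t + 1, z 0) := fun t => by
    have := a (t + 1) (up (z 0) true)
    rw [show K (k (up (z 0) true).n) = -1 by simp [up, z, k, sc, K, Nat.unpair],
      add_neg_cancel_right] at this
    refine (SimpleGraph.Adj.reachable (G := G) (v := (t, up (z 0) true))
      ⟨Or.inl (U_up _ _), ?_⟩).trans this
    rw [volt, if_neg, add_zero]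
    rintro ⟨-, n, h⟩
    simpa [z, up] using congrFun (congrArg V.w h) (i 0)
  have c : ∀ t, G.Reachable (0, z 0) (t, z 0) := fun t => by
    induction t with
    | zero => rfl
    | succ n ih => exact ih.trans (b _)
    | pred n ih => exact ih.trans (by simpa using (b (-n - 1)).symm)
  exact (SimpleGraph.connected_iff_exists_forall_reachable _).2 ⟨(0, z 0), fun p =>
    (c _).trans (by simpa using (a (p.1 - K (k p.2.n)) p.2).symm)⟩

lemma often (ω : ℕ → ℤ × V) (h1 : ∀ n, G.Adj (ω n) (ω (n + 1)))
    (h2 : {n | (ω n).2 ∈ Set.range z}.Finite) (h3 : ∀ N, {n | (ω n).2.n = N}.Finite) (t : ℤ) :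
    {n | (ω n).1 = t + K (k (ω n).2.n)}.Infinite := by
  refine Set.infinite_of_forall_exists_gt fun a => ?_
  obtain ⟨N, hN⟩ := h2.bddAbove
  have c : ∀ n, a + N + 1 ≤ n → (ω n).1 = (ω (a + N + 1)).1 := fun n h => by
    induction n, h using Nat.le_induction with
    | base => rfl
    | succ n h ih =>
      rw [(h1 n).2, volt, if_neg fun e => by have := hN e.1; omega, add_zero, ih]
  obtain ⟨m, m1, m2⟩ := K_ex ((ω (a + N + 1)).1 - t) (ω (a + N + 1)).2.n
  obtain ⟨l, l1, -⟩ := ex_lev m 0 m.zero_le
  have l2 := k_le l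
  obtain ⟨M, hM⟩ := ((Set.finite_le_nat l).biUnion fun N _ => h3 N).bddAbove
  have d : ∀ n, a + N + 1 ≤ n → l ≤ (ω n).2.n → ∃ n', a + N + 1 ≤ n' ∧ (ω n').2.n = l := fun n h => by
    induction n, h using Nat.le_induction with
    | base => exact fun h => ⟨_, le_rfl, by omega⟩
    | succ n h ih =>
      intro e
      by_cases e' : (ω (n + 1)).2.n = l
      · exact ⟨_, by omega, e'⟩
      · exact ih (by rcases (h1 n).1 with u | u <;> have := u.1 <;> omega)
  obtain ⟨n, n1, n2⟩ := d (a + N + 1 + M) (by omega) (by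
    by_contra e
    have := hM (Set.mem_biUnion (x := (ω (a + N + 1 + M)).2.n) (not_le.1 e).le rfl)
    omega)
  exact ⟨n, by simp [c n n1, n2, l1, m2], by omega⟩

end Pool.Agent.Lib.helper12.Cover
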