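import Mathlib

set_option autoImplicit false

open Filter Topology Set

namespace Pool.Agent.Lib.helper12.GW

variable {X : Type} (μ : X → PMF (X →₀ ℕ))

/-- The offspring generating function. -/
noncomputable def G (s : X → ℝ) (x : X) : ℝ := ∑' f, (μ x f).toReal * f.prod fun y n => s y ^ n

/-- The fixed points of the generating function in `[0,1]^X`. -/
def S : Set (X → ℝ) := {s | s ∈ Icc 0 1 ∧ G μ s = s}

variable {μ}

lemma hs (x : X) : HasSum (fun f => (μ x f).toReal) 1 := by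
  have := ENNReal.hasSum_toReal (μ x).tsum_coe_ne_top
  rwa [← ENNReal.tsum_toReal_eq (μ x).apply_ne_top, PMF.tsum_coe] at this

lemma pr_mono {s t : X → ℝ} (h0 : 0 ≤ s) (h : s ≤ t) (f : X →₀ ℕ) :
    0 ≤ f.prod (fun y n => s y ^ n) ∧ f.prod (fun y n => s y ^ n) ≤ f.prod fun y n => t y ^ n :=
  ⟨Finset.prod_nonneg fun y _ => pow_nonneg (h0 y) _, Finset.prod_le_prod
    (fun y _ => pow_nonneg (h0 y) _) fun y _ => pow_le_pow_left₀ (h0 y) (h y) _⟩

lemma bd {s : X → ℝ} (h : s ∈ Icc 0 1) (x : X) (f : X →₀ ℕ) :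
    ‖(μ x f).toReal * f.prod fun y n => s y ^ n‖ ≤ (μ x f).toReal := by
  have := pr_mono h.1 h.2 f
  rw [Real.norm_of_nonneg (mul_nonneg ENNReal.toReal_nonneg this.1)]
  exact mul_le_of_le_one_right ENNReal.toReal_nonneg (by simpa [Finsupp.prod] using this.2)

lemma sm {s : X → ℝ} (h : s ∈ Icc 0 1) (x : X) :
    Summable fun f => (μ x f).toReal * f.prod fun y n => s y ^ n :=
  .of_norm_bounded (hs x).summable (bd h x)

lemma G_mono {s t : X → ℝ} (h0 : 0 ≤ s) (h : s ≤ t) (h1 : t ≤ 1) : G μ s ≤ G μ t := fun x =>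
  (sm ⟨h0, h.trans h1⟩ x).tsum_le_tsum (fun f => mul_le_mul_of_nonneg_left (pr_mono h0 h f).2
    ENNReal.toReal_nonneg) (sm ⟨h0.trans h, h1⟩ x)

lemma G_mem {s : X → ℝ} (h : s ∈ Icc 0 1) : G μ s ∈ Icc 0 1 :=
  ⟨fun _ => tsum_nonneg fun f => mul_nonneg ENNReal.toReal_nonneg (pr_mono h.1 h.2 f).1,
    (G_mono h.1 h.2 le_rfl).trans fun x => by simp [G, Finsupp.prod, (hs x).tsum_eq]⟩

lemma G_cont (x : X) : ContinuousOn (G μ · x) (Icc 0 1) :=
  continuousOn_tsum (fun f => Continuous.continuousOn (by unfold Finsupp.prod; fun_prop))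
    (hs x).summable fun f _ h => bd h x f

lemma G_one {s : X → ℝ} (h : s ∈ Icc 0 1) {x y : X} (e : 1 ≤ G μ s x) {f : X →₀ ℕ} (hf : μ x f ≠ 0)
    (hy : f y ≠ 0) : s y = 1 := by
  classical
  by_contra c
  refine e.not_gt (((sm h x).tsum_lt_tsum (i := f) (fun g => (le_abs_self _).trans (bd h x g)) ?_
    (hs x).summable).trans_eq (hs x).tsum_eq)
  refine mul_lt_of_lt_one_right (ENNReal.toReal_pos hf ((μ x).apply_ne_top f)) ?_
  rw [← Finsupp.mul_prod_erase f y _ (Finsupp.mem_support_iff.2 hy)]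
  exact mul_lt_one_of_nonneg_of_lt_one_left (pow_nonneg (h.1 y) _)
    (pow_lt_one₀ (h.1 y) ((h.2 y).lt_of_ne c) hy) ((pr_mono h.1 h.2 _).2.trans (by simp [Finsupp.prod]))

lemma G_congr {s t : X → ℝ} {x : X} (h : ∀ f, μ x f ≠ 0 → ∀ y, f y ≠ 0 → s y = t y) :
    G μ s x = G μ t x := tsum_congr fun f => by
  by_cases e : μ x f = 0
  · simp [e]
  · rw [Finsupp.prod_congr fun y hy => by rw [h f e y (Finsupp.mem_support_iff.1 hy)]]

def CM (I : Set ℝ) (g : ℝ → ℝ) : Prop := ConvexOn ℝ I g ∧ MonotoneOn g I ∧ ∀ t ∈ I, 0 ≤ g t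

lemma G_cm {I : Set ℝ} (hI : Convex ℝ I) {c : ℝ → X → ℝ} (h : ∀ y, CM I (c · y))
    (h1 : ∀ t ∈ I, c t ≤ 1) (x : X) : CM I fun t => G μ (c t) x := by
  have m : ∀ t ∈ I, c t ∈ Icc 0 1 := fun t ht => ⟨fun y => (h y).2.2 t ht, h1 t ht⟩
  have a : ∀ f : X →₀ ℕ, CM I fun t => f.prod fun y n => c t y ^ n := fun f => by
    have := Finset.prod_induction (s := f.support) (fun y t => c t y ^ f y) (CM I)
      (fun a b p q => ⟨p.1.mul q.1 p.2.2 q.2.2 (p.2.1.monovaryOn q.2.1),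
        p.2.1.mul q.2.1 p.2.2 q.2.2, fun t ht => mul_nonneg (p.2.2 t ht) (q.2.2 t ht)⟩)
      ⟨convexOn_const _ hI, monotoneOn_const, by simp⟩ fun y _ =>
      ⟨(h y).1.pow (h y).2.2 _, fun a p b q r => pow_le_pow_left₀ ((h y).2.2 a p)
        ((h y).2.1 p q r) _, fun t ht => pow_nonneg ((h y).2.2 t ht) _⟩
    convert this using 2
    simp [Finsupp.prod]
  refine ⟨⟨hI, fun p hp q hq α β h2 h3 h4 => ?_⟩, fun p hp q hq r =>
    G_mono (m p hp).1 (fun y => (h y).2.1 hp hq r) (h1 q hq) x, fun t ht => (G_mem (m t ht)).1 x⟩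
  simp only [G, smul_eq_mul, ← tsum_mul_left]
  have s1 := (sm (μ := μ) (m p hp) x).mul_left α
  have s2 := (sm (μ := μ) (m q hq) x).mul_left β
  rw [← s1.tsum_add s2]
  refine (sm (m _ (hI hp hq h2 h3 h4)) x).tsum_le_tsum (fun f => ?_) (s1.add s2)
  have := mul_le_mul_of_nonneg_left ((a f).1.2 hp hq h2 h3 h4) (ENNReal.toReal_nonneg (a := μ x f))
  simp only [smul_eq_mul] at this ⊢
  linarith

open Classical in
noncomputable def it (μ : X → PMF (X →₀ ℕ)) (F : Set X) (h : X → ℝ) : ℕ → X → ℝ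
  | 0, x => if x ∈ F then 0 else h x
  | n + 1, x => if x ∈ F then G μ (it μ F h n) x else h x

lemma it_le {F : Set X} {h k : X → ℝ} (h0 : 0 ≤ h) (h1 : h ≤ k) (h2 : k ≤ 1) (h3 : G μ k ≤ k)
    (n : ℕ) : it μ F h n ∈ Icc 0 k := by
  induction n with
  | zero => constructor <;> intro x <;> simp only [it] <;> split_ifs
            exacts [le_rfl, h0 x, (h0.trans h1) x, h1 x]
  | succ n ih =>
    constructor <;> intro x <;> simp only [it] <;> split_ifs
    exacts [(G_mem ⟨ih.1, ih.2.trans h2⟩).1 x, h0 x, ((G_mono ih.1 ih.2 h2).trans h3) x, h1 x]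

lemma it_mem {F : Set X} {h : X → ℝ} (h0 : h ∈ Icc 0 1) (n : ℕ) : it μ F h n ∈ Icc 0 1 :=
  it_le h0.1 h0.2 le_rfl (G_mem ⟨zero_le_one, le_rfl⟩).2 n

noncomputable def sol (μ : X → PMF (X →₀ ℕ)) (F : Set X) (h : X → ℝ) : X → ℝ := ⨆ n, it μ F h n

lemma sol_spec {F : Set X} {h : X → ℝ} (h0 : h ∈ Icc 0 1) :
    Tendsto (it μ F h) atTop (𝓝 (sol μ F h)) ∧ (∀ n, it μ F h n ≤ sol μ F h) ∧
    sol μ F h ∈ Icc 0 1 ∧ (∀ x ∈ F, G μ (sol μ F h) x = sol μ F h x) ∧ ∀ x ∉ F, sol μ F h x = h x := by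
  have b : BddAbove (range (it μ F h)) := ⟨1, forall_mem_range.2 fun n => (it_mem h0 n).2⟩
  have a : Tendsto (it μ F h) atTop (𝓝 (sol μ F h)) := by
    refine tendsto_atTop_ciSup (monotone_nat_of_le_succ fun n => ?_) b
    induction n with
    | zero => intro x; simp only [it]; split_ifs; exacts [(G_mem (it_mem (μ := μ) h0 0)).1 x, le_rfl]
    | succ n ih =>
      intro x; rw [it, it]; split_ifs
      exacts [G_mono (it_mem h0 _).1 ih (it_mem h0 _).2 x, le_rfl]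
  have c := isClosed_Icc.mem_of_tendsto a (.of_forall (it_mem h0))
  have d := fun x => (tendsto_add_atTop_iff_nat 1).2 (tendsto_pi_nhds.1 a x)
  refine ⟨a, le_ciSup b, c, fun x e => tendsto_nhds_unique ?_ (d x), fun x e =>
    tendsto_nhds_unique (d x) (by simp [it, e])⟩
  simp only [it, if_pos e]
  exact (G_cont x _ c).tendsto.comp (tendsto_nhdsWithin_iff.2 ⟨a, .of_forall (it_mem h0)⟩)

lemma key {lo hi : X → ℝ} (h0 : 0 ≤ lo) (h1 : lo ≤ hi) (h2 : hi ≤ 1) (h3 : G μ lo ≤ lo)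
    (h4 : G μ hi ≤ hi) (A : Set X) {x : X} (hx : x ∈ A) {c : ℝ} (c1 : lo x < c)
    (H : ∀ F : Finset X, x ∈ F → ↑F ⊆ A → c < sol μ F hi x) :
    ∃ z ∈ Icc 0 hi, z x = c ∧ (∀ y ∈ A, G μ z y = z y) ∧ ∀ y ∉ A, lo y ≤ z y := by
  classical
  have K : IsCompact {z ∈ Icc 0 hi | z x = c ∧ ∀ y ∉ A, lo y ≤ z y} := by
    refine isCompact_Icc.inter_right ((isClosed_eq (by fun_prop) continuous_const).inter ?_)
    change IsClosed {z : X → ℝ | ∀ y ∉ A, lo y ≤ z y}
    simp only [ofPred_forall]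
    exact isClosed_iInter fun y => isClosed_iInter fun _ => isClosed_le (by fun_prop) (by fun_prop)
  obtain ⟨z, ⟨a, b, d⟩, e⟩ := K.inter_iInter_nonempty
    (fun y : A => {z ∈ Icc 0 1 | G μ z y - z y ∈ ({0} : Set ℝ)})
    (fun y => ((G_cont y.1).sub (by fun_prop)).preimage_isClosed_of_isClosed isClosed_Icc
      isClosed_singleton) fun F0 => by
    let F := insert x (F0.image Subtype.val)
    let l : ℝ → X → ℝ := fun t y => lo y + t * (hi y - lo y)
    have l1 : ∀ t ∈ Icc (0 : ℝ) 1, lo ≤ l t ∧ l t ≤ hi := fun t ht => ⟨fun y => by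
      have := h1 y; simp only [l]; nlinarith [ht.1], fun y => by
      have := h1 y; simp only [l]; nlinarith [ht.2]⟩
    have l2 : ∀ t ∈ Icc (0 : ℝ) 1, l t ∈ Icc 0 1 := fun t ht =>
      ⟨h0.trans (l1 t ht).1, (l1 t ht).2.trans h2⟩
    have i1 : ∀ n y, CM (Icc 0 1) (fun t => it μ F (l t) n y) ∧
        ContinuousOn (fun t => it μ F (l t) n y) (Icc 0 1) := fun n => by
      have : ∀ y, CM (Icc 0 1) (l · y) ∧ ContinuousOn (l · y) (Icc 0 1) := fun y =>
        ⟨⟨⟨convex_Icc _ _, fun p _ q _ a b _ _ r => by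
          simp only [l, smul_eq_mul]; rw [eq_sub_of_add_eq r]; linarith⟩, fun p _ q _ r => by
          have := h1 y; simp only [l]; nlinarith, fun t ht => (l2 t ht).1 y⟩, by fun_prop⟩
      induction n with
      | zero =>
        intro y; simp only [it]; split_ifs
        exacts [⟨⟨convexOn_const _ (convex_Icc _ _), monotoneOn_const, by simp⟩, by fun_prop⟩, this y]
      | succ n ih =>
        intro y; simp only [it]; split_ifs
        exacts [⟨G_cm (convex_Icc _ _) (fun y => (ih y).1) (fun t ht => (it_mem (l2 t ht) n).2) y,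
          (G_cont y).comp (continuousOn_pi.2 fun y => (ih y).2) fun t ht => it_mem (l2 t ht) n⟩, this y]
    have i2 := fun t ht => tendsto_pi_nhds.1 (sol_spec (μ := μ) (F := F) (l2 t ht)).1 x
    have i3 : ConvexOn ℝ (Icc 0 1) fun t => sol μ F (l t) x :=
      ⟨convex_Icc _ _, fun p hp q hq a b r1 r2 r3 => le_of_tendsto_of_tendsto'
        (i2 _ (convex_Icc _ _ hp hq r1 r2 r3)) (((i2 p hp).const_smul a).add ((i2 q hq).const_smul b))
        fun n => (i1 n x).1.1.2 hp hq r1 r2 r3⟩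
    have i4 : sol μ F (l 0) x < c := (le_of_tendsto' (i2 0 (by simp)) fun n =>
      (it_le (l2 0 (by simp)).1 (by simp [l]) (h1.trans h2) h3 n).2 x).trans_lt c1
    obtain ⟨n, hn⟩ := ((i2 1 (by simp)).eventually (lt_mem_nhds (by
      simpa [l] using H F (by simp [F]) (by simp [F, insert_subset_iff, hx])))).exists
    have e1 : ∀ᶠ t in 𝓝[Ioo 0 1] (1 : ℝ), c < it μ F (l t) n x :=
      ((i1 n x).2 1 (by simp)).mono Ioo_subset_Icc_self |>.eventually (lt_mem_nhds hn)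
    have e2 : ∀ᶠ t in 𝓝[Ioo 0 1] (0 : ℝ), sol μ F (l 0) x + t < c :=
      (show ContinuousWithinAt (fun t => sol μ F (l 0) x + t) _ 0 by fun_prop).eventually
        (gt_mem_nhds (by simpa using i4))
    have := right_nhdsWithin_Ioo_neBot (zero_lt_one' ℝ)
    have := left_nhdsWithin_Ioo_neBot (zero_lt_one' ℝ)
    obtain ⟨p, p1, p2⟩ := (e1.and self_mem_nhdsWithin).exists
    obtain ⟨q, q1, q2⟩ := (e2.and self_mem_nhdsWithin).exists
    have i5 := i3.continuousOn_interior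
    rw [interior_Icc] at i5
    obtain ⟨t, t1, t2⟩ := isPreconnected_Ioo.intermediate_value q2 p2 i5 (show c ∈ _ from
      ⟨by
        have := i3.2 (left_mem_Icc.2 zero_le_one) (right_mem_Icc.2 zero_le_one)
          (sub_nonneg.2 q2.2.le) q2.1.le (sub_add_cancel _ _)
        have a := (sol_spec (μ := μ) (F := F) (l2 1 (by simp))).2.2.1.2 x
        have b := (sol_spec (μ := μ) (F := F) (l2 0 (by simp))).2.2.1.1 x
        simp only [smul_eq_mul, mul_zero, mul_one, zero_add, Pi.one_apply, Pi.zero_apply] at this a b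
        nlinarith [q2.1],
      p1.le.trans ((sol_spec (l2 p (Ioo_subset_Icc_self p2))).2.1 n x)⟩)
    have t3 := Ioo_subset_Icc_self t1
    obtain ⟨s1, -, s3, s4, s5⟩ := sol_spec (μ := μ) (F := F) (l2 t t3)
    refine ⟨_, ⟨isClosed_Icc.mem_of_tendsto s1 (.of_forall (it_le (l2 t t3).1 (l1 t t3).2 h2 h4)),
      t2, fun y hy => ?_⟩, mem_iInter₂.2 fun y hy => ⟨s3, sub_eq_zero.2 (s4 _ (by simp [F, hy]))⟩⟩
    rw [s5 y (by simp [F, hy]; rintro rfl; exact hy hx)]
    exact (l1 t t3).1 y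
  exact ⟨z, a, b, fun y hy => sub_eq_zero.1 (mem_iInter.1 e ⟨y, hy⟩).2, d⟩

lemma dich {s u : X → ℝ} (hs : s ∈ S μ) (h0 : 0 ≤ u) (h1 : u ≤ s) (h2 : G μ u ≤ u)
    (h3 : ∀ y, s y = 1 → u y = 1) (h4 : u ≠ s) :
    ∃ x a b, a < b ∧ ∀ c ∈ Ioo a b, ∃ z ∈ S μ, z x = c := by
  classical
  have one : ∀ z : X → ℝ, (∀ y, s y = 1 → z y = 1) → ∀ y, s y = 1 → G μ z y = 1 := fun z h y e =>
    (G_congr (t := s) fun f hf w hw => by
      have := G_one hs.1 (by rw [hs.2, e]) hf hw; rw [h w this, this]).trans (by rw [hs.2, e])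
  obtain ⟨x, hx⟩ := Function.ne_iff.1 h4
  have x1 : s x ≠ 1 := fun e => hx (by rw [h3 x e, e])
  by_cases H : ∀ F : Finset X, x ∈ F → ↑F ⊆ {y | s y ≠ 1} → s x ≤ sol μ F s x
  · refine ⟨x, _, _, (h1 x).lt_of_ne hx, fun c hc => ?_⟩
    obtain ⟨z, z1, z2, z3, z4⟩ := key h0 h1 hs.1.2 h2 hs.2.le {y | s y ≠ 1} x1 hc.1
      fun F a b => hc.2.trans_le (H F a b)
    have : ∀ y, s y = 1 → z y = 1 := fun y e => le_antisymm (e ▸ z1.2 y) (h3 y e ▸ z4 y (by simpa))
    refine ⟨z, ⟨⟨z1.1, z1.2.trans hs.1.2⟩, funext fun y => ?_⟩, z2⟩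
    by_cases e : s y = 1
    exacts [by rw [one z this y e, this y e], z3 y e]
  push Not at H
  obtain ⟨F, F1, F2, F3⟩ := H
  obtain ⟨s1, -, s3, s4, s5⟩ := sol_spec (μ := μ) (F := F) hs.1
  have s6 := (isClosed_Icc.mem_of_tendsto s1 (.of_forall (it_le hs.1.1 le_rfl hs.1.2 hs.2.le))).2
  generalize sol μ F s = v at *
  obtain ⟨y, y1, y2⟩ := (F.filter fun y => v y < s y).exists_min_image
    (fun y => (1 - v y) / (s y - v y)) ⟨x, by simp [F1, F3]⟩
  simp only [Finset.mem_filter] at y1 y2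
  set T := (1 - v y) / (s y - v y) with hT
  have d0 := sub_pos.2 y1.2
  have T1 : 1 < T := (one_lt_div d0).2 (sub_lt_sub_right ((hs.1.2 y).lt_of_ne (F2 y1.1)) _)
  let w : ℝ → X → ℝ := fun t y => v y + t * (s y - v y)
  have w0 : ∀ t, ∀ y ∉ F, w t y = s y := fun t y h => by simp [w, s5 y h]
  have w1 : ∀ t ∈ Icc 0 T, w t ∈ Icc 0 1 := fun t ht => ⟨fun z => add_nonneg (s3.1 z)
    (mul_nonneg ht.1 (sub_nonneg.2 (s6 z))), fun z => by
      by_cases e : z ∈ F ∧ v z < s z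
      · have := (le_div_iff₀ (sub_pos.2 e.2)).1 (ht.2.trans (y2 z e))
        simp only [w, Pi.one_apply]; linarith
      · by_cases e' : z ∈ F
        · simpa [w, le_antisymm (s6 z) (not_lt.1 fun h => e ⟨e', h⟩)] using hs.1.2 z
        · rw [w0 t z e']; exact hs.1.2 z⟩
  have cv := fun z => (G_cm (μ := μ) (convex_Icc 0 T) (c := w) (fun y =>
    ⟨⟨convex_Icc _ _, fun p _ q _ a b _ _ r => by
      simp only [w, smul_eq_mul]; rw [eq_sub_of_add_eq r]; linarith⟩, fun p _ q _ r => by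
      have := s6 y; simp only [w]; nlinarith, fun t ht => (w1 t ht).1 y⟩) (fun t ht => (w1 t ht).2) z).1
  have e0 : w 0 = v := by ext; simp [w]
  have e1 : w 1 = s := by ext; simp [w]
  have g1 : ∀ z ∈ F, ∀ t ∈ Icc 1 T, w t z ≤ G μ (w t) z := fun z hz t ht => by
    have t0 : 0 < t := by linarith [ht.1]
    have := (cv z).2 (left_mem_Icc.2 (by linarith)) (show t ∈ _ from ⟨t0.le, ht.2⟩)
      (sub_nonneg.2 (inv_le_one_of_one_le₀ ht.1)) (inv_nonneg.2 t0.le) (by simp)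
    simp only [smul_eq_mul, mul_zero, zero_add, inv_mul_cancel₀ t0.ne', e0, e1, hs.2, s4 z hz] at this
    have := mul_le_mul_of_nonneg_left this t0.le
    simp only [w]
    field_simp at this
    linarith
  have TT := right_mem_Icc.2 (by linarith : 0 ≤ T)
  have cl : ∀ z, w T z = 1 → ∀ f, μ z f ≠ 0 → ∀ a, f a ≠ 0 → w T a = 1 := fun z h f hf a ha => by
    by_cases e : z ∈ F
    · exact G_one (w1 T TT) (h ▸ g1 z e T (right_mem_Icc.2 T1.le)) hf ha
    · have := G_one hs.1 (by rw [hs.2, ← w0 T z e, h]) hf ha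
      rw [w0 T a fun h => F2 h this, this]
  refine ⟨y, s y, 1, (hs.1.2 y).lt_of_ne (F2 y1.1), fun c hc => ?_⟩
  have ht : (c - v y) / (s y - v y) ∈ Icc 1 T :=
    ⟨(one_le_div d0).2 (by linarith [hc.1]), by rw [hT]; gcongr; exact hc.2.le⟩
  have hw : w ((c - v y) / (s y - v y)) y = c := by simp only [w]; field_simp; ring
  generalize (c - v y) / (s y - v y) = t at ht hw
  have t0 : t ∈ Icc 0 T := ⟨by linarith [ht.1], ht.2⟩
  obtain ⟨-, -, r3, r4, r5⟩ := sol_spec (μ := μ) (F := {z | w T z ≠ 1}) (w1 t t0)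
  refine ⟨_, ⟨r3, funext fun z => ?_⟩, (r5 y (by simp [w, hT, d0.ne'])).trans hw⟩
  by_cases e : w T z = 1
  swap; · exact r4 z e
  rw [r5 z (by simpa), G_congr fun f hf a ha => r5 a (by simpa using cl z e f hf a ha)]
  by_cases e' : z ∈ F
  · refine le_antisymm ?_ (g1 z e' t ht)
    have T0 : 0 < T := by linarith
    have := (cv z).2 (left_mem_Icc.2 T0.le) TT
      (sub_nonneg.2 ((div_le_one T0).2 ht.2)) (div_nonneg t0.1 T0.le) (by simp)
    have b := mul_le_mul_of_nonneg_left ((G_mem (μ := μ) (w1 T TT)).2 z) (div_nonneg t0.1 T0.le)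
    simp only [smul_eq_mul, mul_zero, zero_add, div_mul_cancel₀ _ T0.ne', e0, s4 z e'] at this
    have k : w t z = (1 - t / T) * v z + t / T * w T z := by simp only [w]; field_simp; ring
    rw [k, e]; simp only [Pi.one_apply] at b; linarith
  · have := (w0 T z e').symm.trans e
    rw [one _ (fun a h => (w0 t a fun k => F2 k h).trans h) z this, w0 t z e', this]

lemma card [Countable X] {T : Set (X → ℝ)} {x : X} {a b : ℝ} (h : a < b)
    (H : ∀ c ∈ Ioo a b, ∃ z ∈ T, z x = c) : Cardinal.mk T = Cardinal.continuum := by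
  refine le_antisymm ((Cardinal.mk_set_le _).trans ?_) ?_
  · simp only [Cardinal.mk_pi, Cardinal.prod_const, Cardinal.lift_id, Cardinal.mk_real]
    exact (Cardinal.power_le_power_left Cardinal.continuum_ne_zero Cardinal.mk_le_aleph0).trans_eq
      Cardinal.continuum_power_aleph0
  · rw [← Cardinal.mk_Ioo_real h]
    exact (Cardinal.mk_le_mk_of_subset fun c hc => H c hc).trans
      (Cardinal.mk_image_le (f := fun z : X → ℝ => z x))

end Pool.Agent.Lib.helper12.GW
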