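import Mathlib
import Pool.Agent.Lib.helper12.GWA

set_option autoImplicit false

open Filter Topology Set MeasureTheory

namespace Pool.Agent.Lib.helper12.GW

variable {X : Type}

instance : MeasurableSpace (X →₀ ℕ) := ⊤

/-- Sample space (Ulam-Harris labels): an individual is a word of letters `(y, i)` (the `i`-th
child of type `y`), and `ω w` is the offspring vector of the individual `w`. -/
abbrev Om (X : Type) := List (X × ℕ) → (X →₀ ℕ)

/-- The type of individual `w` when the root has type `x`. -/
def ty : X → List (X × ℕ) → X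
  | x, [] => x
  | _, a :: w => ty a.1 w

/-- The family tree of the child `a` of the root. -/
def sh (a : X × ℕ) (ω : Om X) : Om X := fun w => ω (a :: w)

/-- The individual `w` is actually born. -/
def alive : List (X × ℕ) → Om X → Prop
  | [], _ => True
  | a :: w, ω => a.2 < ω [] a.1 ∧ alive w (sh a ω)

/-- The law of the process started from one individual of type `x`: independent offspring. -/
noncomputable def P (μ : X → PMF (X →₀ ℕ)) (x : X) : Measure (Om X) :=
  Measure.infinitePi fun w => (μ (ty x w)).toMeasure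

/-- Generation `n` contains no individual with type in `A`. -/
def No (A : Set X) (n : ℕ) (x : X) : Set (Om X) :=
  {ω | ∀ w, w.length = n → alive w ω → ty x w ∉ A}

/-- Extinction in `A`: all late generations contain no individual with type in `A`. -/
def Ex (A : Set X) (x : X) : Set (Om X) := {ω | ∀ᶠ n in atTop, ω ∈ No A n x}

/-- The vector `q(A)` of probabilities of extinction in `A`. -/
noncomputable def q (μ : X → PMF (X →₀ ℕ)) (A : Set X) (x : X) : ℝ := (P μ x).real (Ex A x)

/-- The vector of probabilities of partial extinction (extinction of every single type). -/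
noncomputable def qt (μ : X → PMF (X →₀ ℕ)) (x : X) : ℝ := (P μ x).real (⋂ y, Ex {y} x)

variable {μ : X → PMF (X →₀ ℕ)}

instance (x : X) : IsProbabilityMeasure (P μ x) := by unfold P; infer_instance

lemma m_sh (a : X × ℕ) : Measurable (sh a) := measurable_pi_lambda _ fun _ => measurable_pi_apply _

lemma m_at (w : List (X × ℕ)) (p : (X →₀ ℕ) → Prop) : Measurable fun ω : Om X => p (ω w) :=
  (measurable_from_top (f := p)).comp (measurable_pi_apply w)

def ch (B : X → Set (Om X)) : Set (Om X) := {ω | ∀ a : X × ℕ, a.2 < ω [] a.1 → sh a ω ∈ B a.1}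

def kids (f : X →₀ ℕ) : Finset (X × ℕ) :=
  (f.support.sigma fun y => Finset.range (f y)).map (Equiv.sigmaEquivProd X ℕ).toEmbedding

lemma mem_kids {f : X →₀ ℕ} {a : X × ℕ} : a ∈ kids f ↔ a.2 < f a.1 := by
  simp [kids]; omega

lemma P_mem (B : X → Set (Om X)) : (fun y => (P μ y).real (B y)) ∈ Icc (0 : X → ℝ) 1 :=
  ⟨fun _ => measureReal_nonneg, fun _ => measureReal_le_one⟩

lemma no_succ (A : Set X) (n : ℕ) (x : X) : No A (n + 1) x = ch (No A n) := Set.ext fun ω =>
  ⟨fun h a e w b c => h (a :: w) (by simp [b]) ⟨e, c⟩, fun h w b c => by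
    obtain ⟨a, v, rfl⟩ := List.exists_cons_of_length_eq_add_one b
    exact h a c.1 v (by simpa using b) c.2⟩

lemma ex_iff (A : Set X) (x : X) : Ex A x = ch (Ex A) := by
  have a : ∀ n ω, ω ∈ No A (n + 1) x ↔ ∀ a ∈ kids (ω []), sh a ω ∈ No A n a.1 := fun n ω => by
    simp only [no_succ, mem_kids]; rfl
  ext ω
  simp only [Ex, ch, mem_ofPred_eq, ← mem_kids, ← eventually_all_finset, ← a]
  conv_lhs => rw [← map_add_atTop_eq_nat 1]
  rfl

lemma m_alive : ∀ w : List (X × ℕ), Measurable (alive w)
  | [] => measurable_const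
  | a :: w => (m_at [] fun f => a.2 < f a.1).and ((m_alive w).comp (m_sh a))

variable [Countable X]

lemma m_No (A : Set X) (n : ℕ) (x : X) : MeasurableSet (No A n x) :=
  measurableSet_setOfPred.2 (.forall fun w => measurable_const.imp ((m_alive w).imp measurable_const))

lemma m_Ex (A : Set X) (x : X) : MeasurableSet (Ex A x) := by
  simp only [Ex, eventually_atTop]
  exact measurableSet_setOfPred.2 (.exists fun _ => .forall fun n => measurable_const.imp (m_No A n x).mem)

lemma m_ch {B : X → Set (Om X)} (h : ∀ y, MeasurableSet (B y)) : MeasurableSet (ch B) :=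
  measurableSet_setOfPred.2 (.forall fun a => (m_at [] fun f => a.2 < f a.1).imp
    ((h a.1).mem.comp (m_sh a)))

omit [Countable X] in
lemma block {B : X → Set (Om X)} (h : ∀ y, MeasurableSet (B y)) (x : X) (f : X →₀ ℕ) :
    P μ x ({ω | ω [] = f} ∩ ch B) = μ x f * f.prod fun y n => P μ y (B y) ^ n := by
  classical
  let κ := fun o : Option (X × ℕ) => {w : List (X × ℕ) // w.head? = o}
  let C : ∀ o, Set (κ o → (X →₀ ℕ)) := fun o => match o with
    | none => (fun η => η ⟨[], List.head?_nil⟩) ⁻¹' {f}
    | some a => (fun η w => η ⟨a :: w, rfl⟩) ⁻¹' B a.1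
  have c : ∀ o, MeasurableSet (C o) := by
    rintro (_ | a)
    exacts [measurable_pi_apply _ trivial, measurable_pi_lambda _ (by fun_prop) (h _)]
  have e := Measure.map_infinitePi_infinitePi_of_inj (P := fun w => (μ (ty x w)).toMeasure)
    (f := fun p : Σ o, κ o => p.2.1) (Equiv.sigmaFiberEquiv List.head?).injective
  have e2 := Measure.infinitePi_map_piCurry (X := fun o (_ : κ o) => X →₀ ℕ)
    fun o (w : κ o) => (μ (ty x w.1)).toMeasure
  rw [← e, Measure.map_map (by fun_prop) (by fun_prop)] at e2
  have e3 := congrArg (· (Set.pi (kids f).insertNone C)) e2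
  rw [Measure.map_apply (by fun_prop) (.pi (Finset.countable_toSet _) fun o _ => c o),
    Measure.infinitePi_pi _ fun o _ => c o, Finset.prod_insertNone] at e3
  refine (congrArg (P μ x) ?_).trans (e3.trans (congrArg₂ _ ?_ ?_))
  · ext ω
    simp only [mem_inter_iff, mem_ofPred_eq, ch, ← mem_kids, mem_preimage, Set.mem_pi, Finset.mem_coe,
      Option.forall, Finset.none_mem_insertNone, Finset.some_mem_insertNone, true_imp_iff]
    exact and_congr_right fun (e : ω [] = f) => e ▸ Iff.rfl
  · have t : MeasurableSet {f} := trivial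
    simp only [C]
    rw [← Measure.map_apply (by fun_prop) t, Measure.infinitePi_map_eval,
      PMF.toMeasure_apply_singleton _ _ t]; rfl
  · rw [Finset.prod_congr rfl (s₁ := kids f) (g := fun a => P μ a.1 (B a.1)) fun a _ => by
      simp only [C]
      rw [← Measure.map_apply (by fun_prop) (h _), Measure.map_infinitePi_infinitePi_of_inj
        (f := fun w => (⟨a :: w, rfl⟩ : κ (some a))) fun _ _ e => by simpa using e]; rfl]
    simp [kids, Finset.prod_sigma, Finsupp.prod]

lemma dec {B : X → Set (Om X)} (h : ∀ y, MeasurableSet (B y)) (x : X) :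
    (P μ x).real (ch B) = G μ (fun y => (P μ y).real (B y)) x := by
  have : ch B = ⋃ f, {ω | ω [] = f} ∩ ch B := by ext; simp
  rw [this, Measure.real, measure_iUnion
    (fun f g e => disjoint_left.2 fun ω a b => e (a.1.symm.trans b.1))
    fun f => (measurableSet_setOfPred.2 (m_at [] (· = f))).inter (m_ch h),
    ENNReal.tsum_toReal_eq fun _ => measure_ne_top _ _]
  simp [block h, G, Finsupp.prod, Measure.real]

lemma q_fix (A : Set X) : q μ A ∈ S μ :=
  ⟨P_mem _, funext fun x => by rw [q, ex_iff, dec (m_Ex A)]; rfl⟩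

lemma qt_fix : qt μ ∈ S μ := ⟨P_mem _, funext fun x => by
  have : ⋂ y, Ex {y} x = ch fun x => ⋂ y, Ex {y} x := by
    ext ω; simp only [ex_iff _ x, ch, mem_iInter, mem_ofPred_eq]; tauto
  rw [qt, this, dec fun _ => .iInter fun _ => m_Ex _ _]; rfl⟩

omit [Countable X] in
lemma real_le {x : X} {E : Set (Om X)} {D : ℕ → Set (Om X)} (h : ∀ ω ∈ E, ∀ᶠ n in atTop, ω ∈ D n)
    {c : ℝ} (hc : ∀ n, (P μ x).real (D n) ≤ c) : (P μ x).real E ≤ c := by
  have c0 := measureReal_nonneg.trans (hc 0)
  refine ENNReal.toReal_le_of_le_ofReal c0 ((measure_mono (t := ⋃ N, ⋂ n ≥ N, D n) fun ω e => by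
    simpa using h ω e).trans ?_)
  rw [Monotone.measure_iUnion fun a b e => biInter_subset_biInter_left fun _ k => e.trans k]
  exact iSup_le fun N => (measure_mono (biInter_subset_of_mem le_rfl)).trans
    ((ENNReal.le_ofReal_iff_toReal_le (measure_ne_top _ _) c0).2 (hc N))

lemma q_le {s : X → ℝ} (hs : s ∈ S μ) {A : Set X} (h : ∀ y ∉ A, s y = 1) : q μ A ≤ s := fun x => by
  refine real_le (D := fun n => No A n x) (fun _ => id) fun n => ?_
  induction n generalizing x with
  | zero =>
    by_cases e : x ∈ A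
    · rw [show No A 0 x = ∅ from eq_empty_of_forall_notMem fun ω k => k [] rfl trivial e]
      simpa using hs.1.1 x
    · exact h x e ▸ measureReal_le_one
  | succ n ih =>
    rw [no_succ, dec (m_No A n)]
    exact (G_mono (P_mem _).1 ih hs.1.2 x).trans_eq (congrFun hs.2 x)

def R (F : Set X) : ℕ → X → Set (Om X)
  | 0, x => {_ω | x ∉ F}
  | n + 1, x => {_ω | x ∉ F} ∪ ch (R F n)

lemma qt_le (F : Finset X) (x : X) : qt μ x ≤ sol μ F (qt μ) x := by
  have m : ∀ n y, MeasurableSet (R (F : Set X) n y) := fun n => by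
    induction n with
    | zero => exact fun _ => .const _
    | succ n ih => exact fun _ => (MeasurableSet.const _).union (m_ch ih)
  have r : ∀ (n : ℕ) y ω, ω ∈ No (F : Set X) n y → ω ∈ R (F : Set X) n y := fun n => by
    induction n with
    | zero => exact fun y ω h => h [] rfl trivial
    | succ n ih => exact fun y ω h => Or.inr fun a e => ih _ _ ((no_succ _ n y ▸ h :) a e)
  refine real_le (D := fun n => (⋂ y, Ex {y} x) ∩ R F n x) (fun ω h =>
    ((eventually_all_finset F).2 fun y _ => mem_iInter.1 h y).mono fun n k =>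
      ⟨h, r _ _ _ fun w a b c => k _ c w a b rfl⟩) fun n => le_trans ?_ ((sol_spec qt_fix.1).2.1 n x)
  induction n generalizing x with
  | zero =>
    rw [it]; split_ifs with e
    · simp [R, Finset.mem_coe.1 e]
    · exact measureReal_mono inter_subset_left
  | succ n ih =>
    rw [it]; split_ifs with e
    · refine (measureReal_mono (s₂ := ch fun x => (⋂ y, Ex {y} x) ∩ R F n x) fun ω k a b =>
        ⟨mem_iInter.2 fun y => (ex_iff _ x ▸ mem_iInter.1 k.1 y :) a b,
          k.2.resolve_left (not_not.2 e) a b⟩).trans ?_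
      rw [dec fun y => (MeasurableSet.iInter fun _ => m_Ex _ _).inter (m n y)]
      exact G_mono (P_mem _).1 ih (it_mem qt_fix.1 n).2 x
    · exact measureReal_mono inter_subset_left

theorem between (h : q μ univ < qt μ) :
    Cardinal.mk {s | s ∈ S μ ∧ q μ univ ≤ s ∧ s ≤ qt μ} = Cardinal.continuum := by
  obtain ⟨a, x, b⟩ := Pi.lt_def.1 h
  refine card (x := x) b fun c hc => ?_
  obtain ⟨z, z1, z2, z3, -⟩ := key (q_fix univ).1.1 a qt_fix.1.2 (q_fix univ).2.le qt_fix.2.le
    univ (mem_univ x) hc.1 fun F _ _ => hc.2.trans_le (qt_le F x)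
  have : z ∈ S μ := ⟨⟨z1.1, z1.2.trans qt_fix.1.2⟩, funext fun y => z3 y trivial⟩
  exact ⟨z, ⟨this, q_le this (by simp), z1.2⟩, z2⟩

theorem dich' {s : X → ℝ} (hs : s ∈ S μ) :
    s = q μ {y | s y ≠ 1} ∨ Cardinal.mk (S μ) = Cardinal.continuum := by
  refine or_iff_not_imp_left.2 fun h => ?_
  have k : ∀ n y, s y = 1 → (P μ y).real (No {y | s y ≠ 1} n y) = 1 := fun n => by
    induction n with
    | zero =>
      intro y e
      rw [show No _ 0 y = univ from eq_univ_of_forall fun ω w a _ => by
        simp [List.length_eq_zero_iff.1 a, ty, e], probReal_univ]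
    | succ n ih =>
      intro y e
      rw [no_succ, dec (m_No _ n), G_congr (t := s) fun f hf w hw => by
        have := G_one hs.1 (by rw [hs.2, e]) hf hw; rw [ih w this, this], hs.2, e]
  obtain ⟨x, a, b, c, d⟩ := dich hs (q_fix _).1.1 (q_le hs (by simp)) (q_fix _).2.le
    (fun y e => (ENNReal.toReal_eq_one_iff _).2 ((mem_ae_iff_prob_eq_one (m_Ex _ y)).1
      ((ae_all_iff.2 fun n => (mem_ae_iff_prob_eq_one (m_No _ n y)).2
        ((ENNReal.toReal_eq_one_iff _).1 (k n y e))).mono fun ω h => .of_forall h))) (Ne.symm h)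
  exact card c d

end Pool.Agent.Lib.helper12.GW
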