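import Mathlib

/- Grigorchuk group acting on the ray; the first part is adapted from helper15 (S00820). -/

set_option autoImplicit false

namespace Pool.Agent.Lib.helper12.Grig

abbrev V4 := Bool × Bool

def sh (x : V4) : V4 := (x.2, xor x.1 x.2)
def ad (x y : V4) : V4 := (xor x.1 y.1, xor x.2 y.2)

def act (x : V4) (j : ℕ) : Bool :=
  if h : j = 0 then false else if j % 2 = 1 then x.1 else act (sh x) (j / 2)
termination_by j
decreasing_by omega

lemma act_zero (x : V4) : act x 0 = false := by rw [act]; simp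
lemma act_odd (x : V4) (j : ℕ) (h : j % 2 = 1) : act x j = x.1 := by
  rw [act, dif_neg (by omega), if_pos h]
lemma act_even (x : V4) (j : ℕ) (h : j % 2 = 0) : act x j = act (sh x) (j / 2) := by
  by_cases h0 : j = 0
  · subst h0; simp [act_zero]
  · rw [act, dif_neg h0, if_neg (by omega)]

lemma act_ad (j : ℕ) : ∀ x y, act (ad x y) j = xor (act x j) (act y j) := by
  induction j using Nat.strong_induction_on with
  | _ j ih =>
    intro x y
    by_cases h0 : j = 0
    · subst h0; simp [act_zero]
    rcases Nat.mod_two_eq_zero_or_one j with h | h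
    · rw [act_even _ _ h, act_even _ _ h, act_even _ _ h, ← ih _ (by omega)]
      congr 1; revert x y; decide
    · rw [act_odd _ _ h, act_odd _ _ h, act_odd _ _ h]; rfl

lemma act_ex (j : ℕ) (hj : j ≠ 0) : ∃ x, act x j = true := by
  induction j using Nat.strong_induction_on with
  | _ j ih =>
    rcases Nat.mod_two_eq_zero_or_one j with h | h
    · obtain ⟨x, hx⟩ := ih (j / 2) (by omega) (by omega)
      refine ⟨sh (sh x), ?_⟩
      rw [act_even _ _ h, ← hx]
      congr 1; clear hx; revert x; decide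
    · exact ⟨(true, true), act_odd _ _ h⟩

def gf (x : V4) (k : ℕ) : ℕ :=
  if act x ((k + 1) / 2) then (if k % 2 = 1 then k + 1 else k - 1) else k

def af (k : ℕ) : ℕ := if k % 2 = 0 then k + 1 else k - 1

lemma gf_zero (x : V4) : gf x 0 = 0 := by simp [gf]

lemma gf_idx (x : V4) (k : ℕ) : (gf x k + 1) / 2 = (k + 1) / 2 := by
  unfold gf
  split_ifs with h1 h2
  · omega
  · have : (k + 1) / 2 ≠ 0 := by intro h; rw [h, act_zero] at h1; simp at h1
    omega
  · rfl

lemma gf_gf (x y : V4) (k : ℕ) : gf x (gf y k) = gf (ad x y) k := by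
  have h0 : act y ((k + 1) / 2) = true → (k + 1) / 2 ≠ 0 := by
    intro h1 h; rw [h, act_zero] at h1; simp at h1
  conv_lhs => rw [gf, gf_idx]
  conv_rhs => rw [gf, act_ad]
  unfold gf
  cases hx : act x ((k + 1) / 2) <;> cases hy : act y ((k + 1) / 2) <;> simp
  have := h0 hy
  split_ifs <;> omega

lemma act_ff (j : ℕ) : act (false, false) j = false := by
  have := act_ad j (false, false) (false, false)
  rw [Bool.xor_self] at this
  exact this

lemma gf_ff (k : ℕ) : gf (false, false) k = k := by simp [gf, act_ff]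

lemma gf_inv (x : V4) : Function.Involutive (gf x) := by
  intro k
  rw [gf_gf]
  have : ad x x = (false, false) := by simp [ad]
  rw [this, gf_ff]

lemma af_inv : Function.Involutive af := by
  intro k; unfold af; split_ifs <;> omega

lemma gf_le (x : V4) (k : ℕ) : gf x k ≤ k + 1 := by unfold gf; split_ifs <;> omega
lemma af_le (k : ℕ) : af k ≤ k + 1 := by unfold af; split_ifs <;> omega

def e0 (m : ℕ) : ℕ := 2 * m + m % 2
def e1 (m : ℕ) : ℕ := 2 * m + 1 - m % 2

lemma af_e0 (m : ℕ) : af (e0 m) = e1 m := by unfold af e0 e1; split_ifs <;> omega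
lemma af_e1 (m : ℕ) : af (e1 m) = e0 m := by unfold af e0 e1; split_ifs <;> omega

lemma gf_e0 (x : V4) (m : ℕ) : gf x (e0 m) = e0 (gf (sh x) m) := by
  have h1 : act x ((e0 m + 1) / 2) = act (sh x) ((m + 1) / 2) := by
    have h2 : (e0 m + 1) / 2 = 2 * ((m + 1) / 2) := by
      unfold e0; rcases Nat.mod_two_eq_zero_or_one m with h | h <;> rw [h] <;> omega
    rw [h2, act_even _ _ (by omega)]; congr 1; omega
  have h0 : act (sh x) ((m + 1) / 2) = true → (m + 1) / 2 ≠ 0 := by
    intro h1 h; rw [h, act_zero] at h1; simp at h1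
  unfold gf
  rw [h1]
  cases h : act (sh x) ((m + 1) / 2)
  · simp
  · have := h0 h
    simp only [if_true]
    unfold e0; split_ifs <;> omega

lemma gf_e1 (x : V4) (m : ℕ) : gf x (e1 m) = e1 (if x.1 then af m else m) := by
  have h1 : act x ((e1 m + 1) / 2) = x.1 := act_odd _ _ (by unfold e1; omega)
  unfold gf
  rw [h1]
  cases x.1
  · simp
  · simp only [if_true]
    unfold e1 af; split_ifs <;> omega

/-- inverted orbits -/
def O : List V4 → Finset ℕ
  | [] => {0}
  | x :: w => (insert 0 ((O w).image af)).image (gf x)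

def hd (x : V4) : List V4 → List V4
  | [] => []
  | y :: w => ad x y :: w

lemma O_zero (w : List V4) : 0 ∈ O w := by
  cases w with
  | nil => simp [O]
  | cons x w => simp [O, gf_zero]

lemma O_hd (x : V4) (w : List V4) : O (hd x w) = (O w).image (gf x) := by
  cases w with
  | nil => simp [O, hd, gf_zero]
  | cons y w =>
    simp only [O, hd, Finset.image_image]
    congr 1; funext k; exact (gf_gf x y k).symm

lemma O_ff (w : List V4) : O ((false, false) :: w) = insert 0 ((O w).image af) := by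
  have : gf (false, false) = id := funext gf_ff
  simp [O, this]

def wt (x : V4) : ℕ := if x.1 then (if x.2 then 5 else 4) else (if x.2 then 3 else 0)

def W : List V4 → ℕ
  | [] => 0
  | x :: w => 3 + wt x + W w

lemma W_hd (x : V4) (w : List V4) : W (hd x w) ≤ wt x + W w := by
  cases w with
  | nil => simp [W, hd]
  | cons y w =>
    have : wt (ad x y) ≤ wt x + wt y := by revert x y; decide
    simp only [W, hd]; omega

def sec : List V4 → List V4 × List V4
  | [] => ([], [])
  | x :: w => (hd (sh x) (sec w).2, if x.1 then (false, false) :: (sec w).1 else (sec w).1)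

lemma W_sec (w : List V4) : 8 * (W (sec w).1 + W (sec w).2) ≤ 7 * W w := by
  induction w with
  | nil => simp [sec, W]
  | cons x w ih =>
    have h1 := W_hd (sh x) (sec w).2
    have h2 : 8 * (wt (sh x) + if x.1 then 3 else 0) ≤ 7 * (3 + wt x) := by
      clear h1; revert x; decide
    simp only [sec, W]
    split_ifs at h2 ⊢
    · have h3 : wt (false, false) = 0 := rfl
      simp only [W, h3]; omega
    · omega

lemma O_sec (w : List V4) : O w ⊆ (O (sec w).1).image e0 ∪ (O (sec w).2).image e1 := by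
  induction w with
  | nil => simp [sec, O, e0]
  | cons x w ih =>
    intro k hk
    simp only [O, Finset.mem_image, Finset.mem_insert] at hk
    obtain ⟨_, rfl | ⟨m, hm, rfl⟩, rfl⟩ := hk
    · rw [gf_zero]
      exact Finset.mem_union_left _ (Finset.mem_image.2 ⟨0, O_zero _, rfl⟩)
    · rcases Finset.mem_union.1 (ih hm) with h | h
      · obtain ⟨l, hl, rfl⟩ := Finset.mem_image.1 h
        rw [af_e0, gf_e1]
        refine Finset.mem_union_right _ (Finset.mem_image_of_mem _ ?_)
        simp only [sec]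
        split_ifs
        · rw [O_ff]; exact Finset.mem_insert_of_mem (Finset.mem_image_of_mem _ hl)
        · exact hl
      · obtain ⟨l, hl, rfl⟩ := Finset.mem_image.1 h
        rw [af_e1, gf_e0]
        refine Finset.mem_union_left _ (Finset.mem_image_of_mem _ ?_)
        simp only [sec]
        rw [O_hd]; exact Finset.mem_image_of_mem _ hl

lemma card_O (k : ℕ) : ∀ w : List V4, ((O w).card : ℝ) ≤ 2 ^ k + (7 / 8) ^ k * W w := by
  induction k with
  | zero =>
    intro w
    have : (O w).card ≤ 1 + W w := by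
      induction w with
      | nil => simp [O]
      | cons x w ih =>
        have h1 : (O (x :: w)).card ≤ (O w).card + 1 :=
          Finset.card_image_le.trans ((Finset.card_insert_le _ _).trans
            (Nat.succ_le_succ Finset.card_image_le))
        simp only [W]; omega
    simpa using (by exact_mod_cast this : ((O w).card : ℝ) ≤ 1 + W w)
  | succ k ih =>
    intro w
    have h1 : (O w).card ≤ (O (sec w).1).card + (O (sec w).2).card :=
      (Finset.card_le_card (O_sec w)).trans ((Finset.card_union_le _ _).trans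
        (add_le_add Finset.card_image_le Finset.card_image_le))
    have h2 : ((O w).card : ℝ) ≤ (O (sec w).1).card + (O (sec w).2).card := by exact_mod_cast h1
    have h3 : (8 : ℝ) * (W (sec w).1 + W (sec w).2) ≤ 7 * W w := by exact_mod_cast W_sec w
    have h4 := ih (sec w).1
    have h5 := ih (sec w).2
    have h6 : (0 : ℝ) ≤ (7 / 8) ^ k := by positivity
    rw [pow_succ, pow_succ]
    nlinarith [mul_le_mul_of_nonneg_left h3 h6]

def ev : List V4 → ℕ → ℕ
  | [] => id
  | x :: w => fun k => gf x (af (ev w k))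

lemma ev_hd (x : V4) (w : List V4) (y : V4) :
    ∃ y', ∀ m, gf x (ev w (gf y m)) = ev (hd x w) (gf y' m) := by
  cases w with
  | nil => exact ⟨ad x y, fun m => by simp [ev, hd, gf_gf]⟩
  | cons z w => exact ⟨y, fun m => by simp [ev, hd, gf_gf]⟩

lemma ev_sec (w : List V4) : ∃ (p : Bool) (y1 y2 : V4), ∀ m,
    ev w (if p then e1 m else e0 m) = e0 (ev (sec w).1 (gf y1 m)) ∧
    ev w (if p then e0 m else e1 m) = e1 (ev (sec w).2 (gf y2 m)) := by
  induction w with
  | nil => exact ⟨false, (false, false), (false, false), fun m => by simp [ev, sec, gf_ff]⟩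
  | cons x w ih =>
    obtain ⟨p, y1, y2, h⟩ := ih
    obtain ⟨y', hy⟩ := ev_hd (sh x) (sec w).2 y2
    refine ⟨!p, y', y1, fun m => ⟨?_, ?_⟩⟩
    · have : (if (!p) = true then e1 m else e0 m) = if p then e0 m else e1 m := by cases p <;> rfl
      rw [this]
      simp only [ev, sec]
      rw [(h m).2, af_e1, gf_e0, hy]
    · have : (if (!p) = true then e0 m else e1 m) = if p then e1 m else e0 m := by cases p <;> rfl
      rw [this]
      simp only [ev, sec]
      rw [(h m).1, af_e0, gf_e1]
      split_ifs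
      · simp [ev, gf_ff]
      · rfl

def glue (q : (Bool × V4 × V4) × (ℕ → ℕ) × (ℕ → ℕ)) : ℕ → ℕ := fun k =>
  if k = (if q.1.1 then e1 (k / 2) else e0 (k / 2)) then e0 (q.2.1 (gf q.1.2.1 (k / 2)))
  else e1 (q.2.2 (gf q.1.2.2 (k / 2)))

lemma ev_glue (w : List V4) : ∃ q, ev w = glue (q, ev (sec w).1, ev (sec w).2) := by
  obtain ⟨p, y1, y2, h⟩ := ev_sec w
  refine ⟨(p, y1, y2), funext fun k => ?_⟩
  unfold glue
  by_cases hk : k = (if p then e1 (k / 2) else e0 (k / 2))
  · rw [if_pos hk, ← (h (k / 2)).1, ← hk]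
  · rw [if_neg hk, ← (h (k / 2)).2]
    congr 1
    cases p <;> simp only [e0, e1, if_true, if_false, Bool.false_eq_true] at hk ⊢ <;> omega

def Bd (θ : ℝ) : Prop := ∃ C : ℝ, 0 ≤ C ∧ ∀ n : ℕ, ∃ F : Finset (ℕ → ℕ),
  (∀ w, W w ≤ n → ev w ∈ F) ∧ (F.card : ℝ) ≤ C * Real.exp (θ * n)

lemma Bd_mono {θ θ' : ℝ} (h : θ ≤ θ') (hb : Bd θ) : Bd θ' := by
  obtain ⟨C, hC, hb⟩ := hb
  refine ⟨C, hC, fun n => ?_⟩
  obtain ⟨F, h1, h2⟩ := hb n
  refine ⟨F, h1, h2.trans ?_⟩
  gcongr

lemma Bd_base : Bd 4 := by
  classical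
  have key : ∀ n : ℕ, ∃ F : Finset (ℕ → ℕ), (∀ w, W w ≤ n → ev w ∈ F) ∧ F.card ≤ 5 ^ n := by
    intro n
    induction n with
    | zero =>
      refine ⟨{id}, fun w hw => ?_, by simp⟩
      cases w with
      | nil => simp [ev]
      | cons x w => simp only [W] at hw; omega
    | succ n ih =>
      obtain ⟨F, h1, h2⟩ := ih
      refine ⟨insert id ((Finset.univ ×ˢ F).image fun q : V4 × (ℕ → ℕ) =>
        fun k => gf q.1 (af (q.2 k))), fun w hw => ?_, ?_⟩
      · cases w with
        | nil => simp [ev]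
        | cons x w =>
          simp only [W] at hw
          exact Finset.mem_insert_of_mem (Finset.mem_image.2 ⟨(x, ev w),
            Finset.mem_product.2 ⟨Finset.mem_univ _, h1 w (by omega)⟩, rfl⟩)
      · refine (Finset.card_insert_le _ _).trans ?_
        have h3 := (Finset.card_image_le (s := Finset.univ ×ˢ F) (f := fun q : V4 × (ℕ → ℕ) =>
          fun k => gf q.1 (af (q.2 k))))
        rw [Finset.card_product] at h3
        have h4 : (Finset.univ : Finset V4).card = 4 := rfl
        have h5 : 0 < 5 ^ n := by positivity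
        rw [h4] at h3
        rw [pow_succ]
        omega
  refine ⟨1, zero_le_one, fun n => ?_⟩
  obtain ⟨F, h1, h2⟩ := key n
  refine ⟨F, h1, ?_⟩
  have h3 : (F.card : ℝ) ≤ 5 ^ n := by exact_mod_cast h2
  rw [one_mul, mul_comm, Real.exp_nat_mul]
  refine h3.trans (pow_le_pow_left₀ (by norm_num) ?_ n)
  linarith [Real.add_one_le_exp 4]

lemma Bd_step {θ : ℝ} (hθ : 0 < θ) (hb : Bd θ) : Bd (15 / 16 * θ) := by
  classical
  obtain ⟨C, hC, hb⟩ := hb
  choose F h1 h2 using hb
  refine ⟨32 * C ^ 2 * (1 + 32 / θ) ^ 2, by positivity, fun n => ?_⟩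
  let I := (Finset.range (n + 1) ×ˢ Finset.range (n + 1)).filter fun p => 8 * (p.1 + p.2) ≤ 7 * n
  refine ⟨I.biUnion fun p => (Finset.univ ×ˢ (F p.1 ×ˢ F p.2)).image glue, fun w hw => ?_, ?_⟩
  · obtain ⟨q, hq⟩ := ev_glue w
    have := W_sec w
    refine Finset.mem_biUnion.2 ⟨(W (sec w).1, W (sec w).2), ?_, Finset.mem_image.2 ⟨_, ?_, hq.symm⟩⟩
    · simp only [I, Finset.mem_filter, Finset.mem_product, Finset.mem_range]
      omega
    · simp only [Finset.mem_product, Finset.mem_univ, true_and]
      exact ⟨h1 _ _ le_rfl, h1 _ _ le_rfl⟩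
  · have a1 : ∀ p ∈ I, (((Finset.univ ×ˢ (F p.1 ×ˢ F p.2)).image glue).card : ℝ) ≤
        32 * C ^ 2 * Real.exp (7 / 8 * θ * n) := by
      intro p hp
      have b1 := Finset.card_image_le (s := Finset.univ ×ˢ (F p.1 ×ˢ F p.2)) (f := glue)
      rw [Finset.card_product, Finset.card_product] at b1
      have b2 : (Finset.univ : Finset (Bool × V4 × V4)).card = 32 := rfl
      rw [b2] at b1
      have b3 : (((Finset.univ ×ˢ (F p.1 ×ˢ F p.2)).image glue).card : ℝ) ≤
        32 * ((F p.1).card * (F p.2).card) := by exact_mod_cast b1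
      have b4 : (8 : ℝ) * (p.1 + p.2) ≤ 7 * n := by exact_mod_cast (Finset.mem_filter.1 hp).2
      have b5 : Real.exp (θ * p.1) * Real.exp (θ * p.2) ≤ Real.exp (7 / 8 * θ * n) := by
        rw [← Real.exp_add]
        exact Real.exp_le_exp.2 (by nlinarith)
      calc _ ≤ 32 * ((C * Real.exp (θ * p.1)) * (C * Real.exp (θ * p.2))) := by
            refine b3.trans ?_
            gcongr
            exacts [h2 _, h2 _]
        _ = 32 * C ^ 2 * (Real.exp (θ * p.1) * Real.exp (θ * p.2)) := by ring
        _ ≤ _ := by gcongr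
    have a2 : (I.card : ℝ) ≤ (n + 1) ^ 2 := by
      have : I.card ≤ (n + 1) ^ 2 := (Finset.card_filter_le _ _).trans (by simp [sq])
      exact_mod_cast this
    have a3 : ((n : ℝ) + 1) ≤ (1 + 32 / θ) * Real.exp (θ / 32 * n) := by
      have b1 := Real.add_one_le_exp (θ / 32 * n)
      have b2 : (1 + 32 / θ) * (θ / 32 * n + 1) = n + 1 + (θ / 32 * n + 32 / θ) := by
        field_simp; ring
      have b3 : 0 ≤ θ / 32 * n + 32 / θ := by positivity
      have b4 : (1 + 32 / θ) * (θ / 32 * n + 1) ≤ (1 + 32 / θ) * Real.exp (θ / 32 * n) := by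
        gcongr
      linarith
    have a4 : Real.exp (15 / 16 * θ * n) =
        Real.exp (θ / 32 * n) ^ 2 * Real.exp (7 / 8 * θ * n) := by
      rw [sq, ← Real.exp_add, ← Real.exp_add]; congr 1; ring
    calc _ ≤ ((∑ p ∈ I, ((Finset.univ ×ˢ (F p.1 ×ˢ F p.2)).image glue).card : ℕ) : ℝ) := by
          exact_mod_cast Finset.card_biUnion_le
      _ ≤ ∑ p ∈ I, 32 * C ^ 2 * Real.exp (7 / 8 * θ * n) := by
          rw [Nat.cast_sum]; exact Finset.sum_le_sum a1
      _ = I.card * (32 * C ^ 2 * Real.exp (7 / 8 * θ * n)) := by simp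
      _ ≤ ((1 + 32 / θ) * Real.exp (θ / 32 * n)) ^ 2 * (32 * C ^ 2 * Real.exp (7 / 8 * θ * n)) := by
          gcongr
          exact a2.trans (by gcongr)
      _ = _ := by rw [a4]; ring

lemma Bd_all {ε : ℝ} (hε : 0 < ε) : Bd ε := by
  have key : ∀ k : ℕ, Bd ((15 / 16) ^ k * 4) := by
    intro k
    induction k with
    | zero => simpa using Bd_base
    | succ k ih =>
      have := Bd_step (by positivity) ih
      rwa [← mul_assoc, ← pow_succ'] at this
  obtain ⟨k, hk⟩ := exists_pow_lt_of_lt_one (x := ε / 4) (y := 15 / 16) (by positivity) (by norm_num)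
  exact Bd_mono (by linarith) (key k)

end Pool.Agent.Lib.helper12.Grig
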