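import Pool.Agent.Lib.helper12.GrigA

set_option autoImplicit false

namespace Pool.Agent.Lib.helper12.Grig
open Equiv

def pa : Perm ℕ := af_inv.toPerm
def pg (x : V4) : Perm ℕ := (gf_inv x).toPerm
def gens : Set (Perm ℕ) := insert pa (insert (swap 0 1) (Set.range pg))

lemma gens_fin : gens.Finite := ((Set.finite_range _).insert _).insert _

lemma gens_inv {s : Perm ℕ} (hs : s ∈ gens) : s⁻¹ = s := by
  rcases hs with rfl | rfl | ⟨x, rfl⟩
  · rfl
  · simp
  · rfl

def Bl (n : ℕ) : Set (Perm ℕ) := {g | ∃ l : List (Perm ℕ), l.length ≤ n ∧ (∀ s ∈ l, s ∈ gens) ∧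
  l.prod = g}

lemma Bl_mul {m n : ℕ} {g h : Perm ℕ} (hg : g ∈ Bl m) (hh : h ∈ Bl n) : g * h ∈ Bl (m + n) := by
  obtain ⟨l, a1, a2, rfl⟩ := hg
  obtain ⟨l', b1, b2, rfl⟩ := hh
  refine ⟨l ++ l', by simp; omega, fun s hs => ?_, by simp⟩
  rcases List.mem_append.1 hs with h | h
  exacts [a2 s h, b2 s h]

lemma Bl_mono {m n : ℕ} {g : Perm ℕ} (hg : g ∈ Bl m) (h : m ≤ n) : g ∈ Bl n := by
  obtain ⟨l, a1, a2, rfl⟩ := hg
  exact ⟨l, a1.trans h, a2, rfl⟩

lemma Bl_gen {s : Perm ℕ} (hs : s ∈ gens) : s ∈ Bl 1 := ⟨[s], by simp, by simpa using hs, by simp⟩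

lemma Bl_one (n : ℕ) : (1 : Perm ℕ) ∈ Bl n := ⟨[], by simp, by simp, rfl⟩

lemma Bl_conj {s g : Perm ℕ} {n : ℕ} (hs : s ∈ gens) (hg : g ∈ Bl n) :
    s * g * s⁻¹ ∈ Bl (n + 2) := by
  rw [gens_inv hs]
  exact Bl_mono (Bl_mul (Bl_mul (Bl_gen hs) hg) (Bl_gen hs)) (by omega)

lemma swap0 (k : ℕ) : swap 0 k ∈ Bl (4 * k) := by
  induction k with
  | zero => rw [swap_self]; exact Bl_one _
  | succ k ih =>
    have ht : swap 0 1 ∈ gens := Or.inr (Or.inl rfl)
    rcases Nat.mod_two_eq_zero_or_one k with h | h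
    · by_cases h0 : k = 0
      · subst h0; exact Bl_mono (Bl_gen ht) (by omega)
      · have := Bl_conj ht (Bl_conj (Or.inl rfl : pa ∈ gens) ih)
        rw [← swap_apply_apply, ← swap_apply_apply] at this
        have e1 : pa 0 = 1 := rfl
        have e2 : pa k = k + 1 := by change af k = _; rw [af, if_pos h]
        rw [e1, e2, swap_apply_right, swap_apply_of_ne_of_ne (by omega) (by omega)] at this
        exact Bl_mono this (by omega)
    · obtain ⟨x, hx⟩ := act_ex ((k + 1) / 2) (by omega)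
      have := Bl_conj (Or.inr (Or.inr ⟨x, rfl⟩) : pg x ∈ gens) ih
      rw [← swap_apply_apply] at this
      have e1 : pg x 0 = 0 := gf_zero x
      have e2 : pg x k = k + 1 := by change gf x k = _; rw [gf, if_pos hx, if_pos h]
      rw [e1, e2] at this
      exact Bl_mono this (by omega)

lemma swapij (M i j : ℕ) (hi : i ≤ M) (hj : j ≤ M) : swap i j ∈ Bl (12 * M) := by
  by_cases h0 : j = 0
  · subst h0; rw [swap_comm]; exact Bl_mono (swap0 i) (by omega)
  by_cases h1 : j = i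
  · subst h1; rw [swap_self]; exact Bl_one _
  have := Bl_mul (Bl_mul (swap0 i) (swap0 j)) (swap0 i)
  have e := swap_apply_apply (swap 0 i) 0 j
  rw [swap_apply_left, swap_apply_of_ne_of_ne h0 h1, swap_inv] at e
  rw [e]
  exact Bl_mono this (by omega)

lemma fin_perm (M m : ℕ) (hm : m ≤ M) : ∀ g : Perm ℕ, (∀ k, m ≤ k → g k = k) →
    g ∈ Bl (m * (12 * M)) := by
  induction m with
  | zero =>
    intro g hg
    have : g = 1 := Equiv.ext fun k => hg k (by omega)
    rw [this]; exact Bl_one _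
  | succ m ih =>
    intro g hg
    have h1 : g m ≤ m := by
      by_contra h
      have := g.injective (hg (g m) (by omega))
      omega
    have h2 := ih (by omega) (swap m (g m) * g) fun k hk => by
      rcases Nat.eq_or_lt_of_le hk with rfl | h
      · simp
      · rw [Perm.mul_apply, hg k h, swap_apply_of_ne_of_ne (by omega) (by omega)]
    have h3 := Bl_mul (swapij M m (g m) (by omega) (by omega)) h2
    rw [swap_mul_self_mul] at h3
    exact Bl_mono h3 (le_of_eq (by ring))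

lemma O_le (w : List V4) : ∀ k ∈ O w, k ≤ W w := by
  induction w with
  | nil => simp [O]
  | cons x w ih =>
    intro k hk
    simp only [O, Finset.mem_image, Finset.mem_insert] at hk
    obtain ⟨_, rfl | ⟨m, hm, rfl⟩, rfl⟩ := hk
    · rw [gf_zero]; omega
    · have := gf_le x (af m)
      have := af_le m
      have := ih m hm
      simp only [W]; omega

lemma ev_inj (w : List V4) : Function.Injective (ev w) := by
  induction w with
  | nil => exact Function.injective_id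
  | cons x w ih => exact (gf_inv x).injective.comp (af_inv.injective.comp ih)

lemma struct (l : List (Perm ℕ)) (hl : ∀ s ∈ l, s ∈ gens) : ∃ w, w ≠ [] ∧
    W w ≤ 6 * l.length + 6 ∧ ∀ k, l.prod k ≠ ev w k → l.prod k ∈ O w ∧ ev w k ∈ O w := by
  induction l with
  | nil =>
    exact ⟨[(false, false), (false, false)], by simp, by simp [W, wt], fun k hk =>
      absurd (by simp [ev, gf_ff, af_inv k]) hk⟩
  | cons s l ih =>
    obtain ⟨w, h0, h1, h2⟩ := ih fun t ht => hl t (List.mem_cons_of_mem _ ht)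
    simp only [List.prod_cons, List.length_cons, Perm.mul_apply]
    rcases hl s List.mem_cons_self with rfl | rfl | ⟨x, rfl⟩
    · refine ⟨(false, false) :: w, by simp, by simp only [W, wt]; simp; omega, fun k hk => ?_⟩
      have e : ev ((false, false) :: w) k = af (ev w k) := by simp [ev, gf_ff]
      rw [e] at hk ⊢
      obtain ⟨a, b⟩ := h2 k fun h => hk (by rw [h]; rfl)
      rw [O_ff]
      exact ⟨Finset.mem_insert_of_mem (Finset.mem_image.2 ⟨_, a, rfl⟩),
        Finset.mem_insert_of_mem (Finset.mem_image_of_mem _ b)⟩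
    · refine ⟨(false, false) :: (false, false) :: w, by simp, by simp only [W, wt]; simp; omega,
        fun k hk => ?_⟩
      have e : ev ((false, false) :: (false, false) :: w) k = ev w k := by
        simp [ev, gf_ff, af_inv (ev w k)]
      have eO : ∀ j, j ∈ O ((false, false) :: (false, false) :: w) ↔ j = 0 ∨ j = 1 ∨ j ∈ O w := by
        intro j
        rw [O_ff, O_ff, Finset.image_insert, Finset.image_image, af_inv.comp_self]
        simp [af]
      rw [e] at hk ⊢
      rw [eO, eO]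
      have hs : ∀ j, swap 0 1 j = 0 ∨ swap 0 1 j = 1 ∨ swap 0 1 j = j := by
        intro j; rw [swap_apply_def]; split_ifs <;> simp
      by_cases h : l.prod k = ev w k
      · rw [h] at hk ⊢
        rw [swap_apply_def] at hk ⊢
        split_ifs at hk ⊢ <;> simp_all
      · obtain ⟨a, b⟩ := h2 k h
        refine ⟨?_, Or.inr (Or.inr b)⟩
        rcases hs (l.prod k) with h | h | h <;> simp [h, a]
    · have h3 := W_hd x w
      have h4 : wt x ≤ 5 := by unfold wt; split_ifs <;> omega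
      obtain ⟨y, w, rfl⟩ := List.exists_cons_of_ne_nil h0
      refine ⟨hd x (y :: w), by simp [hd], by omega, fun k hk => ?_⟩
      have e : ev (hd x (y :: w)) k = gf x (ev (y :: w) k) := by simp [ev, hd, gf_gf]
      rw [e] at hk ⊢
      obtain ⟨a, b⟩ := h2 k fun h => hk (by rw [h]; rfl)
      rw [O_hd]
      exact ⟨Finset.mem_image.2 ⟨_, a, rfl⟩, Finset.mem_image_of_mem _ b⟩

lemma small_sets {α : Type} [DecidableEq α] (U : Finset α) (d : ℕ) :
    (U.powerset.filter fun s => s.card ≤ d).card ≤ (U.card + 1) ^ d := by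
  induction d with
  | zero =>
    refine Finset.card_le_one.2 fun a ha b hb => ?_
    simp only [Finset.mem_filter, Nat.le_zero, Finset.card_eq_zero] at ha hb
    rw [ha.2, hb.2]
  | succ d ih =>
    have : (U.powerset.filter fun s => s.card ≤ d + 1) ⊆ (U.powerset.filter fun s => s.card ≤ d) ∪
        Finset.image₂ insert U (U.powerset.filter fun s => s.card ≤ d) := by
      intro s hs
      simp only [Finset.mem_filter, Finset.mem_powerset] at hs
      by_cases h : s.card ≤ d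
      · exact Finset.mem_union_left _ (by simp [hs.1, h])
      · obtain ⟨a, ha⟩ := Finset.card_pos.1 (show 0 < s.card by omega)
        refine Finset.mem_union_right _ (Finset.mem_image₂.2 ⟨a, hs.1 ha, s.erase a, ?_,
          Finset.insert_erase ha⟩)
        simp only [Finset.mem_filter, Finset.mem_powerset]
        exact ⟨(Finset.erase_subset _ _).trans hs.1, by rw [Finset.card_erase_of_mem ha]; omega⟩
    have h1 := (Finset.card_le_card this).trans (Finset.card_union_le _ _)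
    have h2 := Finset.card_image₂_le insert U (U.powerset.filter fun s => s.card ≤ d)
    rw [pow_succ]
    nlinarith

lemma count (n k : ℕ) (hk : 6 * n + 6 < 4 ^ k) (F : Finset (ℕ → ℕ))
    (hF : ∀ w, W w ≤ 6 * n + 6 → ev w ∈ F) :
    (Bl n).Finite ∧ (Bl n).ncard ≤ F.card * (16 ^ k + 1) ^ ⌊2 * (7 / 2 : ℝ) ^ k⌋₊ := by
  classical
  have h : ∀ g : Perm ℕ, ∃ w, g ∈ Bl n →
      W w ≤ 6 * n + 6 ∧ ∀ k, g k ≠ ev w k → g k ∈ O w ∧ ev w k ∈ O w := by
    intro g
    by_cases hg : g ∈ Bl n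
    · obtain ⟨l, a1, a2, rfl⟩ := hg
      obtain ⟨w, -, b1, b2⟩ := struct l a2
      exact ⟨w, fun _ => ⟨by omega, b2⟩⟩
    · exact ⟨[], fun e => absurd e hg⟩
  choose w hw using h
  let R : Perm ℕ → Finset (ℕ × ℕ) := fun g =>
    (O (w g) ×ˢ O (w g)).filter fun p => ∃ k, ev (w g) k = p.1 ∧ g k = p.2
  let U := Finset.range (4 ^ k) ×ˢ Finset.range (4 ^ k)
  let T := F ×ˢ (U.powerset.filter fun s => s.card ≤ ⌊2 * (7 / 2 : ℝ) ^ k⌋₊)
  have maps : ∀ g ∈ Bl n, (ev (w g), R g) ∈ (T : Set _) := by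
    intro g hg
    obtain ⟨a1, -⟩ := hw g hg
    simp only [T, Finset.mem_coe, Finset.mem_product, Finset.mem_filter, Finset.mem_powerset]
    refine ⟨hF _ a1, fun p hp => ?_, Nat.le_floor ?_⟩
    · obtain ⟨b1, b2⟩ := Finset.mem_product.1 (Finset.mem_filter.1 hp).1
      have := O_le _ _ b1
      have := O_le _ _ b2
      simp only [U, Finset.mem_product, Finset.mem_range]
      omega
    · have b1 : (R g).card ≤ (O (w g)).card := by
        refine Finset.card_le_card_of_injOn Prod.fst (fun p hp => ?_) fun p hp q hq e => ?_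
        · exact (Finset.mem_product.1 (Finset.mem_filter.1 hp).1).1
        · obtain ⟨i, c1, c2⟩ := (Finset.mem_filter.1 hp).2
          obtain ⟨j, d1, d2⟩ := (Finset.mem_filter.1 hq).2
          have : i = j := ev_inj _ (by rw [c1, d1, e])
          exact Prod.ext e (by rw [← c2, ← d2, this])
      have b2 : ((R g).card : ℝ) ≤ (O (w g)).card := by exact_mod_cast b1
      have b3 := card_O k (w g)
      have b4 : (W (w g) : ℝ) ≤ 4 ^ k := by exact_mod_cast (a1.trans hk.le)
      have b5 : (2 : ℝ) ^ k ≤ (7 / 2) ^ k := pow_le_pow_left₀ (by norm_num) (by norm_num) k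
      have b6 : (7 / 8 : ℝ) ^ k * W (w g) ≤ (7 / 2) ^ k := by
        calc _ ≤ (7 / 8 : ℝ) ^ k * 4 ^ k := by gcongr
          _ = _ := by rw [← mul_pow]; norm_num
      linarith
  have half : ∀ g ∈ Bl n, ∀ g', ev (w g) = ev (w g') → R g = R g' → ∀ j, g j ≠ ev (w g) j →
      g' j = g j := by
    intro g hg g' e1 e2 j hj
    obtain ⟨a, b⟩ := (hw g hg).2 j hj
    have : (ev (w g) j, g j) ∈ R g := Finset.mem_filter.2 ⟨Finset.mem_product.2 ⟨b, a⟩, j, rfl, rfl⟩
    rw [e2] at this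
    obtain ⟨i, c1, c2⟩ := (Finset.mem_filter.1 this).2
    rw [e1] at c1
    rw [← ev_inj _ c1]
    simpa [ev_inj _ c1] using c2
  have inj : Set.InjOn (fun g => (ev (w g), R g)) (Bl n) := by
    intro g hg g' hg' e
    obtain ⟨e1, e2⟩ := Prod.ext_iff.1 e
    ext j
    by_cases h1 : g j = ev (w g) j
    · by_cases h2 : g' j = ev (w g') j
      · rw [h1, h2]; exact congrFun e1 j
      · exact half g' hg' g e1.symm e2.symm j h2
    · exact (half g hg g' e1 e2 j h1).symm
  refine ⟨Set.Finite.of_injOn maps inj T.finite_toSet, ?_⟩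
  refine (Set.ncard_le_ncard_of_injOn _ maps inj T.finite_toSet).trans ?_
  rw [Set.ncard_coe_finset, Finset.card_product]
  refine Nat.mul_le_mul_left _ ((small_sets U _).trans_eq ?_)
  simp only [U, Finset.card_product, Finset.card_range, ← mul_pow]
  rfl

lemma subexp {ε : ℝ} (hε : 0 < ε) : ∃ C : ℝ, ∀ n : ℕ, (Bl n).Finite ∧
    ((Bl n).ncard : ℝ) ≤ C * Real.exp (ε * n) := by
  obtain ⟨C, hC, hb⟩ := Bd_all (ε := ε / 12) (by positivity)
  have h1 : ∃ D : ℝ, ∀ k : ℕ, 8 * k * (7 / 2 : ℝ) ^ k ≤ D + ε / 48 * 4 ^ k := by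
    have t := tendsto_self_mul_const_pow_of_lt_one (r := 7 / 8) (by norm_num) (by norm_num)
    obtain ⟨K, hK⟩ := Filter.eventually_atTop.1 (t.eventually_le_const
      (show (0 : ℝ) < ε / 384 by positivity))
    refine ⟨8 * K * (7 / 2) ^ K, fun k => ?_⟩
    rcases le_total K k with h | h
    · have e : (7 / 2 : ℝ) ^ k = (7 / 8) ^ k * 4 ^ k := by rw [← mul_pow]; norm_num
      have := mul_le_mul_of_nonneg_right (hK k h) (show (0 : ℝ) ≤ 4 ^ k by positivity)
      have h2 : (0 : ℝ) ≤ 8 * K * (7 / 2) ^ K := by positivity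
      rw [e]; nlinarith
    · have h2 : 8 * k * (7 / 2 : ℝ) ^ k ≤ 8 * K * (7 / 2) ^ K := by
        gcongr; norm_num
      have h3 : (0 : ℝ) ≤ ε / 48 * 4 ^ k := by positivity
      linarith
  obtain ⟨D, hD⟩ := h1
  refine ⟨C * Real.exp (D + ε), fun n => ?_⟩
  obtain ⟨F, a1, a2⟩ := hb (6 * n + 6)
  set k := Nat.log 4 (6 * n + 6) + 1 with hk
  have k1 : 6 * n + 6 < 4 ^ k := Nat.lt_pow_succ_log_self (by norm_num) _
  have k2 : 4 ^ k ≤ 4 * (6 * n + 6) := by
    rw [hk, pow_succ']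
    exact Nat.mul_le_mul_left _ (Nat.pow_log_le_self _ (by omega))
  obtain ⟨b1, b2⟩ := count n k k1 F a1
  refine ⟨b1, ?_⟩
  have b3 : ((Bl n).ncard : ℝ) ≤ F.card * (16 ^ k + 1) ^ ⌊2 * (7 / 2 : ℝ) ^ k⌋₊ := by
    exact_mod_cast b2
  have b4 : (16 : ℝ) ^ k + 1 ≤ Real.exp (4 * k) := by
    have c1 : (32 : ℝ) ≤ Real.exp 4 := by
      have := Real.exp_one_gt_d9
      calc (32 : ℝ) ≤ 2.7 ^ 4 := by norm_num
        _ ≤ Real.exp 1 ^ 4 := by gcongr; linarith
        _ = _ := by rw [← Real.exp_nat_mul]; norm_num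
    have c2 : (1 : ℝ) ≤ 16 ^ k := one_le_pow₀ (by norm_num)
    have c3 : (2 : ℝ) ≤ 2 ^ k := le_self_pow₀ (by norm_num) (by omega)
    calc (16 : ℝ) ^ k + 1 ≤ 2 ^ k * 16 ^ k := by nlinarith
      _ = 32 ^ k := by rw [← mul_pow]; norm_num
      _ ≤ Real.exp 4 ^ k := by gcongr
      _ = _ := by rw [← Real.exp_nat_mul, mul_comm]
  have b5 : (⌊2 * (7 / 2 : ℝ) ^ k⌋₊ : ℝ) ≤ 2 * (7 / 2) ^ k := Nat.floor_le (by positivity)
  have b6 : ((4 : ℝ) ^ k) ≤ 4 * (6 * n + 6) := by exact_mod_cast k2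
  calc _ ≤ (C * Real.exp (ε / 12 * (6 * n + 6 : ℕ))) *
        Real.exp (4 * k) ^ ⌊2 * (7 / 2 : ℝ) ^ k⌋₊ := b3.trans (by gcongr)
    _ = C * Real.exp (ε / 12 * (6 * n + 6) + ⌊2 * (7 / 2 : ℝ) ^ k⌋₊ * (4 * k)) := by
        rw [← Real.exp_nat_mul, Real.exp_add]; push_cast; ring
    _ ≤ C * Real.exp (D + ε + ε * n) := by
        refine mul_le_mul_of_nonneg_left (Real.exp_le_exp.2 ?_) hC
        have := hD k
        have h2 := mul_le_mul_of_nonneg_right b5 (show (0 : ℝ) ≤ 4 * k by positivity)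
        have h3 := mul_le_mul_of_nonneg_left b6 hε.le
        nlinarith
    _ = _ := by rw [Real.exp_add]; ring

lemma orders (K : ℕ) (T : Finset ℕ) (hT : T ⊆ Nat.primesLE K) :
    ∃ g ∈ Bl (12 * K ^ 4), orderOf g = T.val.lcm := by
  obtain ⟨σ, hσ⟩ := (Perm.exists_with_cycleType_iff (Fin (K ^ 2)) (m := T.val)).2 ⟨by
    rw [Fintype.card_fin]
    have h1 : T.card ≤ K := by
      have : T ⊆ Finset.Ioc 0 K := fun p hp => Finset.mem_Ioc.2
        ⟨(Nat.prime_of_mem_primesLE (hT hp)).pos, Nat.le_of_mem_primesLE (hT hp)⟩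
      simpa using Finset.card_le_card this
    have h2 := Multiset.sum_le_card_nsmul T.val K fun p hp => Nat.le_of_mem_primesLE (hT hp)
    rw [sq]
    exact h2.trans (Nat.mul_le_mul_right _ h1), fun p hp =>
      (Nat.prime_of_mem_primesLE (hT hp)).two_le⟩
  refine ⟨Perm.viaEmbeddingHom Fin.valEmbedding σ, ?_, ?_⟩
  · refine Bl_mono (fin_perm (K ^ 2) (K ^ 2) le_rfl _ fun k hk => ?_) (le_of_eq (by ring))
    refine Perm.viaEmbedding_apply_of_notMem _ _ _ ?_
    rintro ⟨i, rfl⟩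
    exact absurd i.2 (not_lt.2 hk)
  · rw [orderOf_injective _ (Perm.viaEmbeddingHom_injective _), ← Perm.lcm_cycleType, hσ]

lemma lcm_inj (K : ℕ) {T T' : Finset ℕ} (hT : T ⊆ Nat.primesLE K) (hT' : T' ⊆ Nat.primesLE K)
    (h : T.val.lcm = T'.val.lcm) : T ⊆ T' := by
  intro p hp
  have hpp := Nat.prime_of_mem_primesLE (hT hp)
  have h1 : p ∣ T'.val.lcm := h ▸ Multiset.dvd_lcm hp
  have h2 : T'.val.lcm ∣ T'.val.prod := Multiset.lcm_dvd.2 fun b hb => Multiset.dvd_prod hb
  obtain ⟨q, hq, hpq⟩ := hpp.prime.exists_mem_multiset_dvd (h1.trans h2)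
  rwa [(Nat.prime_dvd_prime_iff_eq hpp (Nat.prime_of_mem_primesLE (hT' hq))).1 hpq]

end Pool.Agent.Lib.helper12.Grig
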