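import Mathlib

set_option autoImplicit false

namespace Pool.Agent.Lib.helper12.NL

variable {V : Type}

/-- Neighbour-locating colouring with colours in `Fin k`: proper, and distinct vertices of the
same colour see different sets of colours. -/
def IsNL (G : SimpleGraph V) {k : ℕ} (c : V → Fin k) : Prop :=
  (∀ u v, G.Adj u v → c u ≠ c v) ∧
    ∀ u v, u ≠ v → c u = c v → c '' G.neighborSet u ≠ c '' G.neighborSet v

/-- The neighbour-locating chromatic number. -/
noncomputable def chiNL (G : SimpleGraph V) : ℕ := sInf {k | ∃ c : V → Fin k, IsNL G c}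

lemma isNL_iff {G : SimpleGraph V} {k : ℕ} {c : V → Fin k} : IsNL G c ↔
    (∀ u v, G.Adj u v → c u ≠ c v) ∧ ∀ u v, u ≠ v → c u = c v →
      ¬ ∀ i, (∃ w, G.Adj u w ∧ c w = i) ↔ ∃ w, G.Adj v w ∧ c w = i := by
  simp only [IsNL, Ne, Set.ext_iff, Set.mem_image, SimpleGraph.mem_neighborSet]

lemma chi_le {G : SimpleGraph V} {k : ℕ} {c : V → Fin k} (h : IsNL G c) : chiNL G ≤ k :=
  Nat.sInf_le ⟨c, h⟩

lemma chi_spec [Fintype V] (G : SimpleGraph V) : ∃ c : V → Fin (chiNL G), IsNL G c :=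
  Nat.sInf_mem (s := {k | ∃ c : V → Fin k, IsNL G c}) ⟨_, Fintype.equivFin V,
    fun _ _ h e => h.ne ((Fintype.equivFin V).injective e),
    fun _ _ h e => absurd ((Fintype.equivFin V).injective e) h⟩

lemma lt_chi [Fintype V] {G : SimpleGraph V} {k : ℕ} (h : ∀ c : V → Fin k, ¬ IsNL G c) :
    k < chiNL G := by
  by_contra! hk
  obtain ⟨c, h1, h2⟩ := chi_spec G
  have i := Fin.castLE_injective hk
  refine h (Fin.castLE hk ∘ c) ⟨fun u v a e => h1 u v a (i e), fun u v a e b => h2 u v a (i e) ?_⟩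
  rw [Set.image_comp, Set.image_comp] at b
  exact Set.image_injective.2 i b

end Pool.Agent.Lib.helper12.NL
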