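import Mathlib

set_option autoImplicit false

namespace Pool.Agent.Lib.helper12.Nim

/-- The rules that fix the nim product: (a), (b), commutativity, associativity and
distributivity over the nim sum (bitwise exclusive or). -/
structure NimRules (op : ℕ → ℕ → ℕ) : Prop where
  rule_a : ∀ a n, n < 2 ^ 2 ^ a → op (2 ^ 2 ^ a) n = 2 ^ 2 ^ a * n
  rule_b : ∀ a, op (2 ^ 2 ^ a) (2 ^ 2 ^ a) = 3 * 2 ^ 2 ^ a / 2
  comm : ∀ x y, op x y = op y x
  assoc : ∀ x y z, op (op x y) z = op x (op y z)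
  distrib : ∀ x y z, op x (y ^^^ z) = op x y ^^^ op x z

/-- a 2-regular sequence: the 2-kernel spans a finitely generated `ℤ`-module -/
def TwoRegularSeq (s : ℕ → ℤ) : Prop :=
  (Submodule.span ℤ {f : ℕ → ℤ | ∃ e r : ℕ, r < 2 ^ e ∧ f = fun n => s (2 ^ e * n + r)}).FG

/-- a 2-regular two-dimensional array -/
def TwoRegularArr (t : ℕ × ℕ → ℤ) : Prop :=
  (Submodule.span ℤ {f : ℕ × ℕ → ℤ | ∃ e r r' : ℕ, r < 2 ^ e ∧ r' < 2 ^ e ∧
    f = fun p => t (2 ^ e * p.1 + r, 2 ^ e * p.2 + r')}).FG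

end Pool.Agent.Lib.helper12.Nim
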