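import Mathlib
import Pool.Agent.Lib.helper12.NimDefs

set_option autoImplicit false

namespace Pool.Agent.Lib.helper12.Nim

theorem add_eq_xor {i r : ℕ} (h : r < 2 ^ i) (q : ℕ) : 2 ^ i * q + r = 2 ^ i * q ^^^ r := by
  apply Nat.eq_of_testBit_eq
  intro j
  rw [Nat.testBit_two_pow_mul_add q h, Nat.testBit_xor, Nat.testBit_two_pow_mul]
  by_cases hj : j < i
  · have : ¬ i ≤ j := by omega
    simp [hj, this]
  · have h1 : i ≤ j := by omega
    have h2 : r.testBit j = false :=
      Nat.testBit_lt_two_pow (lt_of_lt_of_le h (Nat.pow_le_pow_right (by norm_num) h1))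
    simp [hj, h1, h2]

/-- Fermat 2-powers -/
def F (a : ℕ) : ℕ := 2 ^ 2 ^ a

theorem F_succ (a : ℕ) : F (a + 1) = F a * F a := by
  unfold F
  rw [pow_succ, mul_two, pow_add]

theorem F_even (a : ℕ) : ∃ c, F a = 2 * c := by
  unfold F
  have : 2 ^ a = (2 ^ a - 1) + 1 := by
    have := Nat.one_le_two_pow (n := a)
    omega
  exact ⟨2 ^ (2 ^ a - 1), by rw [this, pow_succ, mul_comm]; rfl⟩

theorem F_pos (a : ℕ) : 0 < F a := by unfold F; positivity

theorem two_le_F (a : ℕ) : 2 ≤ F a := by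
  obtain ⟨c, hc⟩ := F_even a
  have := F_pos a
  omega

theorem half_lt (a : ℕ) : F a / 2 < F a := by
  have := F_pos a
  omega

theorem F_half_succ (a : ℕ) : F (a + 1) / 2 = F a * (F a / 2) := by
  obtain ⟨c, hc⟩ := F_even a
  rw [F_succ, hc]
  have : 2 * c * (2 * c) = 2 * (2 * c * c) := by ring
  rw [this, Nat.mul_div_cancel_left _ (by norm_num), Nat.mul_div_cancel_left _ (by norm_num)]

theorem lt_F (a : ℕ) : a < F a :=
  lt_trans Nat.lt_two_pow_self Nat.lt_two_pow_self

theorem F_mono {a b : ℕ} (h : a ≤ b) : F a ≤ F b :=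
  Nat.pow_le_pow_right (by norm_num) (Nat.pow_le_pow_right (by norm_num) h)

theorem xor_lt_F {a x y : ℕ} (hx : x < F a) (hy : y < F a) : x ^^^ y < F a :=
  Nat.xor_lt_two_pow hx hy

theorem addF {a r : ℕ} (h : r < F a) (q : ℕ) : F a * q + r = F a * q ^^^ r := add_eq_xor h q

theorem comb_lt {a q r : ℕ} (hq : q < F a) (hr : r < F a) : F a * q + r < F (a + 1) := by
  rw [F_succ]
  nlinarith

section rules

variable {op : ℕ → ℕ → ℕ}

theorem NimRules.ra (h : NimRules op) {a n : ℕ} (hn : n < F a) : op (F a) n = F a * n :=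
  h.rule_a a n hn

theorem NimRules.rb (h : NimRules op) (a : ℕ) : op (F a) (F a) = F a ^^^ F a / 2 := by
  have h1 : op (F a) (F a) = 3 * F a / 2 := h.rule_b a
  have h2 := addF (half_lt a) 1
  rw [mul_one] at h2
  obtain ⟨c, hc⟩ := F_even a
  rw [h1, ← h2]
  omega

theorem NimRules.zero (h : NimRules op) (x : ℕ) : op x 0 = 0 := by
  have := h.distrib x 0 0
  simpa using this

theorem NimRules.distrib' (h : NimRules op) (x y z : ℕ) :
    op (x ^^^ y) z = op x z ^^^ op y z := by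
  rw [h.comm, h.distrib, h.comm z, h.comm z]

theorem NimRules.decomp (h : NimRules op) {a x : ℕ} (hx : x < F (a + 1)) :
    x / F a < F a ∧ x % F a < F a ∧ x = op (F a) (x / F a) ^^^ x % F a := by
  have h1 : x / F a < F a := by
    rw [F_succ] at hx
    exact Nat.div_lt_of_lt_mul hx
  have h2 : x % F a < F a := Nat.mod_lt _ (F_pos a)
  refine ⟨h1, h2, ?_⟩
  rw [h.ra h1, ← addF h2, Nat.div_add_mod]

theorem NimRules.one_one (h : NimRules op) : op 1 1 = 1 := by
  have h1 : op 2 1 = 2 := h.rule_a 0 1 (by norm_num)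
  have h2 : op 2 2 = 3 := h.rule_b 0
  have h3 : op 1 (2 ^^^ 3) = op 1 2 ^^^ op 1 3 := h.distrib 1 2 3
  have h4 : op 1 3 = 3 := by rw [← h2, ← h.assoc, h.comm 1 2, h1]
  rw [h4, h.comm 1 2, h1] at h3
  exact h3

theorem NimRules.one (h : NimRules op) (x : ℕ) : op 1 x = x := by
  have : ∀ a x, x < F a → op 1 x = x := by
    intro a
    induction a with
    | zero =>
      intro x hx
      have : x = 0 ∨ x = 1 := by
        have : F 0 = 2 := rfl
        omega
      rcases this with rfl | rfl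
      · exact h.zero 1
      · exact h.one_one
    | succ a ih =>
      intro x hx
      obtain ⟨h1, h2, h3⟩ := h.decomp hx
      have h4 : op 1 (F a) = F a := by
        rw [h.comm, h.ra (by have := two_le_F a; omega), mul_one]
      conv_lhs => rw [h3]
      rw [h.distrib, ← h.assoc, h4, ih _ h2, ← h3]
  exact this x x (lt_F x)

/-- type synonym carrying the ring structure -/
def N (_h : NimRules op) : Type := ℕ

instance (h : NimRules op) : Add (N h) := ⟨fun x y => (show ℕ from x) ^^^ (show ℕ from y)⟩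
instance (h : NimRules op) : Zero (N h) := ⟨(0 : ℕ)⟩
instance (h : NimRules op) : Mul (N h) := ⟨op⟩
instance (h : NimRules op) : One (N h) := ⟨(1 : ℕ)⟩

instance (h : NimRules op) : CommSemiring (N h) where
  add_assoc := Nat.xor_assoc
  zero_add := Nat.zero_xor
  add_zero := Nat.xor_zero
  add_comm := Nat.xor_comm
  left_distrib := h.distrib
  right_distrib := h.distrib'
  zero_mul x := by
    change op 0 x = 0
    rw [h.comm]
    exact h.zero x
  mul_zero := h.zero
  mul_assoc := h.assoc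
  one_mul := h.one
  mul_one x := by
    change op x 1 = x
    rw [h.comm]
    exact h.one x
  mul_comm := h.comm
  nsmul := nsmulRec
  npow := npowRec

theorem NimRules.prod (h : NimRules op) (a x1 x0 y1 y0 : ℕ) :
    op (op (F a) x1 ^^^ x0) (op (F a) y1 ^^^ y0) =
      op (F a) (op x1 y1 ^^^ op x1 y0 ^^^ op x0 y1) ^^^
        (op x0 y0 ^^^ op (F a / 2) (op x1 y1)) := by
  have key : ∀ f u x1 x0 y1 y0 : N h, f * f = f + u →
      (f * x1 + x0) * (f * y1 + y0) = f * (x1 * y1 + x1 * y0 + x0 * y1) +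
        (x0 * y0 + u * (x1 * y1)) := by
    intro f u x1 x0 y1 y0 e
    calc (f * x1 + x0) * (f * y1 + y0)
        = (f * f) * (x1 * y1) + (f * (x1 * y0 + x0 * y1) + x0 * y0) := by ring
      _ = _ := by rw [e]; ring
  exact key (F a) (F a / 2) x1 x0 y1 y0 (h.rb a)

theorem NimRules.closed (h : NimRules op) (a : ℕ) :
    ∀ x y, x < F a → y < F a → op x y < F a := by
  induction a with
  | zero =>
    intro x y hx hy
    have e : F 0 = 2 := rfl
    have : x = 0 ∨ x = 1 := by omega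
    rcases this with rfl | rfl
    · rw [h.comm, h.zero]; omega
    · rw [h.one]; exact hy
  | succ a ih =>
    intro x y hx hy
    obtain ⟨x1, x2, x3⟩ := h.decomp hx
    obtain ⟨y1, y2, y3⟩ := h.decomp hy
    have p1 := xor_lt_F (xor_lt_F (ih _ _ x1 y1) (ih _ _ x1 y2)) (ih _ _ x2 y1)
    have p2 := xor_lt_F (ih _ _ x2 y2) (ih _ _ (half_lt a) (ih _ _ x1 y1))
    rw [x3, y3, h.prod, h.ra p1, ← addF p2]
    exact comb_lt p1 p2

theorem NimRules.inv (h : NimRules op) (a : ℕ) : ∃ w, w < F a ∧ op (F a / 2) w = 1 := by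
  induction a with
  | zero => exact ⟨1, by decide, h.one_one⟩
  | succ a ih =>
    obtain ⟨w, hw, e⟩ := ih
    have l1 : F a < F (a + 1) := by
      rw [F_succ]
      have := two_le_F a
      nlinarith
    have l2 : 1 < F (a + 1) := by have := two_le_F (a + 1); omega
    refine ⟨op (F a ^^^ 1) (op w w), h.closed _ _ _ (xor_lt_F l1 l2)
      (h.closed _ _ _ (hw.trans l1) (hw.trans l1)), ?_⟩
    rw [F_half_succ, ← h.ra (half_lt a)]
    have key : ∀ f u w : N h, f * f = f + u → f + f = 0 → u * w = 1 →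
        (f * u) * ((f + 1) * (w * w)) = 1 := by
      intro f u w e1 e2 e3
      calc (f * u) * ((f + 1) * (w * w)) = (f * f + f) * (u * w) * w := by ring
        _ = ((f + f) + u) * w := by rw [e1, e3]; ring
        _ = 1 := by rw [e2, zero_add, e3]
    exact key (F a) (F a / 2) w (h.rb a) (Nat.xor_self _) e

theorem NimRules.sq_xor (h : NimRules op) (x y : ℕ) :
    op (x ^^^ y) (x ^^^ y) = op x x ^^^ op y y := by
  have key : ∀ x y : N h, x * y + x * y = 0 → (x + y) * (x + y) = x * x + y * y := by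
    intro x y e
    calc (x + y) * (x + y) = x * x + y * y + (x * y + x * y) := by ring
      _ = _ := by rw [e, add_zero]
  exact key x y (Nat.xor_self _)

theorem NimRules.sq_F (h : NimRules op) (a x : ℕ) :
    op (op (F a) x) (op (F a) x) = op (F a) (op x x) ^^^ op (F a / 2) (op x x) := by
  have := h.prod a x 0 x 0
  rw [h.zero, h.comm 0 x, h.zero] at this
  simpa [h.zero] using this

theorem mul_F_mod (a q : ℕ) : (F a * q) % 2 = 0 := by
  obtain ⟨c, hc⟩ := F_even a
  rw [hc, mul_assoc]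
  omega

theorem NimRules.even_run (h : NimRules op) (a j : ℕ) (hj : j < 2 ^ a) :
    op (2 ^ (2 ^ (a + 1) + j)) (2 ^ (2 ^ (a + 1) + j)) % 2 = 0 := by
  have l1 : F a ≤ F (a + 1) := F_mono (by omega)
  have h1 : 2 ^ j < F a := Nat.pow_lt_pow_right (by norm_num) hj
  have h2 : 2 ^ (2 ^ (a + 1) + j) = op (F (a + 1)) (2 ^ j) := by
    rw [h.ra (lt_of_lt_of_le h1 l1), pow_add]
    rfl
  have h3 := h.closed a _ _ h1 h1
  rw [h2, h.sq_F, h.ra (lt_of_lt_of_le h3 l1), F_half_succ, ← h.ra (half_lt a), h.assoc,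
    h.ra (h.closed a _ _ (half_lt a) h3), Nat.xor_mod_two_eq]
  have e1 := mul_F_mod (a + 1) (op (2 ^ j) (2 ^ j))
  have e2 := mul_F_mod a (op (F a / 2) (op (2 ^ j) (2 ^ j)))
  omega

theorem NimRules.odd_val (h : NimRules op) (a : ℕ) :
    ∃ x, op (F (a + 1) * x) (F (a + 1) * x) % 2 = 1 := by
  obtain ⟨w, hw, e⟩ := h.inv a
  have hx : op (F a) w < F (a + 1) := by
    rw [h.ra hw]
    exact comb_lt hw (F_pos a)
  refine ⟨op (F a) w, ?_⟩
  rw [← h.ra hx, h.sq_F, h.ra (h.closed _ _ _ hx hx), F_half_succ, ← h.ra (half_lt a)]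
  have key : ∀ f u w : N h, f * f = f + u → u * w = 1 →
      (f * u) * ((f * w) * (f * w)) = f * (w + 1) + 1 := by
    intro f u w e1 e3
    calc (f * u) * ((f * w) * (f * w)) = f * (f * f) * (u * w) * w := by ring
      _ = f * (f + u) * 1 * w := by rw [e1, e3]
      _ = (f * f) * w + f * (u * w) := by ring
      _ = (f + u) * w + f * 1 := by rw [e1, e3]
      _ = f * (w + 1) + u * w := by ring
      _ = _ := by rw [e3]
  have k2 : op (op (F a) (F a / 2)) (op (op (F a) w) (op (F a) w))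
      = op (F a) (w ^^^ 1) ^^^ 1 := key (F a) (F a / 2) w (h.rb a) e
  rw [k2, h.ra (xor_lt_F hw (by have := two_le_F a; omega)), Nat.xor_mod_two_eq, Nat.add_mod,
    Nat.xor_mod_two_eq]
  have e1 := mul_F_mod (a + 1) (op (op (F a) w) (op (F a) w))
  have e2 := mul_F_mod a (w ^^^ 1)
  omega

theorem NimRules.all_even (h : NimRules op) (M : ℕ)
    (hM : ∀ i, M ≤ i → op (2 ^ i) (2 ^ i) % 2 = 0) (x : ℕ) :
    ∀ i, M ≤ i → op (2 ^ i * x) (2 ^ i * x) % 2 = 0 := by
  induction x using Nat.strong_induction_on with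
  | _ x ih =>
    intro i hi
    rcases Nat.eq_zero_or_pos x with rfl | hx
    · rw [mul_zero, h.zero]
    have hp : 0 < 2 ^ i := by positivity
    have e : 2 ^ i * x = 2 ^ (i + 1) * (x / 2) + 2 ^ i * (x % 2) := by
      conv_lhs => rw [← Nat.div_add_mod x 2]
      ring
    have l : 2 ^ i * (x % 2) < 2 ^ (i + 1) := by
      rw [pow_succ]
      exact Nat.mul_lt_mul_of_pos_left (Nat.mod_lt _ (by norm_num)) hp
    rw [e, add_eq_xor l, h.sq_xor, Nat.xor_mod_two_eq]
    have e1 := ih (x / 2) (by omega) (i + 1) (by omega)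
    have e2 : op (2 ^ i * (x % 2)) (2 ^ i * (x % 2)) % 2 = 0 := by
      rcases Nat.mod_two_eq_zero_or_one x with h0 | h0
      · rw [h0, mul_zero, h.zero]
      · rw [h0, mul_one]
        exact hM i hi
    omega

theorem NimRules.not_periodic (h : NimRules op) (e e' : ℕ) (hlt : e < e')
    (hp : ∀ i, op (2 ^ e * 2 ^ i) (2 ^ e * 2 ^ i) % 2 = op (2 ^ e' * 2 ^ i) (2 ^ e' * 2 ^ i) % 2) :
    False := by
  obtain ⟨p, rfl⟩ : ∃ p, e' = e + (p + 1) := ⟨e' - e - 1, by omega⟩
  have step : ∀ i, e ≤ i → op (2 ^ (i + (p + 1))) (2 ^ (i + (p + 1))) % 2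
      = op (2 ^ i) (2 ^ i) % 2 := by
    intro i hi
    have := hp (i - e)
    rw [← pow_add, ← pow_add, show e + (i - e) = i by omega,
      show e + (p + 1) + (i - e) = i + (p + 1) by omega] at this
    exact this.symm
  set a := e + p + 1 with ha
  have l1 : a < 2 ^ a := Nat.lt_two_pow_self
  have l2 : 2 ^ a ≤ 2 ^ (a + 1) := Nat.pow_le_pow_right (by norm_num) (by omega)
  have all : ∀ j, op (2 ^ (2 ^ (a + 1) + j)) (2 ^ (2 ^ (a + 1) + j)) % 2 = 0 := by
    intro j
    induction j using Nat.strong_induction_on with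
    | _ j ih =>
      by_cases hj : j < 2 ^ a
      · exact h.even_run a j hj
      · have := step (2 ^ (a + 1) + (j - (p + 1))) (by omega)
        rw [show 2 ^ (a + 1) + (j - (p + 1)) + (p + 1) = 2 ^ (a + 1) + j by omega] at this
        rw [this]
        exact ih _ (by omega)
  obtain ⟨x, hx⟩ := h.odd_val a
  have := h.all_even (2 ^ (a + 1)) (fun i hi => by
    have := all (i - 2 ^ (a + 1))
    rwa [show 2 ^ (a + 1) + (i - 2 ^ (a + 1)) = i by omega] at this) x _ le_rfl
  unfold F at hx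
  omega

end rules

theorem repeat_mod_two {X : Type} (S : Set (X → ℤ)) (hS : (Submodule.span ℤ S).FG)
    (f : ℕ → X → ℤ) (hf : ∀ e, f e ∈ S) :
    ∃ e e', e < e' ∧ ∀ x, (f e x : ZMod 2) = (f e' x : ZMod 2) := by
  let φ : (X → ℤ) →ₗ[ℤ] (X → ZMod 2) :=
    { toFun := fun g x => (g x : ZMod 2)
      map_add' := fun g g' => by ext x; simp
      map_smul' := fun c g => by ext x; simp }
  have h1 : ((Submodule.span ℤ S).map φ).FG := hS.map φ
  have : Module.Finite ℤ ((Submodule.span ℤ S).map φ) := Module.Finite.iff_fg.mpr h1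
  have : Finite ((Submodule.span ℤ S).map φ) := by
    apply Module.finite_of_fg_torsion
    intro x
    refine ⟨⟨2, mem_nonZeroDivisors_of_ne_zero (by norm_num)⟩, ?_⟩
    ext y
    change ((2 : ℤ) • (x : X → ZMod 2)) y = 0
    rw [Pi.smul_apply, two_smul]
    exact CharTwo.add_self_eq_zero _
  let g : ℕ → ((Submodule.span ℤ S).map φ) := fun e =>
    ⟨φ (f e), Submodule.mem_map_of_mem (Submodule.subset_span (hf e))⟩
  obtain ⟨e, e', hne, he⟩ := Finite.exists_ne_map_eq_of_infinite g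
  have he' : φ (f e) = φ (f e') := congrArg Subtype.val he
  rcases lt_or_gt_of_ne hne with hl | hl
  · exact ⟨e, e', hl, fun x => congrFun he' x⟩
  · exact ⟨e', e, hl, fun x => (congrFun he' x).symm⟩

theorem mod_two_of_cast {a b : ℕ} (h : (((a : ℤ) : ZMod 2)) = ((b : ℤ) : ZMod 2)) :
    a % 2 = b % 2 := by
  rw [Int.cast_natCast, Int.cast_natCast] at h
  exact (ZMod.natCast_eq_natCast_iff' a b 2).mp h

theorem not_seq {op : ℕ → ℕ → ℕ} (h : NimRules op) :
    ¬ TwoRegularSeq (fun n => (op n n : ℤ)) := by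
  intro hr
  obtain ⟨e, e', hl, hx⟩ := repeat_mod_two _ hr
    (fun e n => (op (2 ^ e * n + 0) (2 ^ e * n + 0) : ℤ)) (fun e => ⟨e, 0, by positivity, rfl⟩)
  exact h.not_periodic e e' hl (fun i => mod_two_of_cast (hx (2 ^ i)))

theorem not_arr {op : ℕ → ℕ → ℕ} (h : NimRules op) :
    ¬ TwoRegularArr (fun p => (op p.1 p.2 : ℤ)) := by
  intro hr
  obtain ⟨e, e', hl, hx⟩ := repeat_mod_two _ hr
    (fun e p => (op (2 ^ e * p.1 + 0) (2 ^ e * p.2 + 0) : ℤ))
    (fun e => ⟨e, 0, 0, by positivity, by positivity, rfl⟩)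
  exact h.not_periodic e e' hl (fun i => mod_two_of_cast (hx (2 ^ i, 2 ^ i)))

end Pool.Agent.Lib.helper12.Nim
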