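import Mathlib
import Pool.Agent.Lib.helper12.Nim

set_option autoImplicit false

namespace Pool.Agent.Lib.helper12.Nim

/-- nim product on `[0, F a)`, by recursion on the level -/
def mulL : ℕ → ℕ → ℕ → ℕ
  | 0, x, y => x * y
  | a + 1, x, y =>
      F a * (mulL a (x / F a) (y / F a) ^^^ mulL a (x / F a) (y % F a) ^^^
        mulL a (x % F a) (y / F a)) +
      (mulL a (x % F a) (y % F a) ^^^ mulL a (F a / 2) (mulL a (x / F a) (y / F a)))

/-- ring axioms at one level -/
structure Good (a : ℕ) : Prop where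
  lt : ∀ x y, x < F a → y < F a → mulL a x y < F a
  comm : ∀ x y, x < F a → y < F a → mulL a x y = mulL a y x
  assoc : ∀ x y z, x < F a → y < F a → z < F a → mulL a (mulL a x y) z = mulL a x (mulL a y z)
  distrib : ∀ x y z, x < F a → y < F a → z < F a →
    mulL a x (y ^^^ z) = mulL a x y ^^^ mulL a x z
  one : ∀ x, x < F a → mulL a 1 x = x
  zero : ∀ x, x < F a → mulL a 0 x = 0

/-- the carrier at one level -/
def S {a : ℕ} (_h : Good a) : Type := {x : ℕ // x < F a}

theorem one_lt_F (a : ℕ) : 1 < F a := two_le_F a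

instance {a : ℕ} (h : Good a) : Add (S h) := ⟨fun x y => ⟨x.1 ^^^ y.1, xor_lt_F x.2 y.2⟩⟩
instance {a : ℕ} (h : Good a) : Zero (S h) := ⟨⟨0, F_pos a⟩⟩
instance {a : ℕ} (h : Good a) : Mul (S h) := ⟨fun x y => ⟨mulL a x.1 y.1, h.lt _ _ x.2 y.2⟩⟩
instance {a : ℕ} (h : Good a) : One (S h) := ⟨⟨1, one_lt_F a⟩⟩

instance {a : ℕ} (h : Good a) : CommSemiring (S h) where
  add_assoc x y z := Subtype.ext (Nat.xor_assoc _ _ _)
  zero_add x := Subtype.ext (Nat.zero_xor _)
  add_zero x := Subtype.ext (Nat.xor_zero _)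
  add_comm x y := Subtype.ext (Nat.xor_comm _ _)
  left_distrib x y z := Subtype.ext (h.distrib _ _ _ x.2 y.2 z.2)
  right_distrib x y z := Subtype.ext (by
    change mulL a (x.1 ^^^ y.1) z.1 = mulL a x.1 z.1 ^^^ mulL a y.1 z.1
    rw [h.comm _ _ (xor_lt_F x.2 y.2) z.2, h.distrib _ _ _ z.2 x.2 y.2, h.comm _ _ z.2 x.2,
      h.comm _ _ z.2 y.2])
  zero_mul x := Subtype.ext (h.zero _ x.2)
  mul_zero x := Subtype.ext (by
    change mulL a x.1 0 = 0
    rw [h.comm _ _ x.2 (F_pos a)]
    exact h.zero _ x.2)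
  mul_assoc x y z := Subtype.ext (h.assoc _ _ _ x.2 y.2 z.2)
  one_mul x := Subtype.ext (h.one _ x.2)
  mul_one x := Subtype.ext (by
    change mulL a x.1 1 = x.1
    rw [h.comm _ _ x.2 (one_lt_F a)]
    exact h.one _ x.2)
  mul_comm x y := Subtype.ext (h.comm _ _ x.2 y.2)
  nsmul := nsmulRec
  npow := npowRec

/-- a number below `F (a+1)` from its two halves -/
def pk {a : ℕ} {h : Good a} (p q : S h) : ℕ := F a * p.1 + q.1

theorem pk_lt {a : ℕ} {h : Good a} (p q : S h) : pk p q < F (a + 1) := comb_lt p.2 q.2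

theorem pk_div {a : ℕ} {h : Good a} (p q : S h) : pk p q / F a = p.1 := by
  unfold pk
  rw [Nat.mul_add_div (F_pos a), Nat.div_eq_of_lt q.2, add_zero]

theorem pk_mod {a : ℕ} {h : Good a} (p q : S h) : pk p q % F a = q.1 := by
  unfold pk
  rw [Nat.mul_add_mod, Nat.mod_eq_of_lt q.2]

theorem exists_pk {a : ℕ} (h : Good a) {x : ℕ} (hx : x < F (a + 1)) :
    ∃ p q : S h, x = pk p q := by
  have h1 : x / F a < F a := by
    rw [F_succ] at hx
    exact Nat.div_lt_of_lt_mul hx
  exact ⟨⟨_, h1⟩, ⟨_, Nat.mod_lt _ (F_pos a)⟩, (Nat.div_add_mod x (F a)).symm⟩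

/-- the element `F a / 2` -/
def uu {a : ℕ} (h : Good a) : S h := ⟨F a / 2, half_lt a⟩

theorem mul_pk {a : ℕ} {h : Good a} (p q r s : S h) :
    mulL (a + 1) (pk p q) (pk r s) = pk (p * r + p * s + q * r) (q * s + uu h * (p * r)) := by
  rw [mulL, pk_div, pk_div, pk_mod, pk_mod]
  rfl

theorem xor_pk {a : ℕ} {h : Good a} (p q r s : S h) :
    pk p q ^^^ pk r s = pk (p + r) (q + s) := by
  have h1 : (pk p q ^^^ pk r s) / F a = (p + r).1 := by
    have : (pk p q ^^^ pk r s) / F a = pk p q / F a ^^^ pk r s / F a := Nat.xor_div_two_pow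
    rw [this, pk_div, pk_div]
    rfl
  have h2 : (pk p q ^^^ pk r s) % F a = (q + s).1 := by
    have : (pk p q ^^^ pk r s) % F a = pk p q % F a ^^^ pk r s % F a := Nat.xor_mod_two_pow
    rw [this, pk_mod, pk_mod]
    rfl
  rw [← Nat.div_add_mod (pk p q ^^^ pk r s) (F a), h1, h2]
  rfl

theorem pk_zero {a : ℕ} {h : Good a} (q : S h) : pk 0 q = q.1 := by
  change F a * 0 + q.1 = q.1
  simp

theorem good_zero : Good 0 := by
  have e : F 0 = 2 := rfl
  refine ⟨?_, ?_, ?_, ?_, ?_, ?_⟩ <;> simp only [mulL, e]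
  · intro x y hx hy
    interval_cases x <;> interval_cases y <;> simp
  · intro x y _ _
    exact mul_comm _ _
  · intro x y z _ _ _
    exact mul_assoc _ _ _
  · intro x y z hx hy hz
    interval_cases x <;> simp
  · intro x _
    simp
  · intro x _
    simp

theorem good_succ {a : ℕ} (h : Good a) : Good (a + 1) := by
  refine ⟨?_, ?_, ?_, ?_, ?_, ?_⟩
  · intro x y hx hy
    obtain ⟨p, q, rfl⟩ := exists_pk h hx
    obtain ⟨r, s, rfl⟩ := exists_pk h hy
    rw [mul_pk]
    exact pk_lt _ _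
  · intro x y hx hy
    obtain ⟨p, q, rfl⟩ := exists_pk h hx
    obtain ⟨r, s, rfl⟩ := exists_pk h hy
    rw [mul_pk, mul_pk]
    congr 1 <;> ring
  · intro x y z hx hy hz
    obtain ⟨p, q, rfl⟩ := exists_pk h hx
    obtain ⟨r, s, rfl⟩ := exists_pk h hy
    obtain ⟨t, v, rfl⟩ := exists_pk h hz
    rw [mul_pk, mul_pk, mul_pk, mul_pk]
    congr 1 <;> ring
  · intro x y z hx hy hz
    obtain ⟨p, q, rfl⟩ := exists_pk h hx
    obtain ⟨r, s, rfl⟩ := exists_pk h hy
    obtain ⟨t, v, rfl⟩ := exists_pk h hz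
    rw [xor_pk, mul_pk, mul_pk, mul_pk, xor_pk]
    congr 1 <;> ring
  · intro x hx
    obtain ⟨p, q, rfl⟩ := exists_pk h hx
    have e : pk (0 : S h) 1 = 1 := pk_zero 1
    have e2 := mul_pk (0 : S h) 1 p q
    rw [e] at e2
    rw [e2]
    congr 1 <;> ring
  · intro x hx
    obtain ⟨p, q, rfl⟩ := exists_pk h hx
    have : (0 : ℕ) = pk (0 : S h) 0 := (pk_zero 0).symm
    rw [this, mul_pk]
    congr 1 <;> ring

theorem good (a : ℕ) : Good a := by
  induction a with
  | zero => exact good_zero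
  | succ a ih => exact good_succ ih

theorem compat1 (a x y : ℕ) (hx : x < F a) (hy : y < F a) : mulL (a + 1) x y = mulL a x y := by
  have h := good a
  have e1 : x = pk (0 : S h) ⟨x, hx⟩ := (pk_zero ⟨x, hx⟩).symm
  have e2 : y = pk (0 : S h) ⟨y, hy⟩ := (pk_zero ⟨y, hy⟩).symm
  conv_lhs => rw [e1, e2, mul_pk]
  simp only [zero_mul, mul_zero, add_zero]
  exact pk_zero _

theorem compat {a b : ℕ} (hab : a ≤ b) (x y : ℕ) (hx : x < F a) (hy : y < F a) :
    mulL b x y = mulL a x y := by
  induction b, hab using Nat.le_induction with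
  | base => rfl
  | succ b hb ih =>
    rw [compat1 b x y (lt_of_lt_of_le hx (F_mono hb)) (lt_of_lt_of_le hy (F_mono hb)), ih]

/-- the nim product -/
def nimMul (x y : ℕ) : ℕ := mulL (x + y) x y

theorem nimMul_eq {a x y : ℕ} (hx : x < F a) (hy : y < F a) : nimMul x y = mulL a x y := by
  unfold nimMul
  have l := lt_F (x + y)
  rcases le_total a (x + y) with h | h
  · exact compat h x y hx hy
  · exact (compat h x y (by omega) (by omega)).symm

theorem nimRules : NimRules nimMul where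
  rule_a a n hn := by
    have h := good a
    change n < F a at hn
    change nimMul (F a) n = F a * n
    have e1 : F a = pk (1 : S h) 0 := by
      change F a = F a * 1 + 0
      simp
    have e2 : n = pk (0 : S h) ⟨n, hn⟩ := (pk_zero ⟨n, hn⟩).symm
    rw [nimMul_eq (a := a + 1) (by rw [e1]; exact pk_lt _ _) (by rw [e2]; exact pk_lt _ _)]
    conv_lhs => rw [e1, e2, mul_pk]
    simp only [zero_mul, mul_zero, add_zero, zero_add, one_mul]
    rfl
  rule_b a := by
    have h := good a
    change nimMul (F a) (F a) = 3 * F a / 2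
    have e1 : F a = pk (1 : S h) 0 := by
      change F a = F a * 1 + 0
      simp
    rw [nimMul_eq (a := a + 1) (by rw [e1]; exact pk_lt _ _) (by rw [e1]; exact pk_lt _ _)]
    conv_lhs => rw [e1, mul_pk]
    simp only [mul_zero, zero_mul, add_zero, zero_add, mul_one]
    change F a * 1 + F a / 2 = 3 * F a / 2
    omega
  comm x y := by
    have l := lt_F (x + y)
    rw [nimMul_eq (a := x + y) (by omega) (by omega), nimMul_eq (a := x + y) (by omega) (by omega)]
    exact (good _).comm _ _ (by omega) (by omega)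
  assoc x y z := by
    have l := lt_F (x + y + z)
    have h := good (x + y + z)
    have hx : x < F (x + y + z) := by omega
    have hy : y < F (x + y + z) := by omega
    have hz : z < F (x + y + z) := by omega
    rw [nimMul_eq hx hy, nimMul_eq hy hz, nimMul_eq (h.lt _ _ hx hy) hz,
      nimMul_eq hx (h.lt _ _ hy hz)]
    exact h.assoc _ _ _ hx hy hz
  distrib x y z := by
    have l := lt_F (x + y + z)
    have h := good (x + y + z)
    have hx : x < F (x + y + z) := by omega
    have hy : y < F (x + y + z) := by omega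
    have hz : z < F (x + y + z) := by omega
    rw [nimMul_eq hx hy, nimMul_eq hx hz, nimMul_eq hx (xor_lt_F hy hz)]
    exact h.distrib _ _ _ hx hy hz

end Pool.Agent.Lib.helper12.Nim
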