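import Mathlib

set_option autoImplicit false

open MeasureTheory ProbabilityTheory

namespace Pool.Agent.Lib.helper12.Peierls

variable {K : Type}

def step (p : ℤ × ℤ) (d : Fin 3 × K) : ℤ × ℤ := p + ![(0, 1), (-1, -1), (1, 0)] d.1

def endp : ℤ × ℤ → List (Fin 3 × K) → ℤ × ℤ
  | p, [] => p
  | p, d :: w => endp (step p d) w

def vis : ℤ × ℤ → List (Fin 3 × K) → List (ℤ × ℤ)
  | _, [] => []
  | p, d :: w => p :: vis (step p d) w

def hs : ℤ × ℤ → List (Fin 3 × K) → List ((ℤ × ℤ) × K)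
  | _, [] => []
  | p, d :: w => if d.1 = 2 then (p, d.2) :: hs (step p d) w else hs (step p d) w

lemma hs_sub : ∀ (w : List (Fin 3 × K)) p, ((hs p w).map Prod.fst).Sublist (vis p w)
  | [], _ => by simp [hs, vis]
  | d :: w, p => by
    simp only [hs, vis]
    split_ifs
    · exact (hs_sub w _).cons_cons _
    · exact (hs_sub w _).cons _

lemma cnt : ∀ (w : List (Fin 3 × K)) p,
    2 * (endp p w).1 - (endp p w).2 + w.length = 2 * p.1 - p.2 + 3 * (hs p w).length
  | [], _ => by simp [endp, hs]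
  | (d, k) :: w, p => by
    have := cnt w (step p (d, k))
    fin_cases d <;> simp [endp, hs, step] at this ⊢ <;> linarith

lemma cut (p : ℤ × ℤ) : ∀ (w : List (Fin 3 × K)) q, p ∈ vis q w →
    ∃ w', endp p w' = endp q w ∧ vis p w' <:+ vis q w ∧ hs p w' ⊆ hs q w
  | [], _, h => by simp [vis] at h
  | d :: w, q, h => by
    rcases List.mem_cons.1 h with rfl | h
    · exact ⟨d :: w, rfl, List.suffix_refl _, List.Subset.refl _⟩
    · obtain ⟨w', a, b, c⟩ := cut p w _ h
      refine ⟨w', a, b.trans (List.suffix_cons _ _), List.Subset.trans c ?_⟩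
      simp only [hs]; split_ifs <;> simp

def R (cl : ℤ × ℤ → K → Prop) (p q : ℤ × ℤ) : Prop := ∃ d, q = step p d ∧ (d.1 = 2 → cl p d.2)

lemma word {cl : ℤ × ℤ → K → Prop} {p q : ℤ × ℤ} (h : Relation.ReflTransGen (R cl) p q) :
    ∃ w, endp p w = q ∧ (vis p w).Nodup ∧ ∀ s ∈ hs p w, cl s.1 s.2 := by
  induction h using Relation.ReflTransGen.head_induction_on with
  | refl => exact ⟨[], rfl, by simp [vis], by simp [hs]⟩
  | @head a b h _ ih =>
    obtain ⟨d, rfl, hd⟩ := h
    obtain ⟨w, a1, a2, a3⟩ := ih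
    by_cases e : a ∈ vis (step a d) w
    · obtain ⟨w', b1, b2, b3⟩ := cut a w _ e
      exact ⟨w', b1.trans a1, b2.sublist.nodup a2, fun s hs => a3 s (b3 hs)⟩
    · refine ⟨d :: w, a1, List.nodup_cons.2 ⟨e, a2⟩, fun s h => ?_⟩
      simp only [hs] at h
      split_ifs at h with e'
      · rcases List.mem_cons.1 h with rfl | h
        exacts [hd e', a3 s h]
      · exact a3 s h

def Surv (cl : ℤ × ℤ → K → Prop) : ℕ → ℤ × ℤ → Prop
  | 0, _ => True
  | m + 1, p => (∀ k, ¬ cl p k) ∧ (Surv cl m (p + (0, 1)) ∨ Surv cl m (p + (1, 1)))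

lemma dual [Inhabited K] (cl : ℤ × ℤ → K → Prop) : ∀ m p, ¬ Surv cl m p →
    Relation.ReflTransGen (R cl) p (p + (1, 0))
  | 0, _, h => absurd trivial h
  | m + 1, p, h => by
    by_cases e : ∃ k, cl p k
    · obtain ⟨k, e⟩ := e
      exact .single ⟨(2, k), rfl, fun _ => e⟩
    · push Not at e
      have h1 := dual cl m _ fun a => h ⟨e, Or.inl a⟩
      have h2 := dual cl m _ fun a => h ⟨e, Or.inr a⟩
      rw [show p + (0, 1) + (1, 0) = p + (1, 1) by simp [add_assoc]] at h1
      exact .head ⟨(0, default), rfl, by simp⟩ ((h1.trans h2).tail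
        ⟨(1, default), by simp [step, add_assoc], by simp⟩)

lemma surv_mono (cl : ℤ × ℤ → K → Prop) : ∀ m p, Surv cl (m + 1) p → Surv cl m p
  | 0, _, _ => trivial
  | m + 1, _, h => ⟨h.1, h.2.imp (surv_mono cl m _) (surv_mono cl m _)⟩

lemma surv_next {cl : ℤ × ℤ → K → Prop} {p : ℤ × ℤ} (h : ∀ m, Surv cl m p) :
    (∀ k, ¬ cl p k) ∧ ((∀ m, Surv cl m (p + (0, 1))) ∨ ∀ m, Surv cl m (p + (1, 1))) := by
  refine ⟨(h 1).1, ?_⟩
  by_contra hc
  push Not at hc
  obtain ⟨⟨a, ha⟩, b, hb⟩ := hc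
  have k : ∀ q m n, Surv cl (m + n) q → Surv cl m q := fun q m n => by
    induction n with
    | zero => exact id
    | succ n ih => exact fun h => ih (surv_mono cl _ _ h)
  rcases (h (a + b + 1)).2 with h | h
  · exact ha (k _ _ _ h)
  · exact hb (k _ _ _ (add_comm a b ▸ h))

lemma cyl {ι : Type} (p : unitInterval) (l : List ι) (h : l.Nodup) :
    setBernoulli Set.univ p {c | ∀ i ∈ l, i ∈ c} = (unitInterval.toNNReal p : ENNReal) ^ l.length := by
  classical
  rw [setBernoulli_apply', show ((fun p ↦ {i | p i}) ⁻¹' {c : Set ι | ∀ i ∈ l, i ∈ c}) =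
    Set.pi l.toFinset (fun _ => {True}) by ext; simp, Measure.infinitePi_pi _ (fun _ _ => .of_discrete)]
  simp [List.toFinset_card_of_nodup h]

theorem peierls {ι : Type} [Fintype K] [Inhabited K] (e : (ℤ × ℤ) × K → ι)
    (he : Function.Injective e) (p : unitInterval) (r : ENNReal)
    (hp : (unitInterval.toNNReal p : ENNReal) ≤ r ^ 3) (hr : 3 * Fintype.card K * r ≤ 2⁻¹) :
    setBernoulli Set.univ p {c | ¬ ∀ m, Surv (fun s k => e (s, k) ∈ c) m 0} ≤ 2 * r ^ 2 := by
  classical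
  let E : List (Fin 3 × K) → Set (Set ι) := fun w =>
    {c | endp 0 w = (1, 0) ∧ (vis 0 w).Nodup ∧ ∀ s ∈ hs 0 w, e s ∈ c}
  have h1 : ∀ w, setBernoulli Set.univ p (E w) ≤ r ^ (w.length + 2) := by
    intro w
    by_cases h : endp 0 w = (1, 0) ∧ (vis 0 w).Nodup
    · have a1 := cnt w 0
      have a2 := cyl p ((hs 0 w).map e) (((hs_sub w 0).nodup h.2).of_map.map he)
      rw [h.1] at a1
      rw [show w.length + 2 = 3 * (hs 0 w).length by simp at a1; omega, pow_mul]
      refine le_trans (measure_mono fun c hc => ?_) (a2.le.trans ?_)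
      · exact List.forall_mem_map.2 hc.2.2
      · rw [List.length_map]; gcongr
    · rw [show E w = ∅ from Set.eq_empty_of_forall_notMem fun c hc => h ⟨hc.1, hc.2.1⟩]; simp
  calc _ ≤ setBernoulli Set.univ p (⋃ n, ⋃ v : List.Vector (Fin 3 × K) n, E v.1) := by
        refine measure_mono fun c hc => ?_
        obtain ⟨m, hm⟩ := not_forall.1 hc
        obtain ⟨w, a, b, d⟩ := word (dual _ m 0 hm)
        exact Set.mem_iUnion₂.2 ⟨_, ⟨w, rfl⟩, by simpa using a, b, d⟩
    _ ≤ ∑' n : ℕ, 2⁻¹ ^ n * r ^ 2 := by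
        refine (measure_iUnion_le _).trans (ENNReal.tsum_le_tsum fun n => ?_)
        refine (measure_iUnion_fintype_le _ _).trans ((Finset.sum_le_card_nsmul _ _ (r ^ (n + 2))
          fun v _ => (h1 v.1).trans_eq (by rw [v.2])).trans ?_)
        rw [Finset.card_univ, card_vector, nsmul_eq_mul, pow_add, ← mul_assoc]
        gcongr
        push_cast
        rw [← mul_pow]
        gcongr
        simpa using hr
    _ = _ := by rw [ENNReal.tsum_mul_right, ENNReal.tsum_geometric]; simp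

end Pool.Agent.Lib.helper12.Peierls
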