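import Mathlib

set_option autoImplicit false
open scoped Pointwise Classical
open FreeGroup Finset

namespace Pool.Agent.Lib.helper12.RapidExp

abbrev Lt := (ℕ × Bool) × Bool
abbrev G := FreeGroup (ℕ × Bool)

def ht (x : Lt) : ℤ := if x.2 then x.1.1 else -x.1.1

def seg : List Lt → ℕ
  | [] => 0
  | [_] => 1
  | x :: y :: l => seg (y :: l) + if ht y = ht x + 1 then 0 else 1

def J (u v : List Lt) : Prop := ∃ a ∈ u.getLast?, ∃ b ∈ v.head?, ht b = ht a + 1

lemma seg_append (u v : List Lt) : seg (u ++ v) + (if J u v then 1 else 0) = seg u + seg v := by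
  induction u with
  | nil => simp [J, seg]
  | cons x u ih =>
    cases u with
    | nil =>
      cases v with
      | nil => simp [J, seg]
      | cons y v => simp only [List.singleton_append, seg, J]; simp; split_ifs <;> omega
    | cons y u =>
      have : J (x :: y :: u) v ↔ J (y :: u) v := by simp [J, List.getLast?_cons_cons]
      simp only [List.cons_append, seg, this] at ih ⊢
      omega

lemma seg_pos {u : List Lt} (h : u ≠ []) : 1 ≤ seg u := by
  induction u with
  | nil => exact absurd rfl h
  | cons x u ih =>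
    cases u with
    | nil => exact le_rfl
    | cons y u => have := ih (by simp); simp only [seg]; omega

lemma ht_inv (x : ℕ × Bool) (b : Bool) : ht (x, !b) = -ht (x, b) := by cases b <;> simp [ht]

lemma seg_step {u v : List Lt} (h : Red.Step u v) : seg v ≤ seg u := by
  cases h with
  | @not p q x b =>
    have h1 := seg_append p q
    have h2 := seg_append (p ++ [(x, b)]) ((x, !b) :: q)
    have h3 := seg_append p [(x, b)]
    have h4 := seg_append [(x, !b)] q
    rw [if_neg (by simp [J, ht_inv]; omega)] at h2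
    simp only [List.append_assoc, List.singleton_append, seg] at *
    split_ifs at * <;> omega

lemma seg_red {u v : List Lt} (h : Red u v) : seg v ≤ seg u := by
  induction h with
  | refl => exact le_rfl
  | tail _ h ih => exact (seg_step h).trans ih

lemma seg_invRev (u : List Lt) : seg (invRev u) = seg u := by
  induction u with
  | nil => rfl
  | cons x u ih =>
    have h1 := seg_append (invRev u) [(x.1, !x.2)]
    have h2 := seg_append [x] u
    have : J (invRev u) [(x.1, !x.2)] ↔ J [x] u := by
      cases u with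
      | nil => simp [J, invRev]
      | cons y u => simp [J, invRev, ht_inv]; omega
    simp only [this] at h1
    have e : invRev (x :: u) = invRev u ++ [(x.1, !x.2)] := by simp [invRev]
    simp only [e, seg, List.singleton_append] at *
    omega

def len (g : G) : ℕ := seg g.toWord

lemma len_inv (g : G) : len g⁻¹ = len g := by simp [len, toWord_inv, seg_invRev]

lemma len_mul (g h : G) : len (g * h) ≤ len g + len h := by
  have := seg_append g.toWord h.toWord
  have h2 := seg_red (reduce.red (L := g.toWord ++ h.toWord))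
  simp only [len, toWord_mul]
  omega

def ty (u : List Lt) : ℤ := (u.getLast?.map ht).getD 0

lemma seg_one : ∀ (x : Lt) (u : List Lt), seg (x :: u) ≤ 1 → ht x ≤ ty (x :: u)
  | x, [], _ => by simp [ty]
  | x, y :: u, h => by
    have h1 := seg_pos (u := y :: u) (by simp)
    simp only [seg] at h
    have h2 := seg_one y u (by omega)
    have : ty (x :: y :: u) = ty (y :: u) := by simp [ty, List.getLast?_cons_cons]
    split_ifs at h <;> omega

lemma split {u q t : List Lt} (h : seg (u ++ q) = seg u) (hq : q ≠ []) :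
    J u (q ++ t) ∧ ty u < ty (u ++ q) := by
  have h1 := seg_append u q
  have h2 := seg_pos hq
  obtain ⟨y, q, rfl⟩ := List.exists_cons_of_ne_nil hq
  split_ifs at h1 with hj
  · obtain ⟨a, ha, b, hb, e⟩ := hj
    have h3 := seg_one y q (by omega)
    have : ty (u ++ y :: q) = ty (y :: q) := by
      simp [ty, List.getLast?_append, List.getLast?_cons]
    simp only [List.head?_cons, Option.mem_def, Option.some.injEq] at hb ha
    refine ⟨⟨a, ha, y, rfl, hb ▸ e⟩, ?_⟩
    rw [this, ty, ha]; subst hb; simp; omega
  · omega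

lemma median (S : Finset G) : ∃ w : G, ∀ y : Lt,
    2 * #{s ∈ S | (y.1, !y.2) ∈ (s * w).toWord.getLast?} ≤ #S := by
  obtain ⟨w, hw⟩ := exists_minimalFor_of_wellFoundedLT (fun _ : G => True)
    (fun w => ∑ s ∈ S, norm (s * w)) ⟨1, trivial⟩
  refine ⟨w, fun y => ?_⟩
  have h1 : ∑ s ∈ S, norm (s * w) ≤ ∑ s ∈ S, norm (s * (w * mk [y])) := by
    by_contra h
    exact h (hw.2 trivial (not_le.1 h).le)
  have h2 : ∀ s ∈ S, norm (s * (w * mk [y])) +
      2 * (if (y.1, !y.2) ∈ (s * w).toWord.getLast? then 1 else 0) ≤ norm (s * w) + 1 := by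
    intro s _
    rw [← mul_assoc]
    split_ifs with h
    · obtain ⟨u, hu⟩ := List.getLast?_eq_some_iff.1 h
      have e : s * w * mk [y] = mk u := by
        rw [← mk_toWord (x := s * w), hu, mul_mk, List.append_assoc]
        exact Quot.sound (by simpa using Red.Step.not_rev (L₁ := u) (L₂ := []) (x := y.1) (b := y.2))
      have := norm_mk_le (L₁ := u)
      have e2 : norm (s * w) = u.length + 1 := by rw [FreeGroup.norm, hu]; simp
      rw [e]; omega
    · have := norm_mul_le (s * w) (mk [y])
      have := norm_mk_le (L₁ := [y])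
      simp only [List.length_singleton] at this; omega
  have h3 := sum_le_sum h2
  rw [sum_add_distrib, sum_add_distrib, ← mul_sum, ← card_filter] at h3
  simp only [sum_const, smul_eq_mul, mul_one] at h3
  omega

variable [DecidableEq G]

theorem rapid (S X : Finset G) (r : ℕ) (hS : ∀ s ∈ S, len s ≤ r) :
    #S * #X ≤ 20 * (2 * r + 1) * #(S * X) := by
  obtain ⟨w, hw⟩ := median S
  let a : G → List Lt := fun s => (s * w).toWord
  let b : G → List Lt := fun x => (w⁻¹ * x).toWord
  let H : Finset ℤ := (S.image fun s => ty (a s)).filter fun t => #S < 4 * #{s ∈ S | ty (a s) = t}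
  have hH : #H ≤ 4 := by
    have h1 : ∑ t ∈ H, #{s ∈ S | ty (a s) = t} ≤ #S := by
      rw [sum_card_fiberwise_eq_card_filter]; exact card_filter_le _ _
    have h2 := card_nsmul_le_sum H (fun t => 4 * #{s ∈ S | ty (a s) = t}) (#S + 1)
      fun t ht => (mem_filter.1 ht).2
    rw [← mul_sum, smul_eq_mul] at h2
    by_contra h
    nlinarith
  let P : G → G → Prop := fun s x => IsReduced (a s ++ b x) ∧ (J (a s) (b x) → ty (a s) ∈ H)
  have h1 : ∀ x, #S ≤ 4 * #{s ∈ S | P s x} := by
    intro x
    rcases (b x).eq_nil_or_concat'.imp id (fun _ => List.exists_cons_of_ne_nil (l := b x)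
      (by rintro h; simp_all)) with hb | ⟨y, l, hb⟩
    · rw [filter_true_of_mem fun s _ => ⟨by simp [hb, a, isReduced_toWord], by simp [hb, J]⟩]; omega
    · have c1 := hw y
      have c2 : 4 * #{s ∈ S | ty (a s) = ht y - 1 ∧ ty (a s) ∉ H} ≤ #S := by
        rcases ({s ∈ S | ty (a s) = ht y - 1 ∧ ty (a s) ∉ H} : Finset G).eq_empty_or_nonempty with
          e | ⟨s, hs⟩
        · simp [e]
        · obtain ⟨d1, d2, d3⟩ := mem_filter.1 hs
          have : ¬ #S < 4 * #{s' ∈ S | ty (a s') = ty (a s)} := fun e =>
            d3 (mem_filter.2 ⟨mem_image_of_mem _ d1, e⟩)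
          have := card_le_card (show ({s ∈ S | ty (a s) = ht y - 1 ∧ ty (a s) ∉ H} : Finset G) ⊆
            {s' ∈ S | ty (a s') = ty (a s)} from fun t ht =>
              mem_filter.2 ⟨(mem_filter.1 ht).1, (mem_filter.1 ht).2.1.trans d2.symm⟩)
          omega
      have c3 : S ⊆ {s ∈ S | P s x} ∪ {s ∈ S | (y.1, !y.2) ∈ (s * w).toWord.getLast?} ∪
          {s ∈ S | ty (a s) = ht y - 1 ∧ ty (a s) ∉ H} := by
        intro s hs
        simp only [mem_union, mem_filter, hs, true_and]
        by_contra hc
        simp only [not_or, not_and, not_not] at hc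
        refine hc.1.1 ⟨?_, fun ⟨p, hp, q, hq, e⟩ => hc.2 ?_⟩
        · refine List.isChain_append.2 ⟨isReduced_toWord, isReduced_toWord, fun p hp q hq e => ?_⟩
          rw [hb] at hq
          obtain rfl : y = q := by simpa using hq
          by_contra e'
          refine hc.1.2 ?_
          have : p = (y.1, !y.2) := Prod.ext e (Bool.eq_not.2 e')
          exact this ▸ hp
        · rw [hb] at hq
          obtain rfl : y = q := by simpa using hq
          rw [ty, show (a s).getLast? = some p from hp]; simp; omega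
      have := (card_le_card c3).trans ((card_union_le _ _).trans
        (Nat.add_le_add_right (card_union_le _ _) _))
      omega
  have h2 : #S * #X ≤ 4 * #{p ∈ S ×ˢ X | P p.1 p.2} := by
    rw [card_filter, sum_product_right, mul_sum, mul_comm, ← smul_eq_mul, ← sum_const]
    exact sum_le_sum fun x _ => by rw [← card_filter]; exact h1 x
  have h3 : #{p ∈ S ×ˢ X | P p.1 p.2} ≤
      #((S * X) ×ˢ Icc (len w - r) (len w + r) ×ˢ insertNone H) := by
    refine card_le_card_of_injOn
      (fun p => (p.1 * p.2, seg (a p.1), if ty (a p.1) ∈ H then some (ty (a p.1)) else none))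
      (fun p hp => ?_) (fun p hp q hq e => ?_)
    · obtain ⟨c1, -⟩ := mem_filter.1 hp
      obtain ⟨c1, c2⟩ := mem_product.1 c1
      refine mem_product.2 ⟨mul_mem_mul c1 c2, mem_product.2 ⟨mem_Icc.2 ?_, ?_⟩⟩
      · have e1 := len_mul p.1 w
        have e2 := len_mul p.1⁻¹ (p.1 * w)
        have := hS _ c1
        rw [inv_mul_cancel_left, len_inv] at e2
        change _ ≤ len (p.1 * w) ∧ len (p.1 * w) ≤ _
        omega
      · simp only; split_ifs with h <;> simp [h]
    · simp only [Prod.mk.injEq] at e
      obtain ⟨e1, e2, e3⟩ := e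
      have word : ∀ s x, P s x → (s * x).toWord = a s ++ b x := fun s x h => by
        rw [← h.1.reduce_eq, ← toWord_mul]; congr 1; group
      have key : ∀ p q : G × G, P p.1 p.2 → seg (a p.1) = seg (a q.1) →
          (if ty (a p.1) ∈ H then some (ty (a p.1)) else none) =
          (if ty (a q.1) ∈ H then some (ty (a q.1)) else none) →
          ∀ t, a q.1 = a p.1 ++ t → b p.2 = t ++ b q.2 → a p.1 = a q.1 := by
        intro p q hp e2 e3 t c1 c2
        by_cases ht : t = []
        · simp [c1, ht]
        obtain ⟨d1, d2⟩ := split (t := b q.2) (c1 ▸ e2.symm) ht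
        rw [if_pos (hp.2 (c2 ▸ d1))] at e3
        rw [← c1] at d2
        split_ifs at e3
        simp only [Option.some.injEq] at e3; omega
      have hp' := (mem_filter.1 hp).2
      have hq' := (mem_filter.1 hq).2
      have e4 := congrArg toWord e1
      rw [word _ _ hp', word _ _ hq'] at e4
      have e5 : a p.1 = a q.1 := by
        rcases List.append_eq_append_iff.1 e4 with ⟨t, c1, c2⟩ | ⟨t, c1, c2⟩
        · exact key p q hp' e2 e3 t c1 c2
        · exact (key q p hq' e2.symm e3.symm t c1 c2).symm
      have e6 : p.1 = q.1 := mul_right_cancel (toWord_injective e5)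
      exact Prod.ext e6 (mul_left_cancel (e6 ▸ e1))
  rw [card_product, card_product, card_insertNone, Nat.card_Icc] at h3
  have h4 : (len w + r + 1 - (len w - r)) * (#H + 1) ≤ (2 * r + 1) * 5 :=
    Nat.mul_le_mul (by omega) (by omega)
  have := Nat.mul_le_mul_left (#(S * X)) h4
  nlinarith

def V : ℕ → Type
  | 0 => Unit
  | n + 1 => V n × Bool

noncomputable instance : ∀ n, Fintype (V n)
  | 0 => inferInstanceAs (Fintype Unit)
  | n + 1 => @instFintypeProd _ _ (instFintypeV n) _

def wd : ∀ n, V n → List Lt
  | 0, _ => []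
  | n + 1, u => wd n u.1 ++ [((n, u.2), true)]

def W (n : ℕ) (u : V n) : G := mk (wd n u)

lemma wd_pos : ∀ n u, ∀ x ∈ wd n u, x.2 = true ∧ x.1.1 < n
  | 0, _, x, h => by simp [wd] at h
  | n + 1, u, x, h => by
    simp only [wd, List.mem_append, List.mem_singleton] at h
    rcases h with h | rfl
    · exact ⟨(wd_pos n _ x h).1, (wd_pos n _ x h).2.trans (by simp)⟩
    · simp

lemma W_word (n : ℕ) (u : V n) : (W n u).toWord = wd n u :=
  IsReduced.reduce_eq (List.Pairwise.isChain (List.pairwise_of_forall_mem_list fun a ha b hb _ => by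
    rw [(wd_pos n u a ha).1, (wd_pos n u b hb).1]))

lemma wd_inj : ∀ n, Function.Injective (wd n)
  | 0 => fun _ _ _ => rfl
  | n + 1 => fun u v h => by
    obtain ⟨h1, h2⟩ := List.append_inj' h rfl
    exact Prod.ext (wd_inj n h1) (by simpa using h2)

lemma W_inj (n : ℕ) : Function.Injective (W n) := fun u v h =>
  wd_inj n (by rw [← W_word, ← W_word, h])

lemma wd_seg : ∀ n u, seg (wd n u) ≤ 1
  | 0, _ => by simp [wd, seg]
  | 1, _ => by simp [wd, seg]
  | n + 2, u => by
    have h1 := wd_seg (n + 1) u.1
    have h2 := seg_append (wd (n + 1) u.1) [((n + 1, u.2), true)]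
    rw [if_pos (by simp [J, wd, ht])] at h2
    rw [wd]; simp only [seg] at h2; omega

lemma W_len (n : ℕ) (u : V n) : len (W n u) ≤ 1 := by rw [len, W_word]; exact wd_seg n u

lemma card_V : ∀ n, Fintype.card (V n) = 2 ^ n
  | 0 => rfl
  | n + 1 => by
    rw [pow_succ, ← card_V n]; exact (Fintype.card_prod (V n) Bool).trans (by simp)

noncomputable def En (n : ℕ) : ℕ :=
  ∑ u : V n, ∑ u' : V n, ∑ v : V n, ∑ v' : V n,
    if W n u * (W n v)⁻¹ = W n u' * (W n v')⁻¹ then 1 else 0

lemma En_ge : ∀ n, (n + 2) * 4 ^ n ≤ 2 * En n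
  | 0 => by simp [En, W, wd, show Fintype.card (V 0) = 1 from rfl]
  | n + 1 => by
    have ih := En_ge n
    have sm : ∀ f : V (n + 1) → ℕ, ∑ u, f u = ∑ u : V n, (f (u, true) + f (u, false)) := fun f =>
      (Fintype.sum_prod_type (α₁ := V n) (α₂ := Bool) f).trans (by simp)
    have hW : ∀ u b, W (n + 1) (u, b) = W n u * of (n, b) := fun u b => rfl
    have h1 : 4 * En n + 2 * ∑ u : V n, ∑ u' : V n, ∑ v : V n, ∑ v' : V n,
        (if u = u' ∧ v = v' then 1 else 0) ≤ En (n + 1) := by
      simp only [En, sm, mul_sum, ← sum_add_distrib]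
      refine sum_le_sum fun u _ => sum_le_sum fun u' _ => sum_le_sum fun v _ =>
        sum_le_sum fun v' _ => ?_
      simp only [hW, mul_inv_rev, mul_assoc, mul_inv_cancel_left]
      by_cases h : u = u' ∧ v = v'
      · obtain ⟨rfl, rfl⟩ := h
        simp only [if_true, and_self]; omega
      · rw [if_neg h]; omega
    have h2 : ∑ u : V n, ∑ u' : V n, ∑ v : V n, ∑ v' : V n, (if u = u' ∧ v = v' then 1 else 0) =
        4 ^ n := by
      simp [ite_and, card_V, ← mul_pow]
    rw [h2] at h1
    rw [pow_succ]; nlinarith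

noncomputable def A (n : ℕ) : Finset G := univ.image (W n)

lemma card_A (n : ℕ) : #(A n) = 2 ^ n := by
  rw [A, card_image_of_injective _ (W_inj n), card_univ, card_V]

lemma energy (n : ℕ) : (n + 2) * 4 ^ n ≤ 2 * mulEnergy (A n) (A n)⁻¹ := by
  refine (En_ge n).trans (Nat.mul_le_mul_left _ (le_of_eq ?_))
  have e : (A n)⁻¹ = univ.image fun u => (W n u)⁻¹ := by
    rw [A, ← image_inv_eq_inv, image_image]; rfl
  have i2 : Function.Injective fun u => (W n u)⁻¹ := inv_injective.comp (W_inj n)
  rw [mulEnergy, card_filter, e, A]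
  simp only [sum_product, En]
  simp only [sum_image (W_inj n).injOn, sum_image i2.injOn]

end Pool.Agent.Lib.helper12.RapidExp
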