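import Mathlib

set_option autoImplicit false

namespace Pool.Agent.Lib.helper12.Reg

def val : List Bool → ℕ
  | [] => 0
  | b :: w => 2 * val w + (if b then 1 else 0)

lemma val_append (z v : List Bool) : val (z ++ v) = val z + 2 ^ z.length * val v := by
  induction z with
  | nil => simp [val]
  | cons b z ih => simp only [List.cons_append, val, ih, List.length_cons]; ring

lemma val_inj : ∀ z z' : List Bool, z.length = z'.length → val z = val z' → z = z'
  | [], [], _, _ => rfl
  | [], _ :: _, h, _ => by simp at h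
  | _ :: _, [], h, _ => by simp at h
  | b :: z, b' :: z', h, h' => by
    simp only [val] at h'
    have h1 : val z = val z' ∧ b = b' := by cases b <;> cases b' <;> simp at h' ⊢ <;> omega
    rw [val_inj z z' (by simpa using h) h1.1, h1.2]

lemma val_pred (z : List Bool) : ∀ i, val z = i + 1 → ∃ z' : List Bool, z'.length = z.length ∧ val z' = i := by
  induction z with
  | nil => intro i h; simp [val] at h
  | cons b z ih =>
    intro i h
    cases b
    · simp only [val] at h
      obtain ⟨z', h1, h2⟩ := ih (val z - 1) (by simp at h; omega)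
      exact ⟨true :: z', by simp [h1], by simp [val] at h ⊢; omega⟩
    · exact ⟨false :: z, rfl, by simp [val] at h ⊢; omega⟩

lemma dbl (G : Finset (List Bool)) : ∃ H : Finset (List Bool), H.card = 2 * G.card ∧
    ∀ u ∈ H, ∃ b, ∃ w ∈ G, u = b :: w := by
  refine ⟨((Finset.univ : Finset Bool) ×ˢ G).image fun p => p.1 :: p.2, ?_, fun u hu => ?_⟩
  · rw [Finset.card_image_of_injective _ fun p q h => Prod.ext (List.cons.inj h).1 (List.cons.inj h).2]
    simp
  · obtain ⟨p, hp, rfl⟩ := Finset.mem_image.1 hu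
    exact ⟨_, _, (Finset.mem_product.1 hp).2, rfl⟩

lemma allw (n : ℕ) : ∃ H : Finset (List Bool), H.card = 2 ^ n ∧ ∀ u ∈ H, u.length = n := by
  induction n with
  | zero => exact ⟨{[]}, rfl, by simp⟩
  | succ n ih =>
    obtain ⟨G, h1, h2⟩ := ih
    obtain ⟨H, h3, h4⟩ := dbl G
    refine ⟨H, by rw [h3, h1, pow_succ'], fun u hu => ?_⟩
    obtain ⟨b, w, hw, rfl⟩ := h4 u hu
    simp [h2 w hw]

lemma anti (k : ℕ) : ∀ Z : Finset (List Bool), Set.InjOn List.length (Z : Set (List Bool)) →
    2 ^ k ≤ Z.card → ∃ W : Finset (List Bool), W.card = k ∧ (∀ w ∈ W, ∃ b, ∃ z ∈ Z, w = b :: z) ∧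
      ∀ w ∈ W, ∀ w' ∈ W, w <:+ w' → w = w' := by
  classical
  induction k with
  | zero => exact fun Z _ _ => ⟨∅, rfl, by simp, by simp⟩
  | succ k ih =>
    intro Z h1 h2
    obtain ⟨z, hz, hm⟩ := Z.exists_min_image List.length
      (Finset.card_pos.1 (lt_of_lt_of_le (by positivity) h2))
    let A : Bool → Finset (List Bool) := fun b => (Z.erase z).filter fun y => ¬ (b :: z) <:+ y
    have h3 : Z.erase z ⊆ A true ∪ A false := by
      intro y hy
      by_contra hc
      simp only [A, Finset.mem_union, Finset.mem_filter, hy, true_and, not_or, not_not] at hc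
      have := List.suffix_of_suffix_length_le hc.1 hc.2 (by simp)
      have := this.eq_of_length (by simp)
      simp at this
    have h4 := (Finset.card_le_card h3).trans (Finset.card_union_le _ _)
    rw [Finset.card_erase_of_mem hz] at h4
    obtain ⟨b, hb⟩ : ∃ b, 2 ^ k ≤ (A b).card := by
      by_contra hc
      push Not at hc
      have := hc true
      have := hc false
      rw [pow_succ] at h2
      omega
    have h5 : A b ⊆ Z := (Finset.filter_subset _ _).trans (Finset.erase_subset _ _)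
    obtain ⟨W, a1, a2, a3⟩ := ih (A b) (h1.mono h5) hb
    have h6 : ∀ w ∈ W, z.length + 1 < w.length ∧ ¬ (b :: z) <:+ w := by
      intro w hw
      obtain ⟨c, y, hy, rfl⟩ := a2 w hw
      have b1 := Finset.mem_filter.1 hy
      have b2 : z.length ≠ y.length := fun e =>
        (Finset.mem_erase.1 b1.1).1 (h1 hz (h5 hy) e).symm
      have b3 := hm y (h5 hy)
      refine ⟨by simp; omega, fun h => ?_⟩
      rcases List.suffix_cons_iff.1 h with h | h
      · exact b2 (by rw [(List.cons.inj h).2])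
      · exact b1.2 h
    refine ⟨insert (b :: z) W, ?_, fun w hw => ?_, fun w hw w' hw' h => ?_⟩
    · rw [Finset.card_insert_of_notMem fun h => (h6 _ h).2 (List.suffix_refl _), a1]
    · rcases Finset.mem_insert.1 hw with rfl | hw
      · exact ⟨b, z, hz, rfl⟩
      · obtain ⟨c, y, hy, e⟩ := a2 w hw
        exact ⟨c, y, h5 hy, e⟩
    · rcases Finset.mem_insert.1 hw with rfl | hw <;> rcases Finset.mem_insert.1 hw' with rfl | hw'
      · rfl
      · exact absurd h (h6 _ hw').2
      · have := h.length_le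
        have := (h6 _ hw).1
        simp at *; omega
      · exact a3 w hw w' hw' h

lemma big (K : ℝ) : ∃ n : ℕ, K * (3 / 2) ^ n < 2 ^ n := by
  obtain ⟨n, hn⟩ := pow_unbounded_of_one_lt K (by norm_num : (1 : ℝ) < 4 / 3)
  refine ⟨n, ?_⟩
  rw [show (2 : ℝ) ^ n = (4 / 3) ^ n * (3 / 2) ^ n by rw [← mul_pow]; norm_num]
  gcongr

theorem core {V : Type} (d : V → V → ℕ) (d0 : ∀ a, d a a = 0) (dc : ∀ a b, d a b = d b a)
    (dt : ∀ a b c, d a c ≤ d a b + d b c)
    (hball : ∀ t r, ∃ s : Finset V, s.card ≤ 4 ^ r ∧ ∀ t', d t t' ≤ r → t' ∈ s)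
    (hsep : ∀ a b ρ, 0 < ρ → 2 * ρ < d a b → ∃ m, ∃ χ : V → Prop, χ a ∧ ¬ χ b ∧ d a m = ρ ∧ ρ ≤ d b m ∧
      ∀ t t', χ t → ¬ χ t' → d t m ≤ d t t' ∧ d t' m ≤ d t t')
    (π : List Bool → V) (κ : ℕ) (h1 : ∀ b w, d (π w) (π (b :: w)) ≤ κ)
    (h2 : ∀ w w' : List Bool, w.length = w'.length → val w' = val w + 1 → d (π w) (π w') ≤ κ)
    (h3 : ∀ θ : ℝ, 1 < θ → ∃ C : ℝ, 0 < C ∧ ∀ v R t (s : Finset (List Bool)),
      (∀ u ∈ s, u.length ≤ R ∧ π (u ++ v) = t) → (s.card : ℝ) ≤ C * θ ^ R) : False := by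
  classical
  have cnt : ∀ θ : ℝ, 1 < θ → ∃ C : ℝ, 0 < C ∧ ∀ v R t r (s : Finset (List Bool)),
      (∀ u ∈ s, u.length ≤ R ∧ d t (π (u ++ v)) ≤ r) → (s.card : ℝ) ≤ 4 ^ r * (C * θ ^ R) := by
    intro θ hθ
    obtain ⟨C, hC, h⟩ := h3 θ hθ
    refine ⟨C, hC, fun v R t r s hs => ?_⟩
    obtain ⟨B, b1, b2⟩ := hball t r
    rw [Finset.card_eq_sum_card_fiberwise (f := fun u => π (u ++ v)) (t := B)
      fun u hu => b2 _ (hs u hu).2, Nat.cast_sum]
    refine (Finset.sum_le_card_nsmul _ _ (C * θ ^ R) fun t' _ => h v R t' _ fun u hu =>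
      ⟨(hs u (Finset.mem_filter.1 hu).1).1, (Finset.mem_filter.1 hu).2⟩).trans ?_
    rw [nsmul_eq_mul]
    have : (B.card : ℝ) ≤ 4 ^ r := by exact_mod_cast b1
    have : 0 < θ := by linarith
    gcongr
  have lip : ∀ u v, d (π v) (π (u ++ v)) ≤ κ * u.length := by
    intro u v
    induction u with
    | nil => simp [d0]
    | cons b u ih =>
      have := dt (π v) (π (u ++ v)) (π (b :: (u ++ v)))
      have := h1 b (u ++ v)
      simp only [List.cons_append, List.length_cons, mul_add]; omega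
  obtain ⟨C, hC, hc⟩ := cnt (3 / 2) (by norm_num)
  obtain ⟨s, hs⟩ := big (3 * (4 ^ κ * C))
  have kraft : ∀ m (χ : V → Prop), (∀ t t', χ t → ¬ χ t' → d t m ≤ d t t' ∧ d t' m ≤ d t t') →
      ∀ c, χ (π c) → κ * s < d (π c) m → ∀ n, ∃ u : List Bool, u.length = s + n ∧ χ (π (u ++ c)) := by
    intro m χ hχ c a1 a2 n
    have key : ∃ G : Finset (List Bool), 3 * (4 ^ κ * C) * (3 / 2) ^ (s + n) ≤ G.card ∧
        ∀ u ∈ G, u.length = s + n ∧ χ (π (u ++ c)) := by
      induction n with
      | zero =>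
        obtain ⟨H, b1, b2⟩ := allw s
        refine ⟨H, by rw [b1]; push_cast; exact hs.le, fun u hu => ⟨b2 u hu, ?_⟩⟩
        by_contra h
        have := (hχ _ _ a1 h).1
        have := lip u c
        rw [b2 u hu] at this
        omega
      | succ n ih =>
        obtain ⟨G, b1, b2⟩ := ih
        obtain ⟨H, b3, b4⟩ := dbl G
        have b5 := hc c (s + n + 1) m κ (H.filter fun u => ¬ χ (π (u ++ c))) fun u hu => by
          obtain ⟨b, w, hw, rfl⟩ := b4 u (Finset.mem_filter.1 hu).1
          refine ⟨by simp [(b2 w hw).1], ?_⟩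
          rw [dc]
          exact (hχ _ _ (b2 w hw).2 (Finset.mem_filter.1 hu).2).2.trans (h1 b _)
        refine ⟨H.filter fun u => χ (π (u ++ c)), ?_, fun u hu => ⟨?_, (Finset.mem_filter.1 hu).2⟩⟩
        · have b6 : ((H.filter fun u => χ (π (u ++ c))).card : ℝ) +
              (H.filter fun u => ¬ χ (π (u ++ c))).card = 2 * G.card := by
            exact_mod_cast (Finset.card_filter_add_card_filter_not _).trans b3
          rw [← add_assoc]
          rw [pow_succ] at b5 ⊢
          nlinarith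
        · obtain ⟨b, w, hw, rfl⟩ := b4 u (Finset.mem_filter.1 hu).1
          simp [(b2 w hw).1]; ring
    obtain ⟨G, b1, b2⟩ := key
    obtain ⟨u, hu⟩ : G.Nonempty := by
      rw [← Finset.card_pos]
      exact_mod_cast (lt_of_lt_of_le (by positivity) b1 : (0 : ℝ) < G.card)
    exact ⟨u, b2 u hu⟩
  set ρ := κ * s + 1 with hρ
  obtain ⟨j, hj⟩ := big (4 ^ (2 * ρ) * C)
  have stuck : ∀ v, ∀ n, ∃ z : List Bool, z.length = s + n + j ∧
      d (π v) (π (z ++ v)) ≤ κ * j + ρ + κ := by
    intro v n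
    obtain ⟨H, b1, b2⟩ := allw j
    obtain ⟨p, hp⟩ : H.Nonempty := by rw [← Finset.card_pos, b1]; positivity
    obtain ⟨q, hq, hpq⟩ : ∃ q ∈ H, 2 * ρ < d (π (p ++ v)) (π (q ++ v)) := by
      by_contra h
      push Not at h
      have := hc v j (π (p ++ v)) (2 * ρ) H fun u hu => ⟨(b2 u hu).le, h u hu⟩
      rw [b1] at this
      push_cast at this
      linarith
    obtain ⟨m, χ, c1, c2, c3, c4, c5⟩ := hsep _ _ _ (by omega) hpq
    obtain ⟨a, a1, a2⟩ := kraft m χ c5 _ c1 (by omega) n
    obtain ⟨b, a3, a4⟩ := kraft m (fun t => ¬ χ t) (fun t t' h h' => by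
      have := c5 t' t (not_not.1 h') h
      rw [dc t t']; exact this.symm) _ c2 (by omega) n
    by_contra hcon
    push Not at hcon
    have e1 : ∀ z : List Bool, z.length = s + n + j → κ < d (π (z ++ v)) m := by
      intro z hz
      have f1 := hcon z hz
      have f2 := lip p v
      rw [b2 p hp] at f2
      have f3 := dt (π v) (π (p ++ v)) m
      have f4 := dt (π v) m (π (z ++ v))
      rw [dc m] at f4
      omega
    have e2 : ∀ i, ∀ z z' : List Bool, z.length = s + n + j → z'.length = s + n + j → val z = i →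
        val z' = 0 → (χ (π (z ++ v)) ↔ χ (π (z' ++ v))) := by
      intro i
      induction i with
      | zero => intro z z' f1 f2 f3 f4; rw [val_inj z z' (by omega) (by omega)]
      | succ i ih =>
        intro z z' f1 f2 f3 f4
        obtain ⟨y, g1, g2⟩ := val_pred z i f3
        rw [← ih y z' (by omega) f2 g2 f4]
        have g3 := h2 (y ++ v) (z ++ v) (by simp [g1]) (by rw [val_append, val_append, g1]; omega)
        have g4 := e1 z f1
        constructor <;> intro g <;> by_contra g'
        · have := (c5 _ _ g g').1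
          rw [dc (π (z ++ v)) (π (y ++ v))] at this; omega
        · have := (c5 _ _ g g').2
          omega
    have e3 : ∀ n, val (List.replicate n false) = 0 := by
      intro n; induction n <;> simp_all [List.replicate_succ, val]
    have e4 := e2 _ (a ++ p) (List.replicate (s + n + j) false) (by simp [a1, b2 p hp]) (by simp) rfl (e3 _)
    have e5 := e2 _ (b ++ q) (List.replicate (s + n + j) false) (by simp [a3, b2 q hq]) (by simp) rfl (e3 _)
    rw [List.append_assoc] at e4 e5
    exact a4 (e5.2 (e4.1 a2))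
  set c := κ * j + ρ + κ + κ with hcc
  set B := 4 * 4 ^ c with hB
  set L := s + 2 ^ B + j + 1 with hL
  have step : ∀ v, ∃ W : Finset (List Bool), W.card = B ∧
      (∀ w ∈ W, w.length ≤ L ∧ d (π v) (π (w ++ v)) ≤ c) ∧ ∀ w ∈ W, ∀ w' ∈ W, w <:+ w' → w = w' := by
    intro v
    choose z z1 z2 using stuck v
    have zi : Function.Injective z := fun n n' h => by
      have := z1 n; rw [h, z1 n'] at this; omega
    obtain ⟨W, a1, a2, a3⟩ := anti B ((Finset.range (2 ^ B)).image z) (fun x hx y hy e => by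
      obtain ⟨n, -, rfl⟩ := Finset.mem_image.1 hx
      obtain ⟨n', -, rfl⟩ := Finset.mem_image.1 hy
      rw [z1, z1] at e
      rw [show n = n' by omega]) (by rw [Finset.card_image_of_injective _ zi]; simp)
    refine ⟨W, a1, fun w hw => ?_, a3⟩
    obtain ⟨b, y, hy, rfl⟩ := a2 w hw
    obtain ⟨n, hn, rfl⟩ := Finset.mem_image.1 hy
    have := Finset.mem_range.1 hn
    have := z2 n
    have := h1 b (z n ++ v)
    have := dt (π v) (π (z n ++ v)) (π (b :: (z n ++ v)))
    exact ⟨by simp [z1]; omega, by rw [List.cons_append]; omega⟩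
  have iter : ∀ k v, ∃ S : Finset (List Bool), B ^ k ≤ S.card ∧
      ∀ u ∈ S, u.length ≤ L * k ∧ d (π v) (π (u ++ v)) ≤ c * k := by
    intro k
    induction k with
    | zero => exact fun v => ⟨{[]}, by simp, by simp [d0]⟩
    | succ k ih =>
      intro v
      choose S s1 s2 using ih
      obtain ⟨W, a1, a2, a3⟩ := step v
      refine ⟨W.biUnion fun w => (S (w ++ v)).image (· ++ w), ?_, fun u hu => ?_⟩
      · rw [Finset.card_biUnion, pow_succ', ← a1, ← smul_eq_mul]
        · refine Finset.card_nsmul_le_sum _ _ _ fun w _ => ?_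
          rw [Finset.card_image_of_injective _ (List.append_left_injective w)]
          exact a1 ▸ s1 _
        · intro w hw w' hw' hne
          refine Finset.disjoint_left.2 fun x hx hx' => hne ?_
          obtain ⟨u, -, rfl⟩ := Finset.mem_image.1 hx
          obtain ⟨u', -, e⟩ := Finset.mem_image.1 hx'
          rcases List.suffix_or_suffix_of_suffix (List.suffix_append u w)
            (e ▸ List.suffix_append u' w') with h | h
          · exact a3 w hw w' hw' h
          · exact (a3 w' hw' w hw h).symm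
      · obtain ⟨w, hw, hu⟩ := Finset.mem_biUnion.1 hu
        obtain ⟨y, hy, rfl⟩ := Finset.mem_image.1 hu
        have := s2 _ y hy
        have := a2 w hw
        have := dt (π v) (π (w ++ v)) (π (y ++ (w ++ v)))
        simp only [List.length_append, List.append_assoc, mul_add]
        omega
  have hL0 : (L : ℝ) ≠ 0 := by positivity
  obtain ⟨C', hC', hc'⟩ := cnt ((2 : ℝ) ^ (L : ℝ)⁻¹) (Real.one_lt_rpow one_lt_two (by positivity))
  obtain ⟨k, hk⟩ := pow_unbounded_of_one_lt C' (by norm_num : (1 : ℝ) < 2)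
  obtain ⟨S, a1, a2⟩ := iter k []
  have a3 := hc' [] _ _ _ S a2
  rw [pow_mul ((2 : ℝ) ^ (L : ℝ)⁻¹), Real.rpow_inv_natCast_pow (by norm_num) (by positivity)] at a3
  have a4 : ((4 * 4 ^ c) ^ k : ℝ) ≤ S.card := by exact_mod_cast a1
  rw [mul_pow, ← pow_mul, show (4 : ℝ) ^ k = 2 ^ k * 2 ^ k by rw [← mul_pow]; norm_num] at a4
  have a5 : (0 : ℝ) < 4 ^ (c * k) * 2 ^ k := by positivity
  nlinarith

end Pool.Agent.Lib.helper12.Reg
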