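import Mathlib

set_option autoImplicit false
open Filter Topology Function

namespace Pool.Agent.Lib.helper12.Schreier

/-- a self-similar group of automorphisms of the tree of finite words over `X` -/
def SelfSim {X : Type} (L : Subgroup (Equiv.Perm (List X))) : Prop :=
  ∀ g ∈ L, g [] = [] ∧ ∀ x, ∃ h ∈ L, ∃ y, ∀ w, g (x :: w) = y :: h w

/-- the first `k` letters of an infinite word -/
def pref {X : Type} (ξ : ℕ → X) (k : ℕ) : List X := List.ofFn fun i : Fin k => ξ i

/-- the boundary point `g ξ`, given by the sequence of its initial words -/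
def pt {X : Type} (ξ : ℕ → X) (g : Equiv.Perm (List X)) : ℕ → List X := fun k => g (pref ξ k)

/-- the ball of radius `n` about `ξ` in the Schreier graph -/
def ball {X : Type} (S : Set (Equiv.Perm (List X))) (ξ : ℕ → X) (n : ℕ) : Set (ℕ → List X) :=
  pt ξ '' {g | ∃ l : List (Equiv.Perm (List X)), l.length ≤ n ∧ (∀ s ∈ l, s ∈ S ∨ s⁻¹ ∈ S) ∧
    l.prod = g}

section gen
variable {X : Type} {S : Set (Equiv.Perm (List X))} {ξ : ℕ → X}

lemma ball_zero : ball S ξ 0 = {pt ξ 1} := by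
  ext z; simp [ball, eq_comm]

lemma ball_succ (n : ℕ) (z : ℕ → List X) :
    z ∈ ball S ξ (n + 1) ↔ z ∈ ball S ξ n ∨ ∃ s ∈ S ∪ S⁻¹, ∃ y ∈ ball S ξ n, s ∘ y = z := by
  constructor
  · rintro ⟨_, ⟨l, h1, h2, rfl⟩, rfl⟩
    cases l with
    | nil => exact Or.inl ⟨_, ⟨[], by simp, h2, rfl⟩, rfl⟩
    | cons s l =>
      exact Or.inr ⟨s, h2 s (by simp), _, ⟨_, ⟨l, by simpa using h1, fun t ht => h2 t (by simp [ht]),
        rfl⟩, rfl⟩, rfl⟩
  · rintro (⟨_, ⟨l, h1, h2, rfl⟩, rfl⟩ | ⟨s, hs, _, ⟨_, ⟨l, h1, h2, rfl⟩, rfl⟩, rfl⟩)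
    · exact ⟨_, ⟨l, by omega, h2, rfl⟩, rfl⟩
    · exact ⟨_, ⟨s :: l, by simpa using h1, by simpa using ⟨hs, h2⟩, rfl⟩, rfl⟩

lemma ball_fin (hS : S.Finite) : ∀ n, (ball S ξ n).Finite
  | 0 => by simp [ball_zero]
  | n + 1 => ((ball_fin hS n).union ((hS.union hS.inv).image2 (fun (s : Equiv.Perm (List X)) y => s ∘ y)
      (ball_fin hS n))).subset fun z hz => (ball_succ n z).1 hz

lemma ball_ge (hS : S.Finite) (h : (pt ξ '' (Subgroup.closure S)).Infinite) :
    ∀ n, n + 1 ≤ (ball S ξ n).ncard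
  | 0 => by simp [ball_zero]
  | n + 1 => by
    refine Nat.succ_le_of_lt ((ball_ge hS h n).trans_lt (Set.ncard_lt_ncard
      ⟨fun z hz => (ball_succ n z).2 (Or.inl hz),
        fun hs => h ((ball_fin (ξ := ξ) hS n).subset ?_)⟩ (ball_fin hS _)))
    rintro _ ⟨g, hg, rfl⟩
    induction hg using Subgroup.closure_induction_left with
    | one => exact ⟨_, ⟨[], by simp, by simp, rfl⟩, rfl⟩
    | mul_left s hs' g _ ih => exact hs ((ball_succ n _).2 (Or.inr ⟨s, Or.inl hs', _, ih, rfl⟩))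
    | inv_mul_cancel s hs' g _ ih =>
      exact hs ((ball_succ n _).2 (Or.inr ⟨s⁻¹, Or.inr (by simpa using hs'), _, ih, rfl⟩))

lemma ball_sub (n : ℕ) : ball S ξ n ⊆ pt ξ '' (Subgroup.closure S) := by
  rintro _ ⟨_, ⟨l, -, h, rfl⟩, rfl⟩
  exact ⟨_, list_prod_mem fun s hs => (h s hs).elim (fun e => Subgroup.subset_closure e)
    fun e => (Subgroup.inv_mem_iff _).1 (Subgroup.subset_closure e), rfl⟩

lemma pref_succ (η : ℕ → X) (k : ℕ) : pref η (k + 1) = η 0 :: pref (fun i => η (i + 1)) k := by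
  simp [pref, List.ofFn_succ]

lemma pref_inj : Injective (pref : (ℕ → X) → ℕ → List X) := fun _ _ h => funext fun i =>
  congrFun (List.ofFn_injective (congrFun h (i + 1))) (Fin.last i)

end gen

abbrev X (M : ℕ) := Σ c : Fin M, ZMod (2 ^ (c.1 + 1))

variable {M : ℕ}

def v (x : X M) : ℕ := x.2.val

def rot (t : ℤ) (x : X M) : X M := ⟨x.1, x.2 + t⟩

lemma rot_rot (s t : ℤ) (x : X M) : rot s (rot t x) = rot (t + s) x := by
  simp only [rot, Int.cast_add]
  congr 1
  exact add_assoc _ _ _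

lemma v_zero (c : Fin M) : v (⟨c, 0⟩ : X M) = 0 := ZMod.val_zero

lemma v_one (c : Fin M) : v (⟨c, 1⟩ : X M) = 1 := ZMod.val_one'' (by simp)

lemma rot_zero (x : X M) : rot 0 x = x := by simp [rot]

def fa (t : ℤ) : List (X M) → List (X M)
  | [] => []
  | x :: w => rot t x :: w

def fb (t : ℤ) : List (X M) → List (X M)
  | [] => []
  | x :: w => x :: if v x = 0 then fa t w else if v x = 1 then fb t w else w

lemma fa_fa (s t : ℤ) (h : t + s = 0) : ∀ w : List (X M), fa s (fa t w) = w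
  | [] => rfl
  | x :: w => by simp [fa, rot_rot, h, rot_zero]

lemma fb_fb (s t : ℤ) (h : t + s = 0) : ∀ w : List (X M), fb s (fb t w) = w
  | [] => rfl
  | x :: w => by
    simp only [fb]
    split_ifs <;> simp [fa_fa s t h, fb_fb s t h w]

def a (M : ℕ) : Equiv.Perm (List (X M)) := ⟨fa 1, fa (-1), fa_fa _ _ (by simp), fa_fa _ _ (by simp)⟩
def b (M : ℕ) : Equiv.Perm (List (X M)) := ⟨fb 1, fb (-1), fb_fb _ _ (by simp), fb_fb _ _ (by simp)⟩

lemma selfsim : SelfSim (Subgroup.closure {a M, b M}) := by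
  have ha : a M ∈ Subgroup.closure {a M, b M} := Subgroup.subset_closure (by simp)
  have hb : b M ∈ Subgroup.closure {a M, b M} := Subgroup.subset_closure (by simp)
  intro g hg
  induction hg using Subgroup.closure_induction'' with
  | one => exact ⟨rfl, fun x => ⟨1, one_mem _, x, fun _ => rfl⟩⟩
  | mem s hs =>
    rcases hs with rfl | rfl
    · exact ⟨rfl, fun x => ⟨1, one_mem _, _, fun _ => rfl⟩⟩
    · refine ⟨rfl, fun x => ⟨if v x = 0 then a M else if v x = 1 then b M else 1, ?_, x, fun w => ?_⟩⟩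
      · split_ifs; exacts [ha, hb, one_mem _]
      · change fb 1 _ = _
        rw [fb]; split_ifs <;> rfl
  | inv_mem s hs =>
    rcases hs with rfl | rfl
    · exact ⟨rfl, fun x => ⟨1, one_mem _, _, fun _ => rfl⟩⟩
    · refine ⟨rfl, fun x => ⟨if v x = 0 then (a M)⁻¹ else if v x = 1 then (b M)⁻¹ else 1, ?_, x,
        fun w => ?_⟩⟩
      · split_ifs; exacts [inv_mem ha, inv_mem hb, one_mem _]
      · change fb (-1) _ = _
        rw [fb]; split_ifs <;> rfl
  | mul g h _ _ hg hh =>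
    refine ⟨by rw [Equiv.Perm.mul_apply, hh.1, hg.1], fun x => ?_⟩
    obtain ⟨h', a1, y, a2⟩ := hh.2 x
    obtain ⟨g', b1, z, b2⟩ := hg.2 y
    exact ⟨g' * h', mul_mem b1 a1, z, fun w => by rw [Equiv.Perm.mul_apply, a2, b2]; rfl⟩

def mv (t : ℤ) (η : ℕ → X M) (n : ℕ) : ℕ → X M := update η n (rot t (η n))

def cond (η : ℕ → X M) (n : ℕ) : Prop := v (η n) = 0 ∧ ∀ j < n, v (η j) = 1

lemma fa_pref (t : ℤ) (η : ℕ → X M) : fa t ∘ pref η = pref (mv t η 0) := by
  funext k
  cases k with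
  | zero => rfl
  | succ k => simp [pref_succ, fa, mv]

lemma fb_pref (t : ℤ) (n : ℕ) : ∀ η : ℕ → X M, cond η n → fb t ∘ pref η = pref (mv t η (n + 1)) := by
  induction n with
  | zero =>
    intro η h; funext k
    cases k with
    | zero => rfl
    | succ k =>
      simp only [comp, pref_succ, fb, h.1, if_true]
      rw [show fa t _ = _ from congrFun (fa_pref t _) k]
      congr 2; funext i; simp [mv, update_apply]
  | succ n ih =>
    intro η h; funext k
    cases k with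
    | zero => rfl
    | succ k =>
      simp only [comp, pref_succ, fb, h.2 0 (by simp), if_true, one_ne_zero, if_false]
      rw [show fb t _ = _ from congrFun (ih _ ⟨h.1, fun j hj => h.2 (j + 1) (by omega)⟩) k]
      congr 2; funext i; simp [mv, update_apply]

lemma fb_fix (t : ℤ) (k : ℕ) : ∀ η : ℕ → X M, (∀ n, ¬ cond η n) → fb t (pref η k) = pref η k := by
  induction k with
  | zero => exact fun _ _ => rfl
  | succ k ih =>
    intro η h
    rw [pref_succ, fb, if_neg fun e => h 0 ⟨e, by simp⟩]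
    split_ifs with e
    · rw [ih _ fun n hn => h (n + 1) ⟨hn.1, fun j hj => by
        cases j with
        | zero => exact e
        | succ j => exact hn.2 j (by omega)⟩]
    · rfl

def phi (η : ℕ → X M) : ℕ → ℤ
  | 0 => 0
  | n + 1 => if v (η n) = 1 then phi η n else if v (η n) = 0 then 2 ^ (n + 1) - 1 - phi η n
      else 2 ^ n - 1

lemma phi_bd (η : ℕ → X M) : ∀ n, 0 ≤ phi η n ∧ phi η n ≤ 2 ^ n - 1
  | 0 => by simp [phi]
  | n + 1 => by
    have := phi_bd η n
    have : (0 : ℤ) < 2 ^ n := by positivity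
    rw [phi, pow_succ]; split_ifs <;> omega

lemma phi_one (η : ℕ → X M) : ∀ n, (∀ j < n, v (η j) = 1) → phi η n = 0
  | 0, _ => rfl
  | n + 1, h => by rw [phi, if_pos (h n (by simp)), phi_one η n fun j hj => h j (by omega)]

lemma phi_lip (t : ℤ) (η : ℕ → X M) (k : ℕ) (h : k = 0 ∨ ∃ m, k = m + 1 ∧ cond η m) (n : ℕ) :
    (n ≤ k → phi (mv t η k) n = phi η n) ∧ |phi (mv t η k) n - phi η n| ≤ 1 := by
  induction n with
  | zero => simp [phi]
  | succ n ih =>
    by_cases e : n = k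
    · subst e
      have h1 : phi η n = 2 ^ n - 1 := by
        rcases h with rfl | ⟨m, rfl, h⟩
        · rfl
        · rw [phi, if_neg (by rw [h.1]; simp), if_pos h.1, phi_one η m h.2, sub_zero]
      refine ⟨fun h => by omega, ?_⟩
      rw [phi, phi, ih.1 le_rfl, h1, pow_succ, abs_le]
      split_ifs <;> omega
    · have : mv t η k n = η n := update_of_ne e _ _
      rw [phi, phi, this]
      refine ⟨fun h => by rw [ih.1 (by omega)], ?_⟩
      have := abs_le.1 ih.2
      rw [abs_le]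
      split_ifs <;> omega

variable (ω : ℕ → Fin M)

def xi : ℕ → X M := fun i => ⟨ω i, 0⟩

def Box (n : ℕ) : Set (ℕ → X M) := {η | (∀ i, (η i).1 = ω i) ∧ ∀ i, n ≤ i → η i = xi ω i}

lemma box_card (n : ℕ) : (Box ω n).ncard = 2 ^ ∑ i ∈ Finset.range n, ((ω i).1 + 1) := by
  let f : (∀ i : Fin n, ZMod (2 ^ ((ω i).1 + 1))) → ℕ → X M := fun u i =>
    ⟨ω i, if h : i < n then u ⟨i, h⟩ else 0⟩
  have h1 : Injective f := fun u u' h => funext fun i => by
    simpa [f] using congrFun h i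
  have h2 : Box ω n = Set.range f := by
    ext η
    constructor
    · rintro ⟨h1, h2⟩
      obtain rfl : ω = fun i => (η i).1 := funext fun i => (h1 i).symm
      refine ⟨fun i => (η i).2, funext fun i => ?_⟩
      simp only [f]
      split_ifs with h
      · rfl
      · exact (h2 i (not_lt.1 h)).symm
    · rintro ⟨u, rfl⟩
      exact ⟨fun _ => rfl, fun i hi => by simp [f, xi, not_lt.2 hi]⟩
  rw [h2, Set.ncard_range_of_injective h1, Nat.card_pi, ← Finset.prod_pow_eq_pow_sum,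
    Finset.prod_range]
  simp

lemma upper (n : ℕ) : ∀ r, r < 2 ^ n → ∀ z ∈ ball {a M, b M} (xi ω) r,
    ∃ η ∈ Box ω (n + 2), pref η = z ∧ 2 ^ n - (r : ℤ) ≤ phi η (n + 1) := by
  intro r
  induction r with
  | zero =>
    intro _ z hz
    rw [ball_zero] at hz
    refine ⟨xi ω, ⟨fun _ => rfl, fun _ _ => rfl⟩, hz.symm, ?_⟩
    have := phi_bd (xi ω) n
    have e : v (xi ω n) = 0 := by simp [v, xi]
    rw [phi, e, pow_succ]; simp; omega
  | succ r ih =>
    intro hr z hz
    rcases (ball_succ r z).1 hz with h | ⟨s, hs, y, hy, rfl⟩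
    · obtain ⟨η, a1, a2, a3⟩ := ih (by omega) z h
      exact ⟨η, a1, a2, by push_cast; omega⟩
    obtain ⟨η, a1, rfl, a3⟩ := ih (by omega) y hy
    have key : ∀ t k, (k = 0 ∨ ∃ m, k = m + 1 ∧ cond η m) → mv t η k ∈ Box ω (n + 2) ∧
        2 ^ n - ((r + 1 : ℕ) : ℤ) ≤ phi (mv t η k) (n + 1) := by
      intro t k hk
      have := abs_le.1 (phi_lip t η k hk (n + 1)).2
      refine ⟨⟨fun i => ?_, fun i hi => ?_⟩, by push_cast; omega⟩
      · by_cases e : i = k
        · subst e; simpa [mv, rot] using a1.1 i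
        · rw [mv, update_of_ne e]; exact a1.1 i
      · rw [mv, update_of_ne, a1.2 i hi]
        rintro rfl
        rcases hk with rfl | ⟨m, rfl, h⟩
        · omega
        · rw [phi_one η (n + 1) fun j hj => h.2 j (by omega)] at a3
          have : ((r + 1 : ℕ) : ℤ) < 2 ^ n := by exact_mod_cast hr
          omega
    have hb : ∀ t, ∃ η' ∈ Box ω (n + 2), pref η' = fb t ∘ pref η ∧
        2 ^ n - ((r + 1 : ℕ) : ℤ) ≤ phi η' (n + 1) := by
      intro t
      by_cases e : ∃ m, cond η m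
      · obtain ⟨m, hm⟩ := e
        have := key t _ (Or.inr ⟨m, rfl, hm⟩)
        exact ⟨_, this.1, (fb_pref t m η hm).symm, this.2⟩
      · exact ⟨η, a1, funext fun k => (fb_fix t k η (not_exists.1 e)).symm, by push_cast; omega⟩
    have ha := fun t => (⟨_, (key t 0 (Or.inl rfl)).1, (fa_pref t η).symm, (key t 0 (Or.inl rfl)).2⟩ :
      ∃ η' ∈ Box ω (n + 2), pref η' = fa t ∘ pref η ∧ 2 ^ n - ((r + 1 : ℕ) : ℤ) ≤ phi η' (n + 1))
    rcases hs with (rfl | rfl) | hs
    exacts [ha 1, hb 1, by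
      rcases Set.mem_inv.1 hs with h | h <;> rw [inv_eq_iff_eq_inv.1 h]
      exacts [ha (-1), hb (-1)]]

lemma lower (n : ℕ) : ∀ (r : ℕ) (η η' : ℕ → X M), pref η ∈ ball {a M, b M} (xi ω) r →
    (∀ i, (η i).1 = (η' i).1) → (∀ i, n ≤ i → η i = η' i) →
    pref η' ∈ ball {a M, b M} (xi ω) (r + 2 ^ M * (2 ^ n - 1)) := by
  induction n with
  | zero => intro r η η' h _ h2; simpa [← funext fun i => h2 i (Nat.zero_le _)] using h
  | succ n ih =>
    intro r η η' h h1 h2
    let p : ℕ → X M := fun i => if i + 1 < n then ⟨(η i).1, 1⟩ else if i < n then ⟨(η i).1, 0⟩ else η i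
    have hp : ∀ i, (p i).1 = (η i).1 := fun i => by simp only [p]; split_ifs <;> rfl
    have hp' : ∀ i, n ≤ i → p i = η i := fun i hi => by
      simp only [p]; rw [if_neg (by omega), if_neg (by omega)]
    have c1 := ih r η p h (fun i => (hp i).symm) fun i hi => (hp' i hi).symm
    generalize hr' : r + 2 ^ M * (2 ^ n - 1) = r' at c1
    have c2 : ∀ j : ℕ, pref (mv j p n) ∈ ball {a M, b M} (xi ω) (r' + j) := by
      intro j
      induction j with
      | zero => simpa [mv, rot_zero] using c1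
      | succ j ih =>
        have e : mv 1 (mv j p n) n = mv (j + 1 : ℕ) p n := by simp [mv, rot_rot]
        refine (ball_succ _ _).2 (Or.inr ?_)
        cases n with
        | zero => exact ⟨a M, by simp, _, ih, e ▸ fa_pref 1 _⟩
        | succ n =>
          refine ⟨b M, by simp, _, ih, e ▸ fb_pref 1 n _ ⟨?_, fun i hi => ?_⟩⟩
          · rw [mv, update_of_ne (by omega)]
            simp only [p]
            rw [if_neg (by omega), if_pos (by omega), v_zero]
          · rw [mv, update_of_ne (by omega)]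
            simp only [p]
            rw [if_pos (by omega), v_one]
    obtain ⟨j, hj, e⟩ : ∃ j : ℕ, j ≤ 2 ^ M ∧ rot j (η n) = η' n := by
      have := h1 n
      generalize η n = x at this
      generalize η' n = y at this
      obtain ⟨c, x⟩ := x
      obtain ⟨c', y⟩ := y
      obtain rfl : c = c' := this
      exact ⟨(y - x).val, (ZMod.val_lt _).le.trans (Nat.pow_le_pow_right two_pos c.2), by simp [rot]⟩
    have c3 := ih _ _ η' (c2 j) (fun i => by
      by_cases e : i = n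
      · subst e; simpa [mv, rot, hp] using h1 i
      · rw [mv, update_of_ne e, hp, h1]) fun i hi => by
      by_cases e' : i = n
      · subst e'; simp [mv, hp' i le_rfl, e]
      · rw [mv, update_of_ne e', hp' i hi, h2 i (by omega)]
    obtain ⟨_, ⟨l, d1, d2⟩, d3⟩ := c3
    refine ⟨_, ⟨l, d1.trans ?_, d2⟩, d3⟩
    obtain ⟨m, hm⟩ := Nat.exists_eq_succ_of_ne_zero (show 2 ^ n ≠ 0 by positivity)
    rw [← hr', pow_succ, hm, show m.succ * 2 - 1 = 2 * m + 1 by omega, Nat.succ_sub_one]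
    nlinarith

lemma lim (f : ℕ → ℝ) (α K : ℝ) (h : ∀ᶠ n : ℕ in atTop, |f n - α * Real.log n| ≤ K) :
    Tendsto (fun n : ℕ => f n / Real.log n) atTop (𝓝 α) := by
  have h1 : Tendsto (fun n : ℕ => Real.log n) atTop atTop :=
    Real.tendsto_log_atTop.comp tendsto_natCast_atTop_atTop
  rw [tendsto_iff_norm_sub_tendsto_zero]
  refine squeeze_zero' (Eventually.of_forall fun _ => norm_nonneg _) ?_ (h1.const_div_atTop K)
  filter_upwards [h, h1.eventually_gt_atTop 0] with n a1 a2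
  rw [Real.norm_eq_abs, div_sub' a2.ne', abs_div, abs_of_pos a2, mul_comm]
  gcongr

theorem exists_deg (α : ℝ) (h : 1 ≤ α) : ∃ (M : ℕ) (ω : ℕ → Fin M),
    Tendsto (fun n : ℕ => Real.log (ball {a M, b M} (xi ω) n).ncard / Real.log n) atTop (𝓝 α) := by
  obtain ⟨M, hM⟩ : ∃ M, M = ⌈α⌉₊ + 1 := ⟨_, rfl⟩
  have f1 : ∀ i : ℕ, ⌊α * i⌋₊ + 1 ≤ ⌊α * (i + 1 : ℕ)⌋₊ ∧ ⌊α * (i + 1 : ℕ)⌋₊ ≤ ⌊α * i⌋₊ + M := fun i => by
    have h0 : 0 ≤ α * i := by positivity
    rw [hM]
    refine ⟨by rw [← Nat.floor_add_one h0]; exact Nat.floor_mono (by push_cast; linarith), ?_⟩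
    rw [← Nat.floor_add_natCast h0]
    exact Nat.floor_mono (by push_cast; linarith [Nat.le_ceil α])
  let ω : ℕ → Fin M := fun i => ⟨⌊α * (i + 1 : ℕ)⌋₊ - ⌊α * i⌋₊ - 1, by have := f1 i; omega⟩
  have f2 : ∀ n, (Box ω n).ncard = 2 ^ ⌊α * n⌋₊ := fun n => by
    rw [box_card]; congr 1
    induction n with
    | zero => simp
    | succ n ih => rw [Finset.sum_range_succ, ih]; have := f1 n; simp only [ω]; omega
  have hS : ({a M, b M} : Set _).Finite := Set.toFinite _
  have lo : ∀ n r : ℕ, 2 ^ M * 2 ^ n ≤ r → 2 ^ ⌊α * n⌋₊ ≤ (ball {a M, b M} (xi ω) r).ncard := by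
    intro n r hr
    rw [← f2, ← Set.ncard_image_of_injective _ pref_inj]
    refine Set.ncard_le_ncard ?_ (ball_fin hS r)
    rintro _ ⟨η, h1, rfl⟩
    obtain ⟨_, ⟨l, d1, d2⟩, d3⟩ := lower ω n 0 (xi ω) η (by rw [ball_zero]; rfl)
      (fun i => (h1.1 i).symm) fun i hi => (h1.2 i hi).symm
    exact ⟨_, ⟨l, d1.trans (le_trans (by simp) hr), d2⟩, d3⟩
  have up : ∀ n r : ℕ, r < 2 ^ n → (ball {a M, b M} (xi ω) r).ncard ≤ 2 ^ ⌊α * (n + 2 : ℕ)⌋₊ := by
    intro n r hr
    rw [← f2, ← Set.ncard_image_of_injective (Box ω (n + 2)) pref_inj]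
    refine Set.ncard_le_ncard (fun z hz => ?_) 
      ((Set.finite_of_ncard_pos (s := Box ω (n + 2)) (by rw [f2]; positivity)).image _)
    obtain ⟨η, a1, a2, -⟩ := upper ω n r hr z hz
    exact ⟨η, a1, a2⟩
  refine ⟨M, ω, lim _ _ (α * (M + 3)) ?_⟩
  filter_upwards [eventually_ge_atTop (2 ^ M)] with r hr
  have r0 : r ≠ 0 := by have : 0 < 2 ^ M := by positivity
                        omega
  obtain ⟨n, hn⟩ := Nat.exists_eq_add_of_le (Nat.le_log_of_pow_le one_lt_two hr)
  have g1 := Nat.pow_log_le_self 2 r0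
  have g2 := Nat.lt_pow_succ_log_self one_lt_two r
  rw [hn] at g1 g2
  have l2 := Real.log_two_lt_d9
  have l3 := Real.log_two_gt_d9
  have lg : ∀ {x y : ℕ}, x ≠ 0 → x ≤ y → Real.log x ≤ Real.log y := fun h h' =>
    Real.log_le_log (by positivity) (by exact_mod_cast h')
  have k0 := lo n r (by rwa [← pow_add])
  have k1 := lg (by positivity) k0
  have k2 := lg (by have : 0 < 2 ^ ⌊α * n⌋₊ := by positivity
                    omega) (up _ r g2)
  have k3 := lg (by positivity) g1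
  have k4 := lg r0 g2.le
  simp only [Nat.cast_pow, Nat.cast_ofNat, Real.log_pow] at k1 k2 k3 k4
  have k5 := Nat.lt_floor_add_one (α * n)
  have k6 := Nat.floor_le (show 0 ≤ α * ((M + n).succ + 2 : ℕ) by positivity)
  have k7 := mul_le_mul_of_nonneg_left k3 (show 0 ≤ α by linarith)
  have k8 := mul_le_mul_of_nonneg_left k4 (show 0 ≤ α by linarith)
  have k9 : α * (M + 3) * Real.log 2 ≤ α * (M + 3) := mul_le_of_le_one_right (by positivity) (by linarith)
  have k10 := mul_le_mul_of_nonneg_right k5.le (show 0 ≤ Real.log 2 by linarith)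
  have k11 := mul_le_mul_of_nonneg_right k6 (show 0 ≤ Real.log 2 by linarith)
  have k12 := mul_le_mul_of_nonneg_right h (show 0 ≤ Real.log 2 by linarith)
  push_cast at k2 k6 k7 k8 k11
  rw [abs_le]
  constructor <;> nlinarith

end Pool.Agent.Lib.helper12.Schreier
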