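import Mathlib

set_option autoImplicit false
open Set Filter Topology

namespace Pool.Agent.Lib.H12Smale

abbrev C := AddCircle (1 : ℝ)

/-- inverse limit of two circles joined by a segment, under doubling -/
def XS : Set (ℤ → EReal × C) :=
  {z | (∀ n, z (n + 1) = z n + z n) ∧ ∀ n (r : ℝ), (z n).1 = r → (z n).2 = r}

lemma cont_dbl : Continuous fun t : EReal => t + t := by
  rw [continuous_iff_continuousAt]
  intro t
  have h : ContinuousAt (fun p : EReal × EReal => p.1 + p.2) (t, t) := by
    apply EReal.continuousAt_add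
    · by_cases h : t = ⊤ <;> simp [h]
    · by_cases h : t = ⊤ <;> simp [h]
  exact ContinuousAt.comp (f := fun t : EReal => (t, t)) h (by fun_prop)

lemma cont_addr : Continuous fun p : EReal × ℝ => p.1 + (p.2 : EReal) := by
  rw [continuous_iff_continuousAt]
  intro p
  have h : ContinuousAt (fun p : EReal × EReal => p.1 + p.2) (p.1, (p.2 : EReal)) := by
    apply EReal.continuousAt_add <;> simp
  exact ContinuousAt.comp (f := fun p : EReal × ℝ => (p.1, (p.2 : EReal))) h
    (continuous_fst.prodMk (continuous_coe_real_ereal.comp continuous_snd)).continuousAt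

lemma cont_coe : Continuous fun r : ℝ => (r : C) := AddCircle.continuous_mk' 1

lemma closed_W : IsClosed {w : EReal × C | ∀ r : ℝ, w.1 = r → w.2 = r} := by
  rw [← isOpen_compl_iff]
  have h1 : IsOpen (Prod.fst ⁻¹' ({⊥, ⊤}ᶜ : Set EReal) : Set (EReal × C)) :=
    ((toFinite _).isClosed.isOpen_compl).preimage continuous_fst
  have h2 : ContinuousOn (fun w : EReal × C => w.2 - ((w.1.toReal : ℝ) : C))
      (Prod.fst ⁻¹' ({⊥, ⊤}ᶜ : Set EReal)) :=
    continuous_snd.continuousOn.sub (cont_coe.comp_continuousOn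
      (EReal.continuousOn_toReal.comp continuous_fst.continuousOn fun _ h => h))
  have h3 := h2.isOpen_inter_preimage h1 (isOpen_compl_singleton (x := (0 : C)))
  convert h3 using 1
  ext ⟨t, u⟩
  induction t <;> simp [sub_eq_zero]

lemma closed_XS : IsClosed XS := by
  have e : XS = (⋂ n : ℤ, {z : ℤ → EReal × C | z (n + 1) = z n + z n}) ∩
      ⋂ n : ℤ, (fun z : ℤ → EReal × C => z n) ⁻¹' {w : EReal × C | ∀ r : ℝ, w.1 = r → w.2 = r} := by
    ext z; simp [XS]
  rw [e]
  refine (isClosed_iInter fun n => isClosed_eq (continuous_apply _) ?_).inter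
    (isClosed_iInter fun n => closed_W.preimage (continuous_apply n))
  exact ((cont_dbl.comp (continuous_fst.comp (continuous_apply n))).prodMk
    ((continuous_snd.comp (continuous_apply n)).add (continuous_snd.comp (continuous_apply n))))

abbrev X : Type := XS

instance : CompactSpace X := isCompact_iff_compactSpace.1 closed_XS.isCompact

lemma cont_ev (n : ℤ) : Continuous fun z : X => z.1 n :=
  (continuous_apply n).comp continuous_subtype_val

def sh (k : ℤ) (z : X) : X := ⟨fun n => z.1 (n + k), fun n => by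
  beta_reduce
  rw [show n + 1 + k = n + k + 1 by ring]; exact z.2.1 _, fun n => z.2.2 _⟩

lemma sh_cont (k : ℤ) : Continuous (sh k) :=
  (continuous_pi fun n => cont_ev (n + k)).subtype_mk _

/-- the shift homeomorphism -/
def f : X ≃ₜ X where
  toFun := sh 1
  invFun := sh (-1)
  left_inv z := by apply Subtype.ext; funext n; simp [sh]
  right_inv z := by apply Subtype.ext; funext n; simp [sh]
  continuous_toFun := sh_cont _
  continuous_invFun := sh_cont _

@[simp] lemma f_val (z : X) (n : ℤ) : (f z).1 n = z.1 (n + 1) := rfl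
@[simp] lemma fs_val (z : X) (n : ℤ) : (f.symm z).1 n = z.1 (n + -1) := rfl

lemma iter_val (k : ℕ) (z : X) (n : ℤ) : ((⇑f)^[k] z).1 n = z.1 (n + k) := by
  induction k generalizing n with
  | zero => simp
  | succ k ih => rw [Function.iterate_succ_apply', f_val, ih]; push_cast; ring_nf

lemma two_zpow (n : ℤ) (r : ℝ) : (2 : ℝ) ^ (n + 1) * r = 2 ^ n * r + 2 ^ n * r := by
  rw [zpow_add_one₀ (by norm_num)]; ring

/-- the flow -/
noncomputable def phi (s : ℝ) (z : X) : X :=
  ⟨fun n => ((z.1 n).1 + (((2 : ℝ) ^ n * s : ℝ) : EReal), (z.1 n).2 + (((2 : ℝ) ^ n * s : ℝ) : C)),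
    fun n => by
      beta_reduce
      rw [z.2.1 n, two_zpow, EReal.coe_add, AddCircle.coe_add]
      ext
      · simp only [Prod.fst_add]; abel
      · simp only [Prod.snd_add]; abel,
    fun n r h => by
      have h2 := z.2.2 n
      simp only at h ⊢
      revert h h2
      generalize (z.1 n).1 = t
      induction t with
      | bot => intro h; rw [EReal.bot_add] at h; exact absurd h.symm (EReal.coe_ne_bot _)
      | top => intro h; rw [EReal.top_add_coe] at h; exact absurd h.symm (EReal.coe_ne_top _)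
      | coe a =>
        intro h h2
        rw [← EReal.coe_add, EReal.coe_eq_coe_iff] at h
        rw [h2 a rfl, ← h, AddCircle.coe_add]⟩

lemma phi_fst (s : ℝ) (z : X) (n : ℤ) :
    ((phi s z).1 n).1 = (z.1 n).1 + (((2 : ℝ) ^ n * s : ℝ) : EReal) := rfl
lemma phi_snd (s : ℝ) (z : X) (n : ℤ) :
    ((phi s z).1 n).2 = (z.1 n).2 + (((2 : ℝ) ^ n * s : ℝ) : C) := rfl

lemma X_ext {y z : X} (h1 : ∀ n, (y.1 n).1 = (z.1 n).1) (h2 : ∀ n, (y.1 n).2 = (z.1 n).2) :
    y = z := Subtype.ext (funext fun n => Prod.ext (h1 n) (h2 n))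

lemma phi_zero (z : X) : phi 0 z = z :=
  X_ext (fun n => by simp [phi_fst]) (fun n => by simp [phi_snd])

lemma phi_add (s t : ℝ) (z : X) : phi s (phi t z) = phi (s + t) z :=
  X_ext (fun n => by simp only [phi_fst, mul_add, EReal.coe_add]; abel)
    (fun n => by simp only [phi_snd, mul_add, AddCircle.coe_add]; abel)

lemma f_phi (s : ℝ) (z : X) : f (phi s z) = phi (s + s) (f z) :=
  X_ext (fun n => by simp only [f_val, phi_fst, two_zpow, mul_add])
    (fun n => by simp only [f_val, phi_snd, two_zpow, mul_add])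

lemma phi_cont : Continuous fun p : ℝ × X => phi p.1 p.2 := by
  refine Continuous.subtype_mk (continuous_pi fun n => Continuous.prodMk ?_ ?_) _
  · exact cont_addr.comp (f := fun p : ℝ × X => ((p.2.1 n).1, (2 : ℝ) ^ n * p.1))
      ((continuous_fst.comp ((cont_ev n).comp continuous_snd)).prodMk (by fun_prop))
  · exact (continuous_snd.comp ((cont_ev n).comp continuous_snd)).add
      (cont_coe.comp (by fun_prop))

/-- the line -/
noncomputable def io (r : ℝ) : X :=
  ⟨fun n => ((((2 : ℝ) ^ n * r : ℝ) : EReal), (((2 : ℝ) ^ n * r : ℝ) : C)),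
    fun n => by
      beta_reduce
      rw [two_zpow, EReal.coe_add, AddCircle.coe_add]; rfl,
    fun n a h => by
      simp only at h ⊢
      rw [EReal.coe_eq_coe_iff] at h
      rw [h]⟩

lemma io_fst (r : ℝ) (n : ℤ) : ((io r).1 n).1 = (((2 : ℝ) ^ n * r : ℝ) : EReal) := rfl
lemma io_snd (r : ℝ) (n : ℤ) : ((io r).1 n).2 = (((2 : ℝ) ^ n * r : ℝ) : C) := rfl

lemma io_cont : Continuous io :=
  Continuous.subtype_mk (continuous_pi fun n => Continuous.prodMk
    (continuous_coe_real_ereal.comp (by fun_prop)) (cont_coe.comp (by fun_prop))) _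

lemma io_inj : Function.Injective io := by
  intro a b h
  have := congrArg (fun z : X => (z.1 0).1) h
  simpa [io_fst] using this

lemma step (z : X) (n : ℤ) : (z.1 (n + 1)).1 = (z.1 n).1 + (z.1 n).1 := by rw [z.2.1]; rfl
lemma step2 (z : X) (n : ℤ) : (z.1 (n + 1)).2 = (z.1 n).2 + (z.1 n).2 := by rw [z.2.1]; rfl

lemma top_case {z : X} (h : (z.1 0).1 = ⊤) (n : ℤ) : (z.1 n).1 = ⊤ := by
  induction n using Int.induction_on with
  | zero => exact h
  | succ n ih => rw [step, ih]; rfl
  | pred n ih =>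
    have h1 := step z (-n - 1)
    rw [sub_add_cancel, ih] at h1
    revert h1
    generalize (z.1 (-n - 1)).1 = t
    induction t with
    | bot => simp
    | top => simp
    | coe a => rw [← EReal.coe_add]; intro h; exact absurd h.symm (EReal.coe_ne_top _)

lemma bot_case {z : X} (h : (z.1 0).1 = ⊥) (n : ℤ) : (z.1 n).1 = ⊥ := by
  induction n using Int.induction_on with
  | zero => exact h
  | succ n ih => rw [step, ih]; rfl
  | pred n ih =>
    have h1 := step z (-n - 1)
    rw [sub_add_cancel, ih] at h1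
    revert h1
    generalize (z.1 (-n - 1)).1 = t
    induction t with
    | bot => simp
    | top => simp
    | coe a => rw [← EReal.coe_add]; intro h; exact absurd h.symm (EReal.coe_ne_bot _)

lemma real_case {z : X} {r : ℝ} (h : (z.1 0).1 = r) : z = io r := by
  have key : ∀ n : ℤ, (z.1 n).1 = (((2 : ℝ) ^ n * r : ℝ) : EReal) := by
    intro n
    induction n using Int.induction_on with
    | zero => simpa using h
    | succ n ih => rw [step, ih, two_zpow, EReal.coe_add]
    | pred n ih =>
      have h1 := step z (-n - 1)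
      have h2 := two_zpow (-n - 1) r
      rw [sub_add_cancel] at h1 h2
      rw [ih, h2] at h1
      revert h1
      generalize (z.1 (-n - 1)).1 = t
      induction t with
      | bot => simp only [EReal.bot_add]; intro h; exact absurd h (EReal.coe_ne_bot _)
      | top => simp only [EReal.top_add_top]; intro h; exact absurd h (EReal.coe_ne_top _)
      | coe a =>
        rw [← EReal.coe_add, EReal.coe_eq_coe_iff, EReal.coe_eq_coe_iff]
        intro h; linarith
  exact X_ext key fun n => z.2.2 n _ (key n)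

lemma cases3 (z : X) : (∃ r, z = io r) ∨ (∀ n, (z.1 n).1 = ⊤) ∨ (∀ n, (z.1 n).1 = ⊥) := by
  rcases h : (z.1 0).1 with _ | _ | r
  · exact Or.inr (Or.inr (bot_case h))
  · exact Or.inr (Or.inl (top_case h))
  · exact Or.inl ⟨r, real_case h⟩

lemma f_io (r : ℝ) : f (io r) = io (2 * r) :=
  real_case (by rw [f_val, io_fst]; simp)

lemma iter_io (k : ℕ) (r : ℝ) : (⇑f)^[k] (io r) = io (2 ^ k * r) :=
  real_case (by rw [iter_val, io_fst]; simp)

lemma ext_neg {y z : X} (h : ∀ n : ℕ, y.1 (-n) = z.1 (-n)) : y = z := by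
  apply Subtype.ext
  funext n
  induction n using Int.induction_on with
  | zero => simpa using h 0
  | succ n ih => rw [y.2.1, z.2.1, ih]
  | pred n _ =>
    have := h (n + 1)
    push_cast at this
    rw [show -(n : ℤ) - 1 = -(n + 1) by ring]; exact this

/-- fixed points at infinity -/
noncomputable def pt : X := ⟨fun _ => (⊤, 0), fun _ => by simp, fun _ r h => by simp at h⟩
noncomputable def pb : X := ⟨fun _ => (⊥, 0), fun _ => by simp, fun _ r h => by simp at h⟩

lemma fixed {z : X} (h : f z = z) : z = io 0 ∨ z = pt ∨ z = pb := by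
  have h2 : ∀ n, (z.1 n).2 = 0 := by
    intro n
    have h1 := step2 z n
    rw [← f_val, h] at h1
    simpa using h1
  rcases cases3 z with ⟨r, rfl⟩ | h1 | h1
  · rw [f_io] at h
    have := io_inj h
    left; congr 1; linarith
  · exact Or.inr (Or.inl (X_ext h1 h2))
  · exact Or.inr (Or.inr (X_ext h1 h2))

lemma tendsto_X {u : ℕ → X} {z : X}
    (h1 : ∀ m, Tendsto (fun k => ((u k).1 m).1) atTop (𝓝 (z.1 m).1))
    (h2 : ∀ m, ∀ᶠ k in atTop, ((u k).1 m).2 = (z.1 m).2) : Tendsto u atTop (𝓝 z) := by
  rw [tendsto_subtype_rng, tendsto_pi_nhds]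
  intro m
  exact (h1 m).prodMk_nhds (tendsto_const_nhds.congr' ((h2 m).mono fun _ h => h.symm))

lemma up (z : X) (m : ℤ) (a : ℝ) (h : (z.1 m).2 = a) (k : ℕ) :
    (z.1 (m + k)).2 = ((2 ^ k * a : ℝ) : C) := by
  induction k with
  | zero => simpa using h
  | succ k ih =>
    push_cast
    rw [← add_assoc, step2, ih, ← AddCircle.coe_add]; congr 1; ring

/-- approximation of the circle coordinates by points of the line -/
lemma approx (z : X) (c : ℕ → ℤ) : ∃ a : ℕ → ℝ, (∀ k, a k ∈ Ico (0 : ℝ) 1) ∧
    ∀ m, ∀ᶠ k : ℕ in atTop, ((io (2 ^ k * (a k + c k))).1 m).2 = (z.1 m).2 := by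
  refine ⟨fun k => AddCircle.equivIco 1 0 (z.1 (-k)).2, fun k => ?_, fun m => ?_⟩
  · simpa using (AddCircle.equivIco 1 0 (z.1 (-k)).2).2
  · filter_upwards [eventually_ge_atTop m.natAbs] with k hk
    obtain ⟨j, hj⟩ : ∃ j : ℕ, m = -k + j := ⟨(m + k).toNat, by omega⟩
    have h1 := up z (-k) (AddCircle.equivIco 1 0 (z.1 (-k)).2 + c k) (by
      rw [AddCircle.coe_add, AddCircle.coe_equivIco,
        (AddCircle.coe_eq_zero_iff (p := (1 : ℝ))).2 ⟨c k, by simp⟩, add_zero]) j
    rw [io_snd, hj, h1]
    congr 1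
    rw [zpow_add₀ (by norm_num), zpow_neg, zpow_natCast, zpow_natCast]
    field_simp

lemma dense_io (z : X) : z ∈ closure (range io) := by
  have hp : ∀ k : ℕ, (1 : ℝ) ≤ 2 ^ k := fun k => one_le_pow₀ (by norm_num)
  rcases cases3 z with ⟨r, rfl⟩ | h | h
  · exact subset_closure ⟨r, rfl⟩
  · obtain ⟨a, ha, h2⟩ := approx z fun k => k
    refine mem_closure_of_tendsto (tendsto_X (fun m => ?_) h2) (Eventually.of_forall fun k => ⟨_, rfl⟩)
    rw [h]
    simp only [io_fst]
    refine EReal.tendsto_coe_atTop.comp (Tendsto.const_mul_atTop (by positivity) ?_)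
    refine tendsto_atTop_mono (fun k => ?_) tendsto_natCast_atTop_atTop
    have := (ha k).1
    have := hp k
    have : (0 : ℝ) ≤ k := by positivity
    push_cast
    nlinarith
  · obtain ⟨a, ha, h2⟩ := approx z fun k => -(k + 1)
    refine mem_closure_of_tendsto (tendsto_X (fun m => ?_) h2) (Eventually.of_forall fun k => ⟨_, rfl⟩)
    rw [h]
    simp only [io_fst]
    refine EReal.tendsto_coe_atBot.comp (Tendsto.const_mul_atBot (by positivity) ?_)
    refine tendsto_atBot_mono (fun k => ?_) (tendsto_neg_atTop_atBot.comp tendsto_natCast_atTop_atTop)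
    have := (ha k).2
    have := hp k
    have : (0 : ℝ) ≤ k := by positivity
    simp only [Function.comp]
    push_cast
    nlinarith

lemma pow_int (m : ℤ) (c : ℤ) : ∀ᶠ k : ℕ in atTop, (((2 : ℝ) ^ m * (2 ^ k * c) : ℝ) : C) = 0 := by
  filter_upwards [eventually_ge_atTop m.natAbs] with k hk
  obtain ⟨j, hj⟩ : ∃ j : ℕ, m = -k + j := ⟨(m + k).toNat, by omega⟩
  refine (AddCircle.coe_eq_zero_iff (p := (1 : ℝ))).2 ⟨2 ^ j * c, ?_⟩
  rw [hj, zpow_add₀ (by norm_num), zpow_neg, zpow_natCast, zpow_natCast]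
  simp only [zsmul_eq_mul]
  push_cast
  field_simp

lemma to_pt : Tendsto (fun k : ℕ => (⇑f)^[k] (io 1)) atTop (𝓝 pt) := by
  simp only [iter_io]
  refine tendsto_X (fun m => ?_) fun m => by simpa [io_snd, pt] using pow_int m 1
  simp only [io_fst, mul_one]
  exact EReal.tendsto_coe_atTop.comp (Tendsto.const_mul_atTop (by positivity)
    (tendsto_pow_atTop_atTop_of_one_lt (by norm_num)))

lemma to_pb : Tendsto (fun k : ℕ => (⇑f)^[k] (io (-1))) atTop (𝓝 pb) := by
  simp only [iter_io]
  refine tendsto_X (fun m => ?_) fun m => by simpa [io_snd, pb] using pow_int m (-1)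
  simp only [io_fst]
  exact EReal.tendsto_coe_atBot.comp (Tendsto.const_mul_atBot (by positivity)
    (Tendsto.atTop_mul_const_of_neg (by norm_num)
      (tendsto_pow_atTop_atTop_of_one_lt (by norm_num))))

lemma is_real {z : X} {c : ℕ → ℤ} (h : Tendsto (fun k => (z.1 (c k)).1) atTop (𝓝 0)) :
    ∃ r, z = io r := by
  rcases cases3 z with h1 | h1 | h1
  · exact h1
  · simp only [h1] at h
    exact absurd (tendsto_nhds_unique tendsto_const_nhds h) (by simp)
  · simp only [h1] at h
    exact absurd (tendsto_nhds_unique tendsto_const_nhds h) (by simp)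

lemma stable0 {z : X} (h : Tendsto (fun k : ℕ => (⇑f)^[k] z) atTop (𝓝 (io 0))) : z = io 0 := by
  have h1 := ((continuous_fst.comp (cont_ev 0)).tendsto _).comp h
  simp only [Function.comp_def, iter_val, io_fst, mul_zero, EReal.coe_zero] at h1
  obtain ⟨r, rfl⟩ := is_real h1
  simp only [io_fst, zero_add, zpow_natCast] at h1
  rw [← EReal.coe_zero, EReal.tendsto_coe] at h1
  congr 1
  by_contra hr
  have h2 : Tendsto (fun k : ℕ => |(2 : ℝ) ^ k * r|) atTop atTop := by
    simp only [abs_mul, abs_pow, abs_two]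
    exact Tendsto.atTop_mul_const (abs_pos.2 hr) (tendsto_pow_atTop_atTop_of_one_lt (by norm_num))
  exact not_tendsto_nhds_of_tendsto_atTop h2 _ h1.abs

theorem surjunctive (τ : X → X) (hc : Continuous τ) (hf : ∀ x, τ (f x) = f (τ x))
    (hi : Function.Injective τ) : Function.Surjective τ := by
  have hit : ∀ (k : ℕ) x, τ ((⇑f)^[k] x) = (⇑f)^[k] (τ x) := fun k x =>
    Function.Semiconj.iterate_right hf k x
  have hne : ∀ r, io r ≠ pt := fun r h => by
    have := congrArg (fun z : X => (z.1 0).1) h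
    simp [io_fst, pt] at this
  have hne' : ∀ r, io r ≠ pb := fun r h => by
    have := congrArg (fun z : X => (z.1 0).1) h
    simp [io_fst, pb] at this
  have hne'' : pt ≠ pb := fun h => by
    have := congrArg (fun z : X => (z.1 0).1) h
    simp [pt, pb] at this
  have h1 : τ pt ≠ io 0 := by
    intro h
    have h2 := (hc.tendsto _).comp to_pt
    simp only [Function.comp_def, hit, h] at h2
    exact hne _ (hi ((stable0 h2).trans h.symm))
  have h2 : τ pb ≠ io 0 := by
    intro h
    have h2 := (hc.tendsto _).comp to_pb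
    simp only [Function.comp_def, hit, h] at h2
    exact hne' _ (hi ((stable0 h2).trans h.symm))
  have h0 : τ (io 0) = io 0 := by
    have a1 := fixed (z := τ (io 0)) (by rw [← hf, f_io, mul_zero])
    have a2 := fixed (z := τ pt) (by rw [← hf]; rfl)
    have a3 := fixed (z := τ pb) (by rw [← hf]; rfl)
    have b1 : τ (io 0) ≠ τ pt := fun h => hne _ (hi h)
    have b2 : τ (io 0) ≠ τ pb := fun h => hne' _ (hi h)
    have b3 : τ pt ≠ τ pb := fun h => hne'' (hi h)
    rcases a1 with a1 | a1 | a1 <;> rcases a2 with a2 | a2 | a2 <;> rcases a3 with a3 | a3 | a3 <;>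
      simp_all
  have hL : ∀ r, ∃ r', τ (io r) = io r' := by
    intro r
    have t1 : Tendsto (fun k : ℕ => (1 / 2 : ℝ) ^ k * r) atTop (𝓝 0) := by
      simpa using (tendsto_pow_atTop_nhds_zero_of_lt_one (r := (1 / 2 : ℝ)) (by norm_num)
        (by norm_num)).mul_const r
    have t2 := (((continuous_fst.comp (cont_ev 0)).comp (hc.comp io_cont)).tendsto _).comp t1
    simp only [Function.comp_def, h0, io_fst, mul_zero, EReal.coe_zero] at t2
    refine is_real (c := fun k => -k) (t2.congr fun k => ?_)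
    have : io r = (⇑f)^[k] (io ((1 / 2 : ℝ) ^ k * r)) := by
      rw [iter_io, ← mul_assoc, ← mul_pow]; simp
    rw [this, hit, iter_val]; simp
  choose g hg using hL
  have hgc : Continuous g := by
    have e : g = fun r => ((τ (io r)).1 0).1.toReal := by
      funext r; rw [hg, io_fst]; simp
    rw [e]
    refine EReal.continuousOn_toReal.comp_continuous
      ((continuous_fst.comp (cont_ev 0)).comp (hc.comp io_cont)) fun r => ?_
    simp [hg, io_fst]
  have hgi : Function.Injective g := fun a b h => io_inj (hi (by rw [hg, hg, h]))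
  have hg0 : g 0 = 0 := io_inj (by rw [← hg, h0])
  have hgp : ∀ (k : ℕ) r, g (2 ^ k * r) = 2 ^ k * g r := fun k r =>
    io_inj (by rw [← hg, ← iter_io, hit, hg, iter_io])
  have hsign : ∃ a b, 0 < g a ∧ g b < 0 := by
    rcases hgc.strictMono_of_inj hgi with h | h
    · exact ⟨1, -1, hg0 ▸ h (by norm_num), hg0 ▸ h (by norm_num)⟩
    · exact ⟨-1, 1, hg0 ▸ h (by norm_num), hg0 ▸ h (by norm_num)⟩
  obtain ⟨a, b, ha, hb⟩ := hsign
  have hgs : ∀ y, y ∈ range g := by
    intro y
    have p2 := tendsto_pow_atTop_atTop_of_one_lt (r := (2 : ℝ)) (by norm_num)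
    obtain ⟨k, hk⟩ := ((p2.atTop_mul_const ha).eventually_ge_atTop y).exists
    obtain ⟨l, hl⟩ := ((p2.atTop_mul_const_of_neg hb).eventually_le_atBot y).exists
    exact intermediate_value_univ (2 ^ l * b) (2 ^ k * a) hgc ⟨by rwa [hgp], by rwa [hgp]⟩
  intro z
  have hcl : IsClosed (range τ) := (isCompact_range hc).isClosed
  refine hcl.closure_subset_iff.2 ?_ (dense_io z)
  rintro _ ⟨r, rfl⟩
  obtain ⟨s, rfl⟩ := hgs r
  exact ⟨io s, hg s⟩

end Pool.Agent.Lib.H12Smale
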