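import Pool.Agent.Lib.helper12.SmaleA

set_option autoImplicit false
open Set Filter Topology

namespace Pool.Agent.Lib.H12Smale

lemma open_iff {Y : Type} [TopologicalSpace Y] [CompactSpace Y] (d : Y → Y → ℝ)
    (hc : ∀ x, Continuous (d x)) (h0 : ∀ x y, d x y = 0 ↔ x = y) (hn : ∀ x y, 0 ≤ d x y)
    (U : Set Y) :
    IsOpen U ↔ ∀ x ∈ U, ∃ r > 0, ∀ y, d x y < r → y ∈ U := by
  constructor
  · intro hU x hx
    by_cases hK : (Uᶜ).Nonempty
    · obtain ⟨w, hw, hmin⟩ := hU.isClosed_compl.isCompact.exists_isMinOn hK (hc x).continuousOn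
      refine ⟨d x w, lt_of_le_of_ne (hn _ _) fun h => hw (((h0 _ _).1 h.symm) ▸ hx), fun y hy => ?_⟩
      by_contra hyU
      exact absurd (hmin hyU) (not_le.2 hy)
    · refine ⟨1, one_pos, fun y _ => ?_⟩
      by_contra hyU
      exact hK ⟨y, hyU⟩
  · intro h
    rw [isOpen_iff_mem_nhds]
    intro x hx
    obtain ⟨r, hr, hsub⟩ := h x hx
    exact mem_of_superset ((isOpen_lt (hc x) continuous_const).mem_nhds
      (show d x x < r by rwa [(h0 x x).2 rfl])) hsub

noncomputable def cl (r : ℝ) : ℝ := max (-(1 / 2)) (min (1 / 2) r)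

noncomputable def nu (t : EReal) : ℝ :=
  (max (((-(1 / 2) : ℝ)) : EReal) (min (((1 / 2 : ℝ)) : EReal) t)).toReal

lemma nu_top : nu ⊤ = 1 / 2 := by
  unfold nu
  rw [min_eq_left le_top, max_eq_right (EReal.coe_le_coe_iff.2 (by norm_num)), EReal.toReal_coe]

lemma nu_bot : nu ⊥ = -(1 / 2) := by
  unfold nu
  rw [min_eq_right bot_le, max_eq_left bot_le, EReal.toReal_coe]

lemma nu_coe (r : ℝ) : nu r = cl r := by
  unfold nu cl
  rw [← EReal.coe_strictMono.monotone.map_min, ← EReal.coe_strictMono.monotone.map_max,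
    EReal.toReal_coe]

lemma nu_cont : Continuous nu := by
  refine EReal.continuousOn_toReal.comp_continuous
    (continuous_const.max (continuous_const.min continuous_id)) fun t => ?_
  simp only [mem_compl_iff, mem_insert_iff, mem_singleton_iff, not_or]
  constructor
  · exact ((EReal.bot_lt_coe _).trans_le (le_max_left _ _)).ne'
  · exact (max_lt (EReal.coe_lt_top _) ((min_le_left _ _).trans_lt (EReal.coe_lt_top _))).ne

lemma cl_lip (a b : ℝ) : |cl a - cl b| ≤ |a - b| := by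
  unfold cl
  refine (abs_max_sub_max_le_max _ _ _ _).trans (max_le (by simp) ?_)
  exact (abs_min_sub_min_le_max _ _ _ _).trans (max_le (by simp) le_rfl)

lemma cl_abs (a : ℝ) : |cl a| ≤ 1 / 2 := by
  unfold cl
  simp only [max_def, min_def]
  split_ifs <;> rw [abs_le] <;> constructor <;> linarith

lemma cl_small {a : ℝ} (h : |a| ≤ 1 / 2) : cl a = a := by
  rw [abs_le] at h
  unfold cl
  rw [min_eq_right h.2, max_eq_right h.1]

lemma cl_lt {a : ℝ} (h : |cl a| < 1 / 2) : cl a = a := by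
  revert h
  unfold cl
  simp only [max_def, min_def]
  split_ifs <;> rw [abs_lt] <;> intro h <;> linarith [h.1, h.2]

lemma nu_abs (t : EReal) : |nu t| ≤ 1 / 2 := by
  induction t with
  | bot => rw [nu_bot]; norm_num [abs_le]
  | top => rw [nu_top]; norm_num [abs_le]
  | coe a => rw [nu_coe]; exact cl_abs a

lemma nu_lt {t : EReal} (h : |nu t| < 1 / 2) : t = (nu t : ℝ) := by
  induction t with
  | bot => rw [nu_bot] at h; norm_num [abs_lt] at h
  | top => rw [nu_top] at h; norm_num [abs_lt] at h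
  | coe a => rw [nu_coe] at h ⊢; rw [cl_lt h]

lemma nu_lip (t : EReal) (s : ℝ) : |nu (t + s) - nu t| ≤ |s| := by
  induction t with
  | bot => simp
  | top => simp
  | coe a => rw [← EReal.coe_add, nu_coe, nu_coe]; simpa using cl_lip (a + s) a

lemma nu_dbl (t : EReal) : nu (t + t) = cl (nu t + nu t) := by
  induction t with
  | bot => rw [EReal.bot_add, nu_bot]; norm_num [cl]
  | top => rw [EReal.top_add_top, nu_top]; norm_num [cl]
  | coe a =>
    rw [← EReal.coe_add, nu_coe, nu_coe]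
    unfold cl
    simp only [max_def, min_def]
    split_ifs <;> linarith

noncomputable def sg (w : EReal × C) : ℝ × C := (nu w.1, w.2)

lemma sg_cont : Continuous sg := (nu_cont.comp continuous_fst).prodMk continuous_snd

noncomputable def tm (x y : X) (n : ℕ) : ℝ := (1 / 2) ^ n * dist (sg (x.1 (-n))) (sg (y.1 (-n)))

noncomputable def d (x y : X) : ℝ := ∑' n, tm x y n

lemma dist_sg_le (a b : EReal × C) : dist (sg a) (sg b) ≤ 1 := by
  rw [Prod.dist_eq]
  apply max_le
  · have h1 := abs_le.1 (nu_abs a.1)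
    have h2 := abs_le.1 (nu_abs b.1)
    rw [Real.dist_eq, abs_le]
    simp only [sg]
    constructor <;> linarith
  · rw [dist_eq_norm]
    have := AddCircle.norm_le_half_period (1 : ℝ) (x := (sg a).2 - (sg b).2) one_ne_zero
    norm_num at this
    linarith

lemma tm_nonneg (x y : X) (n : ℕ) : 0 ≤ tm x y n := by unfold tm; positivity

lemma tm_le (x y : X) (n : ℕ) : tm x y n ≤ (1 / 2) ^ n :=
  mul_le_of_le_one_right (by positivity) (dist_sg_le _ _)

lemma tm_sum (x y : X) : Summable (tm x y) :=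
  Summable.of_nonneg_of_le (tm_nonneg x y) (tm_le x y) summable_geometric_two

lemma d_cont : Continuous fun p : X × X => d p.1 p.2 := by
  refine continuous_tsum (fun n => ?_) summable_geometric_two fun n p => ?_
  · exact continuous_const.mul ((sg_cont.comp ((cont_ev _).comp continuous_fst)).dist
      (sg_cont.comp ((cont_ev _).comp continuous_snd)))
  · rw [Real.norm_of_nonneg (tm_nonneg _ _ _)]; exact tm_le _ _ _

lemma d_symm (x y : X) : d x y = d y x := by
  unfold d tm; simp only [dist_comm]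

lemma d_nonneg (x y : X) : 0 ≤ d x y := tsum_nonneg (tm_nonneg x y)

lemma d_tri (x y z : X) : d x z ≤ d x y + d y z := by
  unfold d
  rw [← (tm_sum x y).tsum_add (tm_sum y z)]
  refine (tm_sum x z).tsum_le_tsum (fun n => ?_) ((tm_sum x y).add (tm_sum y z))
  unfold tm
  rw [← mul_add]
  exact mul_le_mul_of_nonneg_left (dist_triangle _ _ _) (by positivity)

lemma tm_le_d (x y : X) (n : ℕ) : tm x y n ≤ d x y :=
  (tm_sum x y).le_tsum n fun m _ => tm_nonneg x y m

lemma eq_of_io {y : X} {r : ℝ} (h : ∀ n : ℕ, nu (y.1 (-n)).1 = nu ((io r).1 (-n)).1) :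
    y = io r := by
  have t1 : Tendsto (fun k : ℕ => |(1 / 2 : ℝ) ^ k * r|) atTop (𝓝 0) := by
    simpa using ((tendsto_pow_atTop_nhds_zero_of_lt_one (r := (1 / 2 : ℝ)) (by norm_num)
      (by norm_num)).mul_const r).abs
  obtain ⟨k, hk⟩ := (t1.eventually_lt_const (show (0 : ℝ) < 1 / 2 by norm_num)).exists
  have e : (2 : ℝ) ^ (-(k : ℤ)) * r = (1 / 2 : ℝ) ^ k * r := by
    rw [zpow_neg, zpow_natCast, one_div, inv_pow]
  have h1 := h k
  rw [io_fst, nu_coe, e, cl_small hk.le] at h1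
  have h2 := nu_lt (t := (y.1 (-k)).1) (by rw [h1]; exact hk)
  rw [h1] at h2
  rcases cases3 y with ⟨s, rfl⟩ | h3 | h3
  · rw [io_fst, ← e, EReal.coe_eq_coe_iff] at h2
    rw [mul_left_cancel₀ (by positivity) h2]
  · rw [h3] at h2; exact absurd h2.symm (EReal.coe_ne_top _)
  · rw [h3] at h2; exact absurd h2.symm (EReal.coe_ne_bot _)

lemma d_eq_zero (x y : X) : d x y = 0 ↔ x = y := by
  constructor
  · intro h
    have h1 : ∀ n : ℕ, sg (x.1 (-n)) = sg (y.1 (-n)) := by
      intro n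
      have h2 : tm x y n = 0 := le_antisymm (h ▸ tm_le_d x y n) (tm_nonneg _ _ _)
      unfold tm at h2
      simpa using h2
    have h2 : ∀ n : ℕ, nu (x.1 (-n)).1 = nu (y.1 (-n)).1 := fun n => congrArg Prod.fst (h1 n)
    have h3 : ∀ n : ℕ, (x.1 (-n)).2 = (y.1 (-n)).2 := fun n =>
      congrArg (fun w : ℝ × C => w.2) (h1 n)
    rcases cases3 y with ⟨s, rfl⟩ | hy | hy
    · exact eq_of_io h2
    · rcases cases3 x with ⟨s, rfl⟩ | hx | hx
      · exact (eq_of_io fun n => (h2 n).symm).symm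
      · exact ext_neg fun n => Prod.ext (by rw [hx, hy]) (h3 n)
      · have := h2 0
        rw [hx, hy, nu_top, nu_bot] at this
        norm_num at this
    · rcases cases3 x with ⟨s, rfl⟩ | hx | hx
      · exact (eq_of_io fun n => (h2 n).symm).symm
      · have := h2 0
        rw [hx, hy, nu_top, nu_bot] at this
        norm_num at this
      · exact ext_neg fun n => Prod.ext (by rw [hx, hy]) (h3 n)
  · rintro rfl
    simp [d, tm]

noncomputable def pr (x : X) : C := (x.1 0).2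

lemma pr_cont : Continuous pr := continuous_snd.comp (cont_ev 0)

lemma sg0_le (x y : X) : dist (sg (x.1 0)) (sg (y.1 0)) ≤ d x y := by
  simpa [tm] using tm_le_d x y 0

lemma pr_le (x y : X) : ‖pr x - pr y‖ ≤ d x y := by
  rw [← dist_eq_norm]
  exact (le_max_right _ _).trans (sg0_le x y)

lemma nu_le (x y : X) : |nu (x.1 0).1 - nu (y.1 0).1| ≤ d x y :=
  (le_max_left _ _).trans (sg0_le x y)

noncomputable def lf (u : C) : ℝ := AddCircle.equivIco 1 (-(1 / 2)) u

lemma lf_coe (u : C) : ((lf u : ℝ) : C) = u := AddCircle.coe_equivIco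

lemma lf_of {a : ℝ} (h : |a| < 1 / 2) : lf a = a := by
  rw [abs_lt] at h
  exact AddCircle.equivIco_coe_of_mem ⟨h.1.le, by linarith⟩

lemma norm_coe {a : ℝ} (h : |a| ≤ 1 / 2) : ‖(a : C)‖ = |a| :=
  (AddCircle.norm_coe_eq_abs_iff (1 : ℝ) one_ne_zero).2 (by simpa using h)

lemma lf_abs (u : C) : |lf u| = ‖u‖ := by
  have h := (AddCircle.equivIco 1 (-(1 / 2)) u).2
  rw [← norm_coe (a := lf u) (abs_le.2 ⟨h.1, by have := h.2; unfold lf; linarith⟩), lf_coe]

lemma lf_cont {u : C} (h : ‖u‖ < 1 / 2) : ContinuousAt lf u := by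
  refine continuousAt_subtype_val.comp (AddCircle.continuousAt_equivIco 1 (-(1 / 2)) ?_)
  rintro rfl
  rw [norm_coe (by norm_num [abs_le])] at h
  norm_num at h

noncomputable def br (x y : X) : X := phi (lf (pr x - pr y)) y

lemma pr_phi (s : ℝ) (y : X) : pr (phi s y) = pr y + s := by
  simp [pr, phi_snd]

lemma pr_br (x y : X) : pr (br x y) = pr x := by
  rw [br, pr_phi, lf_coe]; abel

lemma lf_add {u v : C} (h : ‖u‖ + ‖v‖ < 1 / 2) : lf u + lf v = lf (u + v) := by
  have := lf_of (a := lf u + lf v) ((abs_add_le _ _).trans_lt (by rwa [lf_abs, lf_abs]))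
  rw [AddCircle.coe_add, lf_coe, lf_coe] at this
  exact this.symm

lemma br_cont : ContinuousOn (fun p : X × X => br p.1 p.2) {p | d p.1 p.2 ≤ 1 / 10} := by
  intro p hp
  apply ContinuousAt.continuousWithinAt
  have h1 : ContinuousAt (fun p : X × X => lf (pr p.1 - pr p.2)) p :=
    ContinuousAt.comp (f := fun p : X × X => pr p.1 - pr p.2)
      (lf_cont ((pr_le _ _).trans_lt (lt_of_le_of_lt hp (by norm_num))))
      ((pr_cont.comp continuous_fst).sub (pr_cont.comp continuous_snd)).continuousAt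
  exact ContinuousAt.comp (f := fun p : X × X => (lf (pr p.1 - pr p.2), p.2))
    phi_cont.continuousAt (h1.prodMk continuousAt_snd)

lemma br_self (x : X) : br x x = x := by
  have : lf 0 = 0 := by simpa using lf_of (a := 0) (by norm_num)
  rw [br, sub_self, this, phi_zero]

lemma br_1 (x y z : X) (h1 : d y z ≤ 1 / 10) (h2 : d x (br y z) ≤ 1 / 10) :
    br x (br y z) = br x z := by
  have h3 := pr_le x (br y z)
  have h4 := pr_le y z
  rw [pr_br] at h3
  rw [br, pr_br, br, phi_add, lf_add (by linarith), br]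
  congr 2; abel

lemma br_2 (x y z : X) : br (br x y) z = br x z := by
  rw [br, pr_br]; rfl

lemma pr_f (x : X) : pr (f x) = pr x + pr x := step2 x 0

lemma br_f (x y : X) (h : d x y ≤ 1 / 10) : f (br x y) = br (f x) (f y) := by
  have h4 := pr_le x y
  rw [br, f_phi, lf_add (by linarith), br, pr_f, pr_f]
  congr 2; abel

lemma stable (y z : X) (hp : pr y = pr z) (h : d y z < 1 / 4) : d (f y) (f z) ≤ 1 / 2 * d y z := by
  have h1 := (nu_le y z).trans_lt h
  have key : sg (y.1 1) = sg (z.1 1) := by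
    have e1 := step y 0
    have e2 := step z 0
    have e3 := step2 y 0
    have e4 := step2 z 0
    rw [zero_add] at e1 e2 e3 e4
    refine Prod.ext ?_ (by simp only [sg]; rw [e3, e4]; exact congrArg₂ _ hp hp)
    simp only [sg]
    rw [e1, e2, nu_dbl, nu_dbl]
    rw [abs_lt] at h1
    by_cases c1 : |nu (y.1 0).1| < 1 / 2 ∧ |nu (z.1 0).1| < 1 / 2
    · have a1 := y.2.2 0 _ (nu_lt c1.1)
      have a2 := z.2.2 0 _ (nu_lt c1.2)
      have a3 : ((nu (y.1 0).1 : ℝ) : C) = ((nu (z.1 0).1 : ℝ) : C) := by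
        rw [← a1, ← a2]; exact hp
      have a4 := lf_of c1.1
      rw [a3, lf_of c1.2] at a4
      rw [a4]
    · have b1 := abs_le.1 (nu_abs (y.1 0).1)
      have b2 := abs_le.1 (nu_abs (z.1 0).1)
      rw [abs_lt, abs_lt] at c1
      have hi : ∀ a : ℝ, 1 / 4 ≤ a → cl (a + a) = 1 / 2 := fun a ha => by
        unfold cl; rw [min_eq_left (by linarith), max_eq_right (by norm_num)]
      have lo : ∀ a : ℝ, a ≤ -(1 / 4) → cl (a + a) = -(1 / 2) := fun a ha => by
        unfold cl; rw [min_eq_right (by linarith), max_eq_left (by linarith)]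
      by_cases c2 : 1 / 4 ≤ nu (y.1 0).1 ∧ 1 / 4 ≤ nu (z.1 0).1
      · rw [hi _ c2.1, hi _ c2.2]
      by_cases c3 : nu (y.1 0).1 ≤ -(1 / 4) ∧ nu (z.1 0).1 ≤ -(1 / 4)
      · rw [lo _ c3.1, lo _ c3.2]
      exfalso
      apply c1
      rw [not_and_or, not_le, not_le] at c2 c3
      rcases c2 with c2 | c2 <;> rcases c3 with c3 | c3 <;>
        refine ⟨⟨?_, ?_⟩, ?_, ?_⟩ <;> linarith
  unfold d
  rw [(tm_sum _ _).tsum_eq_zero_add, ← tsum_mul_left]
  have e0 : tm (f y) (f z) 0 = 0 := by simp [tm, key]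
  rw [e0, zero_add]
  apply le_of_eq
  congr 1
  funext n
  unfold tm
  simp only [f_val]
  rw [show -((n + 1 : ℕ) : ℤ) + 1 = -n by push_cast; ring]
  ring

lemma dist_phi (s : ℝ) (y : X) (n : ℤ) (h : |(2 : ℝ) ^ n * s| ≤ 1 / 2) :
    dist (sg ((phi s y).1 n)) (sg (y.1 n)) = |(2 : ℝ) ^ n * s| := by
  rw [Prod.dist_eq]
  have e : dist (sg ((phi s y).1 n)).2 (sg (y.1 n)).2 = |(2 : ℝ) ^ n * s| := by
    simp only [sg, phi_snd, dist_eq_norm, add_sub_cancel_left]
    exact norm_coe h
  rw [e]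
  exact max_eq_right (nu_lip _ _)

lemma unstable (s : ℝ) (y : X) (h : |s| ≤ 1 / 2) :
    d (f.symm (phi s y)) (f.symm y) ≤ 1 / 2 * d (phi s y) y := by
  have hb : ∀ n : ℕ, |(2 : ℝ) ^ (-(n : ℤ)) * s| ≤ 1 / 2 := by
    intro n
    rw [abs_mul, abs_of_pos (by positivity)]
    have : (2 : ℝ) ^ (-(n : ℤ)) ≤ 1 := zpow_le_one_of_nonpos₀ (by norm_num) (by omega)
    nlinarith [abs_nonneg s]
  unfold d
  rw [← tsum_mul_left]
  apply le_of_eq
  congr 1
  funext n
  unfold tm
  simp only [fs_val]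
  rw [show -(n : ℤ) + -1 = -((n + 1 : ℕ) : ℤ) by push_cast; ring, dist_phi _ _ _ (hb _),
    dist_phi _ _ _ (hb _), abs_mul, abs_mul, abs_of_pos (by positivity),
    abs_of_pos (a := (2 : ℝ) ^ (-(n : ℤ))) (by positivity)]
  simp only [zpow_neg, zpow_natCast]
  ring

theorem smale : ∃ (d : X → X → ℝ) (ε lam : ℝ) (br : X → X → X),
        (∀ x y, d x y = d y x) ∧ (∀ x y, d x y = 0 ↔ x = y) ∧
        (∀ x y z, d x z ≤ d x y + d y z) ∧
        (∀ U : Set X, IsOpen U ↔ ∀ x ∈ U, ∃ r > 0, ∀ y, d x y < r → y ∈ U) ∧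
        0 < ε ∧ 0 < lam ∧ lam < 1 ∧
        ContinuousOn (fun p : X × X => br p.1 p.2) {p | d p.1 p.2 ≤ ε} ∧
        (∀ x, br x x = x) ∧
        (∀ x y z, d y z ≤ ε → d x (br y z) ≤ ε → d x z ≤ ε → br x (br y z) = br x z) ∧
        (∀ x y z, d x y ≤ ε → d (br x y) z ≤ ε → d x z ≤ ε → br (br x y) z = br x z) ∧
        (∀ x y, d x y ≤ ε → d (f x) (f y) ≤ ε → f (br x y) = br (f x) (f y)) ∧
        (∀ x y z, d x y ≤ ε → br y x = x → d x z ≤ ε → br z x = x →
          d (f y) (f z) ≤ lam * d y z) ∧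
        (∀ x y z, d x y ≤ ε → br x y = x → d x z ≤ ε → br x z = x →
          d (f.symm y) (f.symm z) ≤ lam * d y z) := by
  have hc : ∀ x, Continuous (d x) := fun x =>
    d_cont.comp (f := fun y : X => (x, y)) (Continuous.prodMk_right x)
  refine ⟨d, 1 / 10, 1 / 2, br, d_symm, d_eq_zero, d_tri, open_iff d hc d_eq_zero d_nonneg,
    by norm_num, by norm_num, by norm_num, br_cont, br_self, fun x y z h1 h2 _ => br_1 x y z h1 h2,
    fun x y z _ _ _ => br_2 x y z, fun x y h _ => br_f x y h, ?_, ?_⟩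
  · intro x y z h1 h2 h3 h4
    refine stable y z (by rw [← pr_br y x, ← pr_br z x, h2, h4]) ?_
    have := d_tri y x z
    rw [d_symm y x] at this
    linarith
  · intro x y z h1 h2 h3 h4
    have a1 := (pr_le x y).trans h1
    have a2 := (pr_le x z).trans h3
    rw [← lf_abs] at a1 a2
    have e : y = phi (-lf (pr x - pr y) + lf (pr x - pr z)) z := by
      rw [← phi_add, show phi (lf (pr x - pr z)) z = x from h4]
      conv_rhs => rw [← h2]
      rw [pr_br, br, phi_add, neg_add_cancel, phi_zero]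
    rw [e]
    refine unstable _ z ((abs_add_le _ _).trans ?_)
    rw [abs_neg]; linarith

end Pool.Agent.Lib.H12Smale
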