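import Mathlib

set_option autoImplicit false

open Finset

namespace Pool.Agent.Lib.helper12.Spider

def par (v : ℕ) : ℕ := if v = 37 ∨ v = 59 ∨ v = 61 then 0 else v - 1

/-- The spider `S(36,22,2,1)` with centre `0`. -/
def G : SimpleGraph (Fin 62) := .fromRel fun u v => v.1 ≠ 0 ∧ u.1 = par v

instance : DecidableRel G.Adj := fun u v => by unfold G; simp only [SimpleGraph.fromRel_adj]; infer_instance

lemma conn {B : Finset (Fin 62)} (r : Fin 62) (hr : r ∈ B)
    (h : ∀ v ∈ B, v ≠ r → v.1 ≠ 0 ∧ ∀ u : Fin 62, u.1 = par v → u ∈ B) :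
    (G.induce (B : Set (Fin 62))).Connected := by
  have : ∀ k, ∀ v : (B : Set (Fin 62)), v.1.1 = k → (G.induce _).Reachable v ⟨r, hr⟩ := fun k => by
    induction k using Nat.strong_induction_on with
    | _ k ih =>
      rintro ⟨v, hv⟩ rfl
      by_cases e : v = r
      · subst e; rfl
      obtain ⟨a, b⟩ := h v hv e
      have l : par v < v := by unfold par; split <;> omega
      refine (SimpleGraph.Adj.reachable ?_).trans (ih _ l ⟨⟨par v, by omega⟩, b _ rfl⟩ rfl)
      show G.Adj v ⟨par v, by omega⟩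
      rw [G, SimpleGraph.fromRel_adj]
      exact ⟨fun e => l.ne' (congrArg Fin.val e), .inr ⟨a, rfl⟩⟩
  exact (SimpleGraph.connected_iff_exists_forall_reachable _).2
    ⟨⟨r, hr⟩, fun v => (this _ v rfl).symm⟩

def CP (T : Finset (Fin 62)) (l : Multiset ℕ) : Prop := ∃ P : Finpartition T,
  (∀ B ∈ P.parts, (G.induce (B : Set (Fin 62))).Connected) ∧ P.parts.val.map card = l

def S (a b c d : ℕ) : Finset (Fin 62) := univ.filter fun v =>
  v.1 ≤ a ∨ (37 ≤ v.1 ∧ v.1 < 37 + b) ∨ (59 ≤ v.1 ∧ v.1 < 59 + c) ∨ (61 ≤ v.1 ∧ v.1 < 61 + d)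

def Q (a b c d : ℕ) (l : List ℕ) : Prop :=
  a ≤ 36 → b ≤ 22 → c ≤ 2 → d ≤ 1 → ∃ z, CP (S a b c d) (z ::ₘ l)

lemma Q.perm {a b c d : ℕ} {l l' : List ℕ} (h : Q a b c d l) (p : l.Perm l') : Q a b c d l' := by
  rwa [Q, ← Multiset.coe_eq_coe.2 p]

lemma base (a b c d : ℕ) : Q a b c d [] := fun _ _ _ _ =>
  ⟨_, .indiscrete (nonempty_iff_ne_empty.1 ⟨0, by simp [S]⟩), fun B hB => by
    obtain rfl := mem_singleton.1 hB
    refine conn 0 (by simp [S]) fun v hv e => ⟨fun h => e (Fin.ext h), fun u hu => ?_⟩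
    simp only [S, mem_filter, mem_univ, true_and, par] at hv hu ⊢
    split at hu <;> omega, rfl⟩

lemma step {T T' : Finset (Fin 62)} {l : List ℕ} (s x : ℕ) (h : ∃ z, CP T (z ::ₘ l)) (hx : 0 < x)
    (hs : s + x ≤ 62) (h1 : ∀ v, v ∈ T' ↔ v ∈ T ∨ (s ≤ v.1 ∧ v.1 < s + x))
    (h2 : ∀ v ∈ T, ¬ (s ≤ v.1 ∧ v.1 < s + x))
    (h3 : ∀ v, s < v → v < s + x → v ≠ 37 ∧ v ≠ 59 ∧ v ≠ 61) : ∃ z, CP T' (z ::ₘ (x :: l : List ℕ)) := by
  obtain ⟨z, P, a, b⟩ := h
  let B : Finset (Fin 62) := univ.filter fun v => s ≤ v.1 ∧ v.1 < s + x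
  have m : (⟨s, by omega⟩ : Fin 62) ∈ B := by simp [B, hx]
  have c : #B = x := by
    rw [← card_map Fin.valEmbedding, show B.map _ = Ico s (s + x) from ?_, Nat.card_Ico]
    · omega
    · ext v
      simp only [B, mem_map, mem_filter, mem_univ, true_and, mem_Ico, Fin.valEmbedding_apply]
      exact ⟨fun ⟨u, p, q⟩ => q ▸ p, fun p => ⟨⟨v, by omega⟩, p, rfl⟩⟩
  refine ⟨z, P.extend (b := B) (ne_empty_of_mem m) (disjoint_left.2 fun v p q => h2 v p (mem_filter.1 q).2)
    (by ext v; simp [h1, B]), fun C hC => ?_, ?_⟩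
  · rcases mem_insert.1 hC with rfl | hC
    · refine conn _ m fun v hv e => ?_
      have := Fin.val_ne_of_ne e
      simp only [B, mem_filter, mem_univ, true_and, par] at *
      have := h3 v (by omega) hv.2
      exact ⟨by omega, fun u hu => by rw [if_neg (by omega)] at hu; omega⟩
    · exact a C hC
  · rw [Finpartition.extend_parts, insert_val_of_notMem fun q => h2 _ (P.le q m) (mem_filter.1 m).2,
      Multiset.map_cons, b, c, ← Multiset.cons_coe, Multiset.cons_swap]

lemma sa {a b c d x : ℕ} {l : List ℕ} (p : 0 < x) (q : x ≤ a) (h : Q (a - x) b c d l) :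
    Q a b c d (x :: l) := fun _ _ _ _ => step (a - x + 1) x (h (by omega) ‹_› ‹_› ‹_›) p (by omega)
  (by simp [S]; omega) (by simp [S]; omega) (by omega)

lemma sb {a b c d x : ℕ} {l : List ℕ} (p : 0 < x) (q : x ≤ b) (h : Q a (b - x) c d l) :
    Q a b c d (x :: l) := fun _ _ _ _ => step (37 + (b - x)) x (h ‹_› (by omega) ‹_› ‹_›) p (by omega)
  (by simp [S]; omega) (by simp [S]; omega) (by omega)

lemma sc {a b d x k : ℕ} {l t : List ℕ} (p : 0 < x) (h : ∀ c, k ≤ c → Q a b c d (l.erase x ++ t))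
    (c : ℕ) (q : k + x ≤ c) : Q a b c d (l ++ t) := by
  by_cases e : x ∈ l
  · refine Q.perm (l := x :: (l.erase x ++ t)) (fun _ _ _ _ => step (59 + (c - x)) x
      (h (c - x) (by omega) ‹_› ‹_› (by omega) ‹_›) p (by omega) (by simp [S]; omega)
      (by simp [S]; omega) (by omega)) ((List.perm_cons_erase e).append_right t).symm
  · exact List.erase_of_not_mem e ▸ h c (by omega)

lemma sd {a b c : ℕ} {l t : List ℕ} (h : ∀ d, Q a b c d (l.erase 1 ++ t)) : Q a b c 1 (l ++ t) := by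
  by_cases e : 1 ∈ l
  · refine Q.perm (l := 1 :: (l.erase 1 ++ t)) (fun _ _ _ _ => step 61 1
      (h 0 ‹_› ‹_› ‹_› (by omega)) (by omega) (by omega) (by simp [S]; omega)
      (by simp [S]; omega) (by omega)) ((List.perm_cons_erase e).append_right t).symm
  · exact List.erase_of_not_mem e ▸ h 1

lemma greedy {m c d : ℕ} : ∀ (l : List ℕ) (a b : ℕ), (∀ x ∈ l, 0 < x ∧ x ≤ m) →
    (l.sum = 0 ∨ l.sum + m ≤ a + b + 1) → Q a b c d l
  | [], a, b, _, _ => base a b c d
  | x :: l, a, b, h, e => by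
    have := h x (.head _)
    have g := fun a b => greedy (c := c) (d := d) l a b fun y hy => h y (.tail _ hy)
    rw [List.sum_cons] at e
    by_cases k : x ≤ a
    · exact sa this.1 k (g _ _ (by omega))
    · exact sb this.1 (by omega) (g _ _ (by omega))

def mask : List ℕ → ℕ → ℕ
  | [], k => k
  | _ :: _, 0 => 0
  | x :: l, k + 1 => mask l (k.succ ||| k.succ <<< x)

lemma sub {c d : ℕ} {t : List ℕ} (s : ℕ) : ∀ (l : List ℕ) (k : ℕ), (∀ x ∈ l, 0 < x) →
    (mask l k).testBit s → ∃ u ≤ s, k.testBit (s - u) ∧ u ≤ l.sum ∧ ∀ a b, u ≤ b → l.sum - u ≤ a →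
      Q (a - (l.sum - u)) (b - u) c d t → Q a b c d (l ++ t)
  | [], k, _, h => ⟨0, by omega, h, le_rfl, fun _ _ _ _ h => h⟩
  | _ :: _, 0, _, h => by simp [mask] at h
  | x :: l, k + 1, p, h => by
    obtain ⟨u, a1, a2, a3, a4⟩ := sub s l _ (fun y hy => p y (.tail _ hy)) h
    have := p x (.head _)
    rw [Nat.testBit_or, Nat.testBit_shiftLeft, Bool.or_eq_true, Bool.and_eq_true,
      decide_eq_true_eq] at a2
    rw [List.sum_cons]
    rcases a2 with e | e
    · exact ⟨u, a1, e, by omega, fun a b _ _ q => sa this (by omega)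
        (a4 _ _ (by omega) (by omega) (by convert q using 1; omega))⟩
    · exact ⟨u + x, by omega, by convert e.2 using 2; omega, by omega, fun a b _ _ q => sb this
        (by omega) (a4 _ _ (by omega) (by omega) (by convert q using 1 <;> omega))⟩

def strip (l : List ℕ) : List ℕ :=
  bif (l.erase 1).elem 2 then (l.erase 1).erase 2 else ((l.erase 1).erase 1).erase 1

def tst (r m : ℕ) (l : List ℕ) : Bool :=
  (r.beq 0 || (l.sum + r + m).ble 59) && !(((mask l 1) % 2 ^ 23) >>> (l.sum - 36)).beq 0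

lemma tst_ok {r m : ℕ} {l t : List ℕ} (p : ∀ x ∈ l, 0 < x) (h : tst r m l)
    (q : ∀ x ∈ t, 0 < x ∧ x ≤ m) (e : t.sum = r) (c d : ℕ) : Q 36 22 c d (l ++ t) := by
  simp only [tst, Bool.and_eq_true, Bool.or_eq_true, Nat.beq_eq, Nat.ble_eq, Bool.not_eq_true',
    ← Bool.not_eq_true] at h
  obtain ⟨i, hi⟩ := Nat.exists_testBit_of_ne_zero h.2
  rw [Nat.testBit_shiftRight, Nat.testBit_mod_two_pow, Bool.and_eq_true, decide_eq_true_eq] at hi
  obtain ⟨u, a1, a2, a3, a4⟩ := sub (c := c) (d := d) (t := t) _ l 1 p hi.2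
  have := Nat.testBit_one_eq_true_iff_self_eq_zero.1 a2
  exact a4 _ _ (by omega) (by omega) (greedy (m := m) t _ _ q (by omega))

def anyD (p : ℕ → Bool) : List ℕ → Bool
  | [] => false
  | [x] => p x
  | x :: y :: l => anyD p (y :: l) || (!x.beq y && p x)

lemma anyD_ok (p : ℕ → Bool) : ∀ l, anyD p l → ∃ z ∈ l, p z
  | [x], h => ⟨x, .head _, h⟩
  | x :: y :: l, h => by
    simp only [anyD, Bool.or_eq_true, Bool.and_eq_true] at h
    exact h.elim (fun h => let ⟨z, a, b⟩ := anyD_ok p _ h; ⟨z, .tail _ a, b⟩)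
      fun h => ⟨x, .head _, h.2⟩

def leaf (l : List ℕ) (r m : ℕ) : Bool := anyD (fun z => tst r m (strip (l.erase z))) l

def Good (l : List ℕ) : Prop := ∃ z l', l.Perm (z :: l') ∧ Q 36 22 2 1 l'

lemma leaf_ok {r m : ℕ} {l t : List ℕ} (p : ∀ x ∈ l, 0 < x) (h : leaf l r m)
    (q : ∀ x ∈ t, 0 < x ∧ x ≤ m) (e : t.sum = r) : Good (l ++ t) := by
  obtain ⟨z, a, b⟩ := anyD_ok _ _ h
  refine ⟨z, l.erase z ++ t, (List.perm_cons_erase a).append_right t, sd fun d => ?_⟩
  have k := fun x => p x ∘ List.mem_of_mem_erase (b := z) ∘ List.mem_of_mem_erase (b := 1)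
  unfold strip at b
  cases h : ((l.erase z).erase 1).elem 2 <;> rw [h] at b
  · exact sc (k := 1) one_pos (sc (k := 0) one_pos fun c _ => tst_ok (fun x hx => k x
      (List.mem_of_mem_erase (List.mem_of_mem_erase hx))) b q e c d) 2 le_rfl
  · exact sc (k := 0) two_pos (fun c _ => tst_ok (fun x hx => k x (List.mem_of_mem_erase hx))
      b q e c d) 2 le_rfl

def ok : ℕ → List ℕ → ℕ → ℕ → Bool
  | 0, _, _, _ => false
  | _ + 1, l, 0, _ => leaf l 0 0
  | _ + 1, _, _ + 1, 0 => true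
  | f + 1, l, r + 1, m + 1 => bif r.blt m then ok f l r.succ r.succ else
      leaf l r.succ m.succ || (ok f (m.succ :: l) (r - m) m.succ && ok f l r.succ m)

lemma ok_ok : ∀ (f : ℕ) (l : List ℕ) (r m : ℕ), ok f l r m → (∀ x ∈ l, 0 < x) → ∀ t : List ℕ,
    (∀ x ∈ t, 0 < x ∧ x ≤ m) → t.sum = r → Good (l ++ t)
  | _ + 1, l, 0, _, h, p, t, q, e => leaf_ok p h (fun x hx => by
      have := List.single_le_sum (fun _ _ => Nat.zero_le _) x hx
      have := q x hx
      omega) e
  | _ + 1, _, _ + 1, 0, _, _, t, q, e => by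
    cases t with
    | nil => simp at e
    | cons x t => have := q x (.head _); omega
  | f + 1, l, r + 1, m + 1, h, p, t, q, e => by
    rw [ok] at h
    cases k : r.blt m <;> rw [k] at h
    · simp only [cond_false, Bool.or_eq_true, Bool.and_eq_true] at h
      rcases h with h | h
      · exact leaf_ok p h q e
      by_cases a : m + 1 ∈ t
      · have b := List.perm_cons_erase a
        obtain ⟨z, l', c, d⟩ := ok_ok f _ _ _ h.1 (by simpa using p) (t.erase (m + 1))
          (fun x hx => q x (List.mem_of_mem_erase hx)) (by have := b.sum_eq; simp at this; omega)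
        exact ⟨z, l', ((b.append_left l).trans List.perm_middle).trans c, d⟩
      · exact ok_ok f _ _ _ h.2 p t (fun x hx => by
          have := q x hx
          have : x ≠ m + 1 := fun e => a (e ▸ hx)
          omega) e
    · exact ok_ok f _ _ _ h p t (fun x hx => ⟨(q x hx).1,
        (List.single_le_sum (fun _ _ => Nat.zero_le _) x hx).trans e.le⟩) e

lemma chk : ok 200 [] 62 62 := by decide +kernel

theorem main : G.IsTree ∧ G.maxDegree = 4 ∧
    ∀ t : (62 : ℕ).Partition, ∃ P : Finpartition (univ : Finset (Fin 62)),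
    (∀ B ∈ P.parts, (G.induce (B : Set (Fin 62))).Connected) ∧ P.parts.val.map card = t.parts := by
  have u : S 36 22 2 1 = univ := by ext; simp [S]; omega
  refine ⟨SimpleGraph.isTree_iff_connected_and_card.2 ⟨?_, ?_⟩,
    by decide +kernel, fun t => ?_⟩
  · exact (SimpleGraph.induceUnivIso G).connected_iff.1 (coe_univ (α := Fin 62) ▸
      conn (B := univ) 0 (mem_univ _) fun v _ e => ⟨fun h => e (Fin.ext h), by simp⟩)
  · rw [Nat.card_eq_fintype_card, ← SimpleGraph.edgeFinset_card, Nat.card_eq_fintype_card,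
      Fintype.card_fin]
    have := G.sum_degrees_eq_twice_card_edges
    rw [show ∑ v, G.degree v = 122 by decide +kernel] at this
    omega
  obtain ⟨t, p, e⟩ := t
  induction t using Quotient.inductionOn with
  | _ t =>
  obtain ⟨z, l, a, b⟩ := ok_ok _ _ _ _ chk (by simp) t (fun x hx => ⟨p hx,
    e ▸ List.single_le_sum (fun _ _ => Nat.zero_le _) x hx⟩) e
  obtain ⟨w, P, c, d⟩ := u ▸ b le_rfl le_rfl le_rfl le_rfl
  have h1 : (P.parts.val.map card).sum = 62 := P.sum_card_parts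
  have h2 := a.sum_eq
  simp [d] at h1 h2 e
  exact ⟨P, c, d.trans ((show w = z by omega) ▸ Multiset.coe_eq_coe.2 a.symm)⟩

end Pool.Agent.Lib.helper12.Spider
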