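import Mathlib

set_option autoImplicit false
open Set Filter Topology

namespace Pool.Agent.Lib.H12Tie

variable (ρ : ℕ → ℕ)

def ln : ℕ → ℕ
  | 0 => 1
  | k + 1 => ln k * (2 * 2 ^ ln k + ρ (ln k))

def L (k : ℕ) : ℤ := ln ρ k

def rr (k : ℕ) : ℤ := ((2 * 2 ^ ln ρ k + ρ (ln ρ k) : ℕ) : ℤ)

lemma L_succ (k : ℕ) : L ρ (k + 1) = rr ρ k * L ρ k := by
  simp only [L, rr, ln]; push_cast; ring

lemma rr_ge (k : ℕ) : 2 * 2 ^ ln ρ k ≤ rr ρ k := by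
  simp only [rr]; push_cast; linarith [Int.natCast_nonneg (ρ (ln ρ k))]

lemma rr_two (k : ℕ) : 2 ≤ rr ρ k := by
  have := rr_ge ρ k
  have h : (1 : ℤ) ≤ 2 ^ ln ρ k := one_le_pow₀ (by norm_num)
  linarith

lemma L_zero : L ρ 0 = 1 := rfl

lemma L_pos (k : ℕ) : 0 < L ρ k := by
  induction k with
  | zero => simp [L_zero]
  | succ k ih => rw [L_succ]; have := rr_two ρ k; positivity

lemma L_two (k : ℕ) : 2 * L ρ k ≤ L ρ (k + 1) := by
  rw [L_succ]; have := rr_two ρ k; have := L_pos ρ k; nlinarith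

lemma L_rho (k : ℕ) : (ρ (ln ρ k) : ℤ) ≤ L ρ (k + 1) := by
  rw [L_succ]
  have h1 := L_pos ρ k
  have h2 : (ρ (ln ρ k) : ℤ) ≤ rr ρ k := by
    simp only [rr]; push_cast
    have : (0 : ℤ) ≤ 2 ^ ln ρ k := by positivity
    linarith
  have := rr_two ρ k
  nlinarith

lemma L_mono {a b : ℕ} (h : a ≤ b) : L ρ a ≤ L ρ b :=
  monotone_nat_of_le_succ (fun k => by have := L_two ρ k; have := L_pos ρ k; linarith) h

lemma L_dvd {a b : ℕ} (h : a ≤ b) : L ρ a ∣ L ρ b := by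
  induction h with
  | refl => rfl
  | step _ ih => rw [L_succ]; exact ih.mul_left _

lemma L_gt (k : ℕ) : (k : ℤ) < L ρ k := by
  induction k with
  | zero => simp [L_zero]
  | succ k ih => have := L_two ρ k; have := L_pos ρ k; push_cast; omega

def cc (j t : ℤ) : ZMod 2 := if j % 2 = 1 ∧ (j / 2).toNat.testBit t.toNat then 1 else 0

lemma cc_even (i t : ℤ) : cc (2 * i) t = 0 := by
  unfold cc; rw [if_neg]; omega

lemma cc_ex (k : ℕ) (g : ℤ → ZMod 2) : ∃ i : ℤ, 0 ≤ i ∧ 2 * i + 1 < rr ρ k ∧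
    ∀ t, 0 ≤ t → t < L ρ k → cc (2 * i + 1) t = g t := by
  refine ⟨(Nat.ofBits (n := ln ρ k) fun t => decide (g t = 1) : ℕ), by positivity, ?_, ?_⟩
  · have h1 := rr_ge ρ k
    have h2 : ((Nat.ofBits (n := ln ρ k) fun t => decide (g t = 1) : ℕ) : ℤ) < 2 ^ ln ρ k := by
      exact_mod_cast Nat.ofBits_lt_two_pow _
    omega
  · intro t h0 h1
    unfold cc
    have e : ∀ i : ℕ, ((2 * (i : ℤ) + 1) / 2).toNat = i := fun i => by omega
    have h2 : t.toNat < ln ρ k := by unfold L at h1; omega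
    rw [e, Nat.testBit_ofBits, dif_pos h2]
    simp only [Int.toNat_of_nonneg h0, decide_eq_true_eq]
    have : ∀ a : ZMod 2, a ≠ 1 → 0 = a := by decide
    split_ifs with h
    · exact h.2.symm
    · exact this _ fun h3 => h ⟨by omega, h3⟩

def s (l : Fin 6) : ℕ → ℤ → ℤ
  | 0, _ => 0
  | K + 1, m => if K % 6 = l then s l K (m % L ρ K) else m / L ρ K * L ρ K + s l K (m % L ρ K)

def h (l : Fin 6) : ℕ → ℤ → ZMod 2
  | 0, _ => 0
  | K + 1, m => h l K (m % L ρ K) + if K % 6 = l then cc (m / L ρ K) (s ρ l K (m % L ρ K)) else 0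

lemma s_le (l : Fin 6) (K : ℕ) {m : ℤ} (hm : 0 ≤ m) : 0 ≤ s ρ l K m ∧ s ρ l K m ≤ m := by
  induction K generalizing m with
  | zero => simp [s, hm]
  | succ K ih =>
    have h1 := L_pos ρ K
    have h2 := ih (Int.emod_nonneg m h1.ne')
    have h3 := Int.ediv_mul_add_emod m (L ρ K)
    have h4 : 0 ≤ m / L ρ K * L ρ K := mul_nonneg (Int.ediv_nonneg hm h1.le) h1.le
    simp only [s]
    split_ifs <;> omega

variable {ρ}

lemma dv {K : ℕ} (j : ℤ) {u : ℤ} (h0 : 0 ≤ u) (h1 : u < L ρ K) : (j * L ρ K + u) / L ρ K = j := by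
  rw [add_comm, Int.add_mul_ediv_right _ _ (L_pos ρ K).ne', Int.ediv_eq_zero_of_lt h0 h1, zero_add]

lemma md {K : ℕ} (j : ℤ) {u : ℤ} (h0 : 0 ≤ u) (h1 : u < L ρ K) : (j * L ρ K + u) % L ρ K = u := by
  rw [Int.mul_add_emod_self_right, Int.emod_eq_of_lt h0 h1]

lemma s_succ (l : Fin 6) {K : ℕ} (j : ℤ) {u : ℤ} (h0 : 0 ≤ u) (h1 : u < L ρ K) :
    s ρ l (K + 1) (j * L ρ K + u) = if K % 6 = l then s ρ l K u else j * L ρ K + s ρ l K u := by
  simp only [s, dv j h0 h1, md j h0 h1]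

lemma h_succ (l : Fin 6) {K : ℕ} (j : ℤ) {u : ℤ} (h0 : 0 ≤ u) (h1 : u < L ρ K) :
    h ρ l (K + 1) (j * L ρ K + u) = h ρ l K u + if K % 6 = l then cc j (s ρ l K u) else 0 := by
  simp only [h, dv j h0 h1, md j h0 h1]

lemma s_lt (l : Fin 6) {K : ℕ} {u : ℤ} (h0 : 0 ≤ u) (h1 : u < L ρ K) : s ρ l K u < L ρ K :=
  (s_le ρ l K h0).2.trans_lt h1

lemma s_idem (l : Fin 6) (K : ℕ) (m : ℤ) : s ρ l K (s ρ l K m) = s ρ l K m := by
  induction K generalizing m with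
  | zero => simp [s]
  | succ K ih =>
    have h1 := L_pos ρ K
    have a0 := Int.emod_nonneg m h1.ne'
    have a1 := Int.emod_lt_of_pos m h1
    have b0 := (s_le ρ l K a0).1
    have b1 := s_lt l a0 a1
    by_cases ht : K % 6 = l
    · have e : s ρ l (K + 1) m = 0 * L ρ K + s ρ l K (m % L ρ K) := by simp [s, ht]
      rw [e, s_succ l _ b0 b1, if_pos ht, ih]; simp
    · have e : s ρ l (K + 1) m = m / L ρ K * L ρ K + s ρ l K (m % L ρ K) := by simp [s, ht]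
      rw [e, s_succ l _ b0 b1, if_neg ht, ih]

lemma decomp {K : ℕ} {m : ℤ} (h0 : 0 ≤ m) (h1 : m < L ρ (K + 1)) :
    ∃ j u, 0 ≤ j ∧ j < rr ρ K ∧ 0 ≤ u ∧ u < L ρ K ∧ m = j * L ρ K + u := by
  have hp := L_pos ρ K
  refine ⟨m / L ρ K, m % L ρ K, Int.ediv_nonneg h0 hp.le, ?_, Int.emod_nonneg m hp.ne',
    Int.emod_lt_of_pos m hp, (Int.ediv_mul_add_emod _ _).symm⟩
  rw [Int.ediv_lt_iff_lt_mul hp, ← L_succ]; exact h1

lemma comp_bd {K : ℕ} {j u : ℤ} (j0 : 0 ≤ j) (j1 : j < rr ρ K) (h0 : 0 ≤ u) (h1 : u < L ρ K) :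
    0 ≤ j * L ρ K + u ∧ j * L ρ K + u < L ρ (K + 1) := by
  have hp := L_pos ρ K
  rw [L_succ]
  constructor
  · positivity
  · nlinarith

lemma split_eq {K : ℕ} {j j' u u' : ℤ} (h0 : 0 ≤ u) (h1 : u < L ρ K) (h0' : 0 ≤ u')
    (h1' : u' < L ρ K) (e : j * L ρ K + u = j' * L ρ K + u') : j = j' ∧ u = u' :=
  ⟨by rw [← dv j h0 h1, e, dv j' h0' h1'], by rw [← md j h0 h1, e, md j' h0' h1']⟩

variable (ρ) in
def Al (l : Fin 6) (K : ℕ) (w : ℤ → ZMod 2) : Prop :=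
  ∀ m m', 0 ≤ m → m < L ρ K → 0 ≤ m' → m' < L ρ K → s ρ l K m = s ρ l K m' →
    w m - h ρ l K m = w m' - h ρ l K m'

lemma Al.sub {l : Fin 6} {K : ℕ} {W : ℤ → ZMod 2} (hW : Al ρ l (K + 1) W) {j : ℤ} (j0 : 0 ≤ j)
    (j1 : j < rr ρ K) : Al ρ l K fun u => W (j * L ρ K + u) := by
  intro u u' a0 a1 b0 b1 e
  have := hW _ _ (comp_bd j0 j1 a0 a1).1 (comp_bd j0 j1 a0 a1).2 (comp_bd j0 j1 b0 b1).1
    (comp_bd j0 j1 b0 b1).2 (by rw [s_succ l j a0 a1, s_succ l j b0 b1, e])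
  rw [h_succ l j a0 a1, h_succ l j b0 b1, e] at this
  linear_combination this

lemma Al.free {l : Fin 6} {K : ℕ} {W : ℤ → ZMod 2} (ht : K % 6 ≠ l)
    (hW : ∀ j, 0 ≤ j → j < rr ρ K → Al ρ l K fun u => W (j * L ρ K + u)) : Al ρ l (K + 1) W := by
  intro m m' a0 a1 b0 b1 e
  obtain ⟨j, u, j0, j1, u0, u1, rfl⟩ := decomp a0 a1
  obtain ⟨j', u', j0', j1', u0', u1', rfl⟩ := decomp b0 b1
  rw [s_succ l j u0 u1, s_succ l j' u0' u1', if_neg ht, if_neg ht] at e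
  obtain ⟨rfl, e2⟩ := split_eq (s_le ρ l K u0).1 (s_lt l u0 u1) (s_le ρ l K u0').1 (s_lt l u0' u1') e
  rw [h_succ l j u0 u1, h_succ l j u0' u1', if_neg ht, if_neg ht, add_zero, add_zero]
  exact hW j j0 j1 u u' u0 u1 u0' u1' e2

lemma Al.diff {l : Fin 6} {K : ℕ} {w w' : ℤ → ZMod 2} (hw : Al ρ l K w) (hw' : Al ρ l K w') :
    ∃ i : ℤ, 0 ≤ i ∧ 2 * i + 1 < rr ρ K ∧
      ∀ u, 0 ≤ u → u < L ρ K → w u + cc (2 * i + 1) (s ρ l K u) = w' u := by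
  obtain ⟨i, i0, i1, hi⟩ := cc_ex ρ K fun t => w' t - w t
  refine ⟨i, i0, i1, fun u u0 u1 => ?_⟩
  have b0 := (s_le ρ l K u0).1
  have b1 := s_lt l u0 u1
  rw [hi _ b0 b1]
  have h1 := hw _ _ u0 u1 b0 b1 (s_idem l K u).symm
  have h2 := hw' _ _ u0 u1 b0 b1 (s_idem l K u).symm
  linear_combination h1 - h2

lemma Al.cover {l : Fin 6} {K : ℕ} {W w : ℤ → ZMod 2} (ht : K % 6 = l) (hW : Al ρ l (K + 1) W)
    (hw : Al ρ l K w) : ∃ j, 0 ≤ j ∧ j < rr ρ K ∧ ∀ u, 0 ≤ u → u < L ρ K → W (j * L ρ K + u) = w u := by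
  have r0 : (0 : ℤ) < rr ρ K := by have := rr_two ρ K; omega
  obtain ⟨i, i0, i1, hi⟩ := (hW.sub le_rfl r0).diff hw
  refine ⟨2 * i + 1, by omega, i1, fun u u0 u1 => ?_⟩
  rw [← hi u u0 u1]
  have := hW _ _ (comp_bd (j := 2 * i + 1) (by omega) i1 u0 u1).1
    (comp_bd (j := 2 * i + 1) (by omega) i1 u0 u1).2 (comp_bd le_rfl r0 u0 u1).1
    (comp_bd le_rfl r0 u0 u1).2 (by rw [s_succ l _ u0 u1, s_succ l _ u0 u1, if_pos ht, if_pos ht])
  rw [h_succ l _ u0 u1, h_succ l _ u0 u1, if_pos ht, if_pos ht,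
    show cc 0 (s ρ l K u) = 0 from cc_even 0 _] at this
  linear_combination this

lemma Al.tied {l : Fin 6} {K : ℕ} {w : ℤ → ZMod 2} (ht : K % 6 = l) (hw : Al ρ l K w) :
    Al ρ l (K + 1) fun m => w (m % L ρ K) + cc (m / L ρ K) (s ρ l K (m % L ρ K)) := by
  intro m m' a0 a1 b0 b1 e
  obtain ⟨j, u, j0, j1, u0, u1, rfl⟩ := decomp a0 a1
  obtain ⟨j', u', j0', j1', u0', u1', rfl⟩ := decomp b0 b1
  rw [s_succ l j u0 u1, s_succ l j' u0' u1', if_pos ht, if_pos ht] at e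
  simp only [h_succ l _ u0 u1, h_succ l _ u0' u1', if_pos ht, dv _ u0 u1, md _ u0 u1, dv _ u0' u1',
    md _ u0' u1']
  linear_combination hw u u' u0 u1 u0' u1' e

lemma Al.congr {l : Fin 6} {K : ℕ} {w w' : ℤ → ZMod 2} (hw : Al ρ l K w)
    (e : ∀ u, 0 ≤ u → u < L ρ K → w' u = w u) : Al ρ l K w' := by
  intro m m' a0 a1 b0 b1 e2
  rw [e m a0 a1, e m' b0 b1]; exact hw m m' a0 a1 b0 b1 e2

lemma md2 {k K : ℕ} (hk : k ≤ K) (j u : ℤ) : (j * L ρ K + u) % L ρ k = u % L ρ k := by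
  obtain ⟨c, hc⟩ := L_dvd ρ hk
  rw [hc, show j * (L ρ k * c) + u = (j * c) * L ρ k + u by ring, Int.mul_add_emod_self_right]

lemma Al.rep {l : Fin 6} {k : ℕ} {w : ℤ → ZMod 2} (hw : Al ρ l k w) (t : ℕ)
    (ht : ∀ i < t, (k + i) % 6 ≠ l) : Al ρ l (k + t) fun m => w (m % L ρ k) := by
  induction t with
  | zero => exact hw.congr fun u u0 u1 => by rw [Int.emod_eq_of_lt u0 u1]
  | succ t ih =>
    refine Al.free (K := k + t) (ht t (by omega)) fun j _ _ => ?_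
    simp only [md2 (Nat.le_add_right k t)]
    exact ih fun i hi => ht i (by omega)

lemma cover_aux {k : ℕ} {w : ℤ → Fin 6 → ZMod 2} (hw : ∀ l, Al ρ l k fun m => w m l) (t : ℕ)
    (ht : t ≤ 6) (W : ℤ → Fin 6 → ZMod 2) (hW : ∀ l, Al ρ l (k + t) fun m => W m l)
    (hc : ∀ l : Fin 6, (∀ i < t, (k + i) % 6 ≠ l) → ∀ m, 0 ≤ m → m < L ρ (k + t) →
      W m l = w (m % L ρ k) l) :
    ∃ a, 0 ≤ a ∧ L ρ k ∣ a ∧ ∀ u, 0 ≤ u → u < L ρ k → W (a + u) = w u := by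
  induction t generalizing W with
  | zero =>
    refine ⟨0, le_rfl, dvd_zero _, fun u u0 u1 => funext fun l => ?_⟩
    rw [zero_add, hc l (by simp) u u0 u1, Int.emod_eq_of_lt u0 u1]
  | succ t ih =>
    let μ : Fin 6 := ⟨(k + t) % 6, Nat.mod_lt _ (by norm_num)⟩
    have hμ : ∀ i < t, (k + i) % 6 ≠ μ := fun i hi => by simp only [μ]; omega
    obtain ⟨j, j0, j1, hj⟩ := Al.cover (K := k + t) (l := μ) rfl (hW μ) ((hw μ).rep t hμ)
    obtain ⟨a, a0, a1, ha⟩ := ih (by omega) (fun u => W (j * L ρ (k + t) + u))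
      (fun l => Al.sub (K := k + t) (hW l) j0 j1) (fun l hl m m0 m1 => by
        by_cases e : l = μ
        · subst e; exact hj m m0 m1
        · rw [hc l (fun i hi => ?_) _ (comp_bd j0 j1 m0 m1).1 (comp_bd j0 j1 m0 m1).2,
            md2 (Nat.le_add_right k t)]
          rcases Nat.lt_succ_iff_lt_or_eq.1 hi with h1 | rfl
          · exact hl i h1
          · exact fun h1 => e (Fin.ext h1.symm))
    have := L_pos ρ (k + t)
    refine ⟨j * L ρ (k + t) + a, by positivity,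
      dvd_add ((L_dvd ρ (Nat.le_add_right k t)).mul_left _) a1, fun u u0 u1 => ?_⟩
    rw [add_assoc]; exact ha u u0 u1

lemma cover {k : ℕ} {w W : ℤ → Fin 6 → ZMod 2} (hw : ∀ l, Al ρ l k fun m => w m l)
    (hW : ∀ l, Al ρ l (k + 6) fun m => W m l) :
    ∃ a, 0 ≤ a ∧ L ρ k ∣ a ∧ ∀ u, 0 ≤ u → u < L ρ k → W (a + u) = w u := by
  refine cover_aux hw 6 le_rfl W hW fun l hl => ?_
  exfalso
  have := l.2
  exact hl ((l + 6 - k % 6) % 6) (Nat.mod_lt _ (by norm_num)) (by omega)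

lemma pair {k : ℕ} {w w' : ℤ → Fin 6 → ZMod 2} (hw : ∀ l, Al ρ l k fun m => w m l)
    (hw' : ∀ l, Al ρ l k fun m => w' m l) :
    ∃ (W : ℤ → Fin 6 → ZMod 2) (j : ℤ), (∀ l, Al ρ l (k + 1) fun m => W m l) ∧ 0 ≤ j ∧
      j + 1 < rr ρ k ∧ ∀ u, 0 ≤ u → u < L ρ k →
        W (j * L ρ k + u) = w u ∧ W ((j + 1) * L ρ k + u) = w' u := by
  let μ : Fin 6 := ⟨k % 6, Nat.mod_lt _ (by norm_num)⟩
  obtain ⟨i, i0, i1, hi⟩ := (hw μ).diff (hw' μ)
  refine ⟨fun m l => if l = μ then w (m % L ρ k) l + cc (m / L ρ k) (s ρ l k (m % L ρ k))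
    else if m / L ρ k = 2 * i + 1 then w' (m % L ρ k) l else w (m % L ρ k) l, 2 * i, fun l => ?_,
    by omega, i1, fun u u0 u1 => ⟨funext fun l => ?_, funext fun l => ?_⟩⟩
  · by_cases e : l = μ
    · simp only [if_pos e]
      exact Al.tied (by rw [e]) (hw l)
    · simp only [if_neg e]
      refine Al.free (fun h1 => e (Fin.ext h1.symm)) fun j _ _ => ?_
      by_cases e2 : j = 2 * i + 1
      · exact (hw' l).congr fun u u0 u1 => by simp only [dv _ u0 u1, md _ u0 u1, if_pos e2]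
      · exact (hw l).congr fun u u0 u1 => by simp only [dv _ u0 u1, md _ u0 u1, if_neg e2]
  · simp only [dv _ u0 u1, md _ u0 u1, cc_even]
    rw [if_neg (show ¬ (2 * i = 2 * i + 1) by omega)]
    simp
  · simp only [dv _ u0 u1, md _ u0 u1, if_true]
    split_ifs with e
    · subst e; exact hi u u0 u1
    · rfl

end Pool.Agent.Lib.H12Tie
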