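import Pool.Agent.Lib.helper12.TieA

set_option autoImplicit false
open Set Filter Topology

namespace Pool.Agent.Lib.H12Tie

variable (ρ : ℕ → ℕ)

def pos (z : ℕ → ℤ) (K : ℕ) (n : ℤ) : ℤ := (z K + n) % L ρ K

def R (z : ℕ → ℤ) (l : Fin 6) (K : ℕ) (n n' : ℤ) : Prop :=
  n - pos ρ z K n = n' - pos ρ z K n' ∧ s ρ l K (pos ρ z K n) = s ρ l K (pos ρ z K n')

def Base (z : ℕ → ℤ) : Prop := ∀ K, 0 ≤ z K ∧ z K < L ρ K ∧ z (K + 1) % L ρ K = z K

def XS : Set ((ℕ → ℤ) × (ℤ → Fin 6 → ZMod 2)) :=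
  {x | Base ρ x.1 ∧ ∀ K l n n', R ρ x.1 l K n n' →
    x.2 n l - h ρ l K (pos ρ x.1 K n) = x.2 n' l - h ρ l K (pos ρ x.1 K n')}

abbrev X : Type := XS ρ

lemma closed_of {Y D : Type} [TopologicalSpace Y] [TopologicalSpace D] [DiscreteTopology D]
    {f : Y → D} (hf : Continuous f) (P : D → Prop) : IsClosed {y | P (f y)} :=
  (isClosed_discrete {d | P d}).preimage hf

lemma closed_XS : IsClosed (XS ρ) := by
  unfold XS Base
  simp only [ofPred_and, ofPred_forall]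
  refine IsClosed.inter (isClosed_iInter fun K => ?_) (isClosed_iInter fun K => isClosed_iInter fun l =>
    isClosed_iInter fun n => isClosed_iInter fun n' => ?_)
  · rw [← ofPred_and, ← ofPred_and]
    exact closed_of (f := fun x : (ℕ → ℤ) × (ℤ → Fin 6 → ZMod 2) => (x.1 K, x.1 (K + 1)))
      (by fun_prop) fun d => 0 ≤ d.1 ∧ d.1 < L ρ K ∧ d.2 % L ρ K = d.1
  · exact closed_of (f := fun x : (ℕ → ℤ) × (ℤ → Fin 6 → ZMod 2) => (x.1 K, x.2 n l, x.2 n' l))
      (by fun_prop) fun d => R ρ (fun _ => d.1) l K n n' →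
        d.2.1 - h ρ l K (pos ρ (fun _ => d.1) K n) = d.2.2 - h ρ l K (pos ρ (fun _ => d.1) K n')

instance : CompactSpace (X ρ) := by
  refine isCompact_iff_compactSpace.1 (IsCompact.of_isClosed_subset
    ((isCompact_univ_pi fun K => (finite_Ico 0 (L ρ K)).isCompact).prod isCompact_univ)
    (closed_XS ρ) fun x hx => ⟨fun K _ => ⟨(hx.1 K).1, (hx.1 K).2.1⟩, trivial⟩)

variable {ρ}

lemma pos_bd (z : ℕ → ℤ) (K : ℕ) (n : ℤ) : 0 ≤ pos ρ z K n ∧ pos ρ z K n < L ρ K :=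
  ⟨Int.emod_nonneg _ (L_pos ρ K).ne', Int.emod_lt_of_pos _ (L_pos ρ K)⟩

lemma pos_block {z : ℕ → ℤ} {K : ℕ} {b m : ℤ} (hb : L ρ K ∣ z K + b) (m0 : 0 ≤ m) (m1 : m < L ρ K) :
    pos ρ z K (b + m) = m := by
  obtain ⟨c, hc⟩ := hb
  rw [pos, ← add_assoc, hc, mul_comm, md c m0 m1]

lemma blk_dvd (z : ℕ → ℤ) (K : ℕ) (n : ℤ) : L ρ K ∣ z K + (n - pos ρ z K n) := by
  refine ⟨(z K + n) / L ρ K, ?_⟩
  have := Int.ediv_mul_add_emod (z K + n) (L ρ K)
  unfold pos; linarith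

lemma base_le {z : ℕ → ℤ} (hz : Base ρ z) {a b : ℕ} (h : a ≤ b) : z b % L ρ a = z a := by
  induction h with
  | refl => exact Int.emod_eq_of_lt (hz a).1 (hz a).2.1
  | step h ih => rw [← Int.emod_emod_of_dvd _ (L_dvd ρ h), (hz _).2.2, ih]

lemma dvd_le {z : ℕ → ℤ} (hz : Base ρ z) {a b : ℕ} (h : a ≤ b) {n : ℤ} (hn : L ρ b ∣ z b + n) :
    L ρ a ∣ z a + n := by
  rw [← base_le hz h]
  apply Int.dvd_of_emod_eq_zero
  rw [Int.emod_add_emod]
  exact Int.emod_eq_zero_of_dvd ((L_dvd ρ h).trans hn)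

lemma pos_succ {z : ℕ → ℤ} (hz : Base ρ z) (K : ℕ) (n : ℤ) :
    ∃ j, pos ρ z (K + 1) n = j * L ρ K + pos ρ z K n := by
  refine ⟨pos ρ z (K + 1) n / L ρ K, ?_⟩
  have e : pos ρ z K n = pos ρ z (K + 1) n % L ρ K := by
    unfold pos
    rw [Int.emod_emod_of_dvd _ (L_dvd ρ (Nat.le_succ K)), ← (hz K).2.2, Int.emod_add_emod]
  rw [e, Int.ediv_mul_add_emod]

lemma R.pos2 {z : ℕ → ℤ} (hz : Base ρ z) {l : Fin 6} {K : ℕ} {n n' : ℤ} (h : R ρ z l K n n') :
    ∃ j, pos ρ z (K + 1) n = j * L ρ K + pos ρ z K n ∧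
      pos ρ z (K + 1) n' = j * L ρ K + pos ρ z K n' := by
  obtain ⟨j, hj⟩ := pos_succ hz K n
  have p1 := pos_bd (ρ := ρ) z K n
  have p2 := pos_bd (ρ := ρ) z K n'
  have p3 := pos_bd (ρ := ρ) z (K + 1) n
  have hp := L_pos ρ K
  have j0 : 0 ≤ j := by nlinarith
  have j1 : j < rr ρ K := by rw [L_succ] at p3; nlinarith
  have e : pos ρ z (K + 1) n' = j * L ρ K + pos ρ z K n' := by
    have := pos_block (blk_dvd z (K + 1) n) (comp_bd j0 j1 p2.1 p2.2).1 (comp_bd j0 j1 p2.1 p2.2).2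
    rw [← this]; congr 1; linarith [h.1]
  exact ⟨j, hj, e⟩

lemma R.succ {z : ℕ → ℤ} (hz : Base ρ z) {l : Fin 6} {K : ℕ} {n n' : ℤ} (h : R ρ z l K n n') :
    R ρ z l (K + 1) n n' := by
  obtain ⟨j, hj, e⟩ := h.pos2 hz
  have p1 := pos_bd (ρ := ρ) z K n
  have p2 := pos_bd (ρ := ρ) z K n'
  refine ⟨by linarith [h.1], ?_⟩
  rw [hj, e, s_succ l j p1.1 p1.2, s_succ l j p2.1 p2.2, h.2]

lemma R.mono {z : ℕ → ℤ} (hz : Base ρ z) {l : Fin 6} {K K' : ℕ} {n n' : ℤ} (h : R ρ z l K n n')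
    (hK : K ≤ K') : R ρ z l K' n n' := by
  induction hK with
  | refl => exact h
  | step _ ih => exact ih.succ hz

lemma R.dist {z : ℕ → ℤ} {l : Fin 6} {K : ℕ} {n n' : ℤ} (h : R ρ z l K n n') : |n - n'| < L ρ K := by
  have p1 := pos_bd (ρ := ρ) z K n
  have p2 := pos_bd (ρ := ρ) z K n'
  rw [abs_lt]; constructor <;> linarith [h.1]

lemma R.pred {z : ℕ → ℤ} (hz : Base ρ z) {l : Fin 6} {K : ℕ} {n n' : ℤ} (h : R ρ z l (K + 1) n n')
    (h' : ¬ R ρ z l K n n') : K % 6 = l ∧ L ρ K ≤ 2 * |n - n'| := by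
  obtain ⟨j, hj⟩ := pos_succ hz K n
  obtain ⟨j', hj'⟩ := pos_succ hz K n'
  have p1 := pos_bd (ρ := ρ) z K n
  have p2 := pos_bd (ρ := ρ) z K n'
  have h2 := h.2
  have h1 := h.1
  rw [hj, hj', s_succ l j p1.1 p1.2, s_succ l j' p2.1 p2.2] at h2
  by_cases ht : K % 6 = l
  · rw [if_pos ht, if_pos ht] at h2
    refine ⟨ht, ?_⟩
    have hne : j ≠ j' := by
      rintro rfl
      exact h' ⟨by linarith, h2⟩
    have hd : 2 * |pos ρ z K n - pos ρ z K n'| < L ρ K := by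
      rcases K with _ | K
      · rw [L_zero] at p1 p2 ⊢
        rw [show pos ρ z 0 n - pos ρ z 0 n' = 0 by omega]; simp
      · obtain ⟨i, hi⟩ := pos_succ hz K n
        obtain ⟨i', hi'⟩ := pos_succ hz K n'
        have q1 := pos_bd (ρ := ρ) z K n
        have q2 := pos_bd (ρ := ρ) z K n'
        have ht' : ¬ (K % 6 = l) := by omega
        rw [hi, hi', s_succ l i q1.1 q1.2, s_succ l i' q2.1 q2.2, if_neg ht', if_neg ht'] at h2
        obtain ⟨rfl, -⟩ := split_eq (s_le ρ l K q1.1).1 (s_lt l q1.1 q1.2) (s_le ρ l K q2.1).1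
          (s_lt l q2.1 q2.2) h2
        have := L_two ρ K
        have : |pos ρ z (K + 1) n - pos ρ z (K + 1) n'| < L ρ K := by
          rw [abs_lt]; constructor <;> linarith
        linarith
    have hp := L_pos ρ K
    have e : n - n' = (j - j') * L ρ K + (pos ρ z K n - pos ρ z K n') := by linarith
    have h3 : L ρ K ≤ |(j - j') * L ρ K| := by
      rw [abs_mul, abs_of_pos hp]
      have : 1 ≤ |j - j'| := Int.one_le_abs (sub_ne_zero.2 hne)
      nlinarith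
    have h4 := abs_sub (n - n') (pos ρ z K n - pos ρ z K n')
    rw [show n - n' - (pos ρ z K n - pos ρ z K n') = (j - j') * L ρ K by linarith] at h4
    linarith
  · rw [if_neg ht, if_neg ht] at h2
    obtain ⟨rfl, e⟩ := split_eq (s_le ρ l K p1.1).1 (s_lt l p1.1 p1.2) (s_le ρ l K p2.1).1
      (s_lt l p2.1 p2.2) h2
    exact absurd ⟨by linarith, e⟩ h'

variable (ρ) in
def Rel (z : ℕ → ℤ) (l : Fin 6) (n n' : ℤ) : Prop := ∃ K, R ρ z l K n n'

lemma Rel.refl (z : ℕ → ℤ) (l : Fin 6) (n : ℤ) : Rel ρ z l n n := ⟨0, rfl, rfl⟩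

lemma Rel.symm {z : ℕ → ℤ} {l : Fin 6} {n n' : ℤ} (h : Rel ρ z l n n') : Rel ρ z l n' n :=
  let ⟨K, h⟩ := h; ⟨K, h.1.symm, h.2.symm⟩

lemma Rel.trans {z : ℕ → ℤ} (hz : Base ρ z) {l : Fin 6} {a b c : ℤ} (h : Rel ρ z l a b)
    (h' : Rel ρ z l b c) : Rel ρ z l a c := by
  obtain ⟨K, h⟩ := h
  obtain ⟨K', h'⟩ := h'
  have h1 := h.mono hz (le_max_left K K')
  have h2 := h'.mono hz (le_max_right K K')
  exact ⟨_, h1.1.trans h2.1, h1.2.trans h2.2⟩

lemma Rel.jump {z : ℕ → ℤ} (hz : Base ρ z) {l : Fin 6} {n n' : ℤ} (h : Rel ρ z l n n')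
    (hne : n ≠ n') : ∃ K : ℕ, K % 6 = l ∧ L ρ K ≤ 2 * |n - n'| ∧ |n - n'| < L ρ (K + 1) ∧
      R ρ z l (K + 1) n n' := by
  classical
  have h0 : Nat.find h ≠ 0 := by
    intro e
    have := (Nat.find_spec h).dist
    rw [e, L_zero] at this
    exact hne (by rw [abs_lt] at this; omega)
  obtain ⟨K, hK⟩ := Nat.exists_eq_succ_of_ne_zero h0
  have h1 := Nat.find_spec h
  have h2 := Nat.find_min h (m := K) (by omega)
  rw [hK] at h1
  exact ⟨K, (h1.pred hz h2).1, (h1.pred hz h2).2, h1.dist, h1⟩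

lemma rel_iff {z : ℕ → ℤ} (hz : Base ρ z) {l : Fin 6} {n n' : ℤ} {k : ℕ} (hk : 2 * |n - n'| ≤ k) :
    Rel ρ z l n n' ↔ R ρ z l k n n' := by
  refine ⟨fun h => ?_, fun h => ⟨k, h⟩⟩
  by_cases e : n = n'
  · subst e; exact ⟨rfl, rfl⟩
  obtain ⟨K, -, h1, -, h2⟩ := h.jump hz e
  refine h2.mono hz ?_
  have := L_gt ρ K
  omega

lemma rel_congr {z z' : ℕ → ℤ} (hz : Base ρ z) (hz' : Base ρ z') {l : Fin 6} {n n' : ℤ} {k : ℕ}
    (hk : 2 * |n - n'| ≤ k) (e : z k = z' k) : Rel ρ z l n n' ↔ Rel ρ z' l n n' := by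
  rw [rel_iff hz hk, rel_iff hz' hk]
  simp only [R, pos, e]

lemma not_rel {z : ℕ → ℤ} (hz : Base ρ z) {n n' : ℤ} (hne : n ≠ n') : ∃ l, ¬ Rel ρ z l n n' := by
  by_contra hc
  push Not at hc
  obtain ⟨a, a1, a2, a3, -⟩ := (hc 0).jump hz hne
  obtain ⟨b, b1, b2, b3, -⟩ := (hc 3).jump hz hne
  have key : ∀ a b : ℕ, a + 2 ≤ b → L ρ b ≤ 2 * |n - n'| → |n - n'| < L ρ (a + 1) → False := by
    intro a b h1 h2 h3
    have := L_two ρ (a + 1)
    have := L_mono ρ h1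
    linarith
  simp only [Fin.val_zero] at a1
  have b1' : b % 6 = 3 := b1
  rcases le_total a b with h | h
  · exact key a b (by omega) b2 a3
  · exact key b a (by omega) a2 b3

/-- shift -/
def sh (a : ℤ) (x : X ρ) : X ρ :=
  ⟨(fun K => (x.1.1 K + a) % L ρ K, fun n => x.1.2 (n + a)), fun K =>
    ⟨(pos_bd x.1.1 K a).1, (pos_bd x.1.1 K a).2, by
      simp only
      rw [Int.emod_emod_of_dvd _ (L_dvd ρ (Nat.le_succ K)), ← (x.2.1 K).2.2, Int.emod_add_emod]⟩,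
    fun K l n n' hR => by
      have e : ∀ n, pos ρ (fun K => (x.1.1 K + a) % L ρ K) K n = pos ρ x.1.1 K (n + a) := by
        intro n
        simp only [pos, Int.emod_add_emod]
        congr 1; ring
      simp only [R, e] at hR ⊢
      exact x.2.2 K l _ _ ⟨by linarith [hR.1], hR.2⟩⟩

lemma sh_z (a : ℤ) (x : X ρ) (K : ℕ) : (sh a x).1.1 K = (x.1.1 K + a) % L ρ K := rfl
lemma sh_v (a : ℤ) (x : X ρ) (n : ℤ) : (sh a x).1.2 n = x.1.2 (n + a) := rfl

lemma X_ext {x y : X ρ} (h1 : ∀ K, x.1.1 K = y.1.1 K) (h2 : ∀ n, x.1.2 n = y.1.2 n) : x = y :=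
  Subtype.ext (Prod.ext (funext h1) (funext h2))

lemma sh_zero (x : X ρ) : sh 0 x = x :=
  X_ext (fun K => by rw [sh_z, add_zero, Int.emod_eq_of_lt (x.2.1 K).1 (x.2.1 K).2.1])
    fun n => by rw [sh_v, add_zero]

lemma sh_add (a b : ℤ) (x : X ρ) : sh a (sh b x) = sh (a + b) x :=
  X_ext (fun K => by simp only [sh_z, Int.emod_add_emod]; congr 1; ring)
    fun n => by simp only [sh_v, add_assoc]

lemma cont_z (K : ℕ) : Continuous fun x : X ρ => x.1.1 K := by fun_prop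
lemma cont_v (n : ℤ) : Continuous fun x : X ρ => x.1.2 n := by fun_prop

lemma sh_cont (a : ℤ) : Continuous (sh (ρ := ρ) a) := by
  refine Continuous.subtype_mk (Continuous.prodMk (continuous_pi fun K => ?_)
    (continuous_pi fun n => cont_v _)) _
  exact (continuous_of_discreteTopology (f := fun t : ℤ => (t + a) % L ρ K)).comp (cont_z K)

variable (ρ) in
def T : X ρ ≃ₜ X ρ where
  toFun := sh 1
  invFun := sh (-1)
  left_inv x := by rw [sh_add]; exact sh_zero x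
  right_inv x := by rw [sh_add]; exact sh_zero x
  continuous_toFun := sh_cont _
  continuous_invFun := sh_cont _

lemma T_iter (n : ℕ) (x : X ρ) : (⇑(T ρ))^[n] x = sh n x := by
  induction n with
  | zero => exact (sh_zero x).symm
  | succ n ih =>
    rw [Function.iterate_succ_apply', ih]
    exact (sh_add 1 n x).trans (by push_cast; rw [add_comm])

def Agree (k : ℕ) (x y : X ρ) : Prop :=
  (∀ K ≤ k, x.1.1 K = y.1.1 K) ∧ ∀ n : ℤ, |n| ≤ k → x.1.2 n = y.1.2 n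

lemma agree_nhds (k : ℕ) (x : X ρ) : ∀ᶠ y in 𝓝 x, Agree k y x := by
  have h1 : ∀ K, ∀ᶠ y : X ρ in 𝓝 x, y.1.1 K = x.1.1 K := fun K =>
    (cont_z K).continuousAt.eventually ((isOpen_discrete {x.1.1 K}).mem_nhds rfl)
  have h2 : ∀ n, ∀ᶠ y : X ρ in 𝓝 x, y.1.2 n = x.1.2 n := fun n =>
    (cont_v n).continuousAt.eventually ((isOpen_discrete {x.1.2 n}).mem_nhds rfl)
  refine ((eventually_all_finite (finite_Iic k)).2 fun K _ => h1 K).and
    (((eventually_all_finite (finite_Icc (-(k : ℤ)) k)).2 fun n _ => h2 n).mono fun y hy n hn => ?_)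
  exact hy n (abs_le.1 hn)

lemma cont_of_local {Y : Type} [TopologicalSpace Y] {f : X ρ → Y} {k : ℕ}
    (hf : ∀ x y, Agree k x y → f x = f y) : Continuous f :=
  ((IsLocallyConstant.iff_eventually_eq f).2 fun x =>
    (agree_nhds k x).mono fun y hy => hf y x hy).continuous

lemma dense_of {A : Set (X ρ)} (hA : ∀ y k, ∃ x ∈ A, Agree k x y) : Dense A := by
  intro y
  choose u hu hu' using hA y
  refine mem_closure_of_tendsto (f := u) (b := atTop) ?_ (Eventually.of_forall hu)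
  rw [tendsto_subtype_rng]
  refine Tendsto.prodMk_nhds (tendsto_pi_nhds.2 fun K => ?_) (tendsto_pi_nhds.2 fun n => ?_)
  · refine tendsto_const_nhds.congr' ?_
    filter_upwards [eventually_ge_atTop K] with k hk using ((hu' k).1 K hk).symm
  · refine tendsto_const_nhds.congr' ?_
    filter_upwards [eventually_ge_atTop n.natAbs] with k hk using ((hu' k).2 n (by rw [← Int.natCast_natAbs]; exact_mod_cast hk)).symm

lemma al_block (x : X ρ) {K : ℕ} {b : ℤ} (hb : L ρ K ∣ x.1.1 K + b) (l : Fin 6) :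
    Al ρ l K fun m => x.1.2 (b + m) l := by
  intro m m' a0 a1 b0 b1 e
  have := x.2.2 K l (b + m) (b + m') (by
    simp only [R, pos_block hb a0 a1, pos_block hb b0 b1]; exact ⟨by ring, e⟩)
  rwa [pos_block hb a0 a1, pos_block hb b0 b1] at this

lemma minimal_aux (x y : X ρ) (k : ℕ) : ∃ N : ℕ, Agree k (sh N x) y := by
  set K := 2 * k with hK
  have hL := L_gt ρ K
  set b := -(k : ℤ) - pos ρ y.1.1 K (-k) with hb
  have pb := pos_bd (ρ := ρ) y.1.1 K (-k)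
  have d1 : L ρ K ∣ y.1.1 K + b := blk_dvd _ _ _
  have d2 : L ρ K ∣ y.1.1 K + (b + L ρ K) := by rw [← add_assoc]; exact dvd_add d1 dvd_rfl
  obtain ⟨W, j, hW, j0, j1, hj⟩ := pair (al_block y d1) (al_block y d2)
  set B := L ρ (K + 1 + 6) - x.1.1 (K + 1 + 6) with hB
  have B0 : 0 ≤ B := by have := (x.2.1 (K + 1 + 6)).2.1; omega
  have d3 : L ρ (K + 1 + 6) ∣ x.1.1 (K + 1 + 6) + B := by rw [hB]; simp
  obtain ⟨a, a0, a1, ha⟩ := cover hW (al_block x d3)
  have hp := L_pos ρ K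
  have jl : 0 ≤ j * L ρ K := by positivity
  obtain ⟨N, hN⟩ : ∃ N : ℕ, (N : ℤ) = B + a + j * L ρ K - b := ⟨(B + a + j * L ρ K - b).toNat, by omega⟩
  refine ⟨N, fun K' hK' => ?_, fun n hn => ?_⟩
  · have e1 : L ρ K ∣ x.1.1 K + N - y.1.1 K := by
      have := dvd_sub (dvd_add (dvd_add (dvd_le x.2.1 (show K ≤ K + 1 + 6 by omega) d3)
        ((L_dvd ρ (Nat.le_succ K)).trans a1)) (dvd_mul_left (L ρ K) j)) d1
      rwa [show x.1.1 K + N - y.1.1 K = x.1.1 K + B + a + j * L ρ K - (y.1.1 K + b) by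
        rw [hN]; ring]
    have hKK : K' ≤ K := by omega
    rw [sh_z, ← base_le x.2.1 hKK, ← base_le y.2.1 hKK, Int.emod_add_emod]
    exact Int.emod_eq_emod_iff_emod_sub_eq_zero.2
      (Int.emod_eq_zero_of_dvd ((L_dvd ρ hKK).trans e1))
  · rw [abs_le] at hn
    rw [sh_v]
    by_cases c : n - b < L ρ K
    · have u0 : 0 ≤ n - b := by omega
      have h1 := (hj _ u0 c).1
      have h2 := ha _ (comp_bd j0 (by omega) u0 c).1 (comp_bd j0 (by omega) u0 c).2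
      rw [h1] at h2
      convert h2 using 2
      · rw [hN]; ring
      · ring
    · have u0 : 0 ≤ n - b - L ρ K := by omega
      have u1 : n - b - L ρ K < L ρ K := by push_cast at hL; omega
      have h1 := (hj _ u0 u1).2
      have h2 := ha _ (comp_bd (j := j + 1) (by omega) j1 u0 u1).1
        (comp_bd (j := j + 1) (by omega) j1 u0 u1).2
      rw [h1] at h2
      convert h2 using 2
      · rw [hN]; ring
      · ring

theorem minimal (x : X ρ) : Dense (range fun n : ℕ => (⇑(T ρ))^[n] x) :=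
  dense_of fun y k => by
    obtain ⟨N, hN⟩ := minimal_aux x y k
    exact ⟨_, ⟨N, T_iter N x⟩, hN⟩

instance : Nonempty (X ρ) := by
  have hz : Base ρ fun _ => 0 := fun K => ⟨le_rfl, L_pos ρ K, by simp⟩
  let F : ℕ → Set (ℤ → Fin 6 → ZMod 2) := fun K => {v | ∀ l n n', R ρ (fun _ => 0) l K n n' →
    v n l - h ρ l K (pos ρ (fun _ => 0) K n) = v n' l - h ρ l K (pos ρ (fun _ => 0) K n')}
  have hcl : ∀ K, IsClosed (F K) := by
    intro K
    simp only [F, ofPred_forall]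
    refine isClosed_iInter fun l => isClosed_iInter fun n => isClosed_iInter fun n' =>
      isClosed_iInter fun _ => isClosed_eq (by fun_prop) (by fun_prop)
  obtain ⟨v, hv⟩ := IsCompact.nonempty_iInter_of_sequence_nonempty_isCompact_isClosed F
    (fun K v hv l n n' hR => by
      have h1 := hv l n n' (hR.succ hz)
      obtain ⟨j, hj, e⟩ := hR.pos2 hz
      have p1 := pos_bd (ρ := ρ) (fun _ => 0) K n
      have p2 := pos_bd (ρ := ρ) (fun _ => 0) K n'
      rw [hj, e, h_succ l j p1.1 p1.2, h_succ l j p2.1 p2.2, hR.2] at h1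
      linear_combination h1)
    (fun K => ⟨fun n l => h ρ l K (pos ρ (fun _ => 0) K n), fun l n n' _ => by simp⟩)
    (hcl 0).isCompact hcl
  exact ⟨⟨(fun _ => 0, v), hz, fun K => mem_iInter.1 hv K⟩⟩

/-- adding a class function -/
def tw (e : X ρ → ℤ → Fin 6 → ZMod 2) (he : ∀ x l n n', Rel ρ x.1.1 l n n' → e x n l = e x n' l)
    (x : X ρ) : X ρ :=
  ⟨(x.1.1, fun n l => x.1.2 n l + e x n l), x.2.1, fun K l n n' hR => by
    have h1 := x.2.2 K l n n' hR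
    have h2 := he x l n n' ⟨K, hR⟩
    simp only at h1 ⊢
    linear_combination h1 + h2⟩

theorem conj (e : X ρ → ℤ → Fin 6 → ZMod 2)
    (he : ∀ x l n n', Rel ρ x.1.1 l n n' → e x n l = e x n' l)
    (hloc : ∀ n l, ∃ k, ∀ x y, Agree k x y → e x n l = e y n l)
    (hinv : ∀ x, e (tw e he x) = e x) :
    ∃ φ : X ρ ≃ₜ X ρ, ∀ x, φ x = tw e he x ∧ φ.symm x = tw e he x := by
  have hc : Continuous (tw e he) := by
    refine Continuous.subtype_mk (Continuous.prodMk (continuous_pi cont_z)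
      (continuous_pi fun n => continuous_pi fun l => ?_)) _
    obtain ⟨k, hk⟩ := hloc n l
    exact ((continuous_apply l).comp (cont_v n)).add (cont_of_local hk)
  have hi : ∀ x, tw e he (tw e he x) = x := fun x => X_ext (fun _ => rfl) fun n => funext fun l => by
    change x.1.2 n l + e x n l + e (tw e he x) n l = _
    rw [hinv, add_assoc, CharTwo.add_self_eq_zero, add_zero]
  exact ⟨⟨⟨tw e he, tw e he, hi, hi⟩, hc, hc⟩, fun x => ⟨rfl, rfl⟩⟩

lemma conj_iter {Y : Type} [TopologicalSpace Y] (φ T : Y ≃ₜ Y) (n : ℕ) (x : Y) :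
    (⇑(φ.trans (T.trans φ.symm)))^[n] x = φ.symm ((⇑T)^[n] (φ x)) := by
  induction n with
  | zero => simp
  | succ n ih => rw [Function.iterate_succ_apply', Function.iterate_succ_apply', ih]; simp

lemma conj_minimal {Y : Type} [TopologicalSpace Y] (φ T : Y ≃ₜ Y)
    (hT : ∀ x, Dense (range fun n : ℕ => (⇑T)^[n] x)) (x : Y) :
    Dense (range fun n : ℕ => (⇑(φ.trans (T.trans φ.symm)))^[n] x) := by
  simp only [conj_iter]
  exact φ.symm.surjective.denseRange.comp (hT (φ x)) φ.symm.continuous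

end Pool.Agent.Lib.H12Tie
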