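import Pool.Agent.Lib.helper12.TieB

set_option autoImplicit false
open Set Filter Topology

namespace Pool.Agent.Lib.H12Tie

def Sparse (a : ℕ → ℤ) : Prop := ∀ B : ℕ, ∃ b, ∀ n ≥ b, ∀ m, m ≠ n → (B : ℤ) < |a n - a m|

lemma sparse_of {a : ℕ → ℤ} (h : ∀ B : ℕ, ∃ N, ∀ n ≥ N, (B : ℤ) < a (n + 1) - a n) : Sparse a := by
  intro B
  obtain ⟨N, hN⟩ := h B
  have h1 : ∀ m ≥ N, ∀ d : ℕ, a m + B + 1 + d ≤ a (m + 1 + d) := by
    intro m hm d
    induction d with
    | zero => have := hN m hm; simp only [Nat.cast_zero, add_zero]; omega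
    | succ d ih =>
      have := hN (m + 1 + d) (by omega)
      rw [← add_assoc (m + 1)]; push_cast; omega
  obtain ⟨M, hM⟩ := ((finite_Iic N).image a).bddAbove
  refine ⟨N + 1 + (M - a N).toNat, fun n hn m hm => ?_⟩
  rw [lt_abs]
  rcases lt_or_gt_of_ne hm with h2 | h2
  · left
    by_cases h3 : N ≤ m
    · have := h1 m h3 (n - (m + 1))
      rw [show m + 1 + (n - (m + 1)) = n by omega] at this
      omega
    · have := h1 N le_rfl (n - (N + 1))
      rw [show N + 1 + (n - (N + 1)) = n by omega] at this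
      have h4 : a m ≤ M := hM ⟨m, (not_le.1 h3).le, rfl⟩
      omega
  · right
    have := h1 n (by omega) (m - (n + 1))
    rw [show n + 1 + (m - (n + 1)) = m by omega] at this
    omega

open Polynomial in
lemma poly_gap (p : ℤ[X]) (hd : 2 ≤ p.natDegree) (hl : 0 < p.leadingCoeff) (B : ℕ) :
    ∃ N : ℕ, ∀ n ≥ N, (B : ℤ) < p.eval ((n + 1 : ℕ) : ℤ) - p.eval (n : ℤ) := by
  set P : ℝ[X] := p.map (Int.castRingHom ℝ) with hP
  have hinj : Function.Injective (Int.castRingHom ℝ) := Int.cast_injective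
  have h1 : P.natDegree = p.natDegree := natDegree_map_eq_of_injective hinj p
  have h2 : P.leadingCoeff = (p.leadingCoeff : ℝ) := leadingCoeff_map_of_injective hinj p
  have h3 : 0 < (derivative P).degree := by
    apply natDegree_pos_iff_degree_pos.1
    rw [natDegree_derivative, h1]; omega
  have h4 : 0 ≤ (derivative P).leadingCoeff := by
    rw [leadingCoeff_derivative, h2]
    have : (0 : ℝ) < p.leadingCoeff := by exact_mod_cast hl
    positivity
  obtain ⟨x0, hx0⟩ := eventually_atTop.1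
    ((tendsto_atTop_of_leadingCoeff_nonneg _ h3 h4).eventually_gt_atTop (B : ℝ))
  refine ⟨⌈x0⌉₊, fun n hn => ?_⟩
  obtain ⟨c, hc, e⟩ := exists_deriv_eq_slope (fun x => P.eval x) (show (n : ℝ) < n + 1 by linarith)
    P.continuous.continuousOn P.differentiable.differentiableOn
  rw [P.deriv] at e
  have h5 := hx0 c ((Nat.ceil_le.1 hn).trans hc.1.le)
  rw [e] at h5
  have ev : ∀ k : ℤ, P.eval (k : ℝ) = ((p.eval k : ℤ) : ℝ) := fun k => by
    rw [hP]; exact eval_intCast_map (Int.castRingHom ℝ) p k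
  have e1 := ev ((n + 1 : ℕ) : ℤ)
  have e2 := ev (n : ℤ)
  push_cast at e1 e2
  rw [e1, e2, add_sub_cancel_left, div_one] at h5
  push_cast
  exact_mod_cast h5

open Polynomial in
lemma poly_sparse (p : ℤ[X]) (hd : 2 ≤ p.natDegree) : Sparse fun n => p.eval (n : ℤ) := by
  have h0 : p.leadingCoeff ≠ 0 := by
    rw [Ne, leadingCoeff_eq_zero]; rintro rfl; simp at hd
  rcases lt_or_gt_of_ne h0 with h | h
  · have := sparse_of (a := fun n => (-p).eval (n : ℤ))
      (poly_gap (-p) (by simpa using hd) (by simpa using h))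
    intro B
    obtain ⟨b, hb⟩ := this B
    refine ⟨b, fun n hn m hm => ?_⟩
    have := hb n hn m hm
    simp only [eval_neg] at this
    rwa [← abs_neg, neg_sub, show eval (m : ℤ) p - eval (n : ℤ) p =
      -eval (n : ℤ) p - -eval (m : ℤ) p by ring]
  · exact sparse_of (poly_gap p hd h)

open Classical in
noncomputable def pick (P : ℕ → Prop) (F : ℕ → ZMod 2) : ZMod 2 :=
  if h : ∃ n, P n then F h.choose else 0

lemma pick_congr {P P' : ℕ → Prop} {F F' : ℕ → ZMod 2} (h1 : ∀ n, P n ↔ P' n)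
    (h2 : ∀ n, P n → F n = F' n) : pick P F = pick P' F' := by
  obtain rfl : P = P' := funext fun n => propext (h1 n)
  unfold pick
  split_ifs with h
  · exact h2 _ h.choose_spec
  · rfl

lemma pick_eq {P : ℕ → Prop} {F : ℕ → ZMod 2} {n : ℕ} (h1 : P n) (h2 : ∀ m, P m → m = n) :
    pick P F = F n := by
  unfold pick
  rw [dif_pos ⟨n, h1⟩, h2 _ (Exists.choose_spec ⟨n, h1⟩)]

variable {ρ : ℕ → ℕ}

lemma T_zpow (a : ℤ) (x : X ρ) : (T ρ ^ a) x = sh a x := by
  induction a using Int.induction_on generalizing x with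
  | zero => exact (sh_zero x).symm
  | succ n ih => rw [zpow_add_one, Homeomorph.mul_apply, ih]; exact sh_add _ _ _
  | pred n ih => rw [zpow_sub_one, Homeomorph.mul_apply, ih]; exact sh_add _ _ _

def hf (l : Fin 6) : Fin 3 := ⟨l / 2, by omega⟩
def lay (a : Fin 3) (b : Bool) : Fin 6 := ⟨2 * a + b.toNat, by cases b <;> simp <;> omega⟩
def sd (l : Fin 6) : Bool := decide (l.val % 2 = 1)

lemma hf_lay (a : Fin 3) (b : Bool) : hf (lay a b) = a := by revert a b; decide
lemma sd_lay (a : Fin 3) (b : Bool) : sd (lay a b) = b := by revert a b; decide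

theorem sparse_main (u : Bool → ℕ → ℤ) (hu : ∀ b, Sparse (u b)) (h0 : ∀ b, u b 0 = 0) :
    ∃ (ρ : ℕ → ℕ) (φ : X ρ ≃ₜ X ρ) (n0 : ℕ), ∀ x : X ρ, ∀ n ≥ n0,
      ¬ (x.1.2 (u false n) = x.1.2 0 ∧ (φ x).1.2 (u true n) = (φ x).1.2 0) := by
  classical
  have hβ : ∀ B : ℕ, ∃ c, ∀ b, ∀ n ≥ c, ∀ m, m ≠ n → (B : ℤ) < |u b n - u b m| := by
    intro B
    obtain ⟨c1, h1⟩ := hu false B
    obtain ⟨c2, h2⟩ := hu true B
    refine ⟨max c1 c2, fun b n hn => ?_⟩
    cases b
    · exact h1 n (le_of_max_le_left hn)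
    · exact h2 n (le_of_max_le_right hn)
  choose β hβ using hβ
  have hM : ∀ c : ℕ, ∃ M : ℕ, ∀ b, ∀ n < c, |u b n| ≤ M := by
    intro c
    obtain ⟨M, hM⟩ := (((finite_Iio c).image fun n => (u false n).natAbs).union
      ((finite_Iio c).image fun n => (u true n).natAbs)).bddAbove
    refine ⟨M, fun b n hn => ?_⟩
    rw [← Int.natCast_natAbs]
    cases b
    · exact_mod_cast hM (Or.inl ⟨n, hn, rfl⟩)
    · exact_mod_cast hM (Or.inr ⟨n, hn, rfl⟩)
  choose M hM using hM
  let ρ : ℕ → ℕ := fun l => 4 * M (β (2 * l)) + 1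
  let small : ℕ → ℕ → Prop := fun K n => ∀ b, 4 * |u b n| < L ρ K
  let big : ℕ → ℕ → Prop := fun K n => ∀ b m, m ≠ n → 2 * L ρ (K + 1) < |u b n - u b m|
  have hsb : ∀ K K' n, K + 2 ≤ K' → ¬ big K n → small K' n := by
    intro K K' n hK hb b
    have h1 : n < β (2 * ln ρ (K + 1)) := by
      by_contra h
      refine hb fun b m hm => ?_
      have := hβ _ b n (not_lt.1 h) m hm
      push_cast at this
      exact this
    have h2 := hM _ b n h1
    have h3 := L_rho ρ (K + 1)
    have h4 := L_mono ρ hK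
    simp only [ρ] at h3
    push_cast at h3
    simp only [ρ] at h2 h4 ⊢
    linarith
  have hcol : ∀ n, ∃ a : Fin 3, ∀ K : ℕ, K % 6 / 2 = a → small K n ∨ big K n := by
    intro n
    by_cases hex : ∃ K, ¬ (small K n ∨ big K n)
    · have h1 := Nat.find_spec hex
      refine ⟨⟨(Nat.find hex % 6 / 2 + 2) % 3, Nat.mod_lt _ (by norm_num)⟩, fun K hK => ?_⟩
      by_contra hb
      have h2 := Nat.find_min' hex hb
      have h3 : ¬ (Nat.find hex + 2 ≤ K) := fun h =>
        hb (Or.inl (hsb _ _ n h fun h4 => h1 (Or.inr h4)))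
      simp only at hK
      omega
    · push Not at hex
      exact ⟨0, fun K _ => hex K⟩
  choose col hcol using hcol
  let Λ : Fin 3 → ℕ → Prop := fun a n => n = 0 ∨ (β 0 ≤ n ∧ col n = a)
  have hΛ : ∀ (l : Fin 6) (n K : ℕ), Λ (hf l) n → K % 6 = l → small K n ∨ big K n := by
    rintro l n K (rfl | h) hK
    · left; intro b; rw [h0]; simpa using L_pos ρ K
    · exact hcol n K (by rw [h.2, hK]; rfl)
  have huniq : ∀ (z : ℕ → ℤ), Base ρ z → ∀ (l : Fin 6) b n m, Λ (hf l) n → Λ (hf l) m →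
      Rel ρ z l (u b n) (u b m) → m = n := by
    intro z hz l b n m hn hm hR
    by_contra hne
    have hne2 : u b n ≠ u b m := by
      intro e
      rcases hn with rfl | hn
      · rcases hm with rfl | hm
        · exact hne rfl
        · have := hβ 0 b m hm.1 0 (Ne.symm hne)
          rw [e] at this; simp at this
      · have := hβ 0 b n hn.1 m hne
        rw [e] at this; simp at this
    obtain ⟨K, hK, h1, h2, -⟩ := hR.jump hz hne2
    have hp := L_pos ρ (K + 1)
    rcases hΛ l n K hn hK with a1 | a1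
    · rcases hΛ l m K hm hK with a2 | a2
      · have := a1 b; have := a2 b
        have := abs_sub (u b n) (u b m)
        linarith
      · have := a2 b n (Ne.symm hne)
        rw [abs_sub_comm] at this
        linarith
    · have := a1 b m hne
      linarith
  have hbd : ∀ (z : ℕ → ℤ), Base ρ z → ∀ (l : Fin 6) b n s, Λ (hf l) n → Rel ρ z l s (u b n) →
      |u b n| ≤ 2 * |s| := by
    intro z hz l b n s hn hR
    have s0 := abs_nonneg s
    by_cases e : s = u b n
    · rw [← e]; linarith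
    obtain ⟨K, hK, h1, h2, -⟩ := hR.jump hz e
    rcases hΛ l n K hn hK with a1 | a1
    · have := a1 b
      have := abs_sub s (u b n)
      linarith
    · by_cases hn0 : n = 0
      · rw [hn0, h0]; simp
      have h3 := a1 b 0 (Ne.symm hn0)
      rw [h0, sub_zero] at h3
      have h4 := abs_sub s (s - u b n)
      rw [sub_sub_cancel] at h4
      linarith
  let val : X ρ → Fin 3 → ℕ → ZMod 2 := fun x a n =>
    x.1.2 (u false n) (lay a false) + x.1.2 (u true n) (lay a true) + if n = 0 then 0 else 1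
  let e : X ρ → ℤ → Fin 6 → ZMod 2 := fun x s l =>
    pick (fun n => Λ (hf l) n ∧ Rel ρ x.1.1 l s (u (sd l) n)) (val x (hf l))
  have he : ∀ x l n n', Rel ρ x.1.1 l n n' → e x n l = e x n' l := fun x l n n' h =>
    pick_congr (fun m => and_congr_right fun _ =>
      ⟨fun h1 => h.symm.trans x.2.1 h1, fun h1 => h.trans x.2.1 h1⟩) fun _ _ => rfl
  have hev : ∀ x a b n, Λ a n → e x (u b n) (lay a b) = val x a n := by
    intro x a b n hn
    simp only [e, hf_lay, sd_lay]
    refine pick_eq ⟨hn, Rel.refl _ _ _⟩ fun m hm => ?_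
    exact huniq _ x.2.1 (lay a b) b n m (by rwa [hf_lay]) (by rw [hf_lay]; exact hm.1) hm.2
  obtain ⟨φ, hφ⟩ := conj e he (fun s l => by
    refine ⟨6 * s.natAbs + M (β (2 * s.natAbs) + 1), fun x y hxy => pick_congr
      (fun n => and_congr_right fun hn => ?_) fun n hn => ?_⟩
    · by_cases c : |u (sd l) n| ≤ 2 * |s|
      · refine rel_congr x.2.1 y.2.1 (k := 6 * s.natAbs) ?_ (hxy.1 _ (by omega))
        have := abs_sub s (u (sd l) n)
        push_cast; linarith
      · exact ⟨fun h => absurd (hbd _ x.2.1 l _ n s hn h) c,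
          fun h => absurd (hbd _ y.2.1 l _ n s hn h) c⟩
    · have h1 := hbd _ x.2.1 l _ n s hn.1 hn.2
      have h2 : n < β (2 * s.natAbs) + 1 := by
        by_contra h
        have := hβ (2 * s.natAbs) (sd l) n (by omega) 0 (by omega)
        rw [h0, sub_zero] at this
        push_cast at this
        linarith
      have h3 : ∀ b, x.1.2 (u b n) = y.1.2 (u b n) := fun b => hxy.2 _ (by
        have := hM _ b n h2
        have := abs_nonneg s
        push_cast; linarith)
      simp only [val, h3])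
    (fun x => by
      funext s l
      refine pick_congr (fun _ => Iff.rfl) fun n hn => ?_
      change x.1.2 _ _ + e x _ _ + (x.1.2 _ _ + e x _ _) + _ = _
      rw [hev x _ _ n hn.1, hev x _ _ n hn.1]
      have := CharTwo.add_self_eq_zero (val x (hf l) n)
      simp only [val] at this ⊢
      linear_combination this)
  refine ⟨ρ, φ, β 0 + 1, fun x n hn ⟨h1, h2⟩ => ?_⟩
  have h3 := congrFun h2 (lay (col n) true)
  rw [(hφ x).1] at h3
  change x.1.2 _ _ + e x _ _ = x.1.2 _ _ + e x _ _ at h3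
  have h4 := hev x (col n) true 0 (Or.inl rfl)
  rw [h0] at h4
  rw [hev x _ _ n (Or.inr ⟨by omega, rfl⟩), h4] at h3
  simp only [val, h0, h1, if_true, if_neg (show n ≠ 0 by omega)] at h3
  have h5 := CharTwo.add_self_eq_zero (x.1.2 (u true n) (lay (col n) true))
  have h6 := CharTwo.add_self_eq_zero (x.1.2 0 (lay (col n) true))
  have : (1 : ZMod 2) = 0 := by linear_combination h3 - h5 + h6
  exact absurd this (by decide)

end Pool.Agent.Lib.H12Tie
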