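import Mathlib

set_option autoImplicit false

namespace Pool.Agent.Lib.helper12.TreeQ

section
variable {α : Type} [DecidableEq α]

def cpl : List α → List α → ℕ
  | x :: u, y :: v => if x = y then cpl u v + 1 else 0
  | _, _ => 0

lemma cpl_nil (u : List α) : cpl u [] = 0 := by cases u <;> rfl

lemma cpl_comm : ∀ u v : List α, cpl u v = cpl v u
  | [], [] => rfl
  | [], _ :: _ => rfl
  | _ :: _, [] => rfl
  | x :: u, y :: v => by simp only [cpl, cpl_comm u v, eq_comm]

lemma cpl_le : ∀ u v : List α, cpl u v ≤ u.length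
  | [], _ => by simp [cpl]
  | _ :: _, [] => by simp [cpl]
  | x :: u, y :: v => by
    have := cpl_le u v
    simp only [cpl, List.length_cons]; split_ifs <;> omega

lemma take_of_cpl : ∀ (n : ℕ) (u v : List α), n ≤ cpl u v → u.take n = v.take n
  | 0, _, _, _ => rfl
  | _ + 1, [], _, h => by simp [cpl] at h
  | _ + 1, _ :: _, [], h => by simp [cpl] at h
  | n + 1, x :: u, y :: v, h => by
    simp only [cpl] at h
    split_ifs at h with e
    · simp [e, take_of_cpl n u v (by omega)]
    · omega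

lemma cpl_of_take : ∀ (n : ℕ) (u v : List α), n ≤ u.length → u.take n = v.take n → n ≤ cpl u v
  | 0, _, _, _, _ => Nat.zero_le _
  | _ + 1, [], _, h, _ => by simp at h
  | _ + 1, _ :: _, [], _, h => by simp at h
  | n + 1, x :: u, y :: v, h, h' => by
    simp only [List.take_succ_cons, List.cons.injEq] at h'
    simp [cpl, h'.1, cpl_of_take n u v (by simpa using h) h'.2]

lemma cpl_append (c u v : List α) : cpl (c ++ u) (c ++ v) = c.length + cpl u v := by
  induction c with
  | nil => simp
  | cons x c ih => simp [cpl, ih]; ring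

def P (x y : Fin 4 × List α) : ℕ := if x.1 = y.1 then cpl x.2 y.2 else 0

def dd (x y : Fin 4 × List α) : ℝ := x.2.length + y.2.length - 2 * P x y

lemma P_le (x y : Fin 4 × List α) : P x y ≤ x.2.length := by
  unfold P; split_ifs
  exacts [cpl_le _ _, Nat.zero_le _]

end

noncomputable def W (k n : ℕ) : Finset (List (Fin k)) := (List.finite_length_eq (Fin k) n).toFinset

lemma mem_W {k n : ℕ} {v : List (Fin k)} : v ∈ W k n ↔ v.length = n := by simp [W]

lemma card_W (k n : ℕ) : (W k n).card = k ^ n := by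
  have : W k n = (Finset.univ : Finset (List.Vector (Fin k) n)).image List.Vector.toList := by
    ext v
    simp only [mem_W, Finset.mem_image, Finset.mem_univ, true_and]
    exact ⟨fun h => ⟨⟨v, h⟩, rfl⟩, by rintro ⟨w, rfl⟩; exact w.2⟩
  rw [this, Finset.card_image_of_injective _ List.Vector.toList_injective]
  simp [card_vector]

lemma fib (A : Finset (Fin 4 × List (Fin 2))) (R m : ℕ) (hm : m ≤ R) (h1 : ∀ y ∈ A, y.2.length = R)
    (h2 : ∀ y ∈ A, ∀ v : List (Fin 2), v.length = R → v.take m = y.2.take m → (y.1, v) ∈ A) :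
    A.card = (A.image fun y => (y.1, y.2.take m)).card * 2 ^ (R - m) := by
  rw [Finset.card_eq_sum_card_image fun y : Fin 4 × List (Fin 2) => (y.1, y.2.take m),
    ← smul_eq_mul, ← Finset.sum_const]
  refine Finset.sum_congr rfl fun z hz => ?_
  obtain ⟨y, hy, rfl⟩ := Finset.mem_image.1 hz
  rw [← card_W 2 (R - m)]
  refine Finset.card_bij' (fun a _ => a.2.drop m) (fun v _ => (y.1, y.2.take m ++ v)) ?_ ?_ ?_ ?_
  · intro a ha
    simp [mem_W, h1 a (Finset.mem_filter.1 ha).1]
  · intro v hv
    have e : (y.2.take m).length = m := by simp [h1 y hy, hm]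
    have e2 : (y.2.take m ++ v).take m = y.2.take m := List.take_left' e
    exact Finset.mem_filter.2 ⟨h2 y hy _ (by rw [List.length_append, e, mem_W.1 hv]; omega) e2,
      by rw [e2]⟩
  · intro a ha
    have := Prod.ext_iff.1 (Finset.mem_filter.1 ha).2
    simp only at this
    rw [← this.1, ← this.2, List.take_append_drop]
  · intro v _
    exact List.drop_left' (by simp [h1 y hy, hm])

theorem noB (g : Fin 4 × List (Fin 2) → Fin 4 × List (Fin 3)) (C : ℝ)
    (h : ∀ y y', |Real.log 3 * dd (g y) (g y') - Real.log 2 * dd y y'| ≤ C) : False := by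
  classical
  have l2 : 0 < Real.log 2 := Real.log_pos one_lt_two
  have l3 : 0 < Real.log 3 := Real.log_pos (by norm_num)
  obtain ⟨C1, c1⟩ : ∃ C1 : ℝ, ∀ y, |Real.log 3 * (g y).2.length - Real.log 2 * y.2.length| ≤ C1 := by
    refine ⟨C + Real.log 3 * (g (0, [])).2.length, fun y => ?_⟩
    have a1 := abs_le.1 (h (0, []) y)
    have a2 : (P (g (0, [])) (g y) : ℝ) ≤ (g (0, [])).2.length := by exact_mod_cast P_le _ _
    have a3 : P ((0 : Fin 4), ([] : List (Fin 2))) y = 0 := Nat.le_zero.1 (P_le _ _)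
    have a4 : (0 : ℝ) ≤ P (g (0, [])) (g y) := by positivity
    simp only [dd, a3, List.length_nil, Nat.cast_zero] at a1
    rw [abs_le]; constructor <;> nlinarith
  obtain ⟨C2, c0, c2⟩ : ∃ C2 : ℝ, 0 ≤ C2 ∧
      ∀ y y', |Real.log 3 * P (g y) (g y') - Real.log 2 * P y y'| ≤ C2 := by
    refine ⟨|C + C1|, abs_nonneg _, fun y y' => ?_⟩
    have a1 := abs_le.1 (h y y')
    have a2 := abs_le.1 (c1 y)
    have a3 := abs_le.1 (c1 y')
    have := le_abs_self (C + C1)
    have : 0 ≤ C := (abs_nonneg _).trans (h y y')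
    simp only [dd] at a1
    rw [abs_le]; constructor <;> nlinarith
  let m : ℕ → ℕ := fun n => ⌈((n + 1) * Real.log 3 + C2) / Real.log 2⌉₊
  have m1 : ∀ n : ℕ, (n + 1) * Real.log 3 + C2 ≤ m n * Real.log 2 := fun n =>
    (div_le_iff₀ l2).1 (Nat.le_ceil _)
  have m2 : ∀ n : ℕ, m n * Real.log 2 ≤ (n + 1) * Real.log 3 + C2 + Real.log 2 := fun n => by
    have := (Nat.ceil_lt_add_one (a := ((n + 1) * Real.log 3 + C2) / Real.log 2) (by positivity)).le
    rw [div_add_one l2.ne', le_div_iff₀ l2] at this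
    exact this
  have m3 : Monotone m := fun a b hab => Nat.ceil_mono (by gcongr)
  obtain ⟨K', hK'⟩ := exists_nat_ge ((Real.log 3 + 2 * C2 + Real.log 2) / Real.log 2)
  rw [div_le_iff₀ l2] at hK'
  set K := 4 * 2 ^ K' with hK
  have m4 : ∀ n, 3 ^ n ≤ 2 ^ m n := fun n => by
    have : Real.log (3 ^ n) ≤ Real.log (2 ^ m n) := by
      rw [Real.log_pow, Real.log_pow]; nlinarith [m1 n]
    exact_mod_cast (Real.log_le_log_iff (by positivity) (by positivity)).1 this
  obtain ⟨E, hE⟩ : ∃ E : ℕ, ∀ n, 2 ^ m (n + K) ≤ E * 3 ^ n := by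
    obtain ⟨E, hE⟩ := exists_nat_ge (Real.exp ((K + 1) * Real.log 3 + C2 + Real.log 2))
    refine ⟨E, fun n => ?_⟩
    have a1 : Real.exp (m (n + K) * Real.log 2) ≤
        Real.exp ((K + 1) * Real.log 3 + C2 + Real.log 2) * Real.exp (n * Real.log 3) := by
      rw [← Real.exp_add]
      have := m2 (n + K)
      push_cast at this
      exact Real.exp_le_exp.2 (by linarith)
    rw [Real.exp_nat_mul, Real.exp_nat_mul, Real.exp_log two_pos, Real.exp_log three_pos] at a1
    have : (2 : ℝ) ^ m (n + K) ≤ E * 3 ^ n := a1.trans (by gcongr)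
    exact_mod_cast this
  set N := (E * K + 1) * K with hN
  obtain ⟨R0, hR0⟩ := exists_nat_ge (((N + 1) * Real.log 3 + C1) / Real.log 2)
  rw [div_le_iff₀ l2] at hR0
  set R := max R0 (m N)
  have hlen : ∀ y : Fin 4 × List (Fin 2), y.2.length = R → N + 1 ≤ (g y).2.length := by
    intro y hy
    have a1 := (abs_le.1 (c1 y)).1
    have a2 : (R0 : ℝ) ≤ y.2.length := by rw [hy]; exact_mod_cast le_max_left _ _
    have : ((N + 1 : ℕ) : ℝ) ≤ (g y).2.length := by
      push_cast
      exact le_of_mul_le_mul_right (by nlinarith) l3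
    exact_mod_cast this
  let A : Fin 4 → List (Fin 3) → Finset (Fin 4 × List (Fin 2)) := fun i u =>
    (Finset.univ ×ˢ W 2 R).filter fun y => (g y).1 = i ∧ (g y).2.take u.length = u
  have mA : ∀ i u y, y ∈ A i u ↔ y.2.length = R ∧ (g y).1 = i ∧ (g y).2.take u.length = u := by
    intro i u y; simp [A, mem_W]
  have k1 : ∀ i u, u.length ≤ N → ∃ k ≤ K, (A i u).card = k * 2 ^ (R - m u.length) := by
    intro i u hu
    have hm : m u.length ≤ R := (m3 hu).trans (le_max_right _ _)
    refine ⟨_, ?_, fib (A i u) R (m u.length) hm (fun y hy => ((mA _ _ _).1 hy).1) ?_⟩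
    · have := Finset.card_le_card_of_injOn (s := (A i u).image fun y => (y.1, y.2.take (m u.length)))
        (t := Finset.univ ×ˢ W 2 (m u.length - (m u.length - K')))
        (fun z => (z.1, z.2.drop (m u.length - K'))) (fun z hz => ?_) (fun z hz z' hz' e => ?_)
      · refine this.trans ?_
        rw [Finset.card_product, card_W]
        exact Nat.mul_le_mul (by simp) (Nat.pow_le_pow_right two_pos (by omega))
      · obtain ⟨y, hy, rfl⟩ := Finset.mem_image.1 hz
        simp [mem_W, ((mA _ _ _).1 hy).1, hm]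
      · obtain ⟨y, hy, rfl⟩ := Finset.mem_image.1 hz
        obtain ⟨y', hy', rfl⟩ := Finset.mem_image.1 hz'
        obtain ⟨a1, a2, a3⟩ := (mA _ _ _).1 hy
        obtain ⟨b1, b2, b3⟩ := (mA _ _ _).1 hy'
        simp only [Prod.mk.injEq] at e ⊢
        refine ⟨e.1, ?_⟩
        have e1 : (u.length : ℝ) ≤ P (g y) (g y') := by
          have := cpl_of_take u.length _ _ (by have := hlen y a1; omega) (a3.trans b3.symm)
          rw [P, if_pos (a2.trans b2.symm)]; exact_mod_cast this
        have e2 : (m u.length : ℝ) ≤ P y y' + K' := by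
          have := (abs_le.1 (c2 y y')).2
          have := m2 u.length
          exact le_of_mul_le_mul_right (by nlinarith) l2
        have e3 : m u.length ≤ cpl y.2 y'.2 + K' := by
          rw [P, if_pos e.1] at e2; exact_mod_cast e2
        have e4 := take_of_cpl (m u.length - K') y.2 y'.2 (by omega)
        rw [← List.take_append_drop (m u.length - K') (y.2.take _), e.2, List.take_take,
          min_eq_left (Nat.sub_le _ _), e4]
        conv_rhs => rw [← List.take_append_drop (m u.length - K') (y'.2.take _), List.take_take,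
          min_eq_left (Nat.sub_le _ _)]
    · intro y hy v h1 h2
      obtain ⟨a1, a2, a3⟩ := (mA _ _ _).1 hy
      have e1 : (m u.length : ℝ) ≤ P y (y.1, v) := by
        rw [P, if_pos rfl]; exact_mod_cast cpl_of_take _ _ _ (by omega) h2.symm
      have e2 : ((u.length + 1 : ℕ) : ℝ) ≤ P (g y) (g (y.1, v)) := by
        have := (abs_le.1 (c2 y (y.1, v))).1
        have := m1 u.length
        push_cast
        exact le_of_mul_le_mul_right (by nlinarith) l3
      have e3 : u.length + 1 ≤ P (g y) (g (y.1, v)) := by exact_mod_cast e2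
      unfold P at e3
      split_ifs at e3 with e4
      · exact (mA _ _ _).2 ⟨h1, e4 ▸ a2, by rw [← take_of_cpl _ _ _ ((Nat.le_succ _).trans e3), a3]⟩
      · omega
  have k2 : ∀ i u, u.length ≤ N → ∃ d, (A i u).card ≤ 3 * (A i (u ++ [d])).card := by
    intro i u hu
    have a1 : A i u ⊆ Finset.univ.biUnion fun d => A i (u ++ [d]) := by
      intro y hy
      obtain ⟨a1, a2, a3⟩ := (mA _ _ _).1 hy
      have := hlen y a1
      refine Finset.mem_biUnion.2 ⟨(g y).2[u.length], Finset.mem_univ _, (mA _ _ _).2 ⟨a1, a2, ?_⟩⟩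
      rw [List.length_append, List.length_singleton, List.take_succ_eq_append_getElem (by omega), a3]
    by_contra hc
    push Not at hc
    have a2 := (Finset.card_le_card a1).trans Finset.card_biUnion_le
    rw [Fin.sum_univ_three] at a2
    have := hc 0
    have := hc 1
    have := hc 2
    omega
  obtain ⟨i, hi⟩ : ∃ i, 0 < (A i []).card :=
    ⟨_, Finset.card_pos.2 ⟨(0, List.replicate R 0), (mA _ _ _).2 ⟨by simp, rfl, rfl⟩⟩⟩
  have k3 : ∀ t u, u.length + t ≤ N → ∃ u' : List (Fin 3), u'.length = u.length + t ∧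
      (A i u).card ≤ 3 ^ t * (A i u').card := by
    intro t
    induction t with
    | zero => exact fun u _ => ⟨u, rfl, by simp⟩
    | succ t ih =>
      intro u hu
      obtain ⟨u', a1, a2⟩ := ih u (by omega)
      obtain ⟨d, a3⟩ := k2 i u' (by omega)
      exact ⟨u' ++ [d], by simp [a1]; ring, a2.trans (by rw [pow_succ, mul_assoc]; gcongr)⟩
  have k4 : ∀ j, j ≤ E * K + 1 → ∃ u : List (Fin 3), u.length = j * K ∧ 0 < (A i u).card ∧
      j * 2 ^ R ≤ E * (3 ^ (j * K) * (A i u).card) := by
    intro j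
    induction j with
    | zero => exact fun _ => ⟨[], by simp, hi, by simp⟩
    | succ j ih =>
      intro hj
      obtain ⟨u, a1, a2, a3⟩ := ih (by omega)
      have b0 : j * K + K ≤ N := by rw [hN, ← Nat.succ_mul]; exact Nat.mul_le_mul_right _ hj
      obtain ⟨u', b1, b2⟩ := k3 K u (by omega)
      obtain ⟨k, c3, c4⟩ := k1 i u (by omega)
      obtain ⟨k', -, c5⟩ := k1 i u' (by omega)
      rw [a1] at b1 c4
      rw [b1] at c5
      have d1 : m (j * K) ≤ m (j * K + K) := m3 (by omega)
      have d2 : m (j * K + K) ≤ R := (m3 b0).trans (le_max_right _ _)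
      obtain ⟨Δ, hΔ⟩ := Nat.exists_eq_add_of_le d1
      obtain ⟨r, hr⟩ := Nat.exists_eq_add_of_le d2
      rw [show R - m (j * K) = Δ + r by omega, pow_add, ← mul_assoc] at c4
      rw [show R - m (j * K + K) = r by omega] at c5
      have d3 : k * 2 ^ Δ ≤ 3 ^ K * k' := by
        rw [c4, c5, ← mul_assoc] at b2
        exact Nat.le_of_mul_le_mul_right b2 (by positivity)
      have d4 : k * 2 ^ Δ ≠ 3 ^ K * k' := by
        intro e
        have f1 : 3 ^ K ∣ k := (Nat.Coprime.pow K Δ (by norm_num : Nat.Coprime 3 2)).dvd_of_dvd_mul_right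
          ⟨k', e⟩
        have f2 : 0 < k := by rw [c4] at a2; exact Nat.pos_of_ne_zero (by rintro rfl; simp at a2)
        have := Nat.le_of_dvd f2 f1
        have := Nat.lt_pow_self (n := K) (by norm_num : 1 < 3)
        omega
      have d5 : (A i u).card + 2 ^ r ≤ 3 ^ K * (A i u').card := by
        rw [c4, c5, ← mul_assoc, ← add_one_mul]
        exact Nat.mul_le_mul_right _ (by omega)
      have d6 : 2 ^ R ≤ E * 3 ^ (j * K) * 2 ^ r := by
        rw [hr, pow_add]; exact Nat.mul_le_mul_right _ (hE _)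
      refine ⟨u', by rw [b1, Nat.succ_mul], Nat.pos_of_ne_zero fun e => by rw [e] at b2; omega, ?_⟩
      calc (j + 1) * 2 ^ R = j * 2 ^ R + 2 ^ R := by ring
        _ ≤ E * (3 ^ (j * K) * (A i u).card) + E * 3 ^ (j * K) * 2 ^ r := add_le_add a3 d6
        _ = E * (3 ^ (j * K) * ((A i u).card + 2 ^ r)) := by ring
        _ ≤ E * (3 ^ (j * K) * (3 ^ K * (A i u').card)) := by gcongr
        _ = _ := by ring
  obtain ⟨u, a1, -, a3⟩ := k4 _ le_rfl
  obtain ⟨k, c3, c4⟩ := k1 i u a1.le
  rw [a1] at c4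
  have d2 : m N ≤ R := le_max_right _ _
  have d3 : 3 ^ N * (A i u).card ≤ K * 2 ^ R := by
    rw [c4, show (2 : ℕ) ^ R = 2 ^ m N * 2 ^ (R - m N) by rw [← pow_add]; congr 1; omega]
    calc _ = k * (3 ^ N * 2 ^ (R - m N)) := by ring
      _ ≤ _ := Nat.mul_le_mul c3 (Nat.mul_le_mul_right _ (m4 N))
  have d4 := a3.trans (Nat.mul_le_mul_left E d3)
  rw [← mul_assoc E K] at d4
  have := Nat.le_of_mul_le_mul_right d4 (by positivity)
  omega

lemma code (p r : ℕ) (hr : r ≤ 2 ^ p) : ∃ C : Finset (List (Fin 2)), C.card = 2 ^ p + r ∧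
    (∀ c ∈ C, p ≤ c.length ∧ c.length ≤ p + 1) ∧
    (∀ c ∈ C, ∀ c' ∈ C, c <+: c' → c = c') ∧
    ∀ v : List (Fin 2), p + 1 ≤ v.length → ∃ c ∈ C, c <+: v := by
  classical
  obtain ⟨S, h1, h2⟩ := Finset.exists_subset_card_eq (s := W 2 p) (n := r) (by rwa [card_W])
  let T := (S ×ˢ (Finset.univ : Finset (Fin 2))).image fun z => z.1 ++ [z.2]
  have hT : ∀ c ∈ T, c.length = p + 1 ∧ c.take p ∈ S := by
    intro c hc
    obtain ⟨z, hz, rfl⟩ := Finset.mem_image.1 hc
    have h3 := (Finset.mem_product.1 hz).1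
    have h4 := mem_W.1 (h1 h3)
    exact ⟨by simp [h4], by rwa [List.take_left' h4]⟩
  have hS : ∀ c ∈ W 2 p \ S, c.length = p := fun c hc => mem_W.1 (Finset.mem_sdiff.1 hc).1
  refine ⟨(W 2 p \ S) ∪ T, ?_, fun c hc => ?_, fun c hc c' hc' h => ?_, fun v hv => ?_⟩
  · have hi : Function.Injective fun z : List (Fin 2) × Fin 2 => z.1 ++ [z.2] := fun z z' e =>
      Prod.ext (List.append_inj' e rfl).1 (List.cons.inj (List.append_inj' e rfl).2).1
    rw [Finset.card_union_of_disjoint, Finset.card_sdiff_of_subset h1, card_W,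
      Finset.card_image_of_injective _ hi, Finset.card_product, h2]
    · simp; omega
    · exact Finset.disjoint_left.2 fun c a b => by have := hS c a; have := (hT c b).1; omega
  · rcases Finset.mem_union.1 hc with h | h
    · have := hS c h; omega
    · have := (hT c h).1; omega
  · rcases Finset.mem_union.1 hc with a | a <;> rcases Finset.mem_union.1 hc' with b | b
    · exact h.eq_of_length (by rw [hS c a, hS c' b])
    · have := (hT c' b).2
      rw [← hS c a, ← List.prefix_iff_eq_take.1 h] at this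
      exact absurd this (Finset.mem_sdiff.1 a).2
    · have := h.length_le
      rw [(hT c a).1, hS c' b] at this; omega
    · exact h.eq_of_length (by rw [(hT c a).1, (hT c' b).1])
  · by_cases h : v.take p ∈ S
    · exact ⟨v.take (p + 1), Finset.mem_union_right _ (Finset.mem_image.2 ⟨(v.take p, v[p]),
        by simp [h], (List.take_succ_eq_append_getElem (by omega)).symm⟩), List.take_prefix _ _⟩
    · exact ⟨v.take p, Finset.mem_union_left _ (Finset.mem_sdiff.2
        ⟨mem_W.2 (by simp; omega), h⟩), List.take_prefix _ _⟩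

def Φ (q : ℕ) (κ : List (Fin 3) → List (Fin 2)) : ℕ → List (Fin 3) → List (Fin 2)
  | 0, _ => []
  | k + 1, u => κ (u.take q) ++ Φ q κ k (u.drop q)

lemma blocks (q p : ℕ) (hq : 0 < q) (h1 : 2 ^ p ≤ 3 ^ q) (h2 : 3 ^ q ≤ 2 ^ (p + 1)) (hp : 0 < p) :
    ∃ φ : List (Fin 3) → List (Fin 2), φ [] = [] ∧
    (∀ u v, q * ((φ u).length - cpl (φ u) (φ v)) ≤ (p + 1) * (u.length - cpl u v + q) ∧
      p * (u.length - cpl u v) ≤ q * ((φ u).length - cpl (φ u) (φ v)) + q * (2 * p + 1)) ∧
    ∀ v, ∃ u, φ u <+: v ∧ v.length ≤ (φ u).length + p := by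
  classical
  obtain ⟨C, c1, c2, c3, c4⟩ := code p (3 ^ q - 2 ^ p) (by rw [pow_succ] at h2; omega)
  let e := Finset.equivOfCardEq (s := W 3 q) (t := C) (by rw [card_W, c1]; omega)
  let κ : List (Fin 3) → List (Fin 2) := fun u => if h : u ∈ W 3 q then e ⟨u, h⟩ else []
  have k1 : ∀ u, u.length = q → κ u ∈ C := fun u h => by
    simp only [κ, dif_pos (mem_W.2 h)]; exact (e _).2
  have k2 : ∀ u u', u.length = q → u'.length = q → κ u = κ u' → u = u' := fun u u' h h' k => by
    simp only [κ, dif_pos (mem_W.2 h), dif_pos (mem_W.2 h')] at k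
    exact congrArg Subtype.val (e.injective (Subtype.ext k))
  have k3 : ∀ c ∈ C, ∃ u, u.length = q ∧ κ u = c := fun c hc =>
    ⟨e.symm ⟨c, hc⟩, mem_W.1 (e.symm _).2, by simp [κ]⟩
  let φ : List (Fin 3) → List (Fin 2) := fun u => Φ q κ (u.length / q) u
  have p0 : ∀ u, u.length < q → φ u = [] := fun u h => by simp only [φ, Nat.div_eq_of_lt h, Φ]
  have p1 : ∀ u, q ≤ u.length → φ u = κ (u.take q) ++ φ (u.drop q) := fun u h => by
    simp only [φ, List.length_drop]
    rw [Nat.div_eq_sub_div hq h, Φ]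
  have p2 : ∀ n (u : List (Fin 3)), u.length = n → q * (φ u).length ≤ (p + 1) * u.length ∧
      p * u.length ≤ q * (φ u).length + q * p := by
    intro n
    induction n using Nat.strong_induction_on with
    | _ n ih =>
      rintro u rfl
      by_cases h : u.length < q
      · rw [p0 u h]; constructor <;> simp; nlinarith
      · have a1 := ih _ (by simp; omega) (u.drop q) rfl
        have a2 := c2 _ (k1 (u.take q) (by simp; omega))
        obtain ⟨t, ht⟩ := Nat.exists_eq_add_of_le (not_lt.1 h)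
        rw [p1 u (by omega), List.length_append]
        rw [List.length_drop, ht, Nat.add_sub_cancel_left] at a1
        rw [ht]
        constructor <;> nlinarith
  refine ⟨φ, p0 [] hq, fun u => ?_, fun v => ?_⟩
  · induction hn : u.length using Nat.strong_induction_on generalizing u with
    | _ n ih =>
      subst hn
      intro v
      by_cases h : q ≤ u.length ∧ q ≤ v.length ∧ u.take q = v.take q
      · have a1 := ih _ (by simp; omega) (u.drop q) rfl (v.drop q)
        have a2 : cpl u v = q + cpl (u.drop q) (v.drop q) := by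
          conv_lhs => rw [← List.take_append_drop q u, ← List.take_append_drop q v, ← h.2.2, cpl_append]
          simp [h.1]
        rw [p1 u h.1, p1 v h.2.1, h.2.2, cpl_append, List.length_append, a2,
          Nat.add_sub_add_left, Nat.sub_add_eq]
        rwa [List.length_drop] at a1
      · have a1 : cpl u v < q := by
          by_contra hc
          push Not at hc
          exact h ⟨hc.trans (cpl_le _ _), hc.trans (by rw [cpl_comm]; exact cpl_le _ _),
            take_of_cpl _ _ _ hc⟩
        have a2 : cpl (φ u) (φ v) ≤ p + 1 := by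
          by_cases hu : u.length < q
          · rw [p0 u hu]; simp [cpl]
          by_cases hv : v.length < q
          · rw [p0 v hv, cpl_nil]; simp
          by_contra hc
          have b1 := take_of_cpl (p + 1) _ _ (not_le.1 hc).le
          have b2 := k1 (u.take q) (by simp; omega)
          have b3 := k1 (v.take q) (by simp; omega)
          have b4 : κ (u.take q) <+: (φ u).take (p + 1) := by
            rw [p1 u (by omega)]
            exact List.prefix_take_iff.2 ⟨List.prefix_append _ _, (c2 _ b2).2⟩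
          have b5 : κ (v.take q) <+: (φ u).take (p + 1) := by
            rw [b1, p1 v (by omega)]
            exact List.prefix_take_iff.2 ⟨List.prefix_append _ _, (c2 _ b3).2⟩
          refine h ⟨by omega, by omega, k2 _ _ (by simp; omega) (by simp; omega) ?_⟩
          rcases List.prefix_or_prefix_of_prefix b4 b5 with b | b
          exacts [c3 _ b2 _ b3 b, (c3 _ b3 _ b2 b).symm]
        have a3 := p2 _ u rfl
        obtain ⟨s, hs⟩ := Nat.exists_eq_add_of_le (cpl_le u v)
        obtain ⟨t, ht⟩ := Nat.exists_eq_add_of_le (cpl_le (φ u) (φ v))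
        rw [show u.length - cpl u v = s by omega, show (φ u).length - cpl (φ u) (φ v) = t by omega]
        rw [hs, ht] at a3
        constructor <;> nlinarith
  · induction hn : v.length using Nat.strong_induction_on generalizing v with
    | _ n ih =>
      subst hn
      by_cases h : v.length ≤ p
      · exact ⟨[], by rw [p0 [] hq]; simp, by omega⟩
      · obtain ⟨c, hc, v', rfl⟩ := c4 v (by omega)
        obtain ⟨u0, a1, rfl⟩ := k3 c hc
        have := (c2 _ hc).1
        obtain ⟨u, a2, a3⟩ := ih _ (by simp; omega) v' rfl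
        refine ⟨u0 ++ u, ?_⟩
        rw [p1 _ (by simp [a1]), List.take_left' a1, List.drop_left' a1]
        exact ⟨(List.prefix_append_right_inj _).2 a2, by simp; omega⟩

theorem exA (L : ℝ) (hL : 1 < L) : ∃ φ : List (Fin 3) → List (Fin 2), ∃ c : ℝ,
    (∀ x y : Fin 4 × List (Fin 3),
      Real.log 3 * dd x y / L - c ≤ Real.log 2 * dd (x.1, φ x.2) (y.1, φ y.2) ∧
      Real.log 2 * dd (x.1, φ x.2) (y.1, φ y.2) ≤ L * (Real.log 3 * dd x y) + c) ∧
    ∀ y : Fin 4 × List (Fin 2), ∃ u, Real.log 2 * dd (y.1, φ u) y ≤ c := by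
  have l2 : 0 < Real.log 2 := Real.log_pos one_lt_two
  have l3 : Real.log 2 ≤ Real.log 3 := Real.log_le_log two_pos (by norm_num)
  obtain ⟨q0, hq⟩ := exists_nat_ge (L / (L - 1))
  set q := q0 + 1 with hq0
  have q1 : L ≤ q * (L - 1) := by
    rw [div_le_iff₀ (by linarith)] at hq
    rw [hq0]; push_cast; nlinarith
  set p := Nat.log 2 (3 ^ q)
  have h1 : 2 ^ p ≤ 3 ^ q := Nat.pow_log_le_self 2 (by positivity)
  have h2 : 3 ^ q ≤ 2 ^ (p + 1) := (Nat.lt_pow_succ_log_self one_lt_two _).le
  have hp : 0 < p := Nat.log_pos one_lt_two (by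
    have := Nat.pow_le_pow_right (by norm_num : 0 < 3) (by omega : 1 ≤ q); omega)
  have h3 : p * Real.log 2 ≤ q * Real.log 3 := by
    rw [← Real.log_pow, ← Real.log_pow]
    exact Real.log_le_log (by positivity) (by exact_mod_cast h1)
  have h4 : q * Real.log 3 ≤ (p + 1) * Real.log 2 := by
    have : Real.log (3 ^ q) ≤ Real.log (2 ^ (p + 1)) :=
      Real.log_le_log (by positivity) (by exact_mod_cast h2)
    rwa [Real.log_pow, Real.log_pow, Nat.cast_succ p] at this
  have q2 : (1 : ℝ) ≤ q := by rw [hq0]; push_cast; linarith [(by positivity : (0 : ℝ) ≤ q0)]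
  have h5 : (p + 1) * Real.log 2 ≤ q * (L * Real.log 3) := by nlinarith
  have h6 : q * (Real.log 3 / L) ≤ p * Real.log 2 := by
    rw [← mul_div_assoc, div_le_iff₀ (by linarith)]
    have : L * (q * Real.log 3) ≤ L * ((p + 1) * Real.log 2) := by gcongr
    nlinarith
  obtain ⟨φ, a0, a1, a2⟩ := blocks q p (by omega) h1 h2 hp
  have key : ∀ x y : Fin 4 × List (Fin 3),
      Real.log 3 / L * (x.2.length - P x y) - Real.log 2 * (2 * p + 1) ≤
        Real.log 2 * ((φ x.2).length - P (x.1, φ x.2) (y.1, φ y.2)) ∧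
      Real.log 2 * ((φ x.2).length - P (x.1, φ x.2) (y.1, φ y.2)) ≤
        L * Real.log 3 * (x.2.length - P x y) + Real.log 2 * (2 * p + 1) := by
    intro x y
    obtain ⟨v, e1, e2⟩ : ∃ v, P x y = cpl x.2 v ∧ P (x.1, φ x.2) (y.1, φ y.2) = cpl (φ x.2) (φ v) := by
      unfold P
      split_ifs
      exacts [⟨_, rfl, rfl⟩, ⟨[], (cpl_nil _).symm, by rw [a0, cpl_nil]⟩]
    rw [e1, e2, ← Nat.cast_sub (cpl_le _ _), ← Nat.cast_sub (cpl_le _ _)]
    obtain ⟨b1, b2⟩ := a1 x.2 v
    generalize x.2.length - cpl x.2 v = s at *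
    generalize (φ x.2).length - cpl (φ x.2) (φ v) = t at *
    have b3 : (q : ℝ) * t ≤ (p + 1) * (s + q) := by exact_mod_cast b1
    have b4 : (p : ℝ) * s ≤ q * t + q * (2 * p + 1) := by exact_mod_cast b2
    have s0 : (0 : ℝ) ≤ s := by positivity
    have p0 : (0 : ℝ) ≤ p := by positivity
    constructor <;> refine le_of_mul_le_mul_left ?_ (by linarith : (0 : ℝ) < q)
    · nlinarith [mul_le_mul_of_nonneg_right h6 s0, mul_le_mul_of_nonneg_right b4 l2.le]
    · nlinarith [mul_le_mul_of_nonneg_right h5 s0, mul_le_mul_of_nonneg_right b3 l2.le,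
        mul_nonneg (mul_nonneg p0 l2.le) (by linarith : (0 : ℝ) ≤ q)]
  have Pc : ∀ {α : Type} [DecidableEq α] (x y : Fin 4 × List α), P x y = P y x := fun x y => by
    simp only [P, cpl_comm x.2, eq_comm]
  refine ⟨φ, 2 * (Real.log 2 * (2 * p + 1)), fun x y => ?_, fun y => ?_⟩
  · have b1 := key x y
    have b2 := key y x
    rw [Pc y x, Pc (y.1, φ y.2)] at b2
    simp only [dd]
    rw [mul_div_right_comm]
    constructor <;> nlinarith [b1.1, b1.2, b2.1, b2.2]
  · obtain ⟨u, ⟨t, b1⟩, b2⟩ := a2 y.2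
    refine ⟨u, ?_⟩
    have b3 : P (y.1, φ u) y = (φ u).length := by
      have := cpl_append (φ u) [] t
      rw [List.append_nil, b1] at this
      simp [P, this, cpl]
    have b4 : (y.2.length : ℝ) ≤ (φ u).length + p := by exact_mod_cast b2
    have p0 : (0 : ℝ) ≤ p := by positivity
    simp only [dd, b3]
    nlinarith

end Pool.Agent.Lib.helper12.TreeQ
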