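import Mathlib
import Pool.Agent.Lib.helper12.TreeQA

set_option autoImplicit false

namespace Pool.Agent.Lib.helper12.TreeQ

structure Wt where
  w : Fin 3 → ℝ
  nn : ∀ i, 0 ≤ w i
  le2 : ∀ i, w i ≤ 2
  sum : ∀ i j, i ≠ j → 1 ≤ w i + w j

def Red : List (Fin 3) → Prop
  | [] => True
  | x :: v => v.head? ≠ some x ∧ Red v

variable (W : Wt)

def wt : List (Fin 3) → ℝ
  | [] => 0
  | x :: v => W.w x + wt v

def cp : List (Fin 3) → List (Fin 3) → ℝ
  | x :: u, y :: v => if x = y then W.w x + cp u v else 0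
  | _, _ => 0

lemma wt_nn : ∀ v, 0 ≤ wt W v
  | [] => le_rfl
  | x :: v => add_nonneg (W.nn x) (wt_nn v)

lemma wt_append (u v : List (Fin 3)) : wt W (u ++ v) = wt W u + wt W v := by
  induction u with
  | nil => simp [wt]
  | cons x u ih => simp [wt, ih, add_assoc]

lemma cp_nil (u : List (Fin 3)) : cp W u [] = 0 := by cases u <;> rfl

lemma cp_comm : ∀ u v, cp W u v = cp W v u
  | [], [] => rfl
  | [], _ :: _ => rfl
  | _ :: _, [] => rfl
  | x :: u, y :: v => by
    by_cases h : x = y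
    · simp [cp, h, cp_comm u v]
    · simp [cp, h, Ne.symm h]

lemma cp_bd : ∀ u v, 0 ≤ cp W u v ∧ cp W u v ≤ wt W u
  | [], _ => by simp [cp, wt]
  | x :: u, [] => ⟨le_rfl, wt_nn W _⟩
  | x :: u, y :: v => by
    have := cp_bd u v
    have := W.nn x
    have := wt_nn W u
    simp only [cp, wt]; split_ifs <;> constructor <;> linarith

lemma cp_append (c u v : List (Fin 3)) : cp W (c ++ u) (c ++ v) = wt W c + cp W u v := by
  induction c with
  | nil => simp [wt]
  | cons x c ih => simp [cp, wt, ih, add_assoc]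

lemma cp_pre (c u : List (Fin 3)) : cp W c (c ++ u) = wt W c := by
  simpa [cp] using cp_append W c [] u

lemma cp_self (c : List (Fin 3)) : cp W c c = wt W c := by simpa using cp_pre W c []

lemma cp_ultra : ∀ u v z, min (cp W u v) (cp W v z) ≤ cp W u z
  | [], _, _ => by simp [cp]
  | _ :: _, [], _ => by simp [cp, (cp_bd W _ _).1]
  | _ :: _, _ :: _, [] => by simp [cp_nil]
  | x :: u, y :: v, a :: z => by
    by_cases h : x = y
    · by_cases h' : y = a
      · subst h h'
        simp only [cp, if_true, min_add_add_left]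
        linarith [cp_ultra u v z]
      · exact (min_le_right _ _).trans (by rw [cp, if_neg h']; exact (cp_bd W _ _).1)
    · exact (min_le_left _ _).trans (by rw [cp, if_neg h]; exact (cp_bd W _ _).1)

lemma cp_head {a : Fin 3} {u : List (Fin 3)} (h : u.head? ≠ some a) (v : List (Fin 3)) :
    cp W u (a :: v) = 0 ∧ cp W (a :: v) u = 0 := by
  rw [cp_comm W (a :: v), and_self]
  cases u with
  | nil => rfl
  | cons x u => exact if_neg (by simpa using h)

lemma len_le : ∀ v, Red v → (v.length : ℝ) ≤ 2 * wt W v + 1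
  | [], _ => by simp [wt]
  | [x], _ => by simp [wt, W.nn x]
  | x :: y :: v, h => by
    have h1 := len_le v h.2.2
    have h2 := W.sum x y (fun e => h.1 (by simp [e]))
    simp only [wt, List.length_cons]; push_cast; linarith

lemma red_take : ∀ (n : ℕ) v, Red v → Red (v.take n)
  | 0, _, _ => trivial
  | _ + 1, [], _ => trivial
  | n + 1, x :: v, h => ⟨fun e => h.1 (by
      cases n <;> cases v <;> simp_all), red_take n v h.2⟩

structure Y where
  v : List (Fin 3)
  t : ℝ
  red : Red v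
  t0 : 0 ≤ t
  t1 : t ≤ wt W v

variable {W}

def mm (p q : Y W) : ℝ := min (min p.t q.t) (cp W p.v q.v)

lemma mm_ultra (p q r : Y W) : min (mm p q) (mm q r) ≤ mm p r := by
  refine le_min (le_min ?_ ?_) (le_trans (min_le_min ?_ ?_) (cp_ultra W p.v q.v r.v))
  · exact (min_le_left _ _).trans ((min_le_left _ _).trans (min_le_left _ _))
  · exact (min_le_right _ _).trans ((min_le_left _ _).trans (min_le_right _ _))
  exacts [min_le_right _ _, min_le_right _ _]

lemma mm_comm (p q : Y W) : mm p q = mm q p := by simp only [mm, cp_comm W p.v, min_comm p.t]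

lemma mm_le (p q : Y W) : mm p q ≤ p.t ∧ mm p q ≤ q.t ∧ mm p q ≤ cp W p.v q.v ∧ 0 ≤ mm p q :=
  ⟨(min_le_left _ _).trans (min_le_left _ _), (min_le_left _ _).trans (min_le_right _ _),
    min_le_right _ _, le_min (le_min p.t0 q.t0) (cp_bd W _ _).1⟩

noncomputable instance : PseudoMetricSpace (Y W) where
  dist p q := p.t + q.t - 2 * mm p q
  dist_self p := by simp [mm, cp_self, p.t1, two_mul]
  dist_comm p q := by rw [mm_comm, add_comm]
  dist_triangle p q r := by
    have h1 := mm_le p q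
    have h2 := mm_le q r
    rcases min_le_iff.1 (mm_ultra p q r) with h | h <;> linarith

lemma dist_def (p q : Y W) : dist p q = p.t + q.t - 2 * min (min p.t q.t) (cp W p.v q.v) := rfl

variable (W) in
abbrev X := SeparationQuotient (Y W)

noncomputable abbrev mk (p : Y W) : X W := SeparationQuotient.mk p

lemma dist_mk (p q : Y W) : dist (mk p) (mk q) = dist p q := SeparationQuotient.dist_mk p q

lemma hyp (x y z w : X W) :
    min ((dist x w + dist y w - dist x y) / 2) ((dist y w + dist z w - dist y z) / 2) - 0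
      ≤ (dist x w + dist z w - dist x z) / 2 := by
  obtain ⟨x, rfl⟩ := SeparationQuotient.surjective_mk x
  obtain ⟨y, rfl⟩ := SeparationQuotient.surjective_mk y
  obtain ⟨z, rfl⟩ := SeparationQuotient.surjective_mk z
  obtain ⟨w, rfl⟩ := SeparationQuotient.surjective_mk w
  simp only [dist_mk]
  change min ((x.t + w.t - 2 * mm x w + (y.t + w.t - 2 * mm y w) - (x.t + y.t - 2 * mm x y)) / 2)
    ((y.t + w.t - 2 * mm y w + (z.t + w.t - 2 * mm z w) - (y.t + z.t - 2 * mm y z)) / 2) - 0 ≤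
    (x.t + w.t - 2 * mm x w + (z.t + w.t - 2 * mm z w) - (x.t + z.t - 2 * mm x z)) / 2
  have h1 := mm_ultra x y z
  have h2 := mm_ultra x w z
  have h3 := mm_ultra y x w
  have h4 := mm_ultra y z w
  rw [mm_comm w z] at h2
  rw [mm_comm y x] at h3
  rw [sub_zero, min_le_iff]
  by_contra hc
  push Not at hc
  rcases min_le_iff.1 h1 with h1 | h1 <;> rcases min_le_iff.1 h2 with h2 | h2 <;>
    rcases min_le_iff.1 h3 with h3 | h3 <;> rcases min_le_iff.1 h4 with h4 | h4 <;> linarith [hc.1, hc.2]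

def cl (v : List (Fin 3)) (h : Red v) (τ : ℝ) : Y W :=
  ⟨v, max 0 (min τ (wt W v)), h, le_max_left _ _, max_le (wt_nn W v) (min_le_right _ _)⟩

lemma cl_t {v : List (Fin 3)} (h : Red v) {τ : ℝ} (h0 : 0 ≤ τ) (h1 : τ ≤ wt W v) :
    (cl (W := W) v h τ).t = τ := by simp [cl, h0, h1]

lemma geod (x y : X W) : ∃ γ : ℝ → X W, γ 0 = x ∧ γ (dist x y) = y ∧
    ∀ s ∈ Set.Icc (0:ℝ) (dist x y), ∀ t ∈ Set.Icc (0:ℝ) (dist x y),
      dist (γ s) (γ t) = |s - t| := by
  obtain ⟨p, rfl⟩ := SeparationQuotient.surjective_mk x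
  obtain ⟨q, rfl⟩ := SeparationQuotient.surjective_mk y
  have hD : dist (mk p) (mk q) = p.t + q.t - 2 * mm p q := dist_mk p q
  obtain ⟨m1, m2, m3, m4⟩ := mm_le p q
  have p1 := p.t1
  have q1 := q.t1
  let g : ℝ → Y W := fun τ => if τ ≤ p.t - mm p q then cl p.v p.red (p.t - τ)
    else cl q.v q.red (τ - p.t + 2 * mm p q)
  have hg : ∀ τ, 0 ≤ τ → τ ≤ p.t + q.t - 2 * mm p q →
      (τ ≤ p.t - mm p q ∧ (g τ).v = p.v ∧ (g τ).t = p.t - τ) ∨
      (p.t - mm p q < τ ∧ (g τ).v = q.v ∧ (g τ).t = τ - p.t + 2 * mm p q) := by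
    intro τ h0 h1
    by_cases h : τ ≤ p.t - mm p q
    · exact Or.inl ⟨h, by simp only [g, if_pos h, cl], by
        simp only [g, if_pos h]; exact cl_t _ (by linarith) (by linarith)⟩
    · exact Or.inr ⟨not_le.1 h, by simp only [g, if_neg h, cl], by
        simp only [g, if_neg h]; exact cl_t _ (by linarith) (by linarith)⟩
  have e : min (min p.t q.t) (cp W p.v q.v) = mm p q := rfl
  rw [hD]
  refine ⟨fun τ => mk (g τ), dist_eq_zero.1 ?_, dist_eq_zero.1 ?_, fun s hs t ht => ?_⟩
  · rcases hg 0 le_rfl (by linarith) with ⟨a, b, c⟩ | ⟨a, b, c⟩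
    · rw [dist_mk, dist_def, b, c, cp_self]; simp [p1, two_mul]
    · linarith
  · rcases hg _ (by linarith) le_rfl with ⟨a, b, c⟩ | ⟨a, b, c⟩ <;>
      rw [dist_mk, dist_def, b, c] <;> simp only [cp_self, min_def] <;> split_ifs <;> linarith
  · have e' := e
    rw [← cp_comm] at e'
    rcases hg s hs.1 hs.2 with ⟨a, b, c⟩ | ⟨a, b, c⟩ <;>
      rcases hg t ht.1 ht.2 with ⟨a', b', c'⟩ | ⟨a', b', c'⟩ <;>
      rw [dist_mk, dist_def, b, c, b', c'] <;> rcases abs_cases (s - t) with k | k <;>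
      rw [k.1] <;> simp only [cp_self, min_def, cp_comm W q.v p.v] at e ⊢ <;> split_ifs at e ⊢ <;>
      linarith [hs.1, hs.2, ht.1, ht.2, k.2]

def vt (v : List (Fin 3)) (h : Red v) : Y W := ⟨v, wt W v, h, wt_nn W v, le_rfl⟩

lemma dist_vt (u v : List (Fin 3)) (hu : Red u) (hv : Red v) :
    dist (mk (vt (W := W) u hu)) (mk (vt v hv)) = wt W u + wt W v - 2 * cp W u v := by
  rw [dist_mk, dist_def, min_eq_right]
  · rfl
  · exact le_min (cp_bd W _ _).2 (by rw [cp_comm]; exact (cp_bd W _ _).2)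

noncomputable def o : X W := mk (vt [] trivial)

lemma dist_o (p : Y W) : dist (mk p) o = p.t := by
  rw [o, dist_mk, dist_def]; simp [vt, wt, cp_nil, p.t0]

instance : ProperSpace (X W) := by
  classical
  refine .of_seq_closedBall (x := o) (l := Filter.atTop) (r := id) Filter.tendsto_id
    (Filter.Eventually.of_forall fun R => ?_)
  obtain ⟨N, hN⟩ := exists_nat_ge (2 * R + 1)
  let seg : List (Fin 3) → ℝ → X W := fun v τ => if h : Red v then mk (cl v h τ) else o
  have hc : ∀ v, Continuous (seg v) := by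
    intro v
    by_cases h : Red v
    · simp only [seg, dif_pos h]
      refine (LipschitzWith.of_dist_le_mul (K := 1) fun a b => ?_).continuous
      have := wt_nn W v
      rw [dist_mk, dist_def, Real.dist_eq]
      simp only [cl, cp_self, NNReal.coe_one, one_mul]
      rcases abs_cases (a - b) with k | k <;> rw [k.1] <;> simp only [min_def, max_def] <;>
        split_ifs <;> linarith [k.2]
    · simp only [seg, dif_neg h]; exact continuous_const
  refine ((List.finite_length_le (Fin 3) N).isCompact_biUnion fun v _ =>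
    (isCompact_Icc (a := 0) (b := R)).image (hc v)).of_isClosed_subset Metric.isClosed_closedBall ?_
  intro x hx
  obtain ⟨p, rfl⟩ := SeparationQuotient.surjective_mk x
  have h1 : p.t ≤ R := by rw [← dist_o]; exact hx
  have h2 := red_take N _ p.red
  have h3 : p.t ≤ wt W (p.v.take N) := by
    by_cases h : p.v.length ≤ N
    · rw [List.take_of_length_le h]; exact p.t1
    · have := len_le W _ h2
      rw [List.length_take, min_eq_left (by omega)] at this
      linarith
  refine Set.mem_biUnion (x := p.v.take N) (by simp) ⟨p.t, ⟨p.t0, h1⟩, dist_eq_zero.1 ?_⟩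
  have h4 := cp_pre W (p.v.take N) (p.v.drop N)
  rw [List.take_append_drop] at h4
  simp only [seg, dif_pos h2]
  rw [dist_mk, dist_def, cl_t h2 p.t0 h3]
  simp [cl, h4, h3, two_mul]

lemma gen_ex (a : Fin 3) (p : Y W) : ∃ q : Y W,
    (∃ v, p.v = a :: v ∧ v.head? ≠ some a ∧ W.w a ≤ p.t ∧ q.v = v ∧ q.t = p.t - W.w a) ∨
    (∃ v, p.v = a :: v ∧ p.t < W.w a ∧ q.v = [a] ∧ q.t = W.w a - p.t) ∨
    (p.v.head? ≠ some a ∧ q.v = a :: p.v ∧ q.t = p.t + W.w a) := by
  obtain ⟨v, t, h, t0, t1⟩ := p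
  by_cases e : v.head? = some a
  · obtain ⟨v, rfl⟩ := List.head?_eq_some_iff.1 e
    by_cases k : W.w a ≤ t
    · exact ⟨⟨v, t - W.w a, h.2, by linarith, by rw [wt] at t1; linarith⟩,
        Or.inl ⟨v, rfl, h.1, k, rfl, rfl⟩⟩
    · exact ⟨⟨[a], W.w a - t, by simp [Red], by linarith, by simp [wt, t0]⟩,
        Or.inr (Or.inl ⟨v, rfl, not_le.1 k, rfl, rfl⟩)⟩
  · exact ⟨⟨a :: v, t + W.w a, ⟨e, h⟩, add_nonneg t0 (W.nn a), by rw [wt]; linarith⟩,
      Or.inr (Or.inr ⟨e, rfl, rfl⟩)⟩

noncomputable def gen (a : Fin 3) (p : Y W) : Y W := (gen_ex a p).choose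

lemma gen_dist (a : Fin 3) (p q : Y W) : dist (gen a p) (gen a q) = dist p q := by
  have p0 := p.t0
  have q0 := q.t0
  have w0 := W.nn a
  rw [dist_def, dist_def]
  rcases (gen_ex a p).choose_spec with ⟨u, a1, a2, a3, a4, a5⟩ | ⟨u, a1, a3, a4, a5⟩ | ⟨a1, a4, a5⟩ <;>
    rcases (gen_ex a q).choose_spec with ⟨v, b1, b2, b3, b4, b5⟩ | ⟨v, b1, b3, b4, b5⟩ | ⟨b1, b4, b5⟩ <;>
    rw [gen, gen, a4, a5, b4, b5]
  · rw [a1, b1]; simp only [cp, if_true, min_def]; split_ifs <;> linarith
  · rw [a1, b1, (cp_head W a2 []).1]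
    have c0 := (cp_bd W u v).1
    simp only [cp, if_true, min_def]; split_ifs <;> linarith
  · rw [a1, (cp_head W b1 _).2, (cp_head W a2 _).1]
    simp only [min_def]; split_ifs <;> linarith
  · rw [a1, b1, (cp_head W b2 []).2]
    have c0 := (cp_bd W u v).1
    simp only [cp, if_true, min_def]; split_ifs <;> linarith
  · have c0 := (cp_bd W u v).1
    rw [a1, b1]; simp only [cp, if_true, min_def]; split_ifs <;> linarith
  · rw [a1, (cp_head W b1 _).2]
    simp only [cp, if_true, min_def]; split_ifs <;> linarith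
  · rw [b1, (cp_head W a1 _).1, (cp_head W b2 _).2]
    simp only [min_def]; split_ifs <;> linarith
  · rw [b1, (cp_head W a1 _).1]
    simp only [cp, cp_nil, if_true, min_def]; split_ifs <;> linarith
  · simp only [cp, if_true, min_def]; split_ifs <;> linarith

lemma gen_gen (a : Fin 3) (p : Y W) : dist (gen a (gen a p)) p = 0 := by
  have p0 := p.t0
  have p1 := p.t1
  have w0 := W.nn a
  rw [dist_def]
  rcases (gen_ex a p).choose_spec with ⟨u, a1, a2, a3, a4, a5⟩ | ⟨u, a1, a3, a4, a5⟩ | ⟨a1, a4, a5⟩ <;>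
    rcases (gen_ex a (gen a p)).choose_spec with
      ⟨v, b1, b2, b3, b4, b5⟩ | ⟨v, b1, b3, b4, b5⟩ | ⟨b1, b4, b5⟩ <;>
    rw [← gen] at a4 a5 b4 b5 <;> rw [b4, b5] <;> rw [a4] at b1 <;> rw [a5]
  · exact absurd (by simp [b1]) a2
  · exact absurd (by simp [b1]) a2
  · rw [a4, ← a1, cp_self]; simp [p1, two_mul]
  · rw [a5] at b3
    rw [← (List.cons.inj b1).2]; simp only [cp, min_def]; split_ifs <;> linarith
  · rw [a1]; simp only [cp, min_def, if_true]; split_ifs <;> linarith
  · simp at b1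
  · rw [← (List.cons.inj b1).2, cp_self]; simp [p1, two_mul]
  · rw [a5] at b3; linarith
  · simp at b1

noncomputable def genX (a : Fin 3) : X W → X W :=
  SeparationQuotient.lift (fun p => mk (gen a p)) fun p q h => dist_eq_zero.1 (by
    rw [dist_mk, gen_dist]; exact Metric.inseparable_iff.1 h)

lemma genX_mk (a : Fin 3) (p : Y W) : genX a (mk p) = mk (gen a p) := rfl

lemma genX_inv (a : Fin 3) : Function.Involutive (genX (W := W) a) := fun x => by
  obtain ⟨p, rfl⟩ := SeparationQuotient.surjective_mk x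
  exact dist_eq_zero.1 (by rw [genX_mk, genX_mk, dist_mk, gen_gen])

variable (W) in
noncomputable def σ (a : Fin 3) : Equiv.Perm (X W) := (genX_inv a).toPerm

lemma σ_mul (a : Fin 3) : σ W a * σ W a = 1 := Equiv.ext (genX_inv a)

variable (W) in
noncomputable def ev (w : List (Fin 3)) : Equiv.Perm (X W) := (w.map (σ W)).prod

lemma ev_cons (a : Fin 3) (w : List (Fin 3)) : ev W (a :: w) = σ W a * ev W w := by simp [ev]

lemma ev_iso (w : List (Fin 3)) (x y : X W) : dist (ev W w x) (ev W w y) = dist x y := by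
  induction w with
  | nil => rfl
  | cons a w ih =>
    rw [← ih, ev_cons, Equiv.Perm.mul_apply, Equiv.Perm.mul_apply]
    obtain ⟨p, hp⟩ := SeparationQuotient.surjective_mk (ev W w x)
    obtain ⟨q, hq⟩ := SeparationQuotient.surjective_mk (ev W w y)
    rw [← hp, ← hq]
    exact (dist_mk _ _).trans ((gen_dist a p q).trans (dist_mk _ _).symm)

lemma ev_o : ∀ (w : List (Fin 3)) (h : Red w), ev W w o = mk (vt w h)
  | [], _ => rfl
  | a :: w, h => by
    rw [ev_cons, Equiv.Perm.mul_apply, ev_o w h.2]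
    refine dist_eq_zero.1 ((dist_mk (gen a _) _).trans ?_)
    rcases (gen_ex a (vt (W := W) w h.2)).choose_spec with
      ⟨u, a1, -⟩ | ⟨u, a1, -⟩ | ⟨a1, a4, a5⟩
    · exact absurd (by rw [show w = a :: u from a1]; rfl) h.1
    · exact absurd (by rw [show w = a :: u from a1]; rfl) h.1
    · rw [dist_def, gen, a4, a5]; simp [vt, cp_self, wt, add_comm, two_mul]

lemma cocpt (x : X W) : ∃ w, dist (ev W w x) o ≤ 2 := by
  obtain ⟨p, rfl⟩ := SeparationQuotient.surjective_mk x
  induction hn : p.v.length generalizing p with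
  | zero =>
    have := p.t1
    rw [List.length_eq_zero_iff.1 hn] at this
    exact ⟨[], (dist_o p).trans_le (this.trans (by simp [wt]))⟩
  | succ n ih =>
    obtain ⟨a, v, e⟩ := List.exists_cons_of_length_eq_add_one hn
    rcases (gen_ex a p).choose_spec with ⟨u, a1, a2, a3, a4, a5⟩ | ⟨u, a1, a3, -⟩ | ⟨a1, -⟩
    · obtain ⟨w, hw⟩ := ih (gen a p) (by rw [gen, a4]; simpa [a1] using hn)
      refine ⟨w ++ [a], ?_⟩
      have e : ev W (w ++ [a]) = ev W w * σ W a := by simp [ev]
      rw [e]; exact hw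
    · exact ⟨[], (dist_o p).trans_le (a3.le.trans (W.le2 a))⟩
    · simp [e] at a1

lemma pd {Γ : Type} (F : List (Fin 3) → Γ) (ρ : Γ → Equiv.Perm (X W))
    (h : ∀ γ, ∃ w, Red w ∧ γ = F w ∧ ρ γ = ev W w) {K L : Set (X W)} (hK : IsCompact K)
    (hL : IsCompact L) : Set.Finite {γ : Γ | (ρ γ '' K ∩ L).Nonempty} := by
  obtain ⟨R, hR⟩ := (hK.union hL).isBounded.subset_closedBall o
  obtain ⟨N, hN⟩ := exists_nat_ge (4 * R + 1)
  refine ((List.finite_length_le (Fin 3) N).image F).subset ?_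
  rintro γ ⟨_, ⟨x, h1, rfl⟩, h2⟩
  obtain ⟨w, a1, a2, a3⟩ := h γ
  refine ⟨w, ?_, a2.symm⟩
  have b1 : dist x o ≤ R := hR (Or.inl h1)
  have b2 : dist (ev W w x) o ≤ R := a3 ▸ hR (Or.inr h2)
  have b3 := dist_triangle_left (ev W w o) o (ev W w x)
  rw [ev_iso, ev_o w a1, dist_o] at b3
  have b4 := len_le W w a1
  exact Nat.cast_le.1 (show (w.length : ℝ) ≤ N by simp only [vt] at b3; linarith)

def root : Fin 4 → List (Fin 3) := ![[1], [2], [0, 1], [0, 2]]
def last : Fin 4 → Fin 3 := ![1, 2, 1, 2]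

def enc {k : ℕ} (syl : Fin 3 → Fin k → List (Fin 3)) (nxt : Fin 3 → Fin k → Fin 3) :
    Fin 3 → List (Fin k) → List (Fin 3)
  | _, [] => []
  | x, d :: u => syl x d ++ enc syl nxt (nxt x d) u

lemma model {k : ℕ} (s : ℝ) (s0 : 0 < s) (s2 : s ≤ 2) (syl : Fin 3 → Fin k → List (Fin 3))
    (nxt : Fin 3 → Fin k → Fin 3) (St : Fin 3 → Prop) (H0 : St 1 ∧ St 2)
    (H1 : ∀ x d, St x → St (nxt x d))
    (H2 : ∀ x d, St x → ∀ r, Red (nxt x d :: r) → Red (x :: (syl x d ++ r)))
    (H3 : ∀ x d, St x → wt W (syl x d) = s)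
    (H4 : ∀ x d d', St x → d ≠ d' → ∀ r r', cp W (syl x d ++ r) (syl x d' ++ r') = 0)
    (H5 : ∀ x v, St x → Red (x :: v) → wt W v ≤ 2 ∨ ∃ d r, v = syl x d ++ r ∧ Red (nxt x d :: r)) :
    ∃ e : Fin 4 × List (Fin k) → X W, (∀ x y, |dist (e x) (e y) - s * dd x y| ≤ 8) ∧
      ∀ z, ∃ x, dist (e x) z ≤ 8 := by
  have e1 : ∀ u x, St x → Red (x :: enc syl nxt x u) ∧ wt W (enc syl nxt x u) = s * u.length := by
    intro u
    induction u with
    | nil => intro x _; simp [enc, Red, wt]
    | cons d u ih =>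
      intro x hx
      have := ih _ (H1 x d hx)
      exact ⟨H2 x d hx _ this.1, by rw [enc, wt_append, H3 x d hx, this.2]; simp; ring⟩
  have e2 : ∀ u v x, St x → cp W (enc syl nxt x u) (enc syl nxt x v) = s * cpl u v := by
    intro u
    induction u with
    | nil => intro v x _; simp [enc, cp, cpl]
    | cons d u ih =>
      intro v x hx
      cases v with
      | nil => simp [enc, cp_nil, cpl]
      | cons d' v =>
        by_cases h : d = d'
        · subst h
          rw [enc, enc, cp_append, H3 x d hx, ih v _ (H1 x d hx)]; simp [cpl]; ring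
        · rw [enc, enc, H4 x d d' hx h]; simp [cpl, h]
  have e3 : ∀ n (v : List (Fin 3)) x t, v.length = n → St x → Red (x :: v) → 0 ≤ t → t ≤ wt W v →
      ∃ u r, v = enc syl nxt x u ++ r ∧ t - 2 ≤ wt W (enc syl nxt x u) ∧
        wt W (enc syl nxt x u) ≤ t := by
    intro n
    induction n using Nat.strong_induction_on with
    | _ n ih =>
      rintro v x t rfl h1 h2 h3 h4
      by_cases h : t ≤ 2
      · exact ⟨[], v, rfl, by simp [enc, wt, h], by simp [enc, wt, h3]⟩
      · obtain a | ⟨d, r, rfl, a⟩ := H5 x v h1 h2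
        · linarith
        have b1 := H3 x d h1
        have b2 : 0 < (syl x d).length := List.length_pos_iff.2 fun e => by
          rw [e, wt] at b1; linarith
        rw [wt_append] at h4
        obtain ⟨u, r', rfl, c1, c2⟩ := ih _ (by simp; omega) r _ (t - s) rfl (H1 x d h1) a
          (by linarith) (by linarith)
        exact ⟨d :: u, r', by simp [enc], by rw [enc, wt_append]; linarith,
          by rw [enc, wt_append]; linarith⟩
  have r0 : ∀ i, St (last i) := fun i => by fin_cases i; exacts [H0.1, H0.2, H0.1, H0.2]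
  have r1 : ∀ i r, Red (last i :: r) → Red (root i ++ r) := fun i r h => by
    fin_cases i <;> simpa [root, last, Red] using h
  have r2 : ∀ i, wt W (root i) ≤ 4 := fun i => by
    have := W.le2 0; have := W.le2 1; have := W.le2 2
    fin_cases i <;> simp [root, wt] <;> linarith
  have r3 : ∀ i j r r', i ≠ j → cp W (root i ++ r) (root j ++ r') ≤ 2 := fun i j r r' h => by
    have := W.le2 0
    fin_cases i <;> fin_cases j <;> simp [root, cp, this] at h ⊢
  have r4 : ∀ v, Red v → wt W v ≤ 2 ∨ ∃ i r, v = root i ++ r ∧ Red (last i :: r) := by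
    intro v h
    rcases v with _ | ⟨x, v⟩
    · simp [wt]
    fin_cases x
    · rcases v with _ | ⟨y, v⟩
      · simp [wt, W.le2]
      fin_cases y
      · simp [Red] at h
      exacts [Or.inr ⟨2, v, rfl, h.2⟩, Or.inr ⟨3, v, rfl, h.2⟩]
    exacts [Or.inr ⟨0, v, rfl, h⟩, Or.inr ⟨1, v, rfl, h⟩]
  refine ⟨fun x => mk (vt (root x.1 ++ enc syl nxt (last x.1) x.2) (r1 _ _ (e1 _ _ (r0 _)).1)),
    fun x y => ?_, fun z => ?_⟩
  · rw [dist_vt, wt_append, wt_append, (e1 _ _ (r0 _)).2, (e1 _ _ (r0 _)).2, dd, P]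
    split_ifs with h
    · rw [← h, cp_append, e2 _ _ _ (r0 _)]; ring_nf; simp
    · have := r3 _ _ (enc syl nxt (last x.1) x.2) (enc syl nxt (last y.1) y.2) h
      have := (cp_bd W (root x.1 ++ enc syl nxt (last x.1) x.2)
        (root y.1 ++ enc syl nxt (last y.1) y.2)).1
      have := r2 x.1
      have := r2 y.1
      have := wt_nn W (root x.1)
      have := wt_nn W (root y.1)
      rw [abs_le]; constructor <;> push_cast <;> linarith
  · obtain ⟨p, rfl⟩ := SeparationQuotient.surjective_mk z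
    by_cases h : p.t ≤ 4
    · refine ⟨(0, []), (dist_triangle_right _ _ o).trans ?_⟩
      rw [dist_o, dist_o]
      have := r2 0
      simp only [vt, enc, List.append_nil]; linarith
    · have p1 := p.t1
      obtain a | ⟨i, r, a1, a2⟩ := r4 _ p.red
      · linarith
      rw [a1, wt_append] at p1
      obtain ⟨u, r', rfl, c1, c2⟩ := e3 _ r _ (p.t - wt W (root i)) rfl (r0 i) a2
        (by linarith [r2 i]) (by linarith)
      refine ⟨(i, u), ?_⟩
      rw [dist_mk, dist_def, a1, ← List.append_assoc]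
      simp only [vt, cp_pre, wt_append, min_def]
      split_ifs <;> linarith

end Pool.Agent.Lib.helper12.TreeQ
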