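import Mathlib
import Pool.Agent.Lib.helper12.TreeQB

set_option autoImplicit false

namespace Pool.Agent.Lib.helper12.TreeQ

lemma l3 : 1 ≤ Real.log 3 ∧ Real.log 3 ≤ 2 := by
  constructor
  · rw [Real.le_log_iff_exp_le (by norm_num)]; linarith [Real.exp_one_lt_d9]
  · linarith [Real.log_le_sub_one_of_pos (x := 3) (by norm_num)]

lemma l2 : 1 / 2 ≤ Real.log 2 ∧ Real.log 2 ≤ 2 := by
  constructor
  · linarith [Real.log_two_gt_d9]
  · linarith [Real.log_two_lt_d9]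

noncomputable def W0 : Wt where
  w := ![0, Real.log 3, Real.log 3]
  nn i := by have := l3; fin_cases i <;> simp <;> linarith
  le2 i := by have := l3; fin_cases i <;> simp <;> linarith
  sum i j h := by have := l3; fin_cases i <;> fin_cases j <;> simp at h ⊢ <;> linarith

noncomputable def W1 : Wt where
  w := fun _ => Real.log 2
  nn _ := by linarith [l2]
  le2 _ := l2.2
  sum _ _ _ := by linarith [l2]

lemma m0 : ∃ e : Fin 4 × List (Fin 3) → X W0,
    (∀ x y, |dist (e x) (e y) - Real.log 3 * dd x y| ≤ 8) ∧ ∀ z, ∃ x, dist (e x) z ≤ 8 := by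
  refine model _ (by linarith [l3]) l3.2 (fun x => ![[-x], [0, 1], [0, 2]]) (fun x => ![-x, 1, 2])
    (· ≠ 0) (by decide) (by decide) ?_ ?_ ?_ ?_
  · intro x d hx r h
    fin_cases x <;> fin_cases d <;> simp_all [Red] <;> decide
  · intro x d hx
    fin_cases x <;> fin_cases d <;> simp_all [wt, W0]
  · intro x d d' hx h r r'
    fin_cases x <;> fin_cases d <;> fin_cases d' <;> simp_all [cp, W0]
  · intro x v hx h
    rcases v with _ | ⟨y, v⟩
    · simp [wt]
    by_cases e : y = 0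
    · subst e
      rcases v with _ | ⟨z, v⟩
      · simp [wt, W0]
      fin_cases z
      · simp [Red] at h
      exacts [Or.inr ⟨1, v, rfl, h.2.2⟩, Or.inr ⟨2, v, rfl, h.2.2⟩]
    · have : y = -x := by
        have := h.1
        clear h
        revert x y; simp; decide
      subst this
      exact Or.inr ⟨0, v, rfl, h.2⟩

lemma m1 : ∃ e : Fin 4 × List (Fin 2) → X W1,
    (∀ x y, |dist (e x) (e y) - Real.log 2 * dd x y| ≤ 8) ∧ ∀ z, ∃ x, dist (e x) z ≤ 8 := by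
  refine model _ (by linarith [l2]) l2.2 (fun x d => [x + 1 + d.castSucc])
    (fun x d => x + 1 + d.castSucc) (fun _ => True) ⟨trivial, trivial⟩ (fun _ _ _ => trivial)
    ?_ ?_ ?_ ?_
  · intro x d _ r h
    refine ⟨?_, h⟩
    clear h
    revert x d; simp; decide
  · intro x d _
    simp [wt, W1]
  · intro x d d' _ h r r'
    exact if_neg (by revert x d d'; decide)
  · intro x v _ h
    rcases v with _ | ⟨y, v⟩
    · simp [wt]
    obtain ⟨d, rfl⟩ : ∃ d : Fin 2, y = x + 1 + d.castSucc := by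
      have := h.1
      clear h
      revert x y; simp; decide
    exact Or.inr ⟨d, v, rfl, h.2⟩

noncomputable def F (w : List (Fin 3)) : Equiv.Perm (X W0) × Equiv.Perm (X W1) := (ev W0 w, ev W1 w)

noncomputable def G : Subgroup (Equiv.Perm (X W0) × Equiv.Perm (X W1)) :=
  Subgroup.closure (Set.range fun a => F [a])

lemma F_cons (a : Fin 3) (w : List (Fin 3)) : F (a :: w) = F [a] * F w := by simp [F, ev]

lemma F_mul (a : Fin 3) : F [a] * F [a] = 1 := by simp [F, ev, σ_mul]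

lemma F_mem (w : List (Fin 3)) : F w ∈ G := by
  induction w with
  | nil => exact G.one_mem
  | cons a w ih => rw [F_cons]; exact G.mul_mem (Subgroup.subset_closure ⟨a, rfl⟩) ih

lemma G_red (g : Equiv.Perm (X W0) × Equiv.Perm (X W1)) (hg : g ∈ G) : ∃ w, Red w ∧ g = F w := by
  have key : ∀ a g, (∃ w, Red w ∧ g = F w) → ∃ w, Red w ∧ F [a] * g = F w := by
    rintro a _ ⟨w, h, rfl⟩
    by_cases e : w.head? = some a
    · obtain ⟨v, rfl⟩ := List.head?_eq_some_iff.1 e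
      exact ⟨v, h.2, by rw [F_cons a v, ← mul_assoc, F_mul, one_mul]⟩
    · exact ⟨a :: w, ⟨e, h⟩, (F_cons a w).symm⟩
  induction hg using Subgroup.closure_induction_left with
  | one => exact ⟨[], trivial, rfl⟩
  | mul_left x hx y _ ih => obtain ⟨a, rfl⟩ := hx; exact key a y ih
  | inv_mul_cancel x hx y _ ih =>
    obtain ⟨a, rfl⟩ := hx
    rw [inv_eq_of_mul_eq_one_right (F_mul a)]; exact key a y ih

lemma act {W : Wt} (ρ : G →* Equiv.Perm (X W)) (h : ∀ w, ρ ⟨F w, F_mem w⟩ = ev W w) :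
    letI := MulAction.compHom (X W) ρ
    IsIsometricSMul G (X W) ∧ ProperlyDiscontinuousSMul G (X W) ∧
      ∃ K : Set (X W), IsCompact K ∧ ∀ x : X W, ∃ g : G, g • x ∈ K := by
  let _ := MulAction.compHom (X W) ρ
  have h' : ∀ γ : G, ∃ w, Red w ∧ γ = ⟨F w, F_mem w⟩ ∧ ρ γ = ev W w := fun γ => by
    obtain ⟨w, a, b⟩ := G_red γ.1 γ.2
    have : γ = ⟨F w, F_mem w⟩ := Subtype.ext b
    exact ⟨w, a, this, by rw [this, h]⟩
  refine ⟨⟨fun γ => Isometry.of_dist_eq fun x y => ?_⟩, ⟨fun hK hL => ?_⟩,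
    _, isCompact_closedBall o 2, fun x => ?_⟩
  · obtain ⟨w, -, -, a⟩ := h' γ
    change dist (ρ γ x) (ρ γ y) = _
    rw [a, ev_iso]
  · exact pd _ ρ h' hK hL
  · obtain ⟨w, a⟩ := cocpt x
    exact ⟨⟨F w, F_mem w⟩, by change ρ _ x ∈ _; rw [h]; exact a⟩

lemma near : ∃ (e0 : Fin 4 × List (Fin 3) → X W0) (r : X W0 → Fin 4 × List (Fin 3)),
    (∀ x y, |dist (e0 x) (e0 y) - Real.log 3 * dd x y| ≤ 8) ∧ (∀ x, dist (e0 (r x)) x ≤ 8) ∧
    ∀ x y, |Real.log 3 * dd (r x) (r y) - dist x y| ≤ 24 := by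
  obtain ⟨e0, a0, b0⟩ := m0
  choose r hr using b0
  refine ⟨e0, r, a0, hr, fun x y => ?_⟩
  have := abs_le.1 (a0 (r x) (r y))
  have := abs_le.1 ((dist_dist_dist_le (e0 (r x)) (e0 (r y)) x y).trans (add_le_add (hr x) (hr y)))
  rw [abs_le]; constructor <;> linarith

lemma noQI (f : X W0 → X W1) (c : ℝ)
    (c1 : ∀ x y, dist x y / 1 - c ≤ dist (f x) (f y) ∧ dist (f x) (f y) ≤ 1 * dist x y + c)
    (c2 : ∀ z, ∃ x, dist (f x) z ≤ c) : False := by
  obtain ⟨e0, r, a0, hr, k⟩ := near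
  obtain ⟨e1, a1, b1⟩ := m1
  choose s hs using c2
  refine noB (fun y => r (s (e1 y))) (32 + 3 * c) fun y y' => ?_
  have := abs_le.1 (k (s (e1 y)) (s (e1 y')))
  have := c1 (s (e1 y)) (s (e1 y'))
  have := abs_le.1 ((dist_dist_dist_le _ _ _ _).trans (add_le_add (hs (e1 y)) (hs (e1 y'))))
  have := abs_le.1 (a1 y y')
  rw [abs_le]; constructor <;> linarith

lemma exQI (M : ℝ) (M1 : 1 < M) : ∃ f : X W0 → X W1, ∃ c : ℝ, 0 ≤ c ∧
    (∀ x y, dist x y / M - c ≤ dist (f x) (f y) ∧ dist (f x) (f y) ≤ M * dist x y + c) ∧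
    ∀ z, ∃ x, dist (f x) z ≤ c := by
  obtain ⟨e0, r, a0, hr, k⟩ := near
  obtain ⟨e1, a1, b1⟩ := m1
  obtain ⟨φ, c, c1, c2⟩ := exA M M1
  have c0 := le_abs_self c
  have c3 := abs_nonneg c
  refine ⟨fun x => e1 ((r x).1, φ (r x).2), 24 * M + 2 * |c| + 24, by positivity, fun x y => ?_,
    fun z => ?_⟩
  · have d1 := abs_le.1 (k x y)
    have d2 := abs_le.1 (a1 ((r x).1, φ (r x).2) ((r y).1, φ (r y).2))
    have d3 := c1 (r x) (r y)
    have d4 : dist x y / M ≤ Real.log 3 * dd (r x) (r y) / M + 24 := by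
      rw [div_le_iff₀ (by linarith), add_mul, div_mul_cancel₀ _ (by linarith)]; linarith
    constructor <;> nlinarith
  · obtain ⟨y, d1⟩ := b1 z
    obtain ⟨u, d2⟩ := c2 y
    refine ⟨e0 (y.1, u), ?_⟩
    have d3 := (abs_le.1 (a0 (r (e0 (y.1, u))) (y.1, u))).1
    have d4 := hr (e0 (y.1, u))
    have d5 := (c1 (r (e0 (y.1, u))) (y.1, u)).2
    have d6 := (abs_le.1 (a1 ((r (e0 (y.1, u))).1, φ (r (e0 (y.1, u))).2) (y.1, φ u))).2
    have d7 := (abs_le.1 (a1 (y.1, φ u) y)).2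
    have d8 := dist_triangle4 (e1 ((r (e0 (y.1, u))).1, φ (r (e0 (y.1, u))).2)) (e1 (y.1, φ u))
      (e1 y) z
    nlinarith

lemma G_fg : Group.FG G := (Group.fg_iff_subgroup_fg G).2
  ((Subgroup.fg_iff G).2 ⟨_, rfl, Set.finite_range _⟩)

end Pool.Agent.Lib.helper12.TreeQ
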