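import Mathlib

set_option autoImplicit false

open Filter Set

namespace Pool.Agent.Lib.helper12.UExp

/-- `E₁(p,q)`: `A` belongs to it iff `{n | {m | n ^ m ∈ A} ∈ q} ∈ p`. -/
noncomputable def E1 (p q : Ultrafilter ℕ+) : Ultrafilter ℕ+ :=
  p.bind fun n => q.map fun m => n ^ (m : ℕ)

/-- `E₂(p,q)`: `A` belongs to it iff `{n | {m | m ^ n ∈ A} ∈ q} ∈ p`. -/
noncomputable def E2 (p q : Ultrafilter ℕ+) : Ultrafilter ℕ+ :=
  p.bind fun n => q.map fun m => m ^ (n : ℕ)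

lemma mem_E1 (p q : Ultrafilter ℕ+) (A : Set ℕ+) :
    A ∈ E1 p q ↔ {n | {m : ℕ+ | n ^ (m : ℕ) ∈ A} ∈ q} ∈ p := Iff.rfl

lemma mem_E2 (p q : Ultrafilter ℕ+) (A : Set ℕ+) :
    A ∈ E2 p q ↔ {n : ℕ+ | {m | m ^ (n : ℕ) ∈ A} ∈ q} ∈ p := Iff.rfl

def B : ℕ → ℕ
  | 0 => 3
  | 1 => 5
  | k + 2 => 2 ^ B k

lemma B_ge : ∀ k, 3 ≤ B k
  | 0 => le_rfl
  | 1 => by simp [B]
  | k + 2 => le_trans (by norm_num) (Nat.pow_le_pow_right two_pos (B_ge k))

lemma B_step {k j : ℕ} (h : B k + j ≤ B (k + 1)) : B (k + 2) * 2 ^ j ≤ B (k + 3) := by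
  have := Nat.pow_le_pow_right two_pos h
  rwa [pow_add] at this

lemma B_gap : ∀ k, B k + (k + 1) ≤ B (k + 1)
  | 0 => by simp [B]
  | 1 => by simp [B]
  | k + 2 => by
    have h1 := B_step (B_gap k)
    have h2 : k + 1 < 2 ^ (k + 1) := Nat.lt_two_pow_self
    have h3 := B_ge (k + 2)
    change _ ≤ B (k + 3)
    nlinarith

lemma B_mono : StrictMono B := strictMono_nat_of_lt_succ fun k => by have := B_gap k; omega

lemma B_pow (k n : ℕ) (h : n ≤ k) : B (k + 4) ^ n ≤ B (k + 5) := by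
  have h1 := B_step (B_gap k)
  have h2 : k + 1 < 2 ^ (k + 1) := Nat.lt_two_pow_self
  change (2 ^ B (k + 2)) ^ n ≤ 2 ^ B (k + 3)
  rw [← pow_mul]
  exact Nat.pow_le_pow_right two_pos (le_trans (Nat.mul_le_mul_left _ (by omega)) h1)

def lev (x : ℕ) : ℕ := Nat.find (⟨x + 1, B_mono.id_le _⟩ : ∃ k, x < B k)

lemma lev_le {x k : ℕ} : lev x ≤ k ↔ x < B k :=
  ⟨fun h => (Nat.find_spec (⟨x + 1, B_mono.id_le _⟩ : ∃ k, x < B k)).trans_le (B_mono.monotone h),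
    fun h => Nat.find_min' _ h⟩

lemma lev_mono {x y : ℕ} (h : x ≤ y) : lev x ≤ lev y := lev_le.2 (h.trans_lt (lev_le.1 le_rfl))

lemma lev_pow {x n : ℕ} (hn : 0 < n) (h : B (n + 4) ≤ x) : lev (x ^ n) ≤ lev x + 1 := by
  have h1 : n + 4 < lev x := not_le.1 fun c => (lev_le.1 c).not_ge h
  obtain ⟨k, hk⟩ : ∃ k, lev x = k + 4 := ⟨lev x - 4, by omega⟩
  rw [hk, lev_le]
  exact (Nat.pow_lt_pow_left (lev_le.1 hk.le) hn.ne').trans_le (B_pow k n (by omega))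

lemma lev_two {m : ℕ} (h : B 0 ≤ m) : lev (2 ^ m) = lev m + 2 := by
  have h1 : 0 < lev m := not_le.1 fun c => (lev_le.1 c).not_ge h
  obtain ⟨k, hk⟩ : ∃ k, lev m = k + 1 := ⟨lev m - 1, by omega⟩
  refine le_antisymm (lev_le.2 (Nat.pow_lt_pow_right one_lt_two (lev_le.1 le_rfl))) ?_
  have : ¬ lev (2 ^ m) ≤ k + 2 := fun c => by
    have := lev_le.2 ((Nat.pow_lt_pow_iff_right one_lt_two).1 (lev_le.1 c))
    omega
  omega

lemma large {q : Ultrafilter ℕ+} (hq : ∀ n, q ≠ pure n) (K : ℕ) : {m : ℕ+ | K ≤ m} ∈ q := by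
  have h : (q : Filter ℕ+) ≤ cofinite :=
    q.le_cofinite_or_eq_pure.resolve_right fun ⟨n, h⟩ => hq n h
  refine h (Finite.subset ((finite_Iio K).preimage PNat.coe_injective.injOn) fun m hm => ?_)
  simpa using hm

theorem ne (p q : Ultrafilter ℕ+) (hp : ∀ n, p ≠ pure n) (hq : ∀ n, q ≠ pure n) :
    E1 p q ≠ E2 p q := by
  intro h
  obtain ⟨j, hj⟩ : ∃ j : Fin 4, {m : ℕ+ | lev m % 4 = j} ∈ q := by
    obtain ⟨j, e⟩ := Ultrafilter.eq_pure_of_finite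
      (q.map fun m : ℕ+ => (⟨lev m % 4, Nat.mod_lt _ four_pos⟩ : Fin 4))
    refine ⟨j, ?_⟩
    have : {j} ∈ q.map fun m : ℕ+ => (⟨lev m % 4, Nat.mod_lt _ four_pos⟩ : Fin 4) := by
      rw [e]; rfl
    simpa [Fin.ext_iff, preimage] using this
  have h2 : {x : ℕ+ | (lev x + 4 - j) % 4 < 2} ∈ E2 p q := by
    refine (mem_E2 _ _ _).2 (univ_mem' fun n => ?_)
    filter_upwards [hj, large hq (B (n + 4))] with m h1 h2
    have a := lev_pow n.pos h2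
    have b := lev_mono (Nat.le_self_pow n.pos.ne' m)
    simp only [mem_ofPred_eq, PNat.pow_coe]
    omega
  have h1 : {x : ℕ+ | (lev x + 4 - j) % 4 < 2}ᶜ ∈ E1 p q := by
    refine (mem_E1 _ _ _).2 (mem_of_superset (large hp 2) fun n hn => ?_)
    filter_upwards [hj, large hq (B (n + 4))] with m h1 h2
    have a := lev_pow n.pos (h2.trans (Nat.lt_two_pow_self (n := m)).le)
    have b := lev_two ((B_mono.monotone (Nat.zero_le _)).trans h2)
    have c := lev_mono (Nat.pow_le_pow_left hn m)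
    have d : lev ((n : ℕ) ^ (m : ℕ)) ≤ lev ((2 ^ (m : ℕ)) ^ (n : ℕ)) := lev_mono (by
      rw [← pow_mul, mul_comm, pow_mul]
      exact Nat.pow_le_pow_left Nat.lt_two_pow_self.le _)
    simp only [mem_compl_iff, mem_ofPred_eq, PNat.pow_coe]
    omega
  exact Ultrafilter.compl_mem_iff_notMem.1 (h ▸ h1) h2

end Pool.Agent.Lib.helper12.UExp
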